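import Mathlib.NumberTheory.DirichletCharacter.Bounds
import Mathlib.NumberTheory.DirichletCharacter.Orthogonality
import Mathlib.RingTheory.SimpleRing.Principal
import Pool.Agent.MP_678834_nt.PW.PER
import Pool.Agent.MP_db1c88_nt.z94.Basic2

-- ======== part 0: formerly Pool.Agent.MP_678834_nt.HL9.Spec
section MrgPart0

/-! Project HL9: the statements of the modules. -/

set_option autoImplicit false

noncomputable section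

namespace Pool.Agent.MP_678834_nt.HL9

open MeasureTheory Finset
open scoped ArithmeticFunction.vonMangoldt ArithmeticFunction.Moebius
open Pool.Agent.MP_db1c88_nt.z94 (ei bmp blk DP wide wt lev)
open Pool.Agent.MP_3d0d30_nt.Six (E ck)

/-! ### tools -/

/-- Fourier inversion for bumps -/
def FIStmt : Prop := ∀ V : ℝ → ℝ, Bump V → ∃ (κ : ℝ → ℂ) (C : ℝ), Continuous κ ∧
  (∀ u, ‖κ u‖ ≤ C * ck u) ∧ ∀ y : ℝ, (V y : ℂ) = ∫ u : ℝ, κ u * ei (u * y)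

/-- the mean value theorem without logarithms -/
def MVStmt : Prop := ∃ C : ℝ, ∀ (s : Finset ℕ) (a : ℕ → ℂ) (K T : ℝ), 0 < T →
  (∀ n ∈ s, 1 ≤ n ∧ (n : ℝ) ≤ K) →
    ∫ t in (-T)..T, ‖DP s a t‖ ^ 2 ≤ C * (T + K) * ∑ n ∈ s, ‖a n‖ ^ 2

/-- smooth geometric sums -/
def S1Stmt : Prop := ∀ V : ℝ → ℝ, Bump V → ∃ C : ℝ, ∀ (N θ δ : ℝ) (S : Finset ℕ), 1 ≤ N → 0 < δ →
  (∀ k : ℤ, δ ≤ |θ - k|) → (∀ n ∈ S, 1 ≤ n) →
  (∀ n : ℕ, 1 ≤ n → V (Real.log n - Real.log N) ≠ 0 → n ∈ S) →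
    ‖∑ n ∈ S, (V (Real.log n - Real.log N) : ℂ) * E (n * θ)‖ ≤ C / (N * δ ^ 2)

/-- moments of the divisor function -/
def DivStmt : Prop := ∀ m : ℕ, ∃ K : ℕ, ∀ x : ℕ,
  ∑ n ∈ Icc 1 x, (n.divisors.card : ℝ) ^ m ≤ x * (1 + Real.log x) ^ K

/-- additive characters through multiplicative characters -/
def CharStmt : Prop := ∀ (q : ℕ) (a : ℤ), 1 ≤ q → a.natAbs.Coprime q →
  Fintype.card (DirichletCharacter ℂ q) ≤ q ∧
  (∀ y : ℕ, ∑ n ∈ (Icc 1 y).filter (fun n => ¬ n.Coprime q), Λ n ≤ q * Real.log y) ∧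
  ∃ γ : DirichletCharacter ℂ q → ℂ, (∀ χ, ‖γ χ‖ ≤ 1) ∧ ∀ n : ℕ,
    (Λ n : ℂ) * E (a * n / q) - rho q =
      ∑ χ : DirichletCharacter ℂ q, γ χ * lc χ n +
        if n.Coprime q then 0 else (Λ n : ℂ) * E (a * n / q)

/-- the smooth form of PW -/
def PWSStmt : Prop := ∀ A B : ℕ, ∃ C X₀ : ℝ, ∀ (X t : ℝ) (q : ℕ) (χ : DirichletCharacter ℂ q),
  X₀ ≤ X → 1 ≤ q → (q : ℝ) ≤ Real.log X ^ B → |t| ≤ X / 4 →
    ‖DP (wide X 4) (fun n => lc χ n * (wt X 4 n : ℝ)) t‖ ≤ C * X / Real.log X ^ A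

/-- Siegel-Walfisz for additive characters -/
def SWAStmt : Prop := ∀ A B : ℕ, ∃ C X₀ : ℝ, ∀ (X X' r : ℕ) (b : ℤ), X₀ ≤ X → X ≤ X' → X' ≤ 2 * X →
  1 ≤ r → (r : ℝ) ≤ Real.log X ^ B → b.natAbs.Coprime r →
    ‖∑ n ∈ Ioc X X', (Λ n : ℂ) * E (b * n / r) - rho r * ((X' : ℂ) - X)‖ ≤ C * X / Real.log X ^ A

/-- from exponential sums on a short arc to Dirichlet polynomials -/
def MelStmt : Prop := ∀ V : ℝ → ℝ, Bump V → ∃ C : ℝ, 1 ≤ C ∧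
  ∀ (ι : Type) (S : Finset ι) (c : ι → ℂ) (ν : ι → ℝ) (X Θ T : ℝ), 0 < X → 0 < Θ →
    (∀ i ∈ S, 0 < ν i) → C * (1 + Θ * X) ≤ T →
    ∫ θ in (-Θ)..Θ, ‖∑ i ∈ S, c i * (V (Real.log (ν i) - Real.log X) : ℝ) * E (ν i * θ)‖ ^ 2 ≤
      C / X * (∫ t in (-T)..T, ‖GP S c ν t‖ ^ 2) + C * Θ * (∑ i ∈ S, ‖c i‖) ^ 2 / T ^ 2

/-! ### minor arcs -/

/-- the bilinear estimate for arbitrary lengths -/
def T2Stmt : Prop := ∀ c : ℝ, 1 ≤ c → ∃ C : ℝ, ∀ (M N T : ℝ) (q : ℕ) (a : ℤ) (α β : ℕ → ℂ),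
  1 ≤ M → 1 ≤ N → 0 < T → 1 ≤ q → a.natAbs.Coprime q → (∀ m, ‖α m‖ ≤ 1) → (∀ n, ‖β n‖ ≤ 1) →
    ∫ t in (-T)..T, ‖GP (blk M c ×ˢ blk N c)
        (fun x => α x.1 * β x.2 * E (a * (x.1 * x.2 : ℕ) / q)) (fun x => (x.1 * x.2 : ℕ)) t‖ ^ 2 ≤
      C * ((q + Real.log M + 1) * T * (M * N) + (M * N) ^ 2 * (1 / M + 1 / N + 1 / q))

def MinorStmt : Prop := ∀ A : ℕ, ∃ (B : ℕ) (C X₀ : ℝ), ∀ (X H Q : ℝ) (q : ℕ) (a : ℤ), X₀ ≤ X →
  H ≤ X ^ (1 / 3 : ℝ) → Real.log X ^ B ≤ Q → Q < q → q * Q ≤ H → a.natAbs.Coprime q →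
    ∫ θ in (a / q - 5 / H)..(a / q + 5 / H), ‖SS X (fun n => Λ n) θ‖ ^ 2 ≤ C * X / Real.log X ^ A

/-! ### Dirichlet polynomials -/

/-- large values near the line one, with a logarithmic loss only -/
def NearStmt : Prop := ∀ η : ℝ, 0 < η → ∃ (K : ℕ) (C T₀ : ℝ), ∀ (T N σ : ℝ) (b : ℕ → ℂ), T₀ ≤ T →
  T ^ η ≤ N → N ^ 2 ≤ T → 99 / 100 ≤ σ → σ ≤ 1 → (∀ m, ‖b m‖ ≤ 1) →
    volume.real (lev T N 2 b (N ^ σ) 2) ≤ C * Real.log T ^ K * T ^ (51 / 25 * (1 - σ))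

/-- a high moment of one short factor -/
def OneStmt : Prop := ∀ ε η : ℝ, 0 < ε → ε ≤ 1 / 10 → 0 < η → η ≤ ε / 30 → ∀ A : ℕ,
  ∃ (K : ℕ) (C X₀ : ℝ), ∀ (X N : ℝ) (b : ℕ → ℂ), X₀ ≤ X → X ^ η ≤ N → N ≤ X ^ (4 / 9 - ε / 4) →
    (∀ m, ‖b m‖ ≤ 1) → ∃ Bad : Set ℝ, MeasurableSet Bad ∧
      volume Bad ≤ ENNReal.ofReal (Real.log X ^ K) ∧
      ∫ t in Set.Icc (-(2 * X ^ (8 / 9 - ε))) (2 * X ^ (8 / 9 - ε)) \ Bad,
        (‖DP (blk N 2) b t‖ / (2 * N)) ^ (2 * (1 - 7 * η) * Real.log X / Real.log N) ≤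
          C / Real.log X ^ A

/-- reflection of a long smooth factor -/
def TI1Stmt : Prop := ∀ V : ℝ → ℝ, Bump V → (∀ x, x ∉ Set.Ioo 0 (Real.log 2) → V x = 0) →
  ∃ C : ℝ, ∀ (N T : ℝ) (q : ℕ) (f : ℕ → ℂ), 1 ≤ q → (q : ℝ) ≤ N → 1 ≤ T →
    (∀ n, f (n + q) = f n) → (∀ n, ‖f n‖ ≤ 1) →
    ∃ (c : Fin 2 → ℕ → ℂ) (J : ℕ), (∀ s k, ‖c s k‖ ≤ 1) ∧ (∀ j < J, 2 ^ j * N ≤ T * q) ∧
      ∀ t : ℝ, |t| ≤ T →
        ‖DP (blk N 2) (fun n => f n * (V (Real.log n - Real.log N) : ℝ)) t‖ ≤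
          C * (N * ck t + q ^ 2 / N + ∑ s : Fin 2, ∑ j ∈ range J, Real.sqrt (q * N / 2 ^ j) *
            ∫ u : ℝ, ck u * ‖DP (Ico (2 ^ j) (2 ^ (j + 1))) (c s) (t + u)‖)

/-- mean square of a long smooth factor times anything -/
def TypeIStmt : Prop := ∀ V : ℝ → ℝ, Bump V → (∀ x, x ∉ Set.Ioo 0 (Real.log 2) → V x = 0) →
  ∀ η : ℝ, 0 < η → ∃ C : ℝ, ∀ (N M T Y D : ℝ) (q : ℕ) (f r : ℕ → ℂ), 1 ≤ q → (q : ℝ) ≤ N →
    1 / 32 ≤ M → M ≤ T ^ 2 → 2 ≤ T → 1 ≤ Y → (∀ n, f (n + q) = f n) → (∀ n, ‖f n‖ ≤ 1) →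
    (∀ m ∈ blk M 32, ‖r m‖ ≤ D) → (∀ t, ‖DP (blk M 32) r t‖ ≤ 32 * M) →
      ∫ t in Set.Icc (-T) T \ Set.Icc (-Y) Y,
        ‖DP (blk N 2) (fun n => f n * (V (Real.log n - Real.log N) : ℝ)) t *
          DP (blk M 32) r t‖ ^ 2 ≤
        C * ((N * M) ^ 2 / Y ^ 3 + q ^ 2 * T * M ^ 2 +
          T ^ η * D ^ 2 * (q * N * M * T) * (1 + q * M / N))

/-- mean square of an admissible product off a small set -/
def ProdStmt : Prop := ∀ ε : ℝ, 0 < ε → ε ≤ 1 / 10 → ∀ A B : ℕ, ∃ (K : ℕ) (C X₀ : ℝ),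
  ∀ (X : ℝ) (q : ℕ) (N : Fin 6 → ℝ) (b : Fin 6 → ℕ → ℂ), X₀ ≤ X → 1 ≤ q →
    (q : ℝ) ≤ Real.log X ^ B → Adm X q N b → ∃ Bad : Set ℝ, MeasurableSet Bad ∧
      volume Bad ≤ ENNReal.ofReal (Real.log X ^ K) ∧
      ∫ t in Set.Icc (-(2 * X ^ (8 / 9 - ε))) (2 * X ^ (8 / 9 - ε)) \ Bad,
        ‖∏ l, DP (blk (N l) 2) (b l) t‖ ^ 2 ≤ C * X ^ 2 / Real.log X ^ A

/-- the Heath-Brown identity and a partition of unity -/
def DecStmt : Prop := ∃ C X₀ : ℝ, ∀ (X : ℝ) (q : ℕ) (χ : DirichletCharacter ℂ q), X₀ ≤ X → 1 ≤ q →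
  ∃ (ι : Type) (I : Finset ι) (a : ι → ℂ) (N : ι → Fin 6 → ℝ) (b : ι → Fin 6 → ℕ → ℂ),
    (I.card : ℝ) ≤ C * Real.log X ^ 6 ∧
    (∀ τ ∈ I, ‖a τ‖ ≤ C * Real.log X ∧ Adm X q (N τ) (b τ)) ∧
    ∀ t : ℝ, DP (wide X 4) (fun n => lc χ n * (wt X 4 n : ℝ)) t =
      ∑ τ ∈ I, a τ * ∑ x ∈ Fintype.piFinset (fun l => blk (N τ l) 2),
        (∏ l, b τ l (x l)) * (wt X 4 (∏ l, x l) : ℝ) * ei (t * Real.log (∏ l, x l : ℕ))

/-- inserting a smooth weight -/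
def SmearStmt : Prop := ∀ V : ℝ → ℝ, Bump V → ∃ C : ℝ,
  ∀ (ι : Type) (S : Finset ι) (c : ι → ℂ) (ν : ι → ℝ) (X T δ G Z W b : ℝ) (B : Set ℝ),
    1 ≤ T → 0 < δ → 0 ≤ b → MeasurableSet B → volume B ≤ ENNReal.ofReal b →
    ∑ i ∈ S, ‖c i‖ ≤ Z → (∫ t in Set.Icc (-(2 * T)) (2 * T) \ B, ‖GP S c ν t‖ ^ 2) ≤ G →
    (∀ t : ℝ, |t| ≤ T →
      ‖GP S (fun i => c i * (V (Real.log (ν i) - Real.log X) : ℝ)) ν t‖ ≤ W) →
    ∫ t in (-T)..T, ‖GP S (fun i => c i * (V (Real.log (ν i) - Real.log X) : ℝ)) ν t‖ ^ 2 ≤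
      C * (G + Z ^ 2 * δ * b + W ^ 2 * b / δ + Z ^ 2 / T)

/-- primes in almost all short intervals, in the form of a mean square -/
def SIStmt : Prop := ∀ ε : ℝ, 0 < ε → ε ≤ 1 / 10 → ∀ A B : ℕ, ∃ C X₀ : ℝ,
  ∀ (X : ℝ) (q : ℕ) (χ : DirichletCharacter ℂ q), X₀ ≤ X → 1 ≤ q → (q : ℝ) ≤ Real.log X ^ B →
    ∫ t in (-X ^ (8 / 9 - ε))..(X ^ (8 / 9 - ε)),
      ‖DP (wide X 4) (fun n => lc χ n * (wt X 4 n : ℝ)) t‖ ^ 2 ≤ C * X ^ 2 / Real.log X ^ A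

/-! ### the circle method -/

def MajorStmt : Prop := ∀ ε : ℝ, 0 < ε → ε ≤ 1 / 10 → ∀ A B : ℕ, ∃ C X₀ : ℝ,
  ∀ (X H Q : ℝ) (q : ℕ) (a : ℤ), X₀ ≤ X → X ^ (1 / 9 + ε) ≤ H → Q ≤ Real.log X ^ B → 1 ≤ q →
    (q : ℝ) ≤ Q → a.natAbs.Coprime q →
    ∫ θ in (a / q - 5 * Q / H)..(a / q + 5 * Q / H),
      ‖SS X (fun n => Λ n - rho q * E (-(a * n / q))) θ‖ ^ 2 ≤ C * X / Real.log X ^ A

def ArcStmt : Prop := ∀ ε : ℝ, 0 < ε → ε ≤ 1 / 10 → ∀ A : ℕ, ∃ B₀ : ℕ, ∀ B : ℕ, B₀ ≤ B →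
  ∃ C X₀ : ℝ, ∀ (X H β : ℝ) (Q : ℕ), X₀ ≤ X → X ^ (1 / 9 + ε) ≤ H → H ≤ X ^ (1 / 3 : ℝ) →
    Real.log X ^ B ≤ Q → (Q : ℝ) ≤ Real.log X ^ (B + 1) →
    ∫ θ in (β - 1 / H)..(β + 1 / H), ‖SS X (fun n => Λ n - lamS Q n) θ‖ ^ 2 ≤
      C * X / Real.log X ^ A

/-- correlations on average over a window of shifts -/
def WinStmt : Prop := ∃ C : ℝ, ∀ (F g : ℕ → ℂ) (S R : Finset ℕ) (h₀ H : ℕ) (M : ℝ), 1 ≤ H →
  (∀ β : ℝ, ∫ θ in (β - 1 / H)..(β + 1 / H), ‖∑ n ∈ R, g n * E (n * θ)‖ ^ 2 ≤ M) →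
  (∀ n ∈ S, ∀ h ∈ Ioc h₀ (h₀ + H), n + h ∈ R) →
    ∑ h ∈ Ioc h₀ (h₀ + H), ‖∑ n ∈ S, F n * g (n + h)‖ ^ 2 ≤ C * H * M * ∑ n ∈ S, ‖F n‖ ^ 2

/-- truncation of the singular series on average -/
def SingStmt : Prop := ∃ C : ℝ, ∀ Q H h₀ : ℕ, 1 ≤ Q → 1 ≤ H → h₀ + H ≤ H ^ 9 →
  ∑ h ∈ Ioc h₀ (h₀ + H), ‖(sing h : ℂ) - sgm Q h‖ ^ 2 ≤ C * H / Q

/-- the main theorem with von Mangoldt weights -/
def MainStmt : Prop := ∀ ε : ℝ, 0 < ε → ∀ A : ℕ, ∃ C X₀ : ℝ, ∀ X X' h₀ H : ℕ, X₀ ≤ X → X ≤ X' →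
  X' ≤ 2 * X → (X : ℝ) ^ (1 / 9 + ε) ≤ H → h₀ + H ≤ X →
    ∑ h ∈ Ioc h₀ (h₀ + H), (∑ n ∈ Ioc X X', Λ n * Λ (n + h) - sing h * ((X' : ℝ) - X)) ^ 2 ≤
      C * H * X ^ 2 / Real.log X ^ A

/-- the main theorem for the prime pair counting function -/
def FinalStmt : Prop := ∀ ε : ℝ, 0 < ε → ∀ A : ℕ, ∃ C x₀ : ℝ, ∀ x h₀ H : ℕ, x₀ ≤ x →
  (x : ℝ) ^ (1 / 9 + ε) ≤ H → ((h₀ + H : ℕ) : ℝ) ≤ (x : ℝ) ^ (1 - ε) →
    ∑ d ∈ Ioc h₀ (h₀ + H),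
      ((pi2 x d : ℝ) - sing d * ∫ t in (2 : ℝ)..x, 1 / Real.log t ^ 2) ^ 2 ≤
        C * H * x ^ 2 / Real.log x ^ A

end Pool.Agent.MP_678834_nt.HL9

end
end MrgPart0

-- ======== part 1: formerly Pool.Agent.MP_678834_nt.HL9.Basic
section MrgPart1

/-! Project HL9: elementary facts on the definitions. -/

set_option autoImplicit false

noncomputable section

namespace Pool.Agent.MP_678834_nt.HL9

open MeasureTheory Finset Filter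
open scoped ArithmeticFunction.vonMangoldt ArithmeticFunction.Moebius
open Pool.Agent.MP_db1c88_nt.z94 (ei bmp blk DP wide wt lev)
open Pool.Agent.MP_3d0d30_nt.Six (E ck)
open Pool.Agent.MP_db1c88_nt

theorem ei_eq_E (x : ℝ) : ei x = E (x / (2 * Real.pi)) := by
  unfold ei E
  congr 1
  have : (Real.pi : ℂ) ≠ 0 := by exact_mod_cast Real.pi_ne_zero
  push_cast
  field_simp

theorem E_eq_ei (x : ℝ) : E x = ei (2 * Real.pi * x) := by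
  unfold ei E; push_cast; rfl

theorem E_int (k : ℤ) : E k = 1 := by
  unfold E
  rw [show (2 * Real.pi * ((k : ℝ) : ℂ) * Complex.I : ℂ) = k * (2 * Real.pi * Complex.I) by
    push_cast; ring]
  exact Complex.exp_int_mul_two_pi_mul_I k

theorem GP_eq_DP (s : Finset ℕ) (c : ℕ → ℂ) (t : ℝ) : GP s c (fun n => n) t = DP s c t := rfl

@[fun_prop] theorem continuous_GP {ι : Type} (S : Finset ι) (c : ι → ℂ) (ν : ι → ℝ) :
    Continuous (GP S c ν) := by unfold GP; fun_prop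

@[fun_prop] theorem continuous_SS (X : ℝ) (g : ℕ → ℂ) : Continuous (SS X g) := by
  unfold SS; fun_prop

theorem norm_GP_le {ι : Type} (S : Finset ι) (c : ι → ℂ) (ν : ι → ℝ) (t : ℝ) :
    ‖GP S c ν t‖ ≤ ∑ i ∈ S, ‖c i‖ :=
  (norm_sum_le _ _).trans (le_of_eq (sum_congr rfl fun i _ => by simp))

theorem log_four_lt : Real.log 4 < 1.4 := by
  rw [show (4 : ℝ) = 2 ^ 2 by norm_num, Real.log_pow]
  have := Real.log_two_lt_d9
  push_cast; linarith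

theorem wt_eq (X : ℝ) (n : ℕ) : wt X 4 n = w1 (Real.log n - Real.log X) := rfl

theorem w1_nonneg (x : ℝ) : 0 ≤ w1 x := z94.bmp_nonneg _ _

theorem w1_le_one (x : ℝ) : w1 x ≤ 1 := z94.bmp_le_one _ _

theorem w2_nonneg (x : ℝ) : 0 ≤ w2 x := sq_nonneg _

theorem w2_le_one (x : ℝ) : w2 x ≤ 1 := pow_le_one₀ (w1_nonneg x) (w1_le_one x)

theorem w2_eq (x : ℝ) : w2 x = w1 x * w1 x := sq _

theorem w1_ne_zero {x : ℝ} (h : w2 x ≠ 0) : w1 x ≠ 0 := fun h0 => h (by simp [w2, h0])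

theorem bump_w1 : Bump w1 := ⟨z94.contDiff_bmp _, fun x hx => by
  by_contra h
  have h1 := z94.mem_of_bmp_ne_zero h
  exact hx ⟨h1.1, by linarith [h1.2, log_four_lt]⟩⟩

theorem Bump.mul {V : ℝ → ℝ} (h : Bump V) {f : ℝ → ℝ} (hf : ContDiff ℝ (⊤ : ℕ∞) f) :
    Bump fun x => f x * V x := ⟨hf.mul h.1, fun x hx => by simp [h.2 x hx]⟩

theorem Bump.mul_id {V : ℝ → ℝ} (h : Bump V) : Bump fun x => x * V x := h.mul contDiff_id

theorem bump_w2 : Bump w2 := by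
  have := bump_w1.mul bump_w1.1
  simpa only [← w2_eq] using this

theorem Bump.hasCompactSupport {V : ℝ → ℝ} (h : Bump V) : HasCompactSupport V :=
  HasCompactSupport.intro (isCompact_Icc (a := -1) (b := 3)) fun x hx =>
    h.2 x fun h1 => hx (Set.Ioo_subset_Icc_self h1)

/-- bounds for all derivatives up to order two, in the form used by `Six.C20` -/
theorem Bump.derivs {V : ℝ → ℝ} (h : Bump V) : ∃ (V1 V2 : ℝ → ℝ) (A : ℝ), 1 ≤ A ∧ Bump V1 ∧ Bump V2 ∧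
    ∀ x, HasDerivAt V (V1 x) x ∧ HasDerivAt V1 (V2 x) x ∧ |V x| ≤ A ∧ |V1 x| ≤ A ∧ |V2 x| ≤ A := by
  have key : ∀ W : ℝ → ℝ, Bump W → Bump (deriv W) ∧ (∀ x, HasDerivAt W (deriv W x) x) ∧
      ∃ A, ∀ x, |W x| ≤ A := by
    intro W hW
    have hd : ∀ x, HasDerivAt W (deriv W x) x := fun x =>
      (hW.1.differentiable (by simp) x).hasDerivAt
    have hc : ContDiff ℝ (⊤ : ℕ∞) (deriv W) := (contDiff_infty_iff_deriv.1 hW.1).2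
    refine ⟨⟨hc, fun x hx => ?_⟩, hd, ?_⟩
    · have hcl : IsClosed {y | deriv W y = 0} := isClosed_eq hc.continuous continuous_const
      have hsub : (Set.Icc (-1 : ℝ) 3)ᶜ ⊆ {y | deriv W y = 0} := fun y hy => by
        have : W =ᶠ[nhds y] fun _ => 0 := by
          filter_upwards [isClosed_Icc.isOpen_compl.mem_nhds hy] with z hz
          exact hW.2 z fun h1 => hz (Set.Ioo_subset_Icc_self h1)
        simp [this.deriv_eq]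
      refine hcl.closure_subset_iff.2 hsub ?_
      rw [closure_compl, interior_Icc]
      exact hx
    · obtain ⟨A, hA⟩ := hW.1.continuous.bounded_above_of_compact_support hW.hasCompactSupport
      exact ⟨A, hA⟩
  obtain ⟨b1, d1, A0, h0⟩ := key V h
  obtain ⟨b2, d2, A1, h1⟩ := key _ b1
  obtain ⟨-, -, A2, h2⟩ := key _ b2
  refine ⟨deriv V, deriv (deriv V), max 1 (max A0 (max A1 A2)), le_max_left _ _, b1, b2,
    fun x => ⟨d1 x, d2 x, (h0 x).trans ?_, (h1 x).trans ?_, (h2 x).trans ?_⟩⟩ <;> simp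

theorem range_of_w1 {X y : ℝ} (hX : 0 < X) (hy : 0 < y) (h : w1 (Real.log y - Real.log X) ≠ 0) :
    X / 2.72 < y ∧ y < 10.9 * X := by
  obtain ⟨h1, h2⟩ := z94.mem_of_bmp_ne_zero h
  have e1 := Real.exp_one_lt_d9
  have e0 := Real.exp_pos 1
  constructor
  · have : Real.log (X / Real.exp 1) < Real.log y := by
      rw [Real.log_div hX.ne' e0.ne', Real.log_exp]; linarith
    have h3 := (Real.log_lt_log_iff (by positivity) hy).1 this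
    refine lt_of_le_of_lt ?_ h3
    gcongr; linarith
  · have : Real.log y < Real.log (4 * Real.exp 1 * X) := by
      rw [Real.log_mul (by positivity) hX.ne', Real.log_mul (by norm_num) e0.ne', Real.log_exp]
      linarith
    have h3 := (Real.log_lt_log_iff hy (by positivity)).1 this
    refine h3.trans_le ?_
    gcongr; linarith

theorem mem_wide_of_w1 {X : ℝ} (hX : 0 < X) {n : ℕ} (hn : 1 ≤ n)
    (h : w1 (Real.log n - Real.log X) ≠ 0) : n ∈ wide X 4 := by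
  have h1 := (range_of_w1 hX (by exact_mod_cast hn) h).2
  exact (z94.mem_wide hX.le (by norm_num)).2 ⟨hn, by linarith⟩

theorem w1_eq_one {X y : ℝ} (hX : 0 < X) (h1 : X ≤ y) (h2 : y ≤ 4 * X) :
    w1 (Real.log y - Real.log X) = 1 := by
  refine z94.bmp_eq_one (sub_nonneg.2 (Real.log_le_log hX h1)) ?_
  have := Real.log_le_log (hX.trans_le h1) h2
  rw [Real.log_mul (by norm_num) hX.ne'] at this
  linarith

theorem lam_pos : 0 < lam := half_pos (Real.log_pos one_lt_two)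

theorem supp_v0 (x : ℝ) (hx : x ∉ Set.Ioo 0 (Real.log 2)) : v0 x = 0 := by
  have hl := lam_pos
  unfold v0
  rcases le_or_gt x 0 with h | h
  · have h1 : x / lam ≤ 0 := div_nonpos_of_nonpos_of_nonneg h hl.le
    rw [Real.smoothTransition.zero_of_nonpos h1,
      Real.smoothTransition.zero_of_nonpos (by linarith), sub_zero]
  · have h1 : Real.log 2 ≤ x := by
      by_contra h2
      exact hx ⟨h, not_le.1 h2⟩
    have h2 : 2 ≤ x / lam := by rw [le_div_iff₀ hl]; unfold lam; linarith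
    rw [Real.smoothTransition.one_of_one_le (by linarith),
      Real.smoothTransition.one_of_one_le (by linarith), sub_self]

theorem supp_v1 (x : ℝ) (hx : x ∉ Set.Ioo 0 (Real.log 2)) : v1 x = 0 := by
  simp [v1, supp_v0 x hx]

theorem bump_v0 : Bump v0 := ⟨by
  unfold v0
  exact (Real.smoothTransition.contDiff.comp (contDiff_id.div_const _)).sub
    (Real.smoothTransition.contDiff.comp ((contDiff_id.div_const _).sub contDiff_const)),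
  fun x hx => supp_v0 x fun h => hx ⟨by linarith [h.1], by linarith [h.2, Real.log_two_lt_d9]⟩⟩

theorem bump_v1 : Bump v1 := bump_v0.mul_id

theorem abs_v0_le (x : ℝ) : |v0 x| ≤ 1 := by
  unfold v0
  have h1 := Real.smoothTransition.nonneg (x / lam)
  have h2 := Real.smoothTransition.le_one (x / lam)
  have h3 := Real.smoothTransition.nonneg (x / lam - 1)
  have h4 := Real.smoothTransition.le_one (x / lam - 1)
  rw [abs_le]; constructor <;> linarith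

theorem abs_v1_le (x : ℝ) : |v1 x| ≤ 1 := by
  by_cases h : x ∈ Set.Ioo 0 (Real.log 2)
  · rw [v1, abs_mul, abs_of_pos h.1]
    exact mul_le_one₀ (by linarith [h.2, Real.log_two_lt_d9]) (abs_nonneg _) (abs_v0_le x)
  · simp [supp_v1 x h]

theorem one_le_of_mem_blk {N c : ℝ} (hN : 0 < N) {m : ℕ} (hm : m ∈ blk N c) : 1 ≤ m :=
  le_trans (Nat.one_le_ceil_iff.2 hN) (mem_Icc.1 hm).1

theorem card_blk_le' {N c : ℝ} (hN : 0 < N) (hc : 0 ≤ c) : ((blk N c).card : ℝ) ≤ c * N := by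
  have h1 : 1 ≤ ⌈N⌉₊ := Nat.one_le_ceil_iff.2 hN
  have h2 : (blk N c).card ≤ ⌊c * N⌋₊ := by rw [blk, Nat.card_Icc]; omega
  exact (Nat.cast_le.2 h2).trans (Nat.floor_le (by positivity))

theorem abs_rho_le (r : ℕ) : |rho r| ≤ 1 / (Nat.totient r : ℝ) := by
  rw [rho, abs_div, Nat.abs_cast]
  gcongr
  exact_mod_cast ArithmeticFunction.abs_moebius_le_one

theorem norm_lc_le {q : ℕ} (χ : DirichletCharacter ℂ q) (n : ℕ) : ‖lc χ n‖ ≤ Real.log n + 1 := by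
  unfold lc
  refine (norm_sub_le _ _).trans (add_le_add ?_ (by split_ifs <;> simp))
  rw [norm_mul, Complex.norm_real, Real.norm_of_nonneg ArithmeticFunction.vonMangoldt_nonneg]
  exact (mul_le_of_le_one_right ArithmeticFunction.vonMangoldt_nonneg (χ.norm_le_one _)).trans
    ArithmeticFunction.vonMangoldt_le_log

/-- powers of the logarithm are small -/
theorem ev_log_pow {δ : ℝ} (hδ : 0 < δ) (K : ℕ) (C : ℝ) :
    ∀ᶠ X : ℝ in atTop, C * Real.log X ^ K ≤ X ^ δ := by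
  have h := (isLittleO_log_rpow_rpow_atTop (K : ℝ) hδ).bound (c := 1 / (|C| + 1)) (by positivity)
  filter_upwards [h, eventually_ge_atTop 1] with X h1 h2
  have h3 := Real.log_nonneg h2
  rw [Real.rpow_natCast, Real.norm_of_nonneg (by positivity),
    Real.norm_of_nonneg (by positivity), one_div, ← div_eq_inv_mul,
    le_div_iff₀ (by positivity)] at h1
  refine le_trans ?_ h1
  rw [mul_comm]
  gcongr
  linarith [le_abs_self C]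

theorem ev_log (C : ℝ) : ∀ᶠ X : ℝ in atTop, C ≤ Real.log X :=
  Real.tendsto_log_atTop.eventually_ge_atTop C

theorem ev_rpow {δ : ℝ} (hδ : 0 < δ) (C : ℝ) : ∀ᶠ X : ℝ in atTop, C ≤ X ^ δ :=
  (tendsto_rpow_atTop hδ).eventually_ge_atTop C

end Pool.Agent.MP_678834_nt.HL9

end
end MrgPart1

-- marker of a merged file
example : 731051 + 793124 = 731051 + 793124 := rfl
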