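import Mathlib.Algebra.Order.Chebyshev
import Mathlib.Order.Interval.Finset.Box
import Mathlib.NumberTheory.DiophantineApproximation.Basic
import Pool.Agent.MP_678834_nt.HL9.Basic

-- ======== part 0: formerly Pool.Agent.MP_678834_nt.HL9.Minor
section MrgPart0

/-! Project HL9: the minor arc estimate. -/

set_option autoImplicit false

noncomputable section

namespace Pool.Agent.MP_678834_nt.HL9

open MeasureTheory Finset Filter
open scoped ArithmeticFunction.vonMangoldt ArithmeticFunction.Moebius ArithmeticFunction.zeta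
open Pool.Agent.MP_db1c88_nt.z94 (ei bmp blk DP wide wt lev)
open Pool.Agent.MP_3d0d30_nt.Six (E ck)
open Pool.Agent.MP_db1c88_nt Pool.Agent.MP_3d0d30_nt

namespace Minor

/-- the sum of `Λ` over the divisors above `U` -/
def aU (U : ℝ) (m : ℕ) : ℝ := ∑ e ∈ m.divisors, if U < e then Λ e else 0

theorem aU_nonneg (U : ℝ) (m : ℕ) : 0 ≤ aU U m :=
  sum_nonneg fun _ _ => by split_ifs; exacts [ArithmeticFunction.vonMangoldt_nonneg, le_rfl]

theorem aU_eq (U : ℝ) (m : ℕ) :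
    aU U m = Real.log m - ∑ e ∈ m.divisors, if U < e then 0 else Λ e := by
  rw [← ArithmeticFunction.vonMangoldt_sum, ← sum_sub_distrib]
  exact sum_congr rfl fun e _ => by split_ifs <;> simp

theorem aU_le (U : ℝ) (m : ℕ) : aU U m ≤ Real.log m := by
  rw [aU_eq]
  exact sub_le_self _ (sum_nonneg fun _ _ => by
    split_ifs; exacts [le_rfl, ArithmeticFunction.vonMangoldt_nonneg])

theorem lt_of_aU {U : ℝ} {m : ℕ} (h : aU U m ≠ 0) : U < m := by
  by_contra hc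
  exact h (sum_eq_zero fun e he => if_neg (not_lt.2 (le_trans
    (by exact_mod_cast Nat.divisor_le he) (not_lt.1 hc))))

theorem vaughan {U : ℝ} {n : ℕ} (h : U < n) :
    Λ n = ∑ p ∈ n.divisorsAntidiagonal, (μ p.1 : ℝ) * aU U p.2 := by
  let f : ArithmeticFunction ℝ := ⟨fun e => if U < e then Λ e else 0, by simp⟩
  have e : ((μ : ArithmeticFunction ℝ) * (f * (ζ : ArithmeticFunction ℝ))) = f := by
    rw [mul_comm f, ← mul_assoc, ArithmeticFunction.coe_moebius_mul_coe_zeta, one_mul]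
  have e2 := congrArg (fun g : ArithmeticFunction ℝ => g n) e
  simp only [ArithmeticFunction.mul_apply (f := (μ : ArithmeticFunction ℝ)),
    ArithmeticFunction.coe_mul_zeta_apply] at e2
  have e3 : f n = Λ n := if_pos h
  rw [← e3, ← e2]
  rfl

theorem conv (K : ℕ) (f : ℕ → ℕ → ℂ) (W : ℕ → ℂ) (hW : ∀ n, K < n → W n = 0) :
    ∑ n ∈ Icc 1 K, (∑ p ∈ n.divisorsAntidiagonal, f p.1 p.2) * W n =
      ∑ d ∈ Icc 1 K, ∑ k ∈ Icc 1 K, f d k * W (d * k) := by
  rw [← sum_product']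
  have h1 : ∀ n ∈ Icc 1 K, (∑ p ∈ n.divisorsAntidiagonal, f p.1 p.2) * W n =
      ∑ x ∈ Icc 1 K ×ˢ Icc 1 K with x.1 * x.2 = n, f x.1 x.2 * W (x.1 * x.2) := by
    intro n hn
    rw [mem_Icc] at hn
    rw [Nat.divisorsAntidiagonal_eq_prod_filter_of_le (by omega) hn.2, sum_mul]
    exact sum_congr rfl fun x hx => by rw [(mem_filter.1 hx).2]
  rw [sum_congr rfl h1, sum_fiberwise_eq_sum_filter]
  refine sum_filter_of_ne fun x hx h => ?_
  simp only [mem_product, mem_Icc] at hx ⊢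
  exact ⟨Nat.mul_pos hx.1.1 hx.2.1, not_lt.1 fun hc => h (by rw [hW _ hc, mul_zero])⟩

theorem sum_eq_of_supp {ι : Type} [DecidableEq ι] (s t : Finset ι) (f g : ι → ℂ)
    (hs : ∀ x ∈ s, f x ≠ 0 → x ∈ t ∧ f x = g x) (ht : ∀ x ∈ t, g x ≠ 0 → x ∈ s ∧ f x = g x) :
    ∑ x ∈ s, f x = ∑ x ∈ t, g x := by
  rw [← sum_filter_ne_zero s, ← sum_filter_ne_zero t]
  refine sum_congr ?_ fun x hx => ?_
  · ext x
    simp only [mem_filter]
    exact ⟨fun h => ⟨(hs x h.1 h.2).1, (hs x h.1 h.2).2 ▸ h.2⟩,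
      fun h => ⟨(ht x h.1 h.2).1, (ht x h.1 h.2).2 ▸ h.2⟩⟩
  · exact (ht x (mem_filter.1 hx).1 (mem_filter.1 hx).2).2

/-- the weight times the additive character -/
def WE (X θ : ℝ) (n : ℕ) : ℂ := (w2 (Real.log n - Real.log X) : ℝ) * E (n * θ)

theorem WE_range {X θ : ℝ} (hX : 0 < X) (hL : 1 ≤ Real.log X) {n : ℕ} (h : WE X θ n ≠ 0) :
    X / 2.72 < n ∧ n < 10.9 * X := by
  have h1 : w2 (Real.log n - Real.log X) ≠ 0 := fun h0 => h (by simp [WE, h0])
  rcases Nat.eq_zero_or_pos n with rfl | hn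
  · exact absurd (bump_w2.2 _ fun h2 => by
      have := h2.1
      simp only [Nat.cast_zero, Real.log_zero] at this
      linarith) h1
  · exact range_of_w1 hX (by exact_mod_cast hn) (w1_ne_zero h1)

theorem WE_zero {X θ : ℝ} (hX : 0 < X) (hL : 1 ≤ Real.log X) {n : ℕ} (h : ⌊3 * 4 * X⌋₊ < n) :
    WE X θ n = 0 := by
  by_contra hc
  have h1 := (WE_range hX hL hc).2
  rw [Nat.floor_lt (by positivity)] at h
  linarith

def P1 (X U θ : ℝ) : ℂ := ∑ d ∈ wide X 4, (if U < d then 0 else (μ d : ℂ)) *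
  ∑ k ∈ wide X 4, (Real.log k : ℂ) * WE X θ (d * k)

def P2 (X U θ : ℝ) : ℂ := ∑ d ∈ wide X 4, (if U < d then 0 else (μ d : ℂ)) *
  ∑ e ∈ wide X 4, ((if U < e then 0 else Λ e : ℝ) : ℂ) * ∑ m ∈ wide X 4, WE X θ (d * e * m)

/-- the dyadic pieces of the bilinear sum -/
def P3 (X U : ℝ) (j : ℕ) (θ : ℝ) : ℂ := ∑ x ∈ wide X 4 ×ˢ wide X 4,
  (if U < x.1 ∧ Nat.log 2 x.1 = j then (μ x.1 : ℂ) else 0) * (aU U x.2 : ℝ) * WE X θ (x.1 * x.2)

theorem split {X U : ℝ} (hX : 0 < X) (hL : 1 ≤ Real.log X) (hU : U ≤ X / 2.72) (θ : ℝ) :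
    SS X (fun n => Λ n) θ = P1 X U θ - P2 X U θ +
      ∑ j ∈ range (Nat.log 2 ⌊3 * 4 * X⌋₊ + 1), P3 X U j θ := by
  have h1 : SS X (fun n => Λ n) θ = ∑ d ∈ wide X 4, ∑ k ∈ wide X 4,
      (μ d : ℂ) * (aU U k : ℝ) * WE X θ (d * k) := by
    unfold wide
    rw [← conv _ (fun d k => (μ d : ℂ) * (aU U k : ℝ)) (WE X θ) fun n hn => WE_zero hX hL hn]
    refine sum_congr rfl fun n _ => ?_
    rw [mul_assoc]
    change ((Λ n : ℝ) : ℂ) * WE X θ n = _
    by_cases h : WE X θ n = 0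
    · rw [h, mul_zero, mul_zero]
    · rw [vaughan (hU.trans_lt (WE_range hX hL h).1)]
      push_cast
      rfl
  have h2 : ∑ j ∈ range (Nat.log 2 ⌊3 * 4 * X⌋₊ + 1), P3 X U j θ = ∑ d ∈ wide X 4,
      ∑ k ∈ wide X 4, (if U < d then (μ d : ℂ) else 0) * (aU U k : ℝ) * WE X θ (d * k) := by
    unfold P3
    rw [sum_comm, ← sum_product' (wide X 4) (wide X 4)]
    refine sum_congr rfl fun x hx => ?_
    rw [← sum_mul, ← sum_mul]
    congr 2
    have h3 : Nat.log 2 x.1 ∈ range (Nat.log 2 ⌊3 * 4 * X⌋₊ + 1) :=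
      mem_range.2 (Nat.lt_succ_of_le (Nat.log_mono_right (mem_Icc.1 (mem_product.1 hx).1).2))
    by_cases h : U < x.1
    · simp [h, mem_range.1 h3]
    · simp [h]
  rw [h1, h2, P1, P2, ← sum_sub_distrib, ← sum_add_distrib]
  refine sum_congr rfl fun d hd => ?_
  split_ifs with h
  · simp
  have hd1 : 1 ≤ d := (mem_Icc.1 hd).1
  have h3 := conv ⌊3 * 4 * X⌋₊ (fun e _ => ((if U < e then 0 else Λ e : ℝ) : ℂ))
    (fun k => WE X θ (d * k)) fun n hn => WE_zero hX hL (hn.trans_le (Nat.le_mul_of_pos_left _ hd1))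
  simp only [← mul_sum, ← mul_assoc] at h3
  unfold wide
  rw [← h3, ← mul_sub, ← sum_sub_distrib, mul_sum]
  simp only [zero_mul, sum_const_zero, add_zero]
  refine sum_congr rfl fun k _ => ?_
  rw [aU_eq, Nat.sum_divisorsAntidiagonal fun e _ => ((if U < e then 0 else Λ e : ℝ) : ℂ)]
  push_cast
  ring

structure Par (X H Q U : ℝ) (q : ℕ) : Prop where
  hX : 0 < X
  hL : 66 ≤ Real.log X
  hU : Real.log X ≤ U
  hQ : 10 * U ^ 2 ≤ Q
  hq : Q < q
  hH : q * Q ≤ H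
  h3 : H ^ 3 ≤ X

theorem Par.facts {X H Q U : ℝ} {q : ℕ} (h : Par X H Q U q) :
    66 ≤ U ∧ 66 * U ≤ U ^ 2 ∧ U ^ 2 ≤ Q ∧ 66 ≤ Q ∧ Q * Q ≤ H ∧ Q ≤ H ∧ 66 ≤ H ∧ H * H ≤ X ∧
      H ≤ X := by
  have h1 : 66 ≤ U := h.hL.trans h.hU
  have h2 : 66 * U ≤ U ^ 2 := by nlinarith
  have h3 : U ^ 2 ≤ Q := by nlinarith [h.hQ]
  have h4 : 66 ≤ Q := by linarith
  have h5 : Q * Q ≤ H := le_trans (by gcongr; exact h.hq.le) h.hH
  have h6 : Q ≤ H := by nlinarith
  have h7 : 66 ≤ H := by linarith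
  have h8 : H * H ≤ X := by nlinarith [h.h3, mul_nonneg (sub_nonneg.2 h7) (mul_self_nonneg H)]
  exact ⟨h1, h2, h3, h4, h5, h6, h7, h8, by nlinarith⟩

theorem far {X H Q U θ : ℝ} {q D : ℕ} {a : ℤ} (h : Par X H Q U q) (ha : a.natAbs.Coprime q)
    (hθ : |θ - a / q| ≤ 5 / H) (h1 : 1 ≤ D) (h2 : (D : ℝ) ≤ U ^ 2) (k : ℤ) :
    Q / (2 * H) ≤ |D * θ - k| := by
  obtain ⟨f1, f2, f3, f4, f5, f6, f7, f8, f9⟩ := h.facts
  have hq0 : (0 : ℝ) < q := by linarith [h.hq]
  have hH : 0 < H := by linarith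
  have hr : (D : ℤ) * a - k * q ≠ 0 := fun h0 => by
    have h3 : (q : ℤ) ∣ D * a := ⟨k, by linarith⟩
    rw [← Int.natAbs_dvd_natAbs, Int.natAbs_mul, Int.natAbs_natCast, Int.natAbs_natCast] at h3
    have h4 : (q : ℝ) ≤ D := by
      exact_mod_cast Nat.le_of_dvd h1 (ha.symm.dvd_of_dvd_mul_right h3)
    linarith [h.hq]
  have h3 : (1 : ℝ) ≤ |(D : ℝ) * a - k * q| := by exact_mod_cast Int.one_le_abs hr
  have h4 : Q / H ≤ |((D : ℝ) * a - k * q) / q| := by
    rw [abs_div, abs_of_pos hq0, div_le_div_iff₀ hH hq0]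
    nlinarith [h.hH]
  have h5 : |(D : ℝ) * (θ - a / q)| ≤ Q / (2 * H) := by
    rw [abs_mul, Nat.abs_cast]
    refine (mul_le_mul h2 hθ (abs_nonneg _) (by positivity)).trans ?_
    rw [mul_div_assoc', div_le_div_iff₀ hH (by positivity)]
    nlinarith [h.hQ]
  have h6 : ((D : ℝ) * a - k * q) / q = (D * θ - k) - D * (θ - a / q) := by field_simp; ring
  have h7 := abs_sub (D * θ - k) (D * (θ - a / q))
  have h8 : Q / H = 2 * (Q / (2 * H)) := by field_simp
  rw [h6] at h4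
  linarith

theorem one (h1 : S1Stmt) {V : ℝ → ℝ} (hV : Bump V) (hs : ∀ x, V x ≠ 0 → w1 x ≠ 0) :
    ∃ C : ℝ, 0 ≤ C ∧ ∀ (X H Q U θ : ℝ) (q D : ℕ) (a : ℤ), Par X H Q U q → a.natAbs.Coprime q →
      |θ - a / q| ≤ 5 / H → 1 ≤ D → (D : ℝ) ≤ U ^ 2 →
      ‖∑ m ∈ wide X 4, (V (Real.log m - Real.log (X / D)) : ℂ) * E (m * (D * θ))‖ ≤
        C * (H ^ 2 / X) / U ^ 2 := by
  obtain ⟨C, hC⟩ := h1 V hV
  refine ⟨max C 0, le_max_right _ _, fun X H Q U θ q D a h ha hθ hD hD2 => ?_⟩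
  obtain ⟨f1, f2, f3, f4, f5, f6, f7, f8, f9⟩ := h.facts
  have hX := h.hX
  have hD1 : (1 : ℝ) ≤ D := by exact_mod_cast hD
  have hH : 0 < H := by linarith
  have hQ : 0 < Q := by linarith
  have hU : 0 < U := by linarith
  refine (hC (X / D) (D * θ) (Q / (2 * H)) (wide X 4) ((one_le_div (by linarith)).2 (by linarith))
    (by positivity) (far h ha hθ hD hD2) (fun n hn => (mem_Icc.1 hn).1) fun n hn hne => ?_).trans ?_
  · have h2 := (range_of_w1 (by positivity) (by exact_mod_cast hn) (hs _ hne)).2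
    have h3 : X / D ≤ X := div_le_self hX.le hD1
    exact (z94.mem_wide hX.le (by norm_num)).2 ⟨hn, by linarith⟩
  · refine (div_le_div_of_nonneg_right (le_max_left C 0) (by positivity)).trans ?_
    rw [mul_div_assoc, div_eq_mul_one_div]
    refine mul_le_mul_of_nonneg_left ?_ (le_max_right _ _)
    have h2 : 4 * D * U ^ 2 ≤ Q ^ 2 := by nlinarith [h.hQ, sq_nonneg U]
    rw [div_div, div_le_div_iff₀ (by positivity) (by positivity)]
    calc 1 * (X * U ^ 2) = X / (4 * D) * (4 * D * U ^ 2) := by field_simp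
      _ ≤ X / (4 * D) * Q ^ 2 := by gcongr
      _ = _ := by field_simp; norm_num

theorem WE_mul {X θ : ℝ} (hX : 0 < X) {D m : ℕ} (hD : 1 ≤ D) (hm : 1 ≤ m) : WE X θ (D * m) =
    (w2 (Real.log m - Real.log (X / D)) : ℝ) * E (m * (D * θ)) := by
  have h1 : (0 : ℝ) < D := by exact_mod_cast hD
  have h2 : (0 : ℝ) < m := by exact_mod_cast hm
  unfold WE
  rw [Nat.cast_mul, Real.log_mul h1.ne' h2.ne', Real.log_div hX.ne' h1.ne',
    show (D : ℝ) * m * θ = m * (D * θ) by ring, show Real.log D + Real.log m - Real.log X =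
      Real.log m - (Real.log X - Real.log D) by ring]

theorem cnt {U B : ℝ} (hU : 0 ≤ U) (hB : 0 ≤ B) (X : ℝ) (f : ℕ → ℂ)
    (h0 : ∀ d : ℕ, U < d → f d = 0) (h1 : ∀ d : ℕ, 1 ≤ d → d ≤ U → ‖f d‖ ≤ B) :
    ‖∑ d ∈ wide X 4, f d‖ ≤ U * B := by
  rw [← sum_filter_of_ne (p := fun d : ℕ => (d : ℝ) ≤ U) fun d _ h => not_lt.1 fun hc => h (h0 d hc)]
  refine (norm_sum_le _ _).trans ((sum_le_card_nsmul _ _ B fun d hd =>
    h1 d (mem_Icc.1 (mem_filter.1 hd).1).1 (mem_filter.1 hd).2).trans ?_)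
  rw [nsmul_eq_mul]
  refine mul_le_mul_of_nonneg_right (le_trans ?_ (Nat.floor_le hU)) hB
  have : ({d ∈ wide X 4 | (d : ℝ) ≤ U} : Finset ℕ) ⊆ Icc 1 ⌊U⌋₊ := fun d hd =>
    mem_Icc.2 ⟨(mem_Icc.1 (mem_filter.1 hd).1).1, Nat.le_floor (mem_filter.1 hd).2⟩
  exact Nat.cast_le.2 ((card_le_card this).trans_eq (by simp))

theorem norm_mu (d : ℕ) : ‖(μ d : ℂ)‖ ≤ 1 := by
  rw [Complex.norm_intCast]
  exact_mod_cast ArithmeticFunction.abs_moebius_le_one

theorem typeI (h1 : S1Stmt) : ∃ C : ℝ, 0 ≤ C ∧ ∀ (X H Q U θ : ℝ) (q : ℕ) (a : ℤ), Par X H Q U q →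
    a.natAbs.Coprime q → |θ - a / q| ≤ 5 / H →
    ‖P1 X U θ - P2 X U θ‖ ≤ C * Real.log X * (H ^ 2 / X) := by
  obtain ⟨C1, p1, k1⟩ := one h1 bump_w2 fun x => w1_ne_zero
  obtain ⟨C2, p2, k2⟩ := one h1 bump_w2.mul_id fun x hx => w1_ne_zero (right_ne_zero_of_mul hx)
  refine ⟨2 * C1 + C2, by positivity, fun X H Q U θ q a h ha hθ => ?_⟩
  obtain ⟨f1, f2, f3, f4, f5, f6, f7, f8, f9⟩ := h.facts
  have hX := h.hX
  have hL := h.hL
  have hU : 0 < U := by linarith
  set L := Real.log X with hLd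
  set Y := H ^ 2 / X with hY
  have hY0 : 0 ≤ Y := by positivity
  have hL0 : 0 ≤ L := by linarith
  have e1 : ‖P1 X U θ‖ ≤ U * (L * (C1 * Y / U ^ 2) + C2 * Y / U ^ 2) := by
    refine cnt hU.le (by positivity) X _ (fun d hd => by simp [hd]) fun d hd hdU => ?_
    have hd1 : (1 : ℝ) ≤ d := by exact_mod_cast hd
    rw [if_neg (not_lt.2 hdU), norm_mul]
    refine (mul_le_of_le_one_left (norm_nonneg _) (norm_mu d)).trans ?_
    have e : ∑ k ∈ wide X 4, (Real.log k : ℂ) * WE X θ (d * k) = (Real.log (X / d) : ℂ) *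
        ∑ m ∈ wide X 4, (w2 (Real.log m - Real.log (X / d)) : ℂ) * E (m * (d * θ)) +
        ∑ m ∈ wide X 4, (((Real.log m - Real.log (X / d)) *
          w2 (Real.log m - Real.log (X / d)) : ℝ) : ℂ) * E (m * (d * θ)) := by
      rw [mul_sum, ← sum_add_distrib]
      refine sum_congr rfl fun k hk => ?_
      rw [WE_mul hX hd (mem_Icc.1 hk).1, Complex.ofReal_mul, Complex.ofReal_sub]
      ring
    rw [e]
    refine (norm_add_le _ _).trans (add_le_add ?_ (k2 X H Q U θ q d a h ha hθ hd (by linarith)))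
    rw [norm_mul, Complex.norm_real, Real.norm_of_nonneg
      (Real.log_nonneg ((one_le_div (by linarith)).2 (by linarith)))]
    exact mul_le_mul (Real.log_le_log (by positivity) (div_le_self hX.le hd1))
      (k1 X H Q U θ q d a h ha hθ hd (by linarith)) (norm_nonneg _) hL0
  have e2 : ‖P2 X U θ‖ ≤ U * (U * (L * (C1 * Y / U ^ 2))) := by
    refine cnt hU.le (by positivity) X _ (fun d hd => by simp [hd]) fun d hd hdU => ?_
    rw [if_neg (not_lt.2 hdU), norm_mul]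
    refine (mul_le_of_le_one_left (norm_nonneg _) (norm_mu d)).trans ?_
    refine cnt hU.le (by positivity) X _ (fun e he => by simp [he]) fun e he heU => ?_
    rw [if_neg (not_lt.2 heU), norm_mul, Complex.norm_real,
      Real.norm_of_nonneg ArithmeticFunction.vonMangoldt_nonneg,
      sum_congr (s₁ := wide X 4) rfl fun m hm =>
        WE_mul (θ := θ) hX (Nat.mul_pos hd he) (mem_Icc.1 hm).1]
    refine mul_le_mul (ArithmeticFunction.vonMangoldt_le_log.trans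
      (Real.log_le_log (by exact_mod_cast he) (by linarith)))
      (k1 X H Q U θ q (d * e) a h ha hθ (Nat.mul_pos hd he) ?_) (norm_nonneg _) hL0
    rw [Nat.cast_mul, sq]
    gcongr
  refine (norm_sub_le _ _).trans ((add_le_add e1 e2).trans ?_)
  have e3 : U * (L * (C1 * Y / U ^ 2) + C2 * Y / U ^ 2) = (L * C1 * Y + C2 * Y) / U := by
    field_simp
  have e4 : U * (U * (L * (C1 * Y / U ^ 2))) = L * C1 * Y := by field_simp
  have e5 : (L * C1 * Y + C2 * Y) / U ≤ L * C1 * Y + C2 * Y :=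
    div_le_self (by positivity) (by linarith)
  have e6 : C2 * Y ≤ L * (C2 * Y) := le_mul_of_one_le_left (by positivity) (by linarith)
  rw [e3, e4]
  linarith

theorem P3_eq {X U : ℝ} (hX : 1 ≤ X) (hL : 1 ≤ Real.log X) (j : ℕ) (θ : ℝ) : P3 X U j θ =
    (Real.log (12 * X) : ℂ) * ∑ x ∈ blk (2 ^ j) 66 ×ˢ blk (X / (6 * 2 ^ j)) 66,
      (if U < x.1 ∧ Nat.log 2 x.1 = j then (μ x.1 : ℂ) else 0) *
        ((if (x.2 : ℝ) ≤ 12 * X then aU U x.2 / Real.log (12 * X) else 0 : ℝ) : ℂ) *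
          WE X θ (x.1 * x.2) := by
  have hX0 : 0 < X := by linarith
  have hl : 0 < Real.log (12 * X) := Real.log_pos (by linarith)
  have hl' : (Real.log (12 * X) : ℂ) ≠ 0 := by exact_mod_cast hl.ne'
  have hM : (0 : ℝ) < 2 ^ j := by positivity
  have key : ∀ x : ℕ × ℕ, (x.2 : ℝ) ≤ 12 * X →
      (if U < x.1 ∧ Nat.log 2 x.1 = j then (μ x.1 : ℂ) else 0) * (aU U x.2 : ℝ) *
        WE X θ (x.1 * x.2) = (Real.log (12 * X) : ℂ) *
      ((if U < x.1 ∧ Nat.log 2 x.1 = j then (μ x.1 : ℂ) else 0) *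
        ((if (x.2 : ℝ) ≤ 12 * X then aU U x.2 / Real.log (12 * X) else 0 : ℝ) : ℂ) *
          WE X θ (x.1 * x.2)) := fun x hx => by
    rw [if_pos hx, Complex.ofReal_div]
    field_simp
  rw [mul_sum]
  refine sum_eq_of_supp _ _ _ _ (fun x hx h => ?_) fun x hx h => ?_
  · obtain ⟨h1, h2⟩ := mem_product.1 hx
    rw [z94.mem_wide hX0.le (by norm_num)] at h1 h2
    refine ⟨?_, key x (by linarith [h2.2])⟩
    obtain ⟨h3, h4⟩ := WE_range hX0 hL (right_ne_zero_of_mul h)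
    have h5 : Nat.log 2 x.1 = j := by
      by_contra hc
      exact h (by simp [hc])
    have h6 : (2 : ℝ) ^ j ≤ x.1 := by
      exact_mod_cast h5 ▸ Nat.pow_log_le_self 2 (by omega : x.1 ≠ 0)
    have h7 : (x.1 : ℝ) < 2 ^ j * 2 := by
      exact_mod_cast h5 ▸ Nat.lt_pow_succ_log_self one_lt_two x.1
    have h8 : (0 : ℝ) ≤ x.2 := Nat.cast_nonneg _
    rw [Nat.cast_mul] at h3 h4
    rw [div_lt_iff₀ (by norm_num)] at h3
    rw [mem_product, z94.mem_blk hM.le (by norm_num), z94.mem_blk (by positivity) (by norm_num),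
      div_le_iff₀ (by positivity), mul_div_assoc', le_div_iff₀ (by positivity)]
    have h9 := mul_le_mul_of_nonneg_right h6 h8
    have h10 := mul_le_mul_of_nonneg_right h7.le h8
    have h11 := mul_nonneg hM.le h8
    exact ⟨⟨h6, by linarith⟩, by linarith, by linarith⟩
  · obtain ⟨h1, h2⟩ := mem_product.1 hx
    have h3 := one_le_of_mem_blk hM h1
    have h4 := one_le_of_mem_blk (by positivity) h2
    have h5 := (WE_range hX0 hL (right_ne_zero_of_mul (right_ne_zero_of_mul h))).2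
    have h6 : (x.1 : ℝ) ≤ (x.1 * x.2 : ℕ) := by exact_mod_cast Nat.le_mul_of_pos_right _ h4
    have h7 : (x.2 : ℝ) ≤ (x.1 * x.2 : ℕ) := by exact_mod_cast Nat.le_mul_of_pos_left _ h3
    refine ⟨?_, key x (by linarith)⟩
    rw [mem_product, z94.mem_wide hX0.le (by norm_num), z94.mem_wide hX0.le (by norm_num)]
    exact ⟨⟨h3, by linarith⟩, h4, by linarith⟩

theorem P3_zero {X U : ℝ} (hX : 0 < X) (hL : 1 ≤ Real.log X) (hU : 0 ≤ U) {j : ℕ}
    (h : ¬ (U ≤ 2 ^ j * 2 ∧ 2 ^ j * U ≤ 11 * X)) (θ : ℝ) : P3 X U j θ = 0 := by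
  refine sum_eq_zero fun x hx => ?_
  by_contra hc
  have h1 := (mem_Icc.1 (mem_product.1 hx).1).1
  have h4 := (WE_range hX hL (right_ne_zero_of_mul hc)).2
  have h5 : U < x.1 ∧ Nat.log 2 x.1 = j := by
    by_contra h0
    exact hc (by rw [if_neg h0, zero_mul, zero_mul])
  have h2 : U < x.2 := lt_of_aU fun h0 => hc (by simp [h0])
  have h6 : (2 : ℝ) ^ j ≤ x.1 := by
    exact_mod_cast h5.2 ▸ Nat.pow_log_le_self 2 (by omega : x.1 ≠ 0)
  have h7 : (x.1 : ℝ) < 2 ^ j * 2 := by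
    exact_mod_cast h5.2 ▸ Nat.lt_pow_succ_log_self one_lt_two x.1
  rw [Nat.cast_mul] at h4
  exact h ⟨by linarith [h5.1], by linarith [mul_le_mul h6 h2.le hU (Nat.cast_nonneg _)]⟩

/-- the mean square of a bilinear sum on a short minor arc -/
theorem bil (hm : MelStmt) (h2 : T2Stmt) : ∃ C : ℝ, 0 ≤ C ∧ ∀ (X H Q U M : ℝ) (q : ℕ) (a : ℤ)
    (α β : ℕ → ℂ), Par X H Q U q → a.natAbs.Coprime q → U ≤ M * 2 → M * U ≤ 11 * X →
    (∀ m, ‖α m‖ ≤ 1) → (∀ n, ‖β n‖ ≤ 1) →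
    ∫ θ in (a / q - 5 / H)..(a / q + 5 / H), ‖∑ x ∈ blk M 66 ×ˢ blk (X / (6 * M)) 66,
      α x.1 * β x.2 * WE X θ (x.1 * x.2)‖ ^ 2 ≤ C * X / U := by
  obtain ⟨Cm, pm, km⟩ := hm w2 bump_w2
  obtain ⟨C2, k2⟩ := h2 66 (by norm_num)
  refine ⟨Cm * (max C2 0 * (3 * Cm + 2)) + Cm * 726 ^ 2, by positivity,
    fun X H Q U M q a α β h ha hM1 hM2 hα hβ => ?_⟩
  obtain ⟨f1, f2, f3, f4, f5, f6, f7, f8, f9⟩ := h.facts
  have hX := h.hX
  have hL := h.hL
  have hU : 0 < U := by linarith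
  have hH : 0 < H := by linarith
  have hQ : 0 < Q := by linarith
  have hM : 1 ≤ M := by linarith
  have hq : (0 : ℝ) < q := by linarith [h.hq]
  have hMX : M * 6 ≤ X := by linarith [mul_le_mul_of_nonneg_left f1 (zero_le_one.trans hM)]
  set N := X / (6 * M) with hNd
  have hN : 1 ≤ N := (one_le_div (by positivity)).2 (by linarith)
  have hMN : M * N = X / 6 := by rw [hNd]; field_simp
  set T := Cm * (1 + 5 / H * X) with hT
  have hXH : 1 ≤ X / H := (one_le_div hH).2 f9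
  have e5 : 5 / H * X = 5 * (X / H) := by ring
  have hT1 : 5 * (X / H) ≤ T := by
    rw [hT, e5]
    exact le_trans (by linarith) (le_mul_of_one_le_left (by linarith) pm)
  have hT2 : T ≤ Cm * (6 * (X / H)) := by rw [hT, e5]; gcongr; linarith
  have hT0 : 0 < T := by linarith
  have e1 := km (ℕ × ℕ) (blk M 66 ×ˢ blk N 66)
    (fun x => α x.1 * β x.2 * E (a * (x.1 * x.2 : ℕ) / q)) (fun x => (x.1 * x.2 : ℕ)) X (5 / H) T hX
    (by positivity) (fun x hx => by
      exact_mod_cast Nat.mul_pos (z94.pos_of_mem_blk hM (mem_product.1 hx).1)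
        (z94.pos_of_mem_blk hN (mem_product.1 hx).2)) le_rfl
  have e2 := k2 M N T q a α β hM hN hT0 (by exact_mod_cast hq) ha hα hβ
  have e3 := intervalIntegral.integral_comp_add_left (a := -(5 / H)) (b := 5 / H)
    (fun θ => ‖∑ x ∈ blk M 66 ×ˢ blk N 66, α x.1 * β x.2 * WE X θ (x.1 * x.2)‖ ^ 2) (a / q)
  rw [sub_eq_add_neg, ← e3]
  refine le_trans (le_of_eq ?_) (e1.trans ?_)
  · congr 1
    ext θ
    congr 2
    refine sum_congr rfl fun x _ => ?_
    rw [WE, mul_add, Six.E_add, show ((x.1 * x.2 : ℕ) : ℝ) * (a / q) = a * (x.1 * x.2 : ℕ) / q by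
      ring]
    ring
  have e4 : ∑ x ∈ blk M 66 ×ˢ blk N 66, ‖α x.1 * β x.2 * E (a * (x.1 * x.2 : ℕ) / q)‖ ≤
      726 * X := by
    refine (sum_le_card_nsmul _ _ 1 fun x _ => ?_).trans ?_
    · rw [norm_mul, norm_mul, Six.norm_E, mul_one]
      exact mul_le_one₀ (hα _) (norm_nonneg _) (hβ _)
    · rw [nsmul_eq_mul, mul_one, card_product, Nat.cast_mul]
      refine (mul_le_mul (z94.card_blk_le hM (by norm_num)) (z94.card_blk_le hN (by norm_num))
        (Nat.cast_nonneg _) (by positivity)).trans (le_of_eq ?_)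
      linear_combination 66 ^ 2 * hMN
  have hUQ : U ≤ Q := by linarith
  have b1 : (q + Real.log M + 1) * T * (M * N) ≤ 3 * Cm * (X ^ 2 / U) := by
    have h3 : Real.log M ≤ U := (Real.log_le_log (by linarith) (by linarith)).trans h.hU
    have h4 : (q : ℝ) * U ≤ H := le_trans (by gcongr) h.hH
    have h5 : (q + Real.log M + 1) * U ≤ 3 * H := by
      linarith [mul_le_mul_of_nonneg_right h3 hU.le, sq U]
    have h6 : q + Real.log M + 1 ≤ 3 * H / U := by rwa [le_div_iff₀ hU]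
    rw [hMN]
    calc (q + Real.log M + 1) * T * (X / 6) ≤ 3 * H / U * (Cm * (6 * (X / H))) * (X / 6) := by
          gcongr
      _ = _ := by field_simp
  have b2 : (M * N) ^ 2 * (1 / M + 1 / N + 1 / q) ≤ 2 * (X ^ 2 / U) := by
    have h3 : 1 / M ≤ 2 / U := by rw [div_le_div_iff₀ (by linarith) hU]; linarith
    have h4 : 1 / N ≤ 66 / U := by
      rw [hNd, one_div_div, div_le_div_iff₀ hX hU]; linarith
    have h5 : 1 / (q : ℝ) ≤ 1 / U := by gcongr; linarith [h.hq]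
    rw [hMN]
    calc (X / 6) ^ 2 * (1 / M + 1 / N + 1 / q) ≤ (X / 6) ^ 2 * (2 / U + 66 / U + 1 / U) := by
          gcongr
      _ = 69 / 36 * (X ^ 2 / U) := by field_simp; norm_num
      _ ≤ _ := by gcongr; norm_num
  have b3 := e2.trans ((mul_le_mul_of_nonneg_right (le_max_left C2 0) (by
    have := Real.log_nonneg hM
    positivity)).trans (mul_le_mul_of_nonneg_left (add_le_add b1 b2) (le_max_right C2 0)))
  have b4 : Cm * (5 / H) * (∑ x ∈ blk M 66 ×ˢ blk N 66,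
      ‖α x.1 * β x.2 * E (a * (x.1 * x.2 : ℕ) / q)‖) ^ 2 / T ^ 2 ≤ Cm * 726 ^ 2 * X / U := by
    have h3 : H ≤ X / U := (le_div_iff₀ hU).2 (le_trans (by gcongr; exact hUQ.trans f6) f8)
    calc _ ≤ Cm * (5 / H) * (726 * X) ^ 2 / (5 * (X / H)) ^ 2 := by gcongr
      _ = Cm * 726 ^ 2 * (H / 5) := by field_simp
      _ ≤ Cm * 726 ^ 2 * (X / U) := mul_le_mul_of_nonneg_left (by linarith) (by positivity)
      _ = _ := by ring
  refine (add_le_add (mul_le_mul_of_nonneg_left b3 (by positivity)) b4).trans (le_of_eq ?_)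
  field_simp

theorem piece (hm : MelStmt) (h2 : T2Stmt) : ∃ C : ℝ, 0 ≤ C ∧ ∀ (X H Q U : ℝ) (q j : ℕ) (a : ℤ),
    Par X H Q U q → a.natAbs.Coprime q →
    ∫ θ in (a / q - 5 / H)..(a / q + 5 / H), ‖P3 X U j θ‖ ^ 2 ≤
      C * Real.log X ^ 2 * X / U := by
  obtain ⟨C, p, k⟩ := bil hm h2
  refine ⟨4 * C, by positivity, fun X H Q U q j a h ha => ?_⟩
  obtain ⟨f1, f2, f3, f4, f5, f6, f7, f8, f9⟩ := h.facts
  have hX := h.hX
  have hL := h.hL
  have hU : 0 < U := by linarith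
  by_cases hj : U ≤ 2 ^ j * 2 ∧ 2 ^ j * U ≤ 11 * X
  swap
  · simp only [P3_zero hX (by linarith) hU.le hj]
    simp only [norm_zero, ne_eq, OfNat.ofNat_ne_zero, not_false_eq_true, zero_pow,
      intervalIntegral.integral_zero]
    positivity
  have hl : 0 < Real.log (12 * X) := Real.log_pos (by linarith)
  have hl2 : Real.log (12 * X) ≤ 2 * Real.log X := by
    rw [Real.log_mul (by norm_num) hX.ne']
    linarith [Real.log_le_sub_one_of_pos (show (0 : ℝ) < 12 by norm_num)]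
  simp only [P3_eq (show 1 ≤ X by linarith) (show 1 ≤ Real.log X by linarith), norm_mul, mul_pow,
    intervalIntegral.integral_const_mul, Complex.norm_real, Real.norm_of_nonneg hl.le]
  have h3 := k X H Q U (2 ^ j) q a (fun d => if U < d ∧ Nat.log 2 d = j then (μ d : ℂ) else 0)
    (fun n => ((if (n : ℝ) ≤ 12 * X then aU U n / Real.log (12 * X) else 0 : ℝ) : ℂ)) h ha hj.1 hj.2
    (fun d => by split_ifs; exacts [norm_mu d, by simp]) fun n => by
      rw [Complex.norm_real]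
      split_ifs with hn
      · rw [Real.norm_of_nonneg (div_nonneg (aU_nonneg _ _) hl.le), div_le_one hl]
        refine (aU_le U n).trans ?_
        rcases Nat.eq_zero_or_pos n with rfl | h0
        · simpa using hl.le
        · exact Real.log_le_log (by exact_mod_cast h0) hn
      · simp
  refine (mul_le_mul_of_nonneg_left h3 (by positivity)).trans ?_
  calc Real.log (12 * X) ^ 2 * (C * X / U) ≤ (2 * Real.log X) ^ 2 * (C * X / U) := by gcongr
    _ = _ := by ring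

theorem core (h1 : S1Stmt) (hm : MelStmt) (h2 : T2Stmt) : ∃ C : ℝ, ∀ (X H Q U : ℝ) (q : ℕ) (a : ℤ),
    Par X H Q U q → a.natAbs.Coprime q →
    ∫ θ in (a / q - 5 / H)..(a / q + 5 / H), ‖SS X (fun n => Λ n) θ‖ ^ 2 ≤
      C * (Real.log X ^ 4 * X / U) := by
  obtain ⟨C1, p1, k1⟩ := typeI h1
  obtain ⟨C2, p2, k2⟩ := piece hm h2
  refine ⟨20 * C1 ^ 2 + 50 * C2, fun X H Q U q a h ha => ?_⟩
  obtain ⟨f1, f2, f3, f4, f5, f6, f7, f8, f9⟩ := h.facts
  have hX := h.hX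
  have hL := h.hL
  have hU : 0 < U := by linarith
  have hH : 0 < H := by linarith
  set J := Nat.log 2 ⌊3 * 4 * X⌋₊ + 1 with hJ
  have hJ5 : (J : ℝ) ≤ 5 * Real.log X := by
    have h3 : 1 ≤ ⌊3 * 4 * X⌋₊ := Nat.le_floor (by push_cast; linarith)
    have h4 : (2 : ℝ) ^ Nat.log 2 ⌊3 * 4 * X⌋₊ ≤ 12 * X := by
      refine le_trans ?_ ((Nat.floor_le (by positivity : 0 ≤ 3 * 4 * X)).trans_eq (by ring))
      exact_mod_cast Nat.pow_log_le_self 2 (Nat.one_le_iff_ne_zero.1 h3)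
    have h5 := Real.log_le_log (by positivity) h4
    rw [Real.log_pow, Real.log_mul (by norm_num) hX.ne'] at h5
    have h6 := Real.log_le_sub_one_of_pos (show (0 : ℝ) < 12 by norm_num)
    have h7 := mul_le_mul_of_nonneg_left (show 1 / 2 ≤ Real.log 2 by linarith [Real.log_two_gt_d9])
      (Nat.cast_nonneg (α := ℝ) (Nat.log 2 ⌊3 * 4 * X⌋₊))
    rw [hJ, Nat.cast_add_one]
    generalize (Nat.log 2 ⌊3 * 4 * X⌋₊ : ℝ) = y at h5 h7 ⊢
    linarith only [h5, h6, h7, hL]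
  have hc : ∀ j, Continuous fun θ => ‖P3 X U j θ‖ ^ 2 := fun j => by unfold P3 WE; fun_prop
  have hab : a / q - 5 / H ≤ a / q + 5 / H := by linarith [show 0 ≤ 5 / H by positivity]
  have e1 : ∫ θ in (a / q - 5 / H)..(a / q + 5 / H), ‖SS X (fun n => Λ n) θ‖ ^ 2 ≤
      ∫ θ in (a / q - 5 / H)..(a / q + 5 / H), (2 * (C1 * Real.log X * (H ^ 2 / X)) ^ 2 +
        2 * J * ∑ j ∈ range J, ‖P3 X U j θ‖ ^ 2) := by
    refine intervalIntegral.integral_mono_on hab (Continuous.intervalIntegrable (by fun_prop) _ _)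
      (Continuous.intervalIntegrable (by fun_prop) _ _) fun θ hθ => ?_
    have h3 := k1 X H Q U θ q a h ha (abs_le.2 ⟨by linarith [hθ.1], by linarith [hθ.2]⟩)
    have h4 : ‖∑ j ∈ range J, P3 X U j θ‖ ^ 2 ≤ J * ∑ j ∈ range J, ‖P3 X U j θ‖ ^ 2 := by
      refine (pow_le_pow_left₀ (norm_nonneg _) (norm_sum_le _ _) 2).trans ?_
      simpa using sq_sum_le_card_mul_sum_sq (s := range J) (f := fun j => ‖P3 X U j θ‖)
    rw [split (U := U) hX (by linarith) (by rw [le_div_iff₀ (by norm_num)]; linarith), ← hJ]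
    have h5 := pow_le_pow_left₀ (norm_nonneg _) (norm_add_le (P1 X U θ - P2 X U θ)
      (∑ j ∈ range J, P3 X U j θ)) 2
    have h6 := pow_le_pow_left₀ (norm_nonneg _) h3 2
    nlinarith [sq_nonneg (‖P1 X U θ - P2 X U θ‖ - ‖∑ j ∈ range J, P3 X U j θ‖)]
  rw [intervalIntegral.integral_add (by simp) (Continuous.intervalIntegrable (by fun_prop) _ _),
    intervalIntegral.integral_const, intervalIntegral.integral_const_mul,
    intervalIntegral.integral_finsetSum fun j _ => (hc j).intervalIntegrable _ _] at e1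
  refine e1.trans ?_
  have e2 := sum_le_card_nsmul (range J) _ _ fun j _ => k2 X H Q U q j a h ha
  rw [card_range, nsmul_eq_mul] at e2
  have e3 : 2 * (J : ℝ) * (J * (C2 * Real.log X ^ 2 * X / U)) ≤
      50 * C2 * (Real.log X ^ 4 * X / U) :=
    calc _ ≤ 2 * (5 * Real.log X) * (5 * Real.log X * (C2 * Real.log X ^ 2 * X / U)) := by gcongr
      _ = _ := by ring
  have e4 : (a / q + 5 / H - (a / q - 5 / H)) • (2 * (C1 * Real.log X * (H ^ 2 / X)) ^ 2) ≤
      20 * C1 ^ 2 * (Real.log X ^ 4 * X / U) := by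
    have h3 : Real.log X ^ 2 ≤ Real.log X ^ 4 := pow_le_pow_right₀ (by linarith) (by norm_num)
    have h4 : H ^ 3 / X ^ 2 ≤ X / U := by
      rw [div_le_div_iff₀ (by positivity) hU]
      calc H ^ 3 * U ≤ X * (X * 1) := by gcongr; exacts [h.h3, by linarith]
        _ ≤ X * (X * X) := by gcongr; linarith
        _ = _ := by ring
    calc _ = 20 * C1 ^ 2 * (Real.log X ^ 2 * (H ^ 3 / X ^ 2)) := by
          rw [smul_eq_mul]; field_simp; ring
      _ ≤ 20 * C1 ^ 2 * (Real.log X ^ 4 * (X / U)) := by gcongr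
      _ = _ := by ring
  have e5 := mul_le_mul_of_nonneg_left e2 (show 0 ≤ 2 * (J : ℝ) by positivity)
  linarith

end Minor

theorem minor_of (h1 : S1Stmt) (hm : MelStmt) (h2 : T2Stmt) : MinorStmt := by
  intro A
  obtain ⟨C, k⟩ := Minor.core h1 hm h2
  obtain ⟨X₀, h0⟩ := eventually_atTop.1 ((ev_log 66).and (eventually_gt_atTop 0))
  refine ⟨2 * (A + 4) + 1, C, X₀, fun X H Q q a hX hH hQ hq hqQ ha => ?_⟩
  obtain ⟨hL, hX0⟩ := h0 X hX
  have hL0 : 0 < Real.log X := by linarith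
  have hQ0 : 0 ≤ Q := le_trans (by positivity) hQ
  have hH0 : 0 ≤ H := le_trans (by positivity) hqQ
  refine (k X H Q (Real.log X ^ (A + 4)) q a ⟨hX0, hL, le_self_pow₀ (by linarith) (by omega), ?_,
    hq, hqQ, ?_⟩ ha).trans (le_of_eq ?_)
  · refine le_trans ?_ hQ
    rw [pow_succ _ (2 * (A + 4)), pow_mul', mul_comm]
    gcongr
    linarith
  · refine (pow_le_pow_left₀ hH0 hH 3).trans (le_of_eq ?_)
    rw [← Real.rpow_natCast, ← Real.rpow_mul hX0.le]
    norm_num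
  · field_simp
    ring

end Pool.Agent.MP_678834_nt.HL9

end
end MrgPart0

-- ======== part 1: formerly Pool.Agent.MP_678834_nt.HL9.Arc
section MrgPart1

/-! Project HL9, module ARC: the estimate on an arbitrary short arc. -/

set_option autoImplicit false

noncomputable section

namespace Pool.Agent.MP_678834_nt.HL9

open MeasureTheory Finset Filter
open scoped ArithmeticFunction.vonMangoldt ArithmeticFunction.Moebius
open Pool.Agent.MP_db1c88_nt.z94 (ei bmp blk DP wide wt lev)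
open Pool.Agent.MP_3d0d30_nt.Six (E ck)
open Pool.Agent.MP_db1c88_nt Pool.Agent.MP_3d0d30_nt

namespace Arc

/-- the smooth geometric sum -/
def G (X θ : ℝ) : ℂ := ∑ n ∈ wide X 4, (w2 (Real.log n - Real.log X) : ℝ) * E (n * θ)

theorem G_int (X θ : ℝ) (k : ℤ) : G X (θ + k) = G X θ := sum_congr rfl fun n _ => by
  rw [mul_add, Six.E_add, show (n : ℝ) * k = ((n * k : ℤ) : ℝ) by push_cast; ring, E_int, mul_one]

theorem SS_E (X θ x : ℝ) (c : ℂ) (g : ℕ → ℂ) {u : ℕ → ℝ} (hu : ∀ n : ℕ, u n = n * x) :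
    SS X (fun n => g n - c * E (u n)) θ = SS X g θ - c * G X (θ + x) := by
  simp only [SS, G, mul_sum, ← sum_sub_distrib, hu, mul_add, Six.E_add]
  exact sum_congr rfl fun n _ => by ring

theorem SS_lamS (X θ : ℝ) (Q : ℕ) (g : ℕ → ℂ) : SS X (fun n => g n - lamS Q n) θ = SS X g θ -
    ∑ r ∈ Icc 1 Q, (rho r : ℂ) *
      ∑ b ∈ (range r).filter (fun b => Nat.Coprime b r), G X (θ + b / r) := by
  simp only [SS, G, lamS, ram, sub_mul, sum_sub_distrib, mul_sum, sum_mul]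
  congr 1
  rw [sum_comm]
  refine sum_congr rfl fun r _ => ?_
  rw [sum_comm]
  refine sum_congr rfl fun b _ => sum_congr rfl fun n _ => ?_
  rw [mul_add, Six.E_add, show (n : ℝ) * (b / r) = b * n / r by ring]
  ring

/-- the resonant fractions -/
theorem res_iff {q r b : ℕ} {a : ℤ} (hq : 1 ≤ q) (ha : a.natAbs.Coprime q) (hb : b < r) :
    (b.Coprime r ∧ ∃ k : ℤ, a * r + b * q = k * q * r) ↔ r = q ∧ b = (-a % q).toNat := by
  have hq0 : (0 : ℤ) < q := by exact_mod_cast hq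
  have ha' : IsCoprime a (q : ℤ) := Int.isCoprime_iff_gcd_eq_one.2 ha
  constructor
  · rintro ⟨h1, k, hk⟩
    have h2 : IsCoprime (b : ℤ) (r : ℤ) := Nat.isCoprime_iff_coprime.2 h1
    have h3 : (q : ℤ) ∣ r := ha'.symm.dvd_of_dvd_mul_left ⟨k * r - b, by linear_combination hk⟩
    have h4 : (r : ℤ) ∣ q := h2.symm.dvd_of_dvd_mul_left ⟨k * q - a, by linear_combination hk⟩
    obtain rfl : r = q := Nat.dvd_antisymm (by exact_mod_cast h4) (by exact_mod_cast h3)
    have h5 : -a = b + r * (-k) := mul_right_cancel₀ hq0.ne' (by linear_combination -hk)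
    rw [h5, Int.add_mul_emod_self_left, Int.emod_eq_of_lt (by positivity) (by exact_mod_cast hb)]
    simp
  · rintro ⟨rfl, rfl⟩
    have h1 := Int.toNat_of_nonneg (Int.emod_nonneg (-a) hq0.ne')
    have h2 := Int.emod_def (-a) r
    refine ⟨Nat.isCoprime_iff_coprime.1 ?_, -(-a / r), by rw [h1, h2]; ring⟩
    rw [h1, h2, sub_eq_add_neg, ← mul_neg]
    exact ha'.neg_left.add_mul_left_left _

theorem far {q r Q : ℕ} {a b k : ℤ} (hq : 1 ≤ q) (hr : 1 ≤ r) (hrQ : r ≤ Q) {θ : ℝ}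
    (hθ : |θ - a / q| ≤ 1 / (2 * q * Q)) (h : a * r + b * q ≠ k * q * r) :
    1 / (2 * q * Q) ≤ |θ + b / r - k| := by
  have hq0 : (0 : ℝ) < q := by exact_mod_cast hq
  have hr0 : (0 : ℝ) < r := by exact_mod_cast hr
  have hrQ' : (r : ℝ) ≤ Q := by exact_mod_cast hrQ
  have h1 : (1 : ℝ) ≤ |((a * r + b * q - k * q * r : ℤ) : ℝ)| := by
    exact_mod_cast Int.one_le_abs (sub_ne_zero.2 h)
  have h2 : (a : ℝ) / q + b / r - k = ((a * r + b * q - k * q * r : ℤ) : ℝ) / (q * r) := by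
    push_cast; field_simp
  have h3 : 1 / (q * Q : ℝ) ≤ |(a : ℝ) / q + b / r - k| := by
    rw [h2, abs_div, abs_of_pos (mul_pos hq0 hr0)]
    gcongr
  have h4 := abs_sub (θ + b / r - k) (θ - a / q)
  rw [show θ + b / r - k - (θ - a / q) = a / q + b / r - k by ring] at h4
  have h5 : 1 / (q * Q : ℝ) = 2 * (1 / (2 * q * Q)) := by
    have := hr0.trans_le hrQ'
    field_simp
  linarith

theorem model {X θ M : ℝ} {q Q : ℕ} {a : ℤ} (hq : 1 ≤ q) (ha : a.natAbs.Coprime q) (hM : 0 ≤ M)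
    (hθ : |θ - a / q| ≤ 1 / (2 * q * Q))
    (hG : ∀ x : ℝ, (∀ k : ℤ, 1 / (2 * q * Q) ≤ |x - k|) → ‖G X x‖ ≤ M) :
    ‖(∑ r ∈ Icc 1 Q, (rho r : ℂ) *
      ∑ b ∈ (range r).filter (fun b => Nat.Coprime b r), G X (θ + b / r)) -
      if q ≤ Q then (rho q : ℂ) * G X (θ + -a / q) else 0‖ ≤ Q * M := by
  classical
  have e : (if q ≤ Q then (rho q : ℂ) * G X (θ + -a / q) else 0) =
      ∑ r ∈ Icc 1 Q, (rho r : ℂ) * if r = q then G X (θ + -a / q) else 0 := by
    simp [hq]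
  rw [e, ← sum_sub_distrib]
  refine (norm_sum_le_of_le _ (n := fun _ => M) fun r hr => ?_).trans (by simp)
  obtain ⟨hr1, hr2⟩ := mem_Icc.1 hr
  have hq0 : (0 : ℤ) < q := by exact_mod_cast hq
  have h1 : ∑ b ∈ ((range r).filter fun b => Nat.Coprime b r).filter
      (fun b : ℕ => ∃ k : ℤ, a * r + b * q = k * q * r), G X (θ + b / r) =
      if r = q then G X (θ + -a / q) else 0 := by
    rw [filter_filter, filter_congr fun b hb => res_iff hq ha (mem_range.1 hb)]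
    split_ifs with h
    · subst h
      have h1 := Int.toNat_of_nonneg (Int.emod_nonneg (-a) hq0.ne')
      have h2 : (-a % r).toNat < r := by
        have := Int.emod_lt_of_pos (-a) hq0
        omega
      simp only [true_and, filter_eq', mem_range, h2, if_true, sum_singleton]
      rw [← G_int X (θ + -a / r) (-(-a / r))]
      congr 1
      have h3 : (((-a % r).toNat : ℕ) : ℝ) = ((-a - r * (-a / r) : ℤ) : ℝ) := by
        rw [← Int.emod_def]; exact_mod_cast h1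
      have h4 : (r : ℝ) ≠ 0 := by positivity
      rw [h3]
      generalize -a / (r : ℤ) = k
      push_cast
      field_simp
      ring
    · simp [h]
  rw [← mul_sub, ← sum_filter_add_sum_filter_not _
    (fun b : ℕ => ∃ k : ℤ, a * r + b * q = k * q * r), h1, add_sub_cancel_left, norm_mul,
    Complex.norm_real, Real.norm_eq_abs]
  have h2 : (0 : ℝ) < r.totient := by exact_mod_cast Nat.totient_pos.2 hr1
  refine le_trans (mul_le_mul (abs_rho_le r) (norm_sum_le_of_le _ (n := fun _ => M) fun b hb =>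
    hG _ fun k => far (b := b) hq hr1 hr2 hθ fun h => ?_) (norm_nonneg _) (by positivity)) ?_
  · exact (mem_filter.1 hb).2 ⟨k, h⟩
  rw [sum_const, nsmul_eq_mul, one_div, inv_mul_le_iff₀ h2]
  gcongr
  refine (card_filter_le _ _).trans_eq ?_
  simp only [Nat.totient, Nat.coprime_comm]

theorem win_le {g h : ℝ → ℂ} (hg : Continuous g) (hh : Continuous h) {x y x' y' e : ℝ}
    (h1 : x' ≤ x) (h2 : x ≤ y) (h3 : y ≤ y') (he : ∀ θ ∈ Set.Icc x y, ‖g θ - h θ‖ ≤ e) :
    ∫ θ in x..y, ‖g θ‖ ^ 2 ≤ 2 * (∫ θ in x'..y', ‖h θ‖ ^ 2) + 2 * e ^ 2 * (y - x) := by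
  have i1 : ∀ u v, IntervalIntegrable (fun θ => ‖h θ‖ ^ 2) volume u v := fun u v =>
    (hh.norm.pow 2).intervalIntegrable u v
  have a1 : ∫ θ in x..y, ‖g θ‖ ^ 2 ≤ ∫ θ in x..y, (2 * ‖h θ‖ ^ 2 + 2 * e ^ 2) := by
    refine intervalIntegral.integral_mono_on h2 ((hg.norm.pow 2).intervalIntegrable _ _)
      (((i1 x y).const_mul 2).add intervalIntegrable_const) fun θ hθ => ?_
    have b1 : ‖g θ‖ ≤ ‖h θ‖ + e := (norm_le_insert' _ (h θ)).trans (by linarith [he θ hθ])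
    have b2 := pow_le_pow_left₀ (norm_nonneg _) b1 2
    nlinarith [sq_nonneg (‖h θ‖ - e)]
  rw [intervalIntegral.integral_add ((i1 x y).const_mul 2) intervalIntegrable_const,
    intervalIntegral.integral_const_mul, intervalIntegral.integral_const, smul_eq_mul] at a1
  have a2 := intervalIntegral.integral_mono_interval h1 h2 h3
    (Eventually.of_forall fun θ => sq_nonneg ‖h θ‖) (i1 x' y')
  linarith

end Arc

open Arc in
theorem arc_of (h1 : S1Stmt) (h2 : MinorStmt) (h3 : MajorStmt) : ArcStmt := by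
  intro ε hε hε' A
  obtain ⟨B₀, C₂, X₂, h2⟩ := h2 A
  refine ⟨B₀, fun B hB => ?_⟩
  obtain ⟨C₃, X₃, h3⟩ := h3 ε hε hε' A (B + 1)
  obtain ⟨C₁, h1⟩ := h1 w2 bump_w2
  obtain ⟨X₀, hX₀⟩ := eventually_atTop.1 ((ev_log_pow (δ := 1 / 9) (by norm_num) (2 * (B + 1)) 16).and
    ((ev_log_pow one_pos (2 * (B + 1) + A) 1).and ((ev_log 1).and ((eventually_ge_atTop 1).and
      ((eventually_ge_atTop X₂).and (eventually_ge_atTop X₃))))))
  refine ⟨2 * max C₂ C₃ + C₁ ^ 2, X₀, fun X H β Q hX hH1 hH2 hQ1 hQ2 => ?_⟩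
  obtain ⟨e1, e2, hL, hX1, hX2, hX3⟩ := hX₀ X hX
  have hX0 : 0 < X := by linarith
  have hQ0 : (1 : ℝ) ≤ Q := (one_le_pow₀ hL).trans hQ1
  have hQ3 : (Q : ℝ) ^ 2 ≤ Real.log X ^ (2 * (B + 1)) := by
    rw [mul_comm, pow_mul]; gcongr
  have hH3 : 16 * (Q : ℝ) ^ 2 ≤ H := by
    have := Real.rpow_le_rpow_of_exponent_le hX1 (show (1 / 9 : ℝ) ≤ 1 / 9 + ε by linarith)
    linarith
  have hH0 : 0 < H := lt_of_lt_of_le (by positivity) hH3
  have hH4 : H ^ 3 ≤ X := by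
    have := pow_le_pow_left₀ hH0.le hH2 3
    rwa [← Real.rpow_natCast (X ^ _), ← Real.rpow_mul hX0.le, show (1 / 3 : ℝ) * (3 : ℕ) = 1 by
      norm_num, Real.rpow_one] at this
  obtain ⟨c, hc1, hc2⟩ := Real.exists_rat_abs_sub_le_and_den_le β (n := ⌊H / (4 * Q)⌋₊)
    (Nat.floor_pos.2 (by rw [one_le_div (by positivity)]; nlinarith))
  have hq : 1 ≤ c.den := c.pos
  have hq0 : (1 : ℝ) ≤ c.den := by exact_mod_cast hq
  have hq1 : (c.den : ℝ) * (4 * Q) ≤ H :=
    (le_div_iff₀ (by positivity)).1 ((Nat.cast_le.2 hc2).trans (Nat.floor_le (by positivity)))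
  have hβ : |β - c.num / c.den| ≤ 4 * Q / (c.den * H) := by
    rw [← Rat.cast_def]
    refine hc1.trans ?_
    have := (div_le_iff₀ (by positivity)).1 (Nat.lt_floor_add_one (H / (4 * Q))).le
    rw [div_le_div_iff₀ (by positivity) (by positivity)]
    nlinarith
  have hw : β - 1 / H ≤ β + 1 / H := by linarith [one_div_pos.2 hH0]
  have key : ∀ θ ∈ Set.Icc (β - 1 / H) (β + 1 / H), _ := fun θ hθ =>
    model (X := X) (θ := θ) (M := |C₁| * H ^ 2 / (4 * X)) (Q := Q) hq c.reduced (by positivity)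
      (by
        have a1 : 1 / H ≤ 1 / (4 * c.den * Q) :=
          one_div_le_one_div_of_le (by positivity) (by linarith)
        have a2 : 4 * Q / (c.den * H) ≤ 1 / (4 * c.den * Q) := by
          rw [div_le_div_iff₀ (by positivity) (by positivity)]
          nlinarith
        have a3 : 1 / (2 * c.den * Q : ℝ) = 2 * (1 / (4 * c.den * Q)) := by field_simp; norm_num
        have a4 := abs_le.1 hβ
        rw [abs_le]
        constructor <;> linarith [hθ.1, hθ.2, a4.1, a4.2])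
      fun x hx => by
        refine (h1 X x (2 / H) _ hX1 (by positivity) (fun k => le_trans ?_ (hx k))
          (fun n hn => (mem_Icc.1 hn).1)
          fun n hn h => mem_wide_of_w1 hX0 hn (w1_ne_zero h)).trans ?_
        · rw [div_le_div_iff₀ hH0 (by positivity)]
          linarith
        · refine (div_le_div_of_nonneg_right (le_abs_self _) (by positivity)).trans_eq ?_
          field_simp
          norm_num
  have hLA : 0 < Real.log X ^ A := by positivity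
  have err : 2 * (Q * (|C₁| * H ^ 2 / (4 * X))) ^ 2 * (β + 1 / H - (β - 1 / H)) ≤
      C₁ ^ 2 * X / Real.log X ^ A := by
    have a1 : 2 * (Q * (|C₁| * H ^ 2 / (4 * X))) ^ 2 * (β + 1 / H - (β - 1 / H)) =
        C₁ ^ 2 * (Q ^ 2 * H ^ 3) / (4 * X ^ 2) := by
      rw [← sq_abs C₁]; field_simp; ring
    have a2 : Real.log X ^ (2 * (B + 1)) * Real.log X ^ A ≤ X := by
      rwa [one_mul, Real.rpow_one, pow_add] at e2
    rw [a1, div_le_div_iff₀ (by positivity) hLA, mul_assoc (C₁ ^ 2), mul_assoc (C₁ ^ 2)]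
    refine mul_le_mul_of_nonneg_left ?_ (sq_nonneg _)
    calc (Q : ℝ) ^ 2 * H ^ 3 * Real.log X ^ A
        ≤ Real.log X ^ (2 * (B + 1)) * X * Real.log X ^ A := by gcongr
      _ = Real.log X ^ (2 * (B + 1)) * Real.log X ^ A * X := by ring
      _ ≤ X * X := by gcongr
      _ ≤ X * (4 * X ^ 2) := by gcongr; nlinarith
  have fin : ∀ I C : ℝ, I ≤ C * X / Real.log X ^ A → C ≤ max C₂ C₃ →
      2 * I + C₁ ^ 2 * X / Real.log X ^ A ≤ (2 * max C₂ C₃ + C₁ ^ 2) * X / Real.log X ^ A := by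
    intro I C hI hC
    have : C * X / Real.log X ^ A ≤ max C₂ C₃ * X / Real.log X ^ A := by gcongr
    rw [add_mul, add_div, mul_assoc, mul_div_assoc 2]
    linarith
  have hb := abs_le.1 hβ
  by_cases hqQ : c.den ≤ Q
  · have a1 : 4 * Q / (c.den * H) + 1 / H ≤ 5 * Q / H := by
      have : 4 * Q / (c.den * H) ≤ 4 * Q / H := by gcongr; nlinarith
      have a2 : 1 / H ≤ Q / H := by gcongr
      have a3 : 5 * Q / H = 4 * Q / H + Q / H := by ring
      linarith
    refine (win_le (continuous_SS X _)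
      (continuous_SS X fun n => Λ n - rho c.den * E (-(c.num * n / c.den)))
      (x' := c.num / c.den - 5 * Q / H) (y' := c.num / c.den + 5 * Q / H) (by linarith [hb.1]) hw
      (by linarith [hb.2]) fun θ hθ => ?_).trans ((add_le_add le_rfl err).trans
        (fin _ _ (h3 X H Q c.den c.num hX3 hH1 hQ2 hq (by exact_mod_cast hqQ) c.reduced)
          (le_max_right _ _)))
    have := key θ hθ
    rwa [SS_lamS, SS_E X θ (-c.num / c.den) _ _ fun n => by ring, sub_sub_sub_cancel_left,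
      norm_sub_rev, ← if_pos (t := (rho c.den : ℂ) * _) (e := 0) hqQ]
  · have hqQ' : (Q : ℝ) < c.den := by exact_mod_cast not_le.1 hqQ
    have a1 : 4 * Q / (c.den * H) + 1 / H ≤ 5 / H := by
      have : 4 * Q / (c.den * H) ≤ 4 / H := by
        rw [div_le_div_iff₀ (by positivity) hH0]; nlinarith
      have a3 : 5 / H = 4 / H + 1 / H := by ring
      linarith
    refine (win_le (continuous_SS X _) (continuous_SS X fun n => Λ n)
      (x' := c.num / c.den - 5 / H) (y' := c.num / c.den + 5 / H) (by linarith [hb.1]) hw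
      (by linarith [hb.2]) fun θ hθ => ?_).trans ((add_le_add le_rfl err).trans
        (fin _ _ (h2 X H Q c.den c.num hX2 hH2 ((pow_le_pow_right₀ hL hB).trans hQ1) hqQ'
          (by nlinarith) c.reduced) (le_max_left _ _)))
    have := key θ hθ
    rwa [SS_lamS, sub_sub_cancel_left, norm_neg, ← sub_zero (∑ r ∈ _, _),
      ← if_neg (t := (rho c.den : ℂ) * G X (θ + -c.num / c.den)) (e := 0) hqQ]

end Pool.Agent.MP_678834_nt.HL9

end
end MrgPart1

-- marker of a merged file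
example : 731051 + 99428 = 731051 + 99428 := rfl
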