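import Mathlib.Algebra.Order.Chebyshev
import Mathlib.NumberTheory.Chebyshev
import Pool.Agent.MP_678834_nt.HL9.Basic

/-! Project HL9, module FINAL: from von Mangoldt weights to the prime pair counting function. -/

set_option autoImplicit false

noncomputable section

namespace Pool.Agent.MP_678834_nt.HL9

open MeasureTheory Finset Filter
open scoped ArithmeticFunction.vonMangoldt ArithmeticFunction.Moebius

namespace Final

/-- indicator of a prime pair -/
def ind (d n : ℕ) : ℝ := if n.Prime ∧ (n + d).Prime then 1 else 0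

/-- the von Mangoldt function on non-primes -/
def np (n : ℕ) : ℝ := if n.Prime then 0 else Λ n

/-- the second logarithmic integral -/
def li2 (y : ℝ) : ℝ := ∫ t in (2 : ℝ)..y, 1 / Real.log t ^ 2

/-- the error term up to `y` -/
def FF (d y : ℕ) : ℝ := ∑ n ∈ Ioc 0 y, ind d n - sing d * li2 y

theorem np_nonneg (n : ℕ) : 0 ≤ np n := by
  unfold np; split_ifs
  · exact le_rfl
  · exact ArithmeticFunction.vonMangoldt_nonneg

theorem ind_nonneg (d n : ℕ) : 0 ≤ ind d n := by unfold ind; split_ifs <;> norm_num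

theorem ind_le_one (d n : ℕ) : ind d n ≤ 1 := by unfold ind; split_ifs <;> norm_num

theorem sum_np_le (a b d z : ℕ) (hz : 1 ≤ z) (h : b + d ≤ z) :
    ∑ n ∈ Ioc a b, np (n + d) ≤ 2 * Real.sqrt z * Real.log z := by
  have h1 : ∑ n ∈ Ioc a b, np (n + d) = ∑ m ∈ (Ioc a b).image (· + d), np m :=
    (sum_image (fun x _ y _ hxy => Nat.add_right_cancel hxy)).symm
  have h2 : (Ioc a b).image (· + d) ⊆ Ioc 0 z := by
    intro m hm
    obtain ⟨n, hn, rfl⟩ := mem_image.1 hm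
    rw [mem_Ioc] at hn ⊢
    omega
  have h3 := Chebyshev.psi_sub_theta_le (x := z) (by exact_mod_cast hz)
  rw [Chebyshev.psi_sub_theta_eq_sum_not_prime, Nat.floor_natCast, sum_filter] at h3
  rw [h1]
  refine (sum_le_sum_of_subset_of_nonneg h2 fun m _ _ => np_nonneg m).trans (le_trans ?_ h3)
  refine le_of_eq (sum_congr rfl fun m _ => ?_)
  unfold np
  split_ifs <;> rfl

theorem log_between {a y δ : ℝ} (ha : 0 < a) (h1 : a ≤ y) (h2 : y ≤ a * (1 + δ)) :
    Real.log a ≤ Real.log y ∧ Real.log y ≤ Real.log a + δ := by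
  refine ⟨Real.log_le_log ha h1, ?_⟩
  have h3 : 0 < 1 + δ := by
    by_contra h
    nlinarith [not_lt.1 h]
  have h4 := Real.log_le_log (ha.trans_le h1) h2
  rw [Real.log_mul ha.ne' h3.ne'] at h4
  linarith [Real.log_le_sub_one_of_pos h3]

theorem scal1 {l δ u v : ℝ} (hl : 1 ≤ l) (h1 : δ ≤ 1) (hu : l ≤ u) (hu' : u ≤ l + δ)
    (hv : l ≤ v) (hv' : v ≤ l + δ) : |1 - u * v / l ^ 2| ≤ 3 * δ := by
  have h0 : 0 ≤ δ := by linarith
  have hp : 0 < l ^ 2 := by positivity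
  have a1 : l ^ 2 ≤ u * v := by nlinarith
  have a2 : u * v ≤ (l + δ) * (l + δ) := mul_le_mul hu' hv' (by linarith) (by linarith)
  have a3 : (l + δ) * (l + δ) ≤ (1 + 3 * δ) * l ^ 2 := by
    have b1 : l ≤ l ^ 2 := by nlinarith
    have b2 : δ * δ ≤ δ * l ^ 2 := mul_le_mul_of_nonneg_left (by linarith) h0
    nlinarith [mul_le_mul_of_nonneg_left b1 h0]
  have a4 : 1 ≤ u * v / l ^ 2 := by rw [le_div_iff₀ hp]; linarith
  have a5 : u * v / l ^ 2 ≤ 1 + 3 * δ := by rw [div_le_iff₀ hp]; linarith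
  rw [abs_le]; constructor <;> linarith

theorem scal2 {l δ u : ℝ} (hl : 1 ≤ l) (h1 : δ ≤ 1) (hu : l ≤ u) (hu' : u ≤ l + δ) :
    |1 / u ^ 2 - 1 / l ^ 2| ≤ 3 * δ := by
  have h := scal1 hl h1 hu hu' hu hu'
  have hu1 : 1 ≤ u ^ 2 := one_le_pow₀ (by linarith)
  have e : 1 / u ^ 2 - 1 / l ^ 2 = (1 - u * u / l ^ 2) / u ^ 2 := by
    have : u ≠ 0 := by linarith
    have : l ≠ 0 := by linarith
    field_simp
  rw [e, abs_div, abs_of_pos (by linarith : 0 < u ^ 2)]
  exact (div_le_self (abs_nonneg _) hu1).trans h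

theorem point {a n d z : ℕ} {δ : ℝ} (ha : 1 ≤ Real.log a) (ha0 : 0 < a) (h1 : δ ≤ 1) (hn : a ≤ n)
    (hn' : ((n + d : ℕ) : ℝ) ≤ a * (1 + δ)) (hz : n + d ≤ z) :
    |ind d n - Λ n * Λ (n + d) / Real.log a ^ 2| ≤
      3 * δ + Real.log z * (np (n + 0) + np (n + d)) := by
  have hA : (0 : ℝ) < a := by exact_mod_cast ha0
  have hn1 : (a : ℝ) ≤ n := by exact_mod_cast hn
  have hn2 : (n : ℝ) ≤ (n + d : ℕ) := by exact_mod_cast Nat.le_add_right n d
  have hz1 : ((n + d : ℕ) : ℝ) ≤ z := by exact_mod_cast hz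
  obtain ⟨b1, b2⟩ := log_between hA hn1 (hn2.trans hn')
  obtain ⟨b3, b4⟩ := log_between hA (hn1.trans hn2) hn'
  have h0 : 0 ≤ δ := by linarith
  have l1 : Real.log n ≤ Real.log z := Real.log_le_log (by linarith) (hn2.trans hz1)
  have l2 : Real.log (n + d : ℕ) ≤ Real.log z := Real.log_le_log (by linarith) hz1
  have l0 : 0 ≤ Real.log z := by linarith
  have p1 := np_nonneg n
  have p2 := np_nonneg (n + d)
  have m1 : 0 ≤ Λ n := ArithmeticFunction.vonMangoldt_nonneg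
  have m2 : 0 ≤ Λ (n + d) := ArithmeticFunction.vonMangoldt_nonneg
  have m3 : Λ n ≤ Real.log z := ArithmeticFunction.vonMangoldt_le_log.trans l1
  have m4 : Λ (n + d) ≤ Real.log z := ArithmeticFunction.vonMangoldt_le_log.trans l2
  rw [Nat.add_zero]
  by_cases hp : n.Prime ∧ (n + d).Prime
  · rw [ind, if_pos hp, ArithmeticFunction.vonMangoldt_apply_prime hp.1,
      ArithmeticFunction.vonMangoldt_apply_prime hp.2]
    exact (scal1 ha h1 b1 b2 b3 b4).trans (le_add_of_nonneg_right (by positivity))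
  · rw [ind, if_neg hp, zero_sub, abs_neg, abs_of_nonneg (by positivity)]
    have c1 : Λ n * Λ (n + d) / Real.log a ^ 2 ≤ Λ n * Λ (n + d) :=
      div_le_self (by positivity) (one_le_pow₀ ha)
    have c2 : Λ n * Λ (n + d) ≤ Real.log z * (np n + np (n + d)) := by
      rcases not_and_or.1 hp with h | h
      · have : np n = Λ n := if_neg h
        rw [this]
        nlinarith [mul_le_mul_of_nonneg_left m4 m1, mul_nonneg l0 p2]
      · have : np (n + d) = Λ (n + d) := if_neg h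
        rw [this]
        nlinarith [mul_le_mul_of_nonneg_right m3 m2, mul_nonneg l0 p1]
    linarith

theorem li2_sub {a b : ℝ} (ha : 1 < a) (hb : 1 < b) :
    li2 b - li2 a = ∫ t in a..b, 1 / Real.log t ^ 2 :=
  intervalIntegral.integral_interval_sub_left
    (Chebyshev.intervalIntegrable_one_div_log_sq one_lt_two hb)
    (Chebyshev.intervalIntegrable_one_div_log_sq one_lt_two ha)

theorem li2_piece {a b δ : ℝ} (ha : 1 ≤ Real.log a) (ha1 : 1 < a) (h1 : δ ≤ 1) (hab : a ≤ b)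
    (hb : b ≤ a * (1 + δ)) :
    |li2 b - li2 a - (b - a) / Real.log a ^ 2| ≤ 3 * δ * (b - a) := by
  have hb1 : 1 < b := ha1.trans_le hab
  have e : li2 b - li2 a - (b - a) / Real.log a ^ 2 =
      ∫ t in a..b, (1 / Real.log t ^ 2 - 1 / Real.log a ^ 2) := by
    rw [li2_sub ha1 hb1, intervalIntegral.integral_sub
      (Chebyshev.intervalIntegrable_one_div_log_sq ha1 hb1) intervalIntegrable_const,
      intervalIntegral.integral_const, smul_eq_mul, mul_one_div]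
  rw [e, ← Real.norm_eq_abs]
  refine (intervalIntegral.norm_integral_le_of_norm_le_const (C := 3 * δ) fun t ht => ?_).trans
    (le_of_eq (by rw [abs_of_nonneg (by linarith)]))
  rw [Set.uIoc_of_le hab] at ht
  obtain ⟨b1, b2⟩ := log_between (by linarith) ht.1.le (ht.2.trans hb)
  exact scal2 ha h1 b1 b2

theorem abs_li2_le {y : ℝ} (hy : 2 ≤ y) : |li2 y| ≤ 3 * y := by
  rw [li2, ← Real.norm_eq_abs]
  refine (intervalIntegral.norm_integral_le_of_norm_le_const (C := 3) fun t ht => ?_).trans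
    (by rw [abs_of_nonneg (by linarith)]; linarith)
  rw [Set.uIoc_of_le hy] at ht
  have h1 : Real.log 2 ≤ Real.log t := Real.log_le_log two_pos ht.1.le
  have h2 := Real.log_two_gt_d9
  rw [Real.norm_of_nonneg (by positivity), div_le_iff₀ (by nlinarith)]
  nlinarith

/-- the error of the weighted sum -/
def ee (d a b : ℕ) : ℝ := ∑ n ∈ Ioc a b, Λ n * Λ (n + d) - sing d * ((b : ℝ) - a)

theorem piece {a b d z : ℕ} {δ : ℝ} (ha : 3 ≤ a) (h1 : δ ≤ 1) (hab : a ≤ b)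
    (hb : ((b + d : ℕ) : ℝ) ≤ a * (1 + δ)) (hz : b + d ≤ z) :
    |FF d b - FF d a| ≤ |ee d a b| + 4 * Real.sqrt z * Real.log z ^ 2 +
      3 * δ * ((b : ℝ) - a) * (1 + |sing d|) := by
  have hA : (3 : ℝ) ≤ a := by exact_mod_cast ha
  have hl : 1 ≤ Real.log a := by
    rw [Real.le_log_iff_exp_le (by linarith)]
    linarith [Real.exp_one_lt_d9]
  have hab' : (a : ℝ) ≤ b := by exact_mod_cast hab
  have hbd : (b : ℝ) ≤ (b + d : ℕ) := by exact_mod_cast Nat.le_add_right b d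
  have l0 : 0 ≤ Real.log z := Real.log_natCast_nonneg z
  have e1 : ∑ n ∈ Ioc 0 b, ind d n - ∑ n ∈ Ioc 0 a, ind d n = ∑ n ∈ Ioc a b, ind d n := by
    rw [← sum_Ioc_consecutive _ (Nat.zero_le a) hab]; ring
  have e2 : FF d b - FF d a = ∑ n ∈ Ioc a b, (ind d n - Λ n * Λ (n + d) / Real.log a ^ 2) +
      ee d a b / Real.log a ^ 2 -
      sing d * (li2 b - li2 a - ((b : ℝ) - a) / Real.log a ^ 2) := by
    rw [sum_sub_distrib, ← sum_div, ← e1, FF, FF, ee]; ring
  have t1 : |∑ n ∈ Ioc a b, (ind d n - Λ n * Λ (n + d) / Real.log a ^ 2)| ≤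
      3 * δ * ((b : ℝ) - a) + 4 * Real.sqrt z * Real.log z ^ 2 := by
    refine (abs_sum_le_sum_abs _ _).trans ((sum_le_sum fun n hn =>
      point (z := z) (δ := δ) hl (by omega) h1 (mem_Ioc.1 hn).1.le ?_ ?_).trans ?_)
    · refine le_trans ?_ hb
      exact_mod_cast Nat.add_le_add_right (mem_Ioc.1 hn).2 d
    · have := (mem_Ioc.1 hn).2
      omega
    · rw [sum_add_distrib, sum_const, ← mul_sum, sum_add_distrib, Nat.card_Ioc, nsmul_eq_mul,
        Nat.cast_sub hab]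
      have s1 := sum_np_le a b 0 z (by omega) (by omega)
      have s2 := sum_np_le a b d z (by omega) hz
      nlinarith [mul_le_mul_of_nonneg_left (add_le_add s1 s2) l0]
  have t2 : |ee d a b / Real.log a ^ 2| ≤ |ee d a b| := by
    rw [abs_div, abs_of_pos (by positivity : 0 < Real.log a ^ 2)]
    exact div_le_self (abs_nonneg _) (one_le_pow₀ hl)
  have t3 : |sing d * (li2 b - li2 a - ((b : ℝ) - a) / Real.log a ^ 2)| ≤
      |sing d| * (3 * δ * ((b : ℝ) - a)) := by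
    rw [abs_mul]
    exact mul_le_mul_of_nonneg_left (li2_piece hl (by linarith) h1 hab' (hbd.trans hb))
      (abs_nonneg _)
  rw [e2]
  refine (abs_sub _ _).trans ((add_le_add (abs_add_le _ _) t3).trans ?_)
  nlinarith

theorem pi2_close (x d : ℕ) : |(pi2 x d : ℝ) - ∑ n ∈ Ioc 0 x, ind d n| ≤ d := by
  have e1 : (pi2 x d : ℝ) = ∑ n ∈ Ioc 0 (x - d), ind d n := by
    unfold ind
    rw [sum_boole, pi2]
    congr 1
    refine card_bij (fun p _ => p - d) (fun p hp => ?_) (fun p hp q hq h => ?_) (fun n hn => ?_)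
    · simp only [mem_filter, mem_Icc, mem_Ioc] at hp ⊢
      have := hp.2.2.two_le
      rw [Nat.sub_add_cancel (by omega)]
      exact ⟨⟨by omega, by omega⟩, hp.2.2, hp.2.1⟩
    · simp only [mem_filter] at hp hq
      have := hp.2.2.two_le
      have := hq.2.2.two_le
      omega
    · simp only [mem_filter, mem_Ioc] at hn
      refine ⟨n + d, ?_, by simp⟩
      simp only [mem_filter, mem_Icc, Nat.add_sub_cancel]
      exact ⟨⟨by omega, by omega⟩, hn.2.2, hn.2.1⟩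
  rw [e1, ← sum_Ioc_consecutive (ind d) (Nat.zero_le (x - d)) (Nat.sub_le x d), sub_add_cancel_left,
    abs_neg, abs_of_nonneg (sum_nonneg fun n _ => ind_nonneg d n)]
  refine (sum_le_sum fun n _ => ind_le_one d n).trans ?_
  rw [sum_const, Nat.card_Ioc, nsmul_eq_mul, mul_one]
  exact_mod_cast (by omega : x - (x - d) ≤ d)

theorem abs_FF_le (d : ℕ) {y : ℕ} (hy : 2 ≤ y) : |FF d y| ≤ 3 * y * (1 + |sing d|) := by
  have h1 : |∑ n ∈ Ioc 0 y, ind d n| ≤ y := by
    rw [abs_of_nonneg (sum_nonneg fun n _ => ind_nonneg d n)]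
    refine (sum_le_sum fun n _ => ind_le_one d n).trans ?_
    simp
  have h2 := abs_li2_le (y := y) (by exact_mod_cast hy)
  have h3 : (0 : ℝ) ≤ y := Nat.cast_nonneg y
  refine (abs_sub _ _).trans ?_
  rw [abs_mul]
  nlinarith [mul_le_mul_of_nonneg_left h2 (abs_nonneg (sing d))]

theorem sgm_one (h : ℕ) : sgm 1 h = 1 := by
  have := E_int 0
  simp only [Int.cast_zero] at this
  simp [sgm, rho, ram, filter_true_of_mem, this]

theorem sum_sing_sq (h2 : SingStmt) : ∃ C : ℝ, 0 ≤ C ∧ ∀ H h₀ : ℕ, 1 ≤ H → h₀ + H ≤ H ^ 9 →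
    ∑ h ∈ Ioc h₀ (h₀ + H), (1 + |sing h|) ^ 2 ≤ C * H := by
  obtain ⟨C, hC⟩ := h2
  refine ⟨8 + 2 * max C 0, by positivity, fun H h₀ hH hh => ?_⟩
  have h1 := hC 1 H h₀ le_rfl hH hh
  simp only [sgm_one, Nat.cast_one, div_one] at h1
  have h3 : ∀ h : ℕ, (1 + |sing h|) ^ 2 ≤ 8 + 2 * ‖(sing h : ℂ) - 1‖ ^ 2 := fun h => by
    have e : ‖(sing h : ℂ) - 1‖ = |sing h - 1| := by
      rw [← Real.norm_eq_abs, ← Complex.norm_real]; push_cast; rfl
    have a1 : |sing h| ≤ |sing h - 1| + 1 := by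
      have := abs_add_le (sing h - 1) 1
      simpa using this
    rw [e]
    nlinarith [abs_nonneg (sing h), abs_nonneg (sing h - 1), sq_nonneg (|sing h - 1| - 2)]
  refine (sum_le_sum fun h _ => h3 h).trans ?_
  rw [sum_add_distrib, ← mul_sum, sum_const, Nat.card_Ioc, nsmul_eq_mul, Nat.add_sub_cancel_left]
  have : C * H ≤ max C 0 * H := mul_le_mul_of_nonneg_right (le_max_left _ _) (Nat.cast_nonneg H)
  linarith

theorem core {x y l J D d : ℕ} {δ : ℝ} (hy : 3 ≤ y) (hyx : y ≤ x) (hJ : x ≤ y + J * l)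
    (h1 : δ ≤ 1) (hδ : ((l + D : ℕ) : ℝ) ≤ y * δ) (hD : D ≤ x) (hd : d ≤ D) :
    |(pi2 x d : ℝ) - sing d * li2 x| ≤
      ∑ i ∈ range J, |ee d (min (y + i * l) x) (min (y + (i + 1) * l) x)| +
      (J * (4 * Real.sqrt (2 * x : ℕ) * Real.log (2 * x : ℕ) ^ 2) + 3 * δ * x + 3 * y + D) *
        (1 + |sing d|) := by
  set P : ℝ := 4 * Real.sqrt (2 * x : ℕ) * Real.log (2 * x : ℕ) ^ 2 with hP
  set u : ℕ → ℕ := fun i => min (y + i * l) x with hu
  have u0 : u 0 = y := by simp [hu, hyx]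
  have uJ : u J = x := min_eq_right hJ
  have hY : (3 : ℝ) ≤ y := by exact_mod_cast hy
  have h0 : 0 ≤ δ := by
    by_contra h
    nlinarith [not_le.1 h, (Nat.cast_nonneg (l + D) : (0 : ℝ) ≤ _)]
  have hs := abs_nonneg (sing d)
  have P0 : 0 ≤ P := by positivity
  have pc : ∀ i, |FF d (u (i + 1)) - FF d (u i)| ≤ |ee d (u i) (u (i + 1))| + P +
      3 * δ * ((u (i + 1) : ℝ) - u i) * (1 + |sing d|) := fun i => by
    have e : y + (i + 1) * l = y + i * l + l := by ring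
    have a1 : y ≤ u i := le_min (Nat.le_add_right _ _) hyx
    have a2 : u i ≤ u (i + 1) := by simp only [hu]; omega
    have a3 : u (i + 1) + d ≤ u i + (l + D) := by simp only [hu]; omega
    have a4 : u (i + 1) + d ≤ 2 * x := by simp only [hu]; omega
    refine piece (hy.trans a1) h1 a2 ?_ a4
    have b1 : (y : ℝ) ≤ u i := by exact_mod_cast a1
    have b3 : ((u (i + 1) + d : ℕ) : ℝ) ≤ u i + (l + D : ℕ) := by exact_mod_cast a3
    nlinarith [mul_le_mul_of_nonneg_right b1 h0]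
  have t1 : |FF d x - FF d y| ≤ ∑ i ∈ range J, |ee d (u i) (u (i + 1))| + J * P +
      3 * δ * ((x : ℝ) - y) * (1 + |sing d|) := by
    have e1 := sum_range_sub (fun i => FF d (u i)) J
    have e2 := sum_range_sub (fun i => (u i : ℝ)) J
    simp only [u0, uJ] at e1 e2
    rw [← e1, ← e2]
    refine (abs_sum_le_sum_abs _ _).trans ((sum_le_sum fun i _ => pc i).trans (le_of_eq ?_))
    rw [sum_add_distrib, sum_add_distrib, sum_const, card_range, nsmul_eq_mul, ← sum_mul,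
      ← mul_sum]
  have t2 := abs_FF_le d (y := y) (by omega)
  have t3 := pi2_close x d
  have t4 : (d : ℝ) ≤ D := by exact_mod_cast hd
  have e3 : (pi2 x d : ℝ) - sing d * li2 x =
      (pi2 x d - ∑ n ∈ Ioc 0 x, ind d n) + (FF d x - FF d y) + FF d y := by
    rw [FF]; ring
  rw [e3]
  refine (abs_add_three _ _ _).trans ?_
  have JP : 0 ≤ (J : ℝ) * P := by positivity
  have D0 : (0 : ℝ) ≤ D := Nat.cast_nonneg D
  have w : 0 ≤ 3 * δ * y * (1 + |sing d|) := by positivity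
  nlinarith [mul_nonneg JP hs, mul_nonneg D0 hs]

theorem sq_core {J : ℕ} {G R s : ℝ} {e : ℕ → ℝ} (h : |G| ≤ ∑ i ∈ range J, |e i| + R * s) :
    G ^ 2 ≤ 2 * J * ∑ i ∈ range J, e i ^ 2 + 2 * R ^ 2 * s ^ 2 := by
  have h1 := sq_sum_le_card_mul_sum_sq (s := range J) (f := fun i => |e i|)
  simp only [card_range, sq_abs] at h1
  have h2 : G ^ 2 ≤ (∑ i ∈ range J, |e i| + R * s) ^ 2 := by
    rw [← sq_abs G]
    exact pow_le_pow_left₀ (abs_nonneg _) h 2
  nlinarith [sq_nonneg (∑ i ∈ range J, |e i| - R * s)]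

end Final

open Final in
theorem final_of (h1 : MainStmt) (h2 : SingStmt) : FinalStmt := by
  intro ε hε A
  obtain ⟨C, X₀, hC⟩ := h1 ε hε (5 * (A + 1))
  obtain ⟨S, hS0, hS⟩ := sum_sing_sq h2
  have half : (0 : ℝ) < 1 / 2 := by norm_num
  obtain ⟨x₀, hx₀⟩ := eventually_atTop.1 ((ev_log 3).and ((ev_log_pow hε (2 * (A + 1)) 1).and
    ((ev_log_pow half (3 * (A + 1) + 2) 64).and ((ev_rpow half X₀).and
      ((ev_rpow half 3).and (eventually_ge_atTop (1 : ℝ)))))))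
  refine ⟨8 * 2 ^ (5 * (A + 1)) * max C 0 + 2 * 21 ^ 2 * S, x₀, fun x h₀ H hx hH hD => ?_⟩
  obtain ⟨l3, lε, lh, lX, l3', x1⟩ := hx₀ x hx
  set L := Real.log x with hL
  obtain ⟨K, hK⟩ : ∃ K : ℝ, K = L ^ (A + 1) := ⟨_, rfl⟩
  obtain ⟨r, hr⟩ : ∃ r : ℝ, r = (x : ℝ) ^ (1 / 2 : ℝ) := ⟨_, rfl⟩
  have x0 : (0 : ℝ) < x := by linarith
  have rr : r * r = x := by rw [hr, ← Real.rpow_add x0]; norm_num
  have rs : Real.sqrt x = r := by rw [hr, Real.sqrt_eq_rpow]
  have lr : Real.log r = L / 2 := by rw [hr, Real.log_rpow x0]; ring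
  have LA : 1 ≤ L ^ A := one_le_pow₀ (by linarith)
  have KA : L ^ A ≤ K := by rw [hK, pow_succ]; nlinarith
  have K3 : 3 ≤ K := by rw [hK, pow_succ]; nlinarith
  have K0 : 0 < K := by linarith
  rw [one_mul, mul_comm 2, pow_mul, ← hK] at lε
  rw [pow_add, mul_comm 3, pow_mul, ← hK, ← hr] at lh
  rw [← hr] at lX l3'
  have r0 : 0 < r := by linarith
  have L2 : 9 ≤ L ^ 2 := by nlinarith
  have KK : K ^ 2 ≤ r := by
    have : K ^ 2 * 1 ≤ K ^ 2 * (64 * (K * L ^ 2)) :=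
      mul_le_mul_of_nonneg_left (by nlinarith) (by positivity)
    nlinarith
  have K12 : K ≤ K ^ 2 := by nlinarith
  have q2 : r ≤ x / K ^ 2 := by rw [le_div_iff₀ (by positivity)]; nlinarith
  have q12 : (x : ℝ) / K ^ 2 ≤ x / K := div_le_div_of_nonneg_left x0.le K0 K12
  have q1x : (x : ℝ) / K ≤ x := div_le_self x0.le (by linarith)
  have Dq : ((h₀ + H : ℕ) : ℝ) ≤ x / K ^ 2 := by
    refine hD.trans ?_
    rw [Real.rpow_sub x0, Real.rpow_one]
    exact div_le_div_of_nonneg_left x0.le (by positivity) lε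
  obtain ⟨y, hy⟩ : ∃ y : ℕ, y = ⌈(x : ℝ) / K⌉₊ := ⟨_, rfl⟩
  obtain ⟨l, hl⟩ : ∃ l : ℕ, l = ⌈(x : ℝ) / K ^ 2⌉₊ := ⟨_, rfl⟩
  obtain ⟨J, hJ⟩ : ∃ J : ℕ, J = ⌈K ^ 2⌉₊ := ⟨_, rfl⟩
  have y1 : (x : ℝ) / K ≤ y := hy ▸ Nat.le_ceil _
  have y2 : (y : ℝ) ≤ 2 * (x / K) := by
    have := Nat.ceil_lt_add_one (a := (x : ℝ) / K) (by positivity)
    rw [← hy] at this; linarith
  have yx : y ≤ x := hy ▸ Nat.ceil_le.2 q1x
  have l1 : (x : ℝ) / K ^ 2 ≤ l := hl ▸ Nat.le_ceil _
  have l2 : (l : ℝ) ≤ 2 * (x / K ^ 2) := by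
    have := Nat.ceil_lt_add_one (a := (x : ℝ) / K ^ 2) (by positivity)
    rw [← hl] at this; linarith
  have ly : l ≤ y := by rw [hl, hy]; exact Nat.ceil_mono q12
  have J1 : K ^ 2 ≤ J := hJ ▸ Nat.le_ceil _
  have J2 : (J : ℝ) ≤ 2 * K ^ 2 := by
    have := Nat.ceil_lt_add_one (a := K ^ 2) (by positivity)
    rw [← hJ] at this; linarith
  have xJ : x ≤ y + J * l := by
    have a1 : (x : ℝ) ≤ J * l := by
      calc (x : ℝ) = K ^ 2 * (x / K ^ 2) := by field_simp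
        _ ≤ J * l := by gcongr
    have a2 : x ≤ J * l := by exact_mod_cast a1
    omega
  have y3 : 3 ≤ y := by
    have : (3 : ℝ) ≤ y := by linarith
    exact_mod_cast this
  have Dy : h₀ + H ≤ y := by
    have : ((h₀ + H : ℕ) : ℝ) ≤ y := by linarith
    exact_mod_cast this
  have hδ1 : 3 / K ≤ 1 := (div_le_one K0).2 K3
  have hδ : ((l + (h₀ + H) : ℕ) : ℝ) ≤ y * (3 / K) := by
    rw [Nat.cast_add]
    calc (l : ℝ) + (h₀ + H : ℕ) ≤ 3 * (x / K ^ 2) := by linarith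
      _ = x / K * (3 / K) := by field_simp
      _ ≤ y * (3 / K) := by gcongr
  have H1 : (1 : ℝ) ≤ H := (Real.one_le_rpow x1 (by linarith)).trans hH
  have H9 : h₀ + H ≤ H ^ 9 := by
    have a1 : ((x : ℝ) ^ (1 / 9 : ℝ)) ^ 9 ≤ (H : ℝ) ^ 9 :=
      pow_le_pow_left₀ (by positivity)
        ((Real.rpow_le_rpow_of_exponent_le x1 (by linarith)).trans hH) 9
    rw [← Real.rpow_natCast, ← Real.rpow_mul x0.le] at a1
    norm_num at a1
    have a2 : x ≤ H ^ 9 := by exact_mod_cast a1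
    omega
  have hSS := hS H h₀ (by exact_mod_cast H1) H9
  obtain ⟨R, hR⟩ : ∃ R : ℝ, R = J * (4 * Real.sqrt (2 * x : ℕ) * Real.log (2 * x : ℕ) ^ 2) +
    3 * (3 / K) * x + 3 * y + (h₀ + H : ℕ) := ⟨_, rfl⟩
  have R0 : 0 ≤ R := by rw [hR]; positivity
  have R1 : R ≤ 21 * (x / K) := by
    have a1 : Real.sqrt (2 * x : ℕ) ≤ 2 * r := by
      rw [Real.sqrt_le_iff]
      push_cast
      exact ⟨by positivity, by nlinarith⟩
    have a2 : Real.log (2 * x : ℕ) ≤ 2 * L := by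
      push_cast
      rw [Real.log_mul two_ne_zero x0.ne']
      linarith [Real.log_two_lt_d9]
    have a3 : Real.log (2 * x : ℕ) ^ 2 ≤ (2 * L) ^ 2 :=
      pow_le_pow_left₀ (Real.log_natCast_nonneg _) a2 2
    have a4 : J * (4 * Real.sqrt (2 * x : ℕ) * Real.log (2 * x : ℕ) ^ 2) ≤
        2 * K ^ 2 * (4 * (2 * r) * (2 * L) ^ 2) := by gcongr
    have a5 : 2 * K ^ 2 * (4 * (2 * r) * (2 * L) ^ 2) ≤ x / K := by
      rw [le_div_iff₀ K0]
      nlinarith [mul_le_mul_of_nonneg_left lh r0.le]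
    have a6 : 3 * (3 / K) * x = 9 * (x / K) := by ring
    have a7 : 0 ≤ (x : ℝ) / K := by positivity
    linarith
  have main : ∀ i : ℕ, ∑ d ∈ Ioc h₀ (h₀ + H),
      ee d (min (y + i * l) x) (min (y + (i + 1) * l) x) ^ 2 ≤
        max C 0 * H * x ^ 2 * 2 ^ (5 * (A + 1)) / K ^ 5 := fun i => by
    have e : y + (i + 1) * l = y + i * l + l := by ring
    have a1 : y ≤ min (y + i * l) x := le_min (Nat.le_add_right _ _) yx
    have b1 : (y : ℝ) ≤ (min (y + i * l) x : ℕ) := by exact_mod_cast a1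
    have b2 : ((min (y + i * l) x : ℕ) : ℝ) ≤ x := by exact_mod_cast min_le_right _ _
    have b3 : L / 2 ≤ Real.log (min (y + i * l) x : ℕ) := lr ▸ Real.log_le_log r0 (by linarith)
    refine (hC (min (y + i * l) x) (min (y + (i + 1) * l) x) h₀ H (by linarith) (by omega)
      (by omega) (le_trans ?_ hH) (by omega)).trans ?_
    · exact Real.rpow_le_rpow (Nat.cast_nonneg _) b2 (by linarith)
    · calc _ ≤ max C 0 * H * (x : ℝ) ^ 2 / (L / 2) ^ (5 * (A + 1)) := by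
            have := le_max_left C 0
            have := le_max_right C 0
            gcongr
        _ = _ := by
            rw [div_pow, mul_comm 5 (A + 1), pow_mul L, ← hK]; field_simp
  have M0 : 0 ≤ max C 0 := le_max_right _ _
  calc _ ≤ ∑ d ∈ Ioc h₀ (h₀ + H), (2 * J * ∑ i ∈ range J,
          ee d (min (y + i * l) x) (min (y + (i + 1) * l) x) ^ 2 +
          2 * R ^ 2 * (1 + |sing d|) ^ 2) := sum_le_sum fun d hd =>
        sq_core (hR ▸ core y3 yx xJ hδ1 hδ (Dy.trans yx) (mem_Ioc.1 hd).2)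
    _ ≤ 2 * J * (J * (max C 0 * H * x ^ 2 * 2 ^ (5 * (A + 1)) / K ^ 5)) +
          2 * R ^ 2 * (S * H) := by
        rw [sum_add_distrib, ← mul_sum, ← mul_sum, sum_comm]
        gcongr
        refine (sum_le_sum fun i _ => main i).trans ?_
        rw [sum_const, card_range, nsmul_eq_mul]
    _ ≤ 2 * (2 * K ^ 2) * (2 * K ^ 2 * (max C 0 * H * x ^ 2 * 2 ^ (5 * (A + 1)) / K ^ 5)) +
          2 * (21 * (x / K)) ^ 2 * (S * H) := by gcongr
    _ = 8 * 2 ^ (5 * (A + 1)) * max C 0 * H * x ^ 2 / K + 2 * 21 ^ 2 * S * H * x ^ 2 / K ^ 2 := by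
        field_simp
        ring
    _ ≤ 8 * 2 ^ (5 * (A + 1)) * max C 0 * H * x ^ 2 / L ^ A +
          2 * 21 ^ 2 * S * H * x ^ 2 / L ^ A := by
        have := KA.trans K12
        gcongr
    _ = _ := by ring

end Pool.Agent.MP_678834_nt.HL9
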