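import Mathlib.Data.Fin.Tuple.Finset
import Mathlib.Algebra.Order.Chebyshev
import Pool.Agent.MP_678834_nt.HL9.Basic
import Pool.Agent.MP_3d0d30_nt.Six.Small

-- ======== part 0: formerly Pool.Agent.MP_678834_nt.HL9.Tools1
section MrgPart0

/-! Project HL9: Fourier inversion for bumps, the mean value theorem, smooth geometric sums. -/

set_option autoImplicit false

noncomputable section

namespace Pool.Agent.MP_678834_nt.HL9

open MeasureTheory Finset Filter
open scoped FourierTransform ComplexConjugate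
open Pool.Agent.MP_db1c88_nt.z94 (ei bmp blk DP wide wt lev)
open Pool.Agent.MP_3d0d30_nt.Six (E ck)
open Pool.Agent.MP_db1c88_nt
open Pool.Agent.MP_3d0d30_nt

theorem fi : FIStmt := by
  intro V hV
  have hp := Real.pi_pos
  have hc : HasCompactSupport fun x => (V x : ℂ) :=
    hV.hasCompactSupport.comp_left (g := fun x : ℝ => (x : ℂ)) Complex.ofReal_zero
  have hd : ContDiff ℝ (⊤ : ℕ∞) fun x => (V x : ℂ) := Complex.ofRealCLM.contDiff.comp hV.1
  set f : SchwartzMap ℝ ℂ := hc.toSchwartzMap hd with hf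
  have hfc : ∀ x, f x = (V x : ℂ) := fun x => rfl
  set g : SchwartzMap ℝ ℂ := 𝓕 f with hg
  obtain ⟨C0, -, h0⟩ := g.decay 0 0
  obtain ⟨C2, -, h2⟩ := g.decay 2 0
  simp only [pow_zero, one_mul, norm_iteratedFDeriv_zero] at h0 h2
  have hb : ∀ w, ‖g w‖ ≤ (C0 + C2) * ck w := fun w => by
    have h3 := h0 w
    have h4 := h2 w
    rw [Real.norm_eq_abs, sq_abs] at h4
    unfold ck
    rw [mul_one_div, le_div_iff₀ (by positivity)]
    linarith
  have hC : 0 ≤ C0 + C2 := by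
    have := (norm_nonneg _).trans (hb 0)
    simpa using this
  refine ⟨fun u => (1 / (2 * Real.pi) : ℝ) * g (u / (2 * Real.pi)),
    1 / (2 * Real.pi) * ((C0 + C2) * (2 * Real.pi) ^ 2), by fun_prop, fun u => ?_, fun y => ?_⟩
  · rw [norm_mul, Complex.norm_real, Real.norm_of_nonneg (by positivity), mul_assoc, mul_assoc]
    gcongr
    refine (hb _).trans ?_
    gcongr
    refine Six.ck_le_mul (by linarith [Real.pi_gt_three]) (le_of_eq ?_)
    rw [abs_div, abs_of_pos (by positivity : 0 < 2 * Real.pi)]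
    field_simp
  · have h := congrFun (f.continuous.fourierInv_fourier_eq f.integrable g.integrable) y
    rw [Real.fourierInv_eq', hfc] at h
    rw [← h]
    have e : ∀ u : ℝ, ((1 / (2 * Real.pi) : ℝ) : ℂ) * g (u / (2 * Real.pi)) * ei (u * y) =
        (fun w : ℝ => ((1 / (2 * Real.pi) : ℝ) : ℂ) * (g w * E (w * y))) (u / (2 * Real.pi)) := by
      intro u
      rw [ei_eq_E, mul_assoc]
      congr 3
      ring
    simp only [e]
    rw [Measure.integral_comp_div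
      (fun w : ℝ => ((1 / (2 * Real.pi) : ℝ) : ℂ) * (g w * E (w * y))) (2 * Real.pi),
      integral_const_mul, abs_of_pos (by positivity), Complex.real_smul, ← mul_assoc,
      ← Complex.ofReal_mul, mul_one_div_cancel (by positivity), Complex.ofReal_one, one_mul]
    congr 1
    ext w
    rw [smul_eq_mul, mul_comm]
    simp only [RCLike.inner_apply, conj_trivial, E]
    congr 2
    push_cast; ring

namespace Tools1

theorem schur {ι : Type} (s : Finset ι) (a : ι → ℂ) (k : ι → ι → ℝ) {B : ℝ}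
    (h0 : ∀ i j, 0 ≤ k i j) (hs : ∀ i j, k i j = k j i) (hB : ∀ i ∈ s, ∑ j ∈ s, k i j ≤ B) :
    ‖∑ i ∈ s, ∑ j ∈ s, a i * conj (a j) * (k i j : ℂ)‖ ≤ B * ∑ i ∈ s, ‖a i‖ ^ 2 := by
  have h1 : ‖∑ i ∈ s, ∑ j ∈ s, a i * conj (a j) * (k i j : ℂ)‖ ≤
      ∑ i ∈ s, ∑ j ∈ s, (‖a i‖ ^ 2 * k i j / 2 + ‖a j‖ ^ 2 * k j i / 2) := by
    refine (norm_sum_le _ _).trans (sum_le_sum fun i _ => (norm_sum_le _ _).trans
      (sum_le_sum fun j _ => ?_))
    rw [norm_mul, norm_mul, Complex.norm_conj, Complex.norm_real, Real.norm_of_nonneg (h0 i j),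
      ← hs i j]
    nlinarith [mul_nonneg (h0 i j) (sq_nonneg (‖a i‖ - ‖a j‖))]
  refine h1.trans ?_
  simp only [sum_add_distrib]
  rw [sum_comm (s := s) (t := s) (f := fun i j => ‖a j‖ ^ 2 * k j i / 2), ← sum_add_distrib,
    mul_sum]
  refine sum_le_sum fun i hi => ?_
  rw [← sum_div, ← mul_sum, add_halves, mul_comm B]
  exact mul_le_mul_of_nonneg_left (hB i hi) (sq_nonneg _)

theorem rowsum (s : Finset ℕ) (u : ℝ) {Λ : ℝ} (hΛ : 1 ≤ Λ) :
    ∑ m ∈ s, ck ((u - m) / Λ) ≤ 10 * Λ := by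
  have h := Six.Kn.sepsumL (s.image fun m : ℕ => (m : ℝ)) Λ u (fun x hx y hy hxy => ?_) hΛ
  · rwa [sum_image fun x _ y _ h => Nat.cast_injective h] at h
  · obtain ⟨p, -, rfl⟩ := mem_image.1 hx
    obtain ⟨q, -, rfl⟩ := mem_image.1 hy
    have h1 : (p : ℤ) - q ≠ 0 := fun h => hxy (by
      have : p = q := by omega
      rw [this])
    have h2 := Int.one_le_abs h1
    exact_mod_cast h2

/-- a bump in the logarithmic variable, extended by zero -/
def ext (W : ℝ → ℝ) (N x : ℝ) : ℝ := if 0 < x then W (Real.log x - Real.log N) else 0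

theorem ext_small {W : ℝ → ℝ} (h : Bump W) {N x : ℝ} (hN : 0 < N) (hx : x < N / 3) :
    ext W N x = 0 := by
  unfold ext
  split_ifs with h0
  · refine h.2 _ fun h1 => ?_
    have h2 := Real.log_lt_log h0 hx
    rw [Real.log_div hN.ne' (by norm_num)] at h2
    have h3 : 1 ≤ Real.log 3 := by
      rw [Real.le_log_iff_exp_le (by norm_num)]; linarith [Real.exp_one_lt_d9]
    linarith [h1.1]
  · rfl

theorem ext_large {W : ℝ → ℝ} (h : Bump W) {N x : ℝ} (hN : 0 < N) (hx : 27 * N ≤ x) :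
    ext W N x = 0 := by
  unfold ext
  split_ifs with h0
  · refine h.2 _ fun h1 => ?_
    have h2 := Real.log_le_log (by positivity) hx
    rw [Real.log_mul (by norm_num) hN.ne', show (27 : ℝ) = 3 ^ 3 by norm_num, Real.log_pow] at h2
    have h3 : 1 ≤ Real.log 3 := by
      rw [Real.le_log_iff_exp_le (by norm_num)]; linarith [Real.exp_one_lt_d9]
    push_cast at h2
    linarith [h1.2]
  · rfl

theorem ext_deriv {W : ℝ → ℝ} (h : Bump W) : ∃ W1 : ℝ → ℝ, Bump W1 ∧ ∀ N x : ℝ, 0 < N →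
    HasDerivAt (ext W N) (ext W1 N x / N) x := by
  obtain ⟨V1, V2, A, -, b1, -, hd⟩ := h.derivs
  have b2 : Bump fun y => Real.exp (-y) * V1 y := b1.mul (Real.contDiff_exp.comp contDiff_neg)
  refine ⟨_, b2, fun N x hN => ?_⟩
  rcases lt_or_ge x (N / 3) with hx | hx
  · rw [ext_small b2 hN hx, zero_div]
    refine (hasDerivAt_const x (0 : ℝ)).congr_of_eventuallyEq ?_
    filter_upwards [Iio_mem_nhds hx] with y hy using ext_small h hN hy
  · have hx0 : 0 < x := lt_of_lt_of_le (by positivity) hx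
    have h1 := (hd (Real.log x - Real.log N)).1.comp x
      ((Real.hasDerivAt_log hx0.ne').sub_const (Real.log N))
    have e : ext (fun y => Real.exp (-y) * V1 y) N x / N =
        V1 (Real.log x - Real.log N) * x⁻¹ := by
      rw [ext, if_pos hx0, neg_sub, Real.exp_sub, Real.exp_log hN, Real.exp_log hx0]
      field_simp
    rw [e]
    refine h1.congr_of_eventuallyEq ?_
    filter_upwards [Ioi_mem_nhds hx0] with y hy using if_pos hy

theorem step_le {f f1 : ℝ → ℝ} {B : ℝ} (h : ∀ x, HasDerivAt f (f1 x) x) (hB : ∀ x, |f1 x| ≤ B)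
    (x : ℝ) : |f (x - 1) - f x| ≤ B := by
  obtain ⟨c, -, hc⟩ := exists_hasDerivAt_eq_slope f f1 (by linarith : x - 1 < x)
    (fun y _ => (h y).continuousAt.continuousWithinAt) fun y _ => h y
  rw [sub_sub_cancel, div_one] at hc
  rw [abs_sub_comm, ← hc]
  exact hB c

theorem second_diff {W : ℝ → ℝ} (h : Bump W) : ∃ A : ℝ, 0 ≤ A ∧ ∀ N x : ℝ, 0 < N →
    |(ext W N (x - 1 - 1) - ext W N (x - 1)) - (ext W N (x - 1) - ext W N x)| ≤ A / N ^ 2 := by
  obtain ⟨W1, b1, d1⟩ := ext_deriv h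
  obtain ⟨W2, b2, d2⟩ := ext_deriv b1
  obtain ⟨V1, V2, A, hA, -, -, hb⟩ := b2.derivs
  refine ⟨A, by linarith, fun N x hN => ?_⟩
  refine step_le (f := fun y => ext W N (y - 1) - ext W N y)
    (f1 := fun y => ext W1 N (y - 1) / N - ext W1 N y / N)
    (fun y => ((d1 N (y - 1) hN).comp_sub_const y 1).sub (d1 N y hN)) (fun y => ?_) x
  refine step_le (f := fun y => ext W1 N y / N) (fun y => (d2 N y hN).div_const N) (fun y => ?_) y
  rw [div_div, ← sq, abs_div, abs_of_pos (by positivity : 0 < N ^ 2)]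
  gcongr
  unfold ext
  split_ifs
  · exact (hb _).2.2.1
  · rw [abs_zero]; linarith

theorem abel (g : ℝ → ℝ) (z : ℂ) (M : ℕ) : (z - 1) * ∑ n ∈ range M, (g n : ℂ) * z ^ n =
    ∑ n ∈ range M, ((g (n - 1) - g n : ℝ) : ℂ) * z ^ n + g (M - 1) * z ^ M - g (-1) := by
  induction M with
  | zero => simp
  | succ M ih =>
    rw [sum_range_succ, sum_range_succ, mul_add, ih]
    push_cast
    rw [add_sub_cancel_right]
    ring

theorem E_nat_mul (n : ℕ) (θ : ℝ) : E (n * θ) = E θ ^ n := by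
  induction n with
  | zero => simp
  | succ n ih => rw [pow_succ, ← ih, ← Six.E_add]; congr 1; push_cast; ring

theorem le_norm_E_sub_one {θ δ : ℝ} (h : ∀ k : ℤ, δ ≤ |θ - k|) : 4 * δ ≤ ‖E θ - 1‖ := by
  have hp := Real.pi_pos
  set x := θ - round θ with hx
  have h1 : |x| ≤ 1 / 2 := abs_sub_round θ
  have h2 : E θ = Complex.exp (Complex.I * ((2 * Real.pi * x : ℝ) : ℂ)) := by
    rw [show θ = x + (round θ : ℤ) by rw [hx]; ring, Six.E_add, E_int, mul_one, E]
    congr 1; push_cast; ring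
  have h3 : |Real.pi * x| = Real.pi * |x| := by rw [abs_mul, abs_of_pos hp]
  have h4 := Real.mul_abs_le_abs_sin (x := Real.pi * x) (by rw [h3]; nlinarith)
  rw [h3, ← mul_assoc, div_mul_cancel₀ _ hp.ne'] at h4
  rw [h2, Complex.norm_exp_I_mul_ofReal_sub_one, Real.norm_eq_abs, abs_mul, abs_two,
    show 2 * Real.pi * x / 2 = Real.pi * x by ring]
  linarith [h (round θ)]

end Tools1

theorem mv : MVStmt := by
  refine ⟨400, fun s a K T hT hs => ?_⟩
  have hp := Real.pi_gt_three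
  have hp' := Real.pi_lt_d2
  rcases s.eq_empty_or_nonempty with rfl | ⟨n0, hn0⟩
  · simp [DP]
  have hK : 1 ≤ K := le_trans (by exact_mod_cast (hs n0 hn0).1) (hs n0 hn0).2
  set θ : ℕ → ℝ := fun n => Real.log n / (2 * Real.pi) with hθ
  have hD : ∀ t, DP s a t = ∑ n ∈ s, a n * E (t * θ n) := fun t =>
    sum_congr rfl fun n _ => by rw [ei_eq_E, hθ, mul_div_assoc]
  have i1 := Six.Kn.intms (Six.integrable_ck_div hT.ne') s a θ
  have h1 := Six.Kn.msC s a θ hT
  simp only [← hD] at i1 h1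
  set Λ := 1 + 2 * Real.pi * K / T with hΛ
  have hq : 0 < 2 * Real.pi * K / T := by positivity
  have hΛ1 : 1 ≤ Λ := by linarith
  have h2 := Tools1.schur s a (fun i j => Real.exp (-(2 * Real.pi * T * |θ i - θ j|)))
    (B := 10 * Λ) (fun _ _ => (Real.exp_pos _).le) (fun i j => by rw [abs_sub_comm]) fun i hi => by
      refine le_trans (sum_le_sum fun j hj => ?_) (Tools1.rowsum s i hΛ1)
      refine le_trans ?_ (Six.exp_le_ck _)
      have h3 := z94.abs_sub_le_log (x := i) (y := j) (by exact_mod_cast (hs i hi).1)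
        (by exact_mod_cast (hs j hj).1) (hs i hi).2 (hs j hj).2
      rw [Real.exp_le_exp, neg_le_neg_iff, mul_assoc (2 * Real.pi)]
      gcongr
      rw [hθ, ← sub_div, abs_div, abs_div, abs_of_pos (by linarith : 0 < Λ),
        abs_of_pos (by positivity : 0 < 2 * Real.pi), div_le_iff₀ (by linarith)]
      refine h3.trans ?_
      calc K * |Real.log i - Real.log j|
          = T * (|Real.log i - Real.log j| / (2 * Real.pi)) * (2 * Real.pi * K / T) := by
            field_simp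
        _ ≤ _ := by gcongr; linarith
  have hS : 0 ≤ ∑ n ∈ s, ‖a n‖ ^ 2 := by positivity
  have h4 : ∫ t : ℝ, ck (t / T) * ‖DP s a t‖ ^ 2 ≤
      Real.pi * T * (10 * Λ * ∑ n ∈ s, ‖a n‖ ^ 2) := by
    have h3 := congrArg norm h1
    rw [Complex.norm_real, norm_mul, ← Complex.ofReal_mul, Complex.norm_real,
      Real.norm_of_nonneg (by positivity : 0 ≤ Real.pi * T)] at h3
    refine (le_abs_self _).trans (le_of_eq_of_le h3 ?_)
    gcongr
  have hc : Continuous fun t => ‖DP s a t‖ ^ 2 := by fun_prop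
  rw [intervalIntegral.integral_of_le (by linarith)]
  calc _ ≤ ∫ t in Set.Ioc (-T) T, 2 * (ck (t / T) * ‖DP s a t‖ ^ 2) := by
        refine setIntegral_mono_on (hc.integrableOn_Icc.mono_set Set.Ioc_subset_Icc_self)
          (i1.const_mul _).integrableOn measurableSet_Ioc fun t ht => ?_
        have h5 : 1 / 2 ≤ ck (t / T) := Six.half_le_ck (by
          rw [abs_div, abs_of_pos hT, div_le_one hT]; exact abs_le.2 ⟨ht.1.le, ht.2⟩)
        nlinarith [sq_nonneg ‖DP s a t‖]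
    _ ≤ ∫ t, 2 * (ck (t / T) * ‖DP s a t‖ ^ 2) :=
        setIntegral_le_integral (i1.const_mul _) (Eventually.of_forall fun t => by
          have := Six.ck_nonneg (t / T)
          positivity)
    _ ≤ 2 * (Real.pi * T * (10 * Λ * ∑ n ∈ s, ‖a n‖ ^ 2)) := by rw [integral_const_mul]; gcongr
    _ = 20 * Real.pi * (T + 2 * Real.pi * K) * ∑ n ∈ s, ‖a n‖ ^ 2 := by
        rw [hΛ]; field_simp; ring
    _ ≤ _ := by
        gcongr ?_ * _
        have : Real.pi * Real.pi ≤ 10 := by nlinarith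
        nlinarith

theorem s1 : S1Stmt := by
  intro V hV
  obtain ⟨A, hA, h2⟩ := Tools1.second_diff hV
  refine ⟨2 * A, fun N θ δ S hN hδ hθ hS hS' => ?_⟩
  have hN0 : 0 < N := by linarith
  set M := ⌈27 * N⌉₊ + 2 with hM
  have hM1 : 27 * N + 2 ≤ M := by rw [hM]; push_cast; linarith [Nat.le_ceil (27 * N)]
  have hM2 : (M : ℝ) ≤ 32 * N := by
    rw [hM]; push_cast; linarith [Nat.ceil_lt_add_one (by positivity : 0 ≤ 27 * N)]
  have e : ∑ n ∈ S, (V (Real.log n - Real.log N) : ℂ) * E (n * θ) =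
      ∑ n ∈ range M, (Tools1.ext V N n : ℂ) * E θ ^ n := by
    have e1 : ∀ n : ℕ, 1 ≤ n → Tools1.ext V N n = V (Real.log n - Real.log N) := fun n hn =>
      if_pos (by exact_mod_cast hn)
    refine sum_congr_of_eq_on_inter (fun n hn hn' => ?_) (fun n _ hn' => ?_) fun n hn _ => ?_
    · have : (M : ℝ) ≤ n := by exact_mod_cast not_lt.1 fun h => hn' (mem_range.2 h)
      rw [← e1 n (hS n hn), Tools1.ext_large hV hN0 (by linarith)]
      simp
    · rcases Nat.eq_zero_or_pos n with rfl | hn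
      · simp [Tools1.ext]
      · have : V (Real.log n - Real.log N) = 0 := by
          by_contra h
          exact hn' (hS' n hn h)
        simp [e1 n hn, this]
    · rw [e1 n (hS n hn), Tools1.E_nat_mul]
  have a1 := Tools1.abel (Tools1.ext V N) (E θ) M
  have a2 := Tools1.abel (fun x => Tools1.ext V N (x - 1) - Tools1.ext V N x) (E θ) M
  rw [Tools1.ext_large hV hN0 (x := M - 1) (by linarith),
    Tools1.ext_small hV hN0 (x := -1) (by linarith)] at a1 a2
  rw [Tools1.ext_large hV hN0 (x := M - 1 - 1) (by linarith),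
    Tools1.ext_small hV hN0 (x := -1 - 1) (by linarith)] at a2
  simp only [sub_zero, Complex.ofReal_zero, zero_mul, add_zero] at a1 a2
  rw [← a1] at a2
  have h3 := congrArg norm a2
  have h4 : ‖∑ n ∈ range M, (((Tools1.ext V N (n - 1 - 1) - Tools1.ext V N (n - 1)) -
      (Tools1.ext V N (n - 1) - Tools1.ext V N n) : ℝ) : ℂ) * E θ ^ n‖ ≤ 32 * N * (A / N ^ 2) := by
    refine (norm_sum_le _ _).trans ((sum_le_card_nsmul _ _ (A / N ^ 2) fun n _ => ?_).trans ?_)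
    · rw [norm_mul, norm_pow, Six.norm_E, one_pow, mul_one, Complex.norm_real]
      exact h2 N n hN0
    · rw [card_range, nsmul_eq_mul]
      gcongr
  rw [← h3, norm_mul, norm_mul] at h4
  have h5 := Tools1.le_norm_E_sub_one hθ
  rw [e, le_div_iff₀ (by positivity)]
  set X := ‖∑ n ∈ range M, (Tools1.ext V N n : ℂ) * E θ ^ n‖
  have hX : 0 ≤ X := norm_nonneg _
  have h6 : 4 * δ * (4 * δ * X) ≤ 32 * N * (A / N ^ 2) := le_trans (by gcongr) h4
  have h7 : 32 * N * (A / N ^ 2) = 32 * A / N := by field_simp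
  rw [h7, le_div_iff₀ hN0] at h6
  linarith

end Pool.Agent.MP_678834_nt.HL9

end
end MrgPart0

-- ======== part 1: formerly Pool.Agent.MP_678834_nt.HL9.Dec
section MrgPart1

/-! Project HL9, module DEC: the Heath-Brown identity and a smooth partition of unity. -/

set_option autoImplicit false

noncomputable section

namespace Pool.Agent.MP_678834_nt.HL9

open MeasureTheory Finset Filter
open scoped ArithmeticFunction.vonMangoldt ArithmeticFunction.Moebius ArithmeticFunction.zeta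
open Pool.Agent.MP_db1c88_nt.z94 (ei bmp blk DP wide wt lev)
open Pool.Agent.MP_db1c88_nt

namespace Dec

/-! ### sums of convolutions -/

theorem conv2 (K : ℕ) (f g : ArithmeticFunction ℝ) (G : ℕ → ℂ) (hG : ∀ n, K < n → G n = 0) :
    ∑ n ∈ Icc 1 K, ((f * g) n : ℝ) * G n =
      ∑ a ∈ Icc 1 K, (f a : ℝ) * ∑ b ∈ Icc 1 K, (g b : ℝ) * G (a * b) := by
  have e : Icc 1 K = Ioc 0 K := rfl
  calc _ = ∑ n ∈ Ioc 0 K, ∑ x ∈ Ioc 0 K ×ˢ Ioc 0 K,
        if x.1 * x.2 = n then ((f x.1 : ℝ) : ℂ) * ((g x.2 : ℝ) * G (x.1 * x.2)) else 0 := by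
        refine sum_congr e fun n hn => ?_
        rw [ArithmeticFunction.mul_apply, Nat.divisorsAntidiagonal_eq_prod_filter_of_le
          (mem_Ioc.1 hn).1.ne' (mem_Ioc.1 hn).2, ← sum_filter, Complex.ofReal_sum, sum_mul]
        refine sum_congr rfl fun x hx => ?_
        rw [(mem_filter.1 hx).2, Complex.ofReal_mul, mul_assoc]
    _ = ∑ x ∈ Ioc 0 K ×ˢ Ioc 0 K, ((f x.1 : ℝ) : ℂ) * ((g x.2 : ℝ) * G (x.1 * x.2)) := by
        rw [sum_comm]
        refine sum_congr rfl fun x hx => ?_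
        rw [sum_ite_eq]
        split_ifs with h
        · rfl
        · obtain ⟨h1, h2⟩ := mem_product.1 hx
          have := Nat.mul_pos (mem_Ioc.1 h1).1 (mem_Ioc.1 h2).1
          rw [hG _ (by rw [mem_Ioc] at h; omega), mul_zero, mul_zero]
    _ = _ := by rw [sum_product, e]; simp only [mul_sum]

theorem sum_pi_succ {k : ℕ} (s : Finset ℕ) (F : (Fin (k + 1) → ℕ) → ℂ) :
    ∑ x ∈ Fintype.piFinset (fun _ : Fin (k + 1) => s), F x =
      ∑ a ∈ s, ∑ y ∈ Fintype.piFinset (fun _ : Fin k => s), F (Fin.cons a y) := by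
  rw [← sum_product']
  refine sum_nbij' (fun x => (x 0, Fin.tail x)) (fun p => Fin.cons p.1 p.2) ?_ ?_ ?_ ?_ ?_
  · exact fun x hx => mem_product.2 (Fin.mem_piFinset_iff_zero_tail.1 hx)
  · exact fun p hp => Fin.mem_piFinset_iff_zero_tail.2 (by
      rw [Fin.cons_zero, Fin.tail_cons]; exact mem_product.1 hp)
  · exact fun x _ => Fin.cons_self_tail x
  · exact fun p _ => by simp
  · exact fun x _ => by simp

theorem conv {K : ℕ} (hK : 1 ≤ K) : ∀ (k : ℕ) (f : Fin k → ArithmeticFunction ℝ) (G : ℕ → ℂ),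
    (∀ n, K < n → G n = 0) → ∑ n ∈ Icc 1 K, ((∏ l, f l) n : ℝ) * G n =
      ∑ x ∈ Fintype.piFinset (fun _ : Fin k => Icc 1 K), (∏ l, ((f l (x l) : ℝ) : ℂ)) * G (∏ l, x l)
  | 0, f, G, _ => by
    rw [sum_eq_single_of_mem 1 (mem_Icc.2 ⟨le_rfl, hK⟩) fun n _ hn => by simp [hn]]
    simp
  | k + 1, f, G, hG => by
    rw [Fin.prod_univ_succ, conv2 K _ _ G hG, sum_pi_succ]
    refine sum_congr rfl fun a ha => ?_
    rw [conv hK k (fun l => f l.succ) (fun b => G (a * b)) fun n hn =>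
      hG _ (hn.trans_le (Nat.le_mul_of_pos_left n (mem_Icc.1 ha).1)), mul_sum]
    refine sum_congr rfl fun y _ => ?_
    simp only [Fin.prod_univ_succ, Fin.cons_zero, Fin.cons_succ, mul_assoc]

/-! ### the Heath-Brown identity -/

/-- vanishing up to `y` -/
def Van (f : ArithmeticFunction ℝ) (y : ℝ) : Prop := ∀ n : ℕ, (n : ℝ) ≤ y → f n = 0

theorem Van.mul {f g : ArithmeticFunction ℝ} {y y' : ℝ} (hf : Van f y) (hg : Van g y') (hy : 0 ≤ y)
    (hy' : 0 ≤ y') : Van (f * g) (y * y') := fun n hn => by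
  rw [ArithmeticFunction.mul_apply]
  refine sum_eq_zero fun x hx => ?_
  rcases le_or_gt (x.1 : ℝ) y with h | h
  · rw [hf _ h, zero_mul]
  rcases le_or_gt (x.2 : ℝ) y' with h' | h'
  · rw [hg _ h', mul_zero]
  have e : (x.1 : ℝ) * x.2 = n := by exact_mod_cast (Nat.mem_divisorsAntidiagonal.1 hx).1
  exact absurd (mul_lt_mul'' h h' hy hy') (by rw [e]; exact not_lt.2 hn)

theorem Van.mul_left {g : ArithmeticFunction ℝ} {y : ℝ} (hg : Van g y) (f : ArithmeticFunction ℝ) :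
    Van (f * g) y := fun n hn => by
  rw [ArithmeticFunction.mul_apply]
  refine sum_eq_zero fun x hx => ?_
  have e := Nat.le_of_dvd (Nat.pos_of_ne_zero (Nat.mem_divisorsAntidiagonal.1 hx).2)
    (Dvd.intro_left _ (Nat.mem_divisorsAntidiagonal.1 hx).1)
  rw [hg _ (le_trans (by exact_mod_cast e) hn), mul_zero]

/-- the truncated Moebius function -/
def mz (z : ℝ) : ArithmeticFunction ℝ := ⟨fun n => if (n : ℝ) ≤ z then μ n else 0, by simp⟩

theorem mz_apply (z : ℝ) (n : ℕ) : mz z n = if (n : ℝ) ≤ z then (μ n : ℝ) else 0 := rfl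

theorem van_u (z : ℝ) : Van (1 - ζ * mz z) z := fun n hn => by
  rw [sub_eq_add_neg, ArithmeticFunction.add_apply, ArithmeticFunction.neg_apply,
    ← ArithmeticFunction.coe_zeta_mul_coe_moebius, ArithmeticFunction.coe_zeta_mul_apply,
    ArithmeticFunction.coe_zeta_mul_apply, add_neg_eq_zero]
  refine sum_congr rfl fun d hd => ?_
  rw [mz_apply, if_pos (le_trans (by exact_mod_cast Nat.divisor_le hd) hn)]
  rfl

/-- the three kinds of factors -/
def kd (z : ℝ) : Fin 3 → ArithmeticFunction ℝ := ![ζ, 1, mz z]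

theorem heathBrown {z : ℝ} (hz : 0 ≤ z) {n : ℕ} (hn : (n : ℝ) ≤ z * z * z) :
    Λ n = 3 * (ArithmeticFunction.log * ∏ l, kd z (![1, 1, 2, 1, 1] l)) n +
      -3 * (ArithmeticFunction.log * ∏ l, kd z (![0, 1, 2, 2, 1] l)) n +
      (ArithmeticFunction.log * ∏ l, kd z (![0, 0, 2, 2, 2] l)) n := by
  have h := (((van_u z).mul (van_u z) hz hz).mul (van_u z) (mul_nonneg hz hz) hz).mul_left Λ n hn
  have e : ∀ L Z m : ArithmeticFunction ℝ, L + (L * Z * (Z * 1 * m * m * 1) +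
      L * Z * (Z * 1 * m * m * 1) + L * Z * (Z * 1 * m * m * 1)) =
      L * Z * (1 * 1 * m * 1 * 1) + L * Z * (1 * 1 * m * 1 * 1) + L * Z * (1 * 1 * m * 1 * 1) +
        L * Z * (Z * Z * m * m * m) + L * ((1 - Z * m) * (1 - Z * m) * (1 - Z * m)) :=
    fun L Z m => by ring
  have e1 := congrArg (fun f : ArithmeticFunction ℝ => f n) (e Λ ζ (mz z))
  simp only [ArithmeticFunction.add_apply, h, ArithmeticFunction.vonMangoldt_mul_zeta] at e1
  simp only [Fin.prod_univ_five]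
  change Λ n = 3 * (ArithmeticFunction.log * (1 * 1 * mz z * 1 * 1)) n +
    -3 * (ArithmeticFunction.log * (ζ * 1 * mz z * mz z * 1)) n +
    (ArithmeticFunction.log * (ζ * ζ * mz z * mz z * mz z)) n
  linarith

/-! ### the partition of unity -/

/-- the points of the geometric progression -/
def NN (i : ℕ) : ℝ := Real.exp ((i - 1) * lam)

theorem log_NN (i : ℕ) : Real.log (NN i) = (i - 1) * lam := Real.log_exp _

theorem lam_lt : lam < 0.35 := by unfold lam; linarith [Real.log_two_lt_d9]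

theorem lt_lam : 0.34 < lam := by unfold lam; linarith [Real.log_two_gt_d9]

theorem half_le_NN (i : ℕ) : 1 / 2 ≤ NN i := by
  have h1 := Real.add_one_le_exp ((i - 1 : ℝ) * lam)
  have h2 : 0 ≤ (i : ℝ) * lam := mul_nonneg i.cast_nonneg lam_pos.le
  unfold NN
  linarith [lam_lt]

theorem sum_v0 {y : ℝ} {J : ℕ} (h0 : 0 ≤ y) (h1 : y / lam + 1 ≤ J) :
    ∑ i ∈ range J, v0 (y - Real.log (NN i)) = 1 := by
  have e : ∀ i : ℕ, v0 (y - Real.log (NN i)) = Real.smoothTransition (y / lam + 1 - i) -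
      Real.smoothTransition (y / lam + 1 - (i + 1 : ℕ)) := fun i => by
    have hl := lam_pos.ne'
    have : (y - Real.log (NN i)) / lam = y / lam + 1 - i := by rw [log_NN]; field_simp; ring
    rw [v0, this]
    push_cast
    congr 2
    ring
  simp only [e]
  rw [sum_range_sub' fun i : ℕ => Real.smoothTransition (y / lam + 1 - i),
    Real.smoothTransition.zero_of_nonpos (x := y / lam + 1 - J) (by linarith),
    Real.smoothTransition.one_of_one_le, sub_zero]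
  simpa using div_nonneg h0 lam_pos.le

/-! ### representations -/

/-- the sum attached to one product -/
def TT (X : ℝ) (N : Fin 6 → ℝ) (b : Fin 6 → ℕ → ℂ) (t : ℝ) : ℂ :=
  ∑ x ∈ Fintype.piFinset (fun l => blk (N l) 2),
    (∏ l, b l (x l)) * (wt X 4 (∏ l, x l) : ℝ) * ei (t * Real.log (∏ l, x l : ℕ))

/-- combinations of at most `n` admissible products with coefficients at most `A` -/
def Rep (X : ℝ) (q n : ℕ) (A : ℝ) (Φ : ℝ → ℂ) : Prop :=
  ∃ (ι : Type) (I : Finset ι) (a : ι → ℂ) (N : ι → Fin 6 → ℝ) (b : ι → Fin 6 → ℕ → ℂ),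
    I.card ≤ n ∧ (∀ τ ∈ I, ‖a τ‖ ≤ A ∧ Adm X q (N τ) (b τ)) ∧
    ∀ t, Φ t = ∑ τ ∈ I, a τ * TT X (N τ) (b τ) t

variable {X : ℝ} {q : ℕ}

theorem Rep.add {n n' : ℕ} {A : ℝ} {Φ Φ' : ℝ → ℂ} (h : Rep X q n A Φ) (h' : Rep X q n' A Φ') :
    Rep X q (n + n') A fun t => Φ t + Φ' t := by
  obtain ⟨ι, I, a, N, b, h1, h2, h3⟩ := h
  obtain ⟨ι', I', a', N', b', h1', h2', h3'⟩ := h'
  refine ⟨ι ⊕ ι', I.disjSum I', Sum.elim a a', Sum.elim N N', Sum.elim b b', ?_, ?_, fun t => ?_⟩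
  · rw [card_disjSum]; omega
  · intro τ hτ
    rcases mem_disjSum.1 hτ with ⟨i, hi, rfl⟩ | ⟨i, hi, rfl⟩
    · exact h2 i hi
    · exact h2' i hi
  · rw [sum_disjSum]
    exact congrArg₂ (· + ·) (h3 t) (h3' t)

theorem Rep.smul {n : ℕ} {A : ℝ} {Φ : ℝ → ℂ} (h : Rep X q n A Φ) {c : ℂ} (hc : ‖c‖ ≤ 3) :
    Rep X q n (3 * A) fun t => c * Φ t := by
  obtain ⟨ι, I, a, N, b, h1, h2, h3⟩ := h
  refine ⟨ι, I, fun τ => c * a τ, N, b, h1, fun τ hτ => ⟨?_, (h2 τ hτ).2⟩, fun t => ?_⟩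
  · rw [norm_mul]
    exact mul_le_mul hc (h2 τ hτ).1 (norm_nonneg _) (by norm_num)
  · simp only [h3, mul_sum, mul_assoc]

theorem Rep.of_or {ι : Type} (I : Finset ι) (a : ι → ℂ) (N : ι → Fin 6 → ℝ)
    (b : ι → Fin 6 → ℕ → ℂ) {A : ℝ} (h : ∀ τ ∈ I, ‖a τ‖ ≤ A ∧
      (¬ Adm X q (N τ) (b τ) → ∀ t, TT X (N τ) (b τ) t = 0)) :
    Rep X q I.card A fun t => ∑ τ ∈ I, a τ * TT X (N τ) (b τ) t := by
  classical
  refine ⟨ι, I.filter fun τ => Adm X q (N τ) (b τ), a, N, b, card_filter_le _ _,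
    fun τ hτ => ⟨(h τ (mem_filter.1 hτ).1).1, (mem_filter.1 hτ).2⟩, fun t => ?_⟩
  refine (sum_filter_of_ne fun τ hτ h0 => ?_).symm
  by_contra hc
  exact h0 (by rw [(h τ hτ).2 hc t, mul_zero])

/-- bounded coefficients that are periodic or have short support -/
def Gd (X : ℝ) (q : ℕ) (h : ℕ → ℂ) : Prop := (∀ n, ‖h n‖ ≤ 1) ∧
  ((∀ n, h (n + q) = h n) ∨ ∀ n : ℕ, h n ≠ 0 → (n : ℝ) ≤ 3 * X ^ (1 / 3 : ℝ))

/-- the weights -/
def WW (s : Bool) (l : Fin 6) : ℝ → ℝ := if s = true ∧ l = 0 then v1 else v0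

theorem WW_or (s : Bool) (l : Fin 6) : WW s l = v0 ∨ WW s l = v1 := by
  unfold WW; split_ifs <;> simp

/-- the coefficients of one product -/
def bb (h : Fin 6 → ℕ → ℂ) (s : Bool) (i : Fin 6 → ℕ) (l : Fin 6) (n : ℕ) : ℂ :=
  h l n * (WW s l (Real.log n - Real.log (NN (i l))) : ℝ)

theorem adm_or (hX : 0 < X) {h : Fin 6 → ℕ → ℂ} (hh : ∀ l, Gd X q (h l)) (s : Bool)
    (i : Fin 6 → ℕ) (hA : ¬ Adm X q (fun l => NN (i l)) (bb h s i)) (t : ℝ) :
    TT X (fun l => NN (i l)) (bb h s i) t = 0 := by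
  refine sum_eq_zero fun x hx => ?_
  by_contra h0
  have N0 : ∀ l, 0 < NN (i l) := fun l => Real.exp_pos _
  have hx1 := fun l => (z94.mem_blk (N0 l).le (by norm_num)).1 (Fintype.mem_piFinset.1 hx l)
  have h1 := left_ne_zero_of_mul h0
  have h2 : w1 (Real.log (∏ l, x l : ℕ) - Real.log X) ≠ 0 := fun e =>
    right_ne_zero_of_mul h1 (by rw [wt_eq, e]; simp)
  have h3 := fun l => left_ne_zero_of_mul (prod_ne_zero_iff.1 (left_ne_zero_of_mul h1) l (mem_univ l))
  have p1 : ∏ l, NN (i l) ≤ ∏ l, (x l : ℝ) := prod_le_prod (fun l _ => (N0 l).le) fun l _ => (hx1 l).1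
  have p2 : ∏ l, (x l : ℝ) ≤ ∏ l, 2 * NN (i l) :=
    prod_le_prod (fun l _ => Nat.cast_nonneg _) fun l _ => (hx1 l).2
  have p0 : 0 < ∏ l, NN (i l) := prod_pos fun l _ => N0 l
  rw [prod_mul_distrib, prod_const, card_univ, Fintype.card_fin] at p2
  rw [Nat.cast_prod] at h2
  obtain ⟨r1, r2⟩ := range_of_w1 hX (p0.trans_le p1) h2
  rw [div_lt_iff₀ (by norm_num)] at r1
  refine hA ⟨fun l => half_le_NN _, by linarith, by linarith, fun l n => ?_, fun l => ?_⟩
  · rw [bb, norm_mul, Complex.norm_real, Real.norm_eq_abs]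
    refine mul_le_one₀ ((hh l).1 n) (abs_nonneg _) ?_
    rcases WW_or s l with e | e <;> rw [e]
    exacts [abs_v0_le _, abs_v1_le _]
  · rcases (hh l).2 with e | e
    · refine Or.inr ⟨h l, e, (hh l).1, ?_⟩
      rcases WW_or s l with e | e
      · exact Or.inl fun n => by rw [bb, e]
      · exact Or.inr fun n => by rw [bb, e]
    · exact Or.inl ((hx1 l).1.trans (e _ (h3 l)))

theorem wt_zero (hX : 0 < X) {n : ℕ} (hn : ⌊3 * 4 * X⌋₊ < n) : wt X 4 n = 0 := by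
  by_contra h
  have := (mem_Icc.1 (mem_wide_of_w1 hX (by omega) h)).2
  omega

theorem TT_eq (hX : 0 < X) (h : Fin 6 → ℕ → ℂ) (s : Bool) (i : Fin 6 → ℕ) (t : ℝ) :
    TT X (fun l => NN (i l)) (bb h s i) t =
      ∑ x ∈ Fintype.piFinset (fun _ : Fin 6 => Icc 1 ⌊3 * 4 * X⌋₊), (∏ l, bb h s i l (x l)) *
        ((wt X 4 (∏ l, x l) : ℝ) * ei (t * Real.log (∏ l, x l : ℕ))) := by
  have N0 : ∀ l, 0 < NN (i l) := fun l => Real.exp_pos _
  refine sum_congr_of_eq_on_inter (fun x hx hx' => ?_) (fun x hx hx' => ?_)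
    fun x _ _ => mul_assoc _ _ _
  · have h1 := fun l => one_le_of_mem_blk (N0 l) (Fintype.mem_piFinset.1 hx l)
    obtain ⟨l, hl⟩ := not_forall.1 (mt Fintype.mem_piFinset.2 hx')
    have h2 : x l ≤ ∏ l, x l := single_le_prod' (fun l _ => h1 l) (mem_univ l)
    have h3 := h1 l
    rw [wt_zero hX (by rw [mem_Icc] at hl; omega)]
    simp
  · obtain ⟨l, hl⟩ := not_forall.1 (mt Fintype.mem_piFinset.2 hx')
    have x0 : (0 : ℝ) < x l := by exact_mod_cast (mem_Icc.1 (Fintype.mem_piFinset.1 hx l)).1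
    have h1 : Real.log (x l) - Real.log (NN (i l)) ∉ Set.Ioo 0 (Real.log 2) := fun u => by
      refine hl ((z94.mem_blk (N0 l).le (by norm_num)).2 ⟨?_, ?_⟩)
      · exact (Real.log_le_log_iff (N0 l) x0).1 (by linarith [u.1])
      · refine (Real.log_le_log_iff x0 (by linarith [N0 l])).1 ?_
        rw [Real.log_mul (by norm_num) (N0 l).ne']
        linarith [u.2]
    have h2 : bb h s i l (x l) = 0 := by
      rcases WW_or s l with e | e
      · rw [bb, e, supp_v0 _ h1]; simp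
      · rw [bb, e, supp_v1 _ h1]; simp
    rw [prod_eq_zero (mem_univ l) h2, zero_mul]

theorem expand (h : Fin 6 → ℕ → ℂ) (α β : ℝ) {J : ℕ} (x : Fin 6 → ℕ)
    (hx : ∀ l, 0 ≤ Real.log (x l) ∧ Real.log (x l) / lam + 1 ≤ J) :
    ((α * Real.log (x 0) + β : ℝ) : ℂ) * ∏ l, h l (x l) =
      ∑ τ ∈ (univ : Finset Bool) ×ˢ Fintype.piFinset (fun _ : Fin 6 => range J),
        ((if τ.1 = true then α else α * Real.log (NN (τ.2 0)) + β : ℝ) : ℂ) *
          ∏ l, bb h τ.1 τ.2 l (x l) := by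
  have e1 : ∏ l, h l (x l) = ∑ i ∈ Fintype.piFinset (fun _ : Fin 6 => range J),
      ∏ l, h l (x l) * (v0 (Real.log (x l) - Real.log (NN (i l))) : ℝ) := by
    rw [← prod_univ_sum (fun _ : Fin 6 => range J)
      fun l j => h l (x l) * (v0 (Real.log (x l) - Real.log (NN j)) : ℝ)]
    refine prod_congr rfl fun l _ => ?_
    rw [← mul_sum, ← Complex.ofReal_sum, sum_v0 (hx l).1 (hx l).2]
    simp
  rw [sum_product_right, e1, mul_sum]
  refine sum_congr rfl fun i _ => ?_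
  rw [Fintype.sum_bool]
  simp only [bb, WW, Fin.prod_univ_succ (n := 5), Fin.succ_ne_zero, and_false, if_false, and_true,
    if_true, Bool.false_eq_true, v1]
  push_cast
  ring

theorem rep_base (hX : 1 ≤ X) {J : ℕ} (hJ : Real.log (12 * X) / lam + 1 ≤ J)
    {h : Fin 6 → ℕ → ℂ} (hh : ∀ l, Gd X q (h l)) {α β : ℝ} (hα : |α| ≤ 1) (hβ : |β| ≤ 1) :
    Rep X q (2 * J ^ 6) (J + 2) fun t =>
      ∑ x ∈ Fintype.piFinset (fun _ : Fin 6 => Icc 1 ⌊3 * 4 * X⌋₊),
        ((α * Real.log (x 0) + β : ℝ) : ℂ) * (∏ l, h l (x l)) *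
          ((wt X 4 (∏ l, x l) : ℝ) * ei (t * Real.log (∏ l, x l : ℕ))) := by
  have X0 : 0 < X := by linarith
  have J0 : (0 : ℝ) ≤ J := J.cast_nonneg
  have key := Rep.of_or (X := X) (q := q) (A := J + 2)
    ((univ : Finset Bool) ×ˢ Fintype.piFinset (fun _ : Fin 6 => range J))
    (fun τ => ((if τ.1 = true then α else α * Real.log (NN (τ.2 0)) + β : ℝ) : ℂ))
    (fun τ l => NN (τ.2 l)) (fun τ => bb h τ.1 τ.2) fun τ hτ => ⟨?_, adm_or X0 hh τ.1 τ.2⟩
  · rw [card_product, Fintype.card_piFinset, prod_const, card_range, card_univ, card_univ,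
      Fintype.card_bool, Fintype.card_fin] at key
    convert key using 2 with t
    simp only [TT_eq X0, mul_sum]
    rw [sum_comm]
    refine sum_congr rfl fun x hx => ?_
    rw [expand h α β (J := J) x fun l => ?_, sum_mul]
    · simp only [mul_assoc]
    · obtain ⟨h1, h2⟩ := mem_Icc.1 (Fintype.mem_piFinset.1 hx l)
      have h3 : (1 : ℝ) ≤ x l := by exact_mod_cast h1
      have h4 : (x l : ℝ) ≤ 12 * X := by
        have := (Nat.le_floor_iff (by positivity)).1 h2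
        linarith
      exact ⟨Real.log_nonneg h3, le_trans (add_le_add_left (div_le_div_of_nonneg_right
        (Real.log_le_log (by linarith) h4) lam_pos.le) 1) hJ⟩
  · rw [Complex.norm_real, Real.norm_eq_abs]
    split_ifs
    · linarith
    · have h1 : ((τ.2 0 : ℕ) : ℝ) ≤ J := by
        exact_mod_cast (mem_range.1 (Fintype.mem_piFinset.1 (mem_product.1 hτ).2 0)).le
      have h2 : |Real.log (NN (τ.2 0))| ≤ J + 1 := by
        rw [log_NN, abs_mul, abs_of_pos lam_pos]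
        refine (mul_le_of_le_one_right (abs_nonneg _) (by linarith [lam_lt])).trans ?_
        rw [abs_le]
        constructor <;> linarith [(τ.2 0).cast_nonneg (α := ℝ)]
      have h3 := abs_add_le (α * Real.log (NN (τ.2 0))) β
      rw [abs_mul] at h3
      have h4 := mul_le_of_le_one_left (abs_nonneg (Real.log (NN (τ.2 0)))) hα
      linarith

/-- the twisted factors -/
def hk (z : ℝ) (ψ : ℕ → ℂ) (k : Fin 3) (n : ℕ) : ℂ := if k = 0 then ψ n else (kd z k n : ℝ) * ψ n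

theorem hk_eq (z : ℝ) (ψ : ℕ → ℂ) (k : Fin 3) {n : ℕ} (hn : 1 ≤ n) :
    (kd z k n : ℝ) * ψ n = hk z ψ k n := by
  unfold hk
  split_ifs with h
  · subst h
    have : kd z 0 n = 1 := by
      change (ζ : ArithmeticFunction ℝ) n = 1
      rw [ArithmeticFunction.natCoe_apply, ArithmeticFunction.zeta_apply_ne (by omega), Nat.cast_one]
    rw [this]; simp
  · rfl

theorem gd_hk (hX : 1 ≤ X) {ψ : ℕ → ℂ} (h1 : ∀ n, ‖ψ n‖ ≤ 1) (h2 : ∀ n, ψ (n + q) = ψ n)
    (k : Fin 3) : Gd X q (hk (3 * X ^ (1 / 3 : ℝ)) ψ k) := by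
  have z1 : 1 ≤ X ^ (1 / 3 : ℝ) := Real.one_le_rpow hX (by norm_num)
  by_cases h : k = 0
  · exact ⟨fun n => by rw [hk, if_pos h]; exact h1 n, Or.inl fun n => by simp only [hk, if_pos h, h2]⟩
  have key : ∀ n : ℕ, |kd (3 * X ^ (1 / 3 : ℝ)) k n| ≤ 1 ∧
      (kd (3 * X ^ (1 / 3 : ℝ)) k n ≠ 0 → (n : ℝ) ≤ 3 * X ^ (1 / 3 : ℝ)) := fun n => by
    have : k = 1 ∨ k = 2 := by omega
    rcases this with rfl | rfl
    · change |(1 : ArithmeticFunction ℝ) n| ≤ 1 ∧ ((1 : ArithmeticFunction ℝ) n ≠ 0 → _)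
      rw [ArithmeticFunction.one_apply]
      split_ifs with e
      · exact ⟨by simp, fun _ => by rw [e, Nat.cast_one]; linarith⟩
      · simp
    · change |mz _ n| ≤ 1 ∧ (mz _ n ≠ 0 → _)
      rw [mz_apply]
      split_ifs with e
      · exact ⟨by exact_mod_cast ArithmeticFunction.abs_moebius_le_one, fun _ => e⟩
      · simp
  refine ⟨fun n => ?_, Or.inr fun n hn => (key n).2 fun e => hn ?_⟩
  · rw [hk, if_neg h, norm_mul, Complex.norm_real, Real.norm_eq_abs]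
    exact mul_le_one₀ (key n).1 (norm_nonneg _) (h1 n)
  · rw [hk, if_neg h, e]; simp

theorem rep_term (hX : 1 ≤ X) {J : ℕ} (hJ : Real.log (12 * X) / lam + 1 ≤ J) (ψ : ℕ →* ℂ)
    (h1 : ∀ n, ‖ψ n‖ ≤ 1) (h2 : ∀ n, ψ (n + q) = ψ n) (f : ArithmeticFunction ℝ) {α β : ℝ}
    (hα : |α| ≤ 1) (hβ : |β| ≤ 1) (hf : ∀ n : ℕ, 1 ≤ n → f n = α * Real.log n + β)
    (κ : Fin 5 → Fin 3) :
    Rep X q (2 * J ^ 6) (J + 2) fun t => ∑ n ∈ Icc 1 ⌊3 * 4 * X⌋₊,
      ((f * ∏ l, kd (3 * X ^ (1 / 3 : ℝ)) (κ l)) n : ℝ) *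
        (ψ n * ((wt X 4 n : ℝ) * ei (t * Real.log n))) := by
  have key := rep_base hX hJ (h := fun l => hk (3 * X ^ (1 / 3 : ℝ)) ψ ((Fin.cons 0 κ : Fin 6 → Fin 3) l))
    (fun l => gd_hk hX h1 h2 _) hα hβ
  convert key using 2 with t
  have e := conv (K := ⌊3 * 4 * X⌋₊) (Nat.le_floor (by push_cast; linarith)) 6
    (Fin.cons f fun l => kd (3 * X ^ (1 / 3 : ℝ)) (κ l))
    (fun n => ψ n * ((wt X 4 n : ℝ) * ei (t * Real.log n))) fun n hn => by
      rw [wt_zero (by linarith) hn]; simp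
  rw [Fin.prod_cons] at e
  rw [e]
  refine sum_congr rfl fun x hx => ?_
  have x1 := fun l => (mem_Icc.1 (Fintype.mem_piFinset.1 hx l)).1
  rw [← mul_assoc, map_prod, ← prod_mul_distrib]
  congr 1
  rw [Fin.prod_univ_succ, Fin.prod_univ_succ (n := 5) (f := fun l => hk _ _ _ _), ← mul_assoc]
  simp only [Fin.cons_zero, Fin.cons_succ]
  rw [hf _ (x1 0), prod_congr rfl fun l _ => hk_eq _ ψ (κ l) (x1 l.succ)]
  rfl

end Dec

open Dec in
theorem dec : DecStmt := by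
  classical
  obtain ⟨X₀, hX₀⟩ := eventually_atTop.1 ((ev_log 10).and (eventually_ge_atTop 1))
  refine ⟨32768, X₀, fun X q χ hX _ => ?_⟩
  obtain ⟨L10, X1⟩ := hX₀ X hX
  obtain ⟨J, hJ, hJ'⟩ : ∃ J : ℕ, Real.log (12 * X) / lam + 1 ≤ J ∧ (J : ℝ) ≤ 4 * Real.log X := by
    have e1 : Real.log (12 * X) ≤ 2.5 + Real.log X := by
      have e2 : Real.log 12 ≤ 2.5 := by
        rw [Real.log_le_iff_le_exp (by norm_num), show (2.5 : ℝ) = 1 + 1 + 0.5 by norm_num,
          Real.exp_add, Real.exp_add]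
        have e3 := Real.exp_one_gt_d9
        have e4 := Real.sum_le_exp_of_nonneg (show (0 : ℝ) ≤ 0.5 by norm_num) 4
        norm_num [sum_range_succ, Nat.factorial] at e4
        have e5 : (2.7182 * 2.7182 : ℝ) ≤ Real.exp 1 * Real.exp 1 := by gcongr <;> linarith
        calc (12 : ℝ) ≤ 2.7182 * 2.7182 * (79 / 48) := by norm_num
          _ ≤ _ := mul_le_mul e5 (by norm_num; linarith) (by norm_num) (by positivity)
      rw [Real.log_mul (by norm_num) (by linarith)]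
      linarith
    have e0 : 0 ≤ Real.log (12 * X) := Real.log_nonneg (by linarith)
    have e2 : Real.log (12 * X) / lam ≤ 3 * (2.5 + Real.log X) := by
      rw [div_le_iff₀ lam_pos]
      have := mul_le_mul_of_nonneg_left lt_lam.le (show 0 ≤ 3 * (2.5 + Real.log X) by linarith)
      linarith
    refine ⟨⌈Real.log (12 * X) / lam + 1⌉₊, Nat.le_ceil _, ?_⟩
    have := Nat.ceil_lt_add_one (show 0 ≤ Real.log (12 * X) / lam + 1 by
      have := div_nonneg e0 lam_pos.le; linarith)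
    linarith
  let ψ : ℕ →* ℂ := χ.toMonoidHom.comp (Nat.castRingHom (ZMod q)).toMonoidHom
  have ψ0 : ∀ n : ℕ, ψ n = χ n := fun _ => rfl
  have hlog : ∀ n : ℕ, 1 ≤ n → ArithmeticFunction.log n = 1 * Real.log n + 0 := fun n _ => by
    simp [ArithmeticFunction.log_apply]
  have r := rep_term (q := q) X1 hJ ψ (fun n => χ.norm_le_one _) (fun n => by simp [ψ0])
    ArithmeticFunction.log (by simp) (by simp) hlog
  have r3 := rep_term (q := q) X1 hJ 1 (fun n => by simp) (fun n => rfl) ζ (α := 0) (β := 1)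
    (by simp) (by simp) (fun n hn => by
      rw [ArithmeticFunction.natCoe_apply, ArithmeticFunction.zeta_apply_ne (by omega)]; simp)
    ![1, 1, 1, 1, 1]
  obtain ⟨ι, I, a, N, b, h1, h2, h3⟩ :=
    ((((r ![1, 1, 2, 1, 1]).smul (c := 3) (by simp)).add
      ((r ![0, 1, 2, 2, 1]).smul (c := -3) (by simp))).add
      ((r ![0, 0, 2, 2, 2]).smul (c := 1) (by simp))).add
      (r3.smul (c := -if χ = 1 then 1 else 0) (by split_ifs <;> simp))
  refine ⟨ι, I, a, N, b, ?_, fun τ hτ => ⟨(h2 τ hτ).1.trans (by linarith), (h2 τ hτ).2⟩,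
    fun t => Eq.trans ?_ (h3 t)⟩
  · calc (I.card : ℝ) ≤ 8 * (J : ℝ) ^ 6 := by exact_mod_cast h1.trans (by omega)
      _ ≤ 8 * (4 * Real.log X) ^ 6 := by gcongr
      _ = _ := by ring
  · simp only [mul_sum, ← sum_add_distrib]
    refine sum_congr rfl fun n hn => ?_
    obtain ⟨n1, n2⟩ := (z94.mem_wide (by linarith) (by norm_num)).1 hn
    have z3 : 3 * X ^ (1 / 3 : ℝ) * (3 * X ^ (1 / 3 : ℝ)) * (3 * X ^ (1 / 3 : ℝ)) = 27 * X := by
      have := Real.rpow_inv_natCast_pow (show 0 ≤ X by linarith) (n := 3) (by norm_num)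
      rw [show ((3 : ℕ) : ℝ)⁻¹ = 1 / 3 by norm_num] at this
      linear_combination 27 * this
    have e1 := heathBrown (z := 3 * X ^ (1 / 3 : ℝ)) (n := n) (by positivity) (by linarith)
    have e2 : (ζ * ∏ l, kd (3 * X ^ (1 / 3 : ℝ)) (![1, 1, 1, 1, 1] l)) n = 1 := by
      rw [Fin.prod_univ_five]
      change ((ζ : ArithmeticFunction ℝ) * (1 * 1 * 1 * 1 * 1)) n = 1
      simp only [mul_one]
      rw [ArithmeticFunction.natCoe_apply, ArithmeticFunction.zeta_apply_ne (by omega), Nat.cast_one]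
    beta_reduce
    rw [lc, e1, e2, ψ0, MonoidHom.one_apply]
    push_cast
    ring

end Pool.Agent.MP_678834_nt.HL9

end
end MrgPart1

-- ======== part 2: formerly Pool.Agent.MP_678834_nt.HL9.SI
section MrgPart2

/-! Project HL9: primes in almost all short intervals, mean square form. -/

set_option autoImplicit false

noncomputable section

namespace Pool.Agent.MP_678834_nt.HL9

open MeasureTheory Finset Filter
open scoped ArithmeticFunction.vonMangoldt ArithmeticFunction.Moebius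
open Pool.Agent.MP_db1c88_nt.z94 (ei bmp blk DP wide wt lev)
open Pool.Agent.MP_3d0d30_nt.Six (E ck)
open Pool.Agent.MP_db1c88_nt

namespace SI

theorem ei_sum {κ : Type} (s : Finset κ) (f : κ → ℝ) : ei (∑ l ∈ s, f l) = ∏ l ∈ s, ei (f l) := by
  classical
  induction s using Finset.induction_on with
  | empty => simp
  | insert a s ha ih => rw [sum_insert ha, prod_insert ha, z94.ei_add, ih]

theorem prod_DP {N : Fin 6 → ℝ} (hN : ∀ l, 0 < N l) (b : Fin 6 → ℕ → ℂ) (t : ℝ) :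
    ∑ x ∈ Fintype.piFinset (fun l => blk (N l) 2),
      (∏ l, b l (x l)) * ei (t * Real.log (∏ l, x l : ℕ)) = ∏ l, DP (blk (N l) 2) (b l) t := by
  unfold DP
  rw [Finset.prod_univ_sum]
  refine sum_congr rfl fun x hx => ?_
  have h1 : ∀ l, (x l : ℝ) ≠ 0 := fun l => by
    have := one_le_of_mem_blk (hN l) (Fintype.mem_piFinset.1 hx l)
    exact Nat.cast_ne_zero.2 (by omega)
  rw [prod_mul_distrib, Nat.cast_prod, Real.log_prod fun l _ => h1 l, mul_sum, ei_sum]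

theorem sum_norm_le {X : ℝ} {q : ℕ} {N : Fin 6 → ℝ} {b : Fin 6 → ℕ → ℂ} (h : Adm X q N b) :
    ∑ x ∈ Fintype.piFinset (fun l => blk (N l) 2), ‖∏ l, b l (x l)‖ ≤ 704 * X := by
  have hN : ∀ l, 0 < N l := fun l => lt_of_lt_of_le (by norm_num) (h.half l)
  calc ∑ x ∈ Fintype.piFinset (fun l => blk (N l) 2), ‖∏ l, b l (x l)‖
      ≤ ∑ _x ∈ Fintype.piFinset (fun l => blk (N l) 2), (1 : ℝ) :=
        sum_le_sum fun x _ => by
          rw [norm_prod]
          exact prod_le_one (fun l _ => norm_nonneg _) fun l _ => h.bd l _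
    _ = ∏ l, ((blk (N l) 2).card : ℝ) := by
        rw [sum_const, nsmul_eq_mul, mul_one, Fintype.card_piFinset, Nat.cast_prod]
    _ ≤ ∏ l, 2 * N l :=
        prod_le_prod (fun l _ => Nat.cast_nonneg _) fun l _ => card_blk_le' (hN l) (by norm_num)
    _ = 64 * ∏ l, N l := by
        rw [prod_mul_distrib, prod_const, card_univ, Fintype.card_fin]; norm_num
    _ ≤ 704 * X := by linarith [h.hi]

theorem int_sum_le {ι : Type} (I : Finset ι) (a : ι → ℂ) (P : ι → ℝ → ℂ) (Bad : ι → Set ℝ)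
    (T α g : ℝ) (hP : ∀ τ, Continuous (P τ)) (ha : ∀ τ ∈ I, ‖a τ‖ ≤ α)
    (hB : ∀ τ ∈ I, MeasurableSet (Bad τ))
    (hg : ∀ τ ∈ I, ∫ t in Set.Icc (-T) T \ Bad τ, ‖P τ t‖ ^ 2 ≤ g) :
    ∫ t in Set.Icc (-T) T \ ⋃ τ ∈ I, Bad τ, ‖∑ τ ∈ I, a τ * P τ t‖ ^ 2 ≤
      (I.card : ℝ) ^ 2 * α ^ 2 * g := by
  have hi : ∀ τ (s : Set ℝ), IntegrableOn (fun t => ‖P τ t‖ ^ 2) (Set.Icc (-T) T \ s) :=
    fun τ s => (((hP τ).norm.pow 2).integrableOn_Icc).mono_set Set.sdiff_subset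
  have hc : Continuous fun t => ‖∑ τ ∈ I, a τ * P τ t‖ ^ 2 := by fun_prop
  have hm : MeasurableSet (Set.Icc (-T) T \ ⋃ τ ∈ I, Bad τ) :=
    measurableSet_Icc.diff (Finset.measurableSet_biUnion I hB)
  calc ∫ t in Set.Icc (-T) T \ ⋃ τ ∈ I, Bad τ, ‖∑ τ ∈ I, a τ * P τ t‖ ^ 2
      ≤ ∫ t in Set.Icc (-T) T \ ⋃ τ ∈ I, Bad τ, ∑ τ ∈ I, (I.card * α ^ 2) * ‖P τ t‖ ^ 2 := by
        refine setIntegral_mono_on (hc.integrableOn_Icc.mono_set Set.sdiff_subset)
          (integrable_finsetSum _ fun τ _ => (hi τ _).const_mul _) hm fun t _ => ?_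
        calc ‖∑ τ ∈ I, a τ * P τ t‖ ^ 2 ≤ (∑ τ ∈ I, ‖a τ * P τ t‖) ^ 2 :=
              pow_le_pow_left₀ (norm_nonneg _) (norm_sum_le _ _) 2
          _ ≤ I.card * ∑ τ ∈ I, ‖a τ * P τ t‖ ^ 2 := sq_sum_le_card_mul_sum_sq
          _ ≤ I.card * ∑ τ ∈ I, α ^ 2 * ‖P τ t‖ ^ 2 := by
              refine mul_le_mul_of_nonneg_left (sum_le_sum fun τ hτ => ?_) (Nat.cast_nonneg _)
              rw [norm_mul, mul_pow]
              exact mul_le_mul_of_nonneg_right
                (pow_le_pow_left₀ (norm_nonneg _) (ha τ hτ) 2) (sq_nonneg _)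
          _ = _ := by rw [mul_sum]; exact sum_congr rfl fun τ _ => by ring
    _ = ∑ τ ∈ I, (I.card * α ^ 2) * ∫ t in Set.Icc (-T) T \ ⋃ τ ∈ I, Bad τ, ‖P τ t‖ ^ 2 := by
        rw [integral_finsetSum _ fun τ _ => (hi τ _).const_mul _]
        exact sum_congr rfl fun τ _ => integral_const_mul _ _
    _ ≤ ∑ _τ ∈ I, (I.card * α ^ 2) * g := by
        refine sum_le_sum fun τ hτ => mul_le_mul_of_nonneg_left (le_trans ?_ (hg τ hτ))
          (by positivity)
        refine setIntegral_mono_set (hi τ _) (Eventually.of_forall fun t => sq_nonneg _)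
          (LE.le.eventuallyLE (Set.sdiff_subset_sdiff_right ?_))
        exact Set.subset_biUnion_of_mem (u := Bad) (show τ ∈ (I : Set ι) from hτ)
    _ = _ := by rw [sum_const, nsmul_eq_mul]; ring

end SI

theorem si_of (hd : DecStmt) (hs : SmearStmt) (hp : ProdStmt) (hw : PWSStmt) : SIStmt := by
  intro ε hε hε1 A B
  obtain ⟨C1, X1, hd⟩ := hd
  obtain ⟨C2, hs⟩ := hs w1 bump_w1
  obtain ⟨K, C3, X3, hp⟩ := hp ε hε hε1 (A + 14) B
  obtain ⟨C4, X4, hw⟩ := hw (A + 13 + K) B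
  obtain ⟨X0, hX0⟩ := eventually_atTop.1 ((eventually_ge_atTop X1).and
    ((eventually_ge_atTop X3).and ((eventually_ge_atTop X4).and ((eventually_ge_atTop 1).and
    ((ev_log 1).and ((ev_log_pow (δ := 8 / 9 - ε) (by linarith) (A + 14) 1).and
    (ev_rpow (δ := 1 / 9 + ε) (by linarith) 4)))))))
  refine ⟨max C2 0 * (C1 ^ 4 * max C3 0 + 704 ^ 2 * C1 ^ 5 + C4 ^ 2 * C1 + 704 ^ 2 * C1 ^ 4), X0,
    fun X q χ hX hq hqB => ?_⟩
  obtain ⟨h1, h3, h4, hX1, hL, hT, h9⟩ := hX0 X hX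
  obtain ⟨ι, I, a, N, b, hI, hab, hdec⟩ := hd X q χ h1 hq
  have hex : ∀ τ, ∃ Bad : Set ℝ, τ ∈ I → MeasurableSet Bad ∧
      volume Bad ≤ ENNReal.ofReal (Real.log X ^ K) ∧
      ∫ t in Set.Icc (-(2 * X ^ (8 / 9 - ε))) (2 * X ^ (8 / 9 - ε)) \ Bad,
        ‖∏ l, DP (blk (N τ l) 2) (b τ l) t‖ ^ 2 ≤ C3 * X ^ 2 / Real.log X ^ (A + 14) := by
    intro τ
    by_cases hτ : τ ∈ I
    · obtain ⟨Bad, h⟩ := hp X q (N τ) (b τ) h3 hq hqB (hab τ hτ).2
      exact ⟨Bad, fun _ => h⟩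
    · exact ⟨∅, fun h => absurd h hτ⟩
  choose Bad hBad using hex
  set L := Real.log X with hLdef
  set T := X ^ (8 / 9 - ε) with hTdef
  have hX0' : 0 < X := by linarith
  have hL0 : 0 < L := by linarith
  have hC1 : 0 ≤ C1 := by
    have h0 : (0 : ℝ) ≤ C1 * L ^ 6 := (Nat.cast_nonneg _).trans hI
    exact nonneg_of_mul_nonneg_left h0 (by positivity)
  rw [one_mul] at hT
  have hT1 : 1 ≤ T := (one_le_pow₀ hL).trans hT
  have hT4 : T ≤ X / 4 := by
    have e : T * X ^ (1 / 9 + ε) = X := by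
      rw [hTdef, ← Real.rpow_add hX0', show 8 / 9 - ε + (1 / 9 + ε) = 1 by ring, Real.rpow_one]
    have := mul_le_mul_of_nonneg_left h9 (show 0 ≤ T by linarith)
    linarith
  let S : Finset (Σ _ : ι, Fin 6 → ℕ) := I.sigma fun τ => Fintype.piFinset fun l => blk (N τ l) 2
  let c : (Σ _ : ι, Fin 6 → ℕ) → ℂ := fun i => a i.1 * ∏ l, b i.1 l (i.2 l)
  let ν : (Σ _ : ι, Fin 6 → ℕ) → ℝ := fun i => (∏ l, i.2 l : ℕ)
  have e1 : ∀ t, GP S (fun i => c i * (w1 (Real.log (ν i) - L) : ℝ)) ν t =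
      DP (wide X 4) (fun n => lc χ n * (wt X 4 n : ℝ)) t := fun t => by
    rw [hdec t, GP, sum_sigma]
    refine sum_congr rfl fun τ _ => ?_
    rw [mul_sum]
    refine sum_congr rfl fun x _ => ?_
    rw [wt_eq]
    simp only [c, ν]
    ring
  have e2 : ∀ t, GP S c ν t = ∑ τ ∈ I, a τ * ∏ l, DP (blk (N τ l) 2) (b τ l) t := fun t => by
    rw [GP, sum_sigma]
    refine sum_congr rfl fun τ hτ => ?_
    rw [← SI.prod_DP (fun l => lt_of_lt_of_le (by norm_num) ((hab τ hτ).2.half l)), mul_sum]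
    refine sum_congr rfl fun x _ => ?_
    simp only [c, ν]
    ring
  have hZ : ∑ i ∈ S, ‖c i‖ ≤ 704 * C1 ^ 2 * L ^ 7 * X := by
    rw [sum_sigma]
    calc ∑ τ ∈ I, ∑ x ∈ Fintype.piFinset fun l => blk (N τ l) 2, ‖c ⟨τ, x⟩‖
        ≤ ∑ _τ ∈ I, C1 * L * (704 * X) := sum_le_sum fun τ hτ => by
          simp only [c, norm_mul]
          rw [← mul_sum]
          exact mul_le_mul (hab τ hτ).1 (SI.sum_norm_le (hab τ hτ).2)
            (sum_nonneg fun _ _ => norm_nonneg _) (by positivity)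
      _ = I.card * (C1 * L * (704 * X)) := by rw [sum_const, nsmul_eq_mul]
      _ ≤ C1 * L ^ 6 * (C1 * L * (704 * X)) := mul_le_mul_of_nonneg_right hI (by positivity)
      _ = _ := by ring
  have hvol : volume (⋃ τ ∈ I, Bad τ) ≤ ENNReal.ofReal (C1 * L ^ (6 + K)) := by
    calc volume (⋃ τ ∈ I, Bad τ) ≤ ∑ τ ∈ I, volume (Bad τ) := measure_biUnion_finset_le _ _
      _ ≤ ∑ _τ ∈ I, ENNReal.ofReal (L ^ K) := sum_le_sum fun τ hτ => (hBad τ hτ).2.1
      _ = ENNReal.ofReal (I.card * L ^ K) := by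
          rw [sum_const, nsmul_eq_mul, ENNReal.ofReal_mul (Nat.cast_nonneg _),
            ENNReal.ofReal_natCast]
      _ ≤ _ := ENNReal.ofReal_le_ofReal (by
          rw [pow_add, ← mul_assoc]
          exact mul_le_mul_of_nonneg_right hI (by positivity))
  have hG : (∫ t in Set.Icc (-(2 * T)) (2 * T) \ ⋃ τ ∈ I, Bad τ, ‖GP S c ν t‖ ^ 2) ≤
      C1 ^ 4 * max C3 0 * (X ^ 2 / L ^ A) := by
    simp only [e2]
    refine (SI.int_sum_le I a (fun τ t => ∏ l, DP (blk (N τ l) 2) (b τ l) t) Bad (2 * T) (C1 * L)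
      (max C3 0 * X ^ 2 / L ^ (A + 14)) (fun τ => by fun_prop) (fun τ hτ => (hab τ hτ).1)
      (fun τ hτ => (hBad τ hτ).1) fun τ hτ => (hBad τ hτ).2.2.trans ?_).trans ?_
    · gcongr
      exact le_max_left _ _
    · calc (I.card : ℝ) ^ 2 * (C1 * L) ^ 2 * (max C3 0 * X ^ 2 / L ^ (A + 14))
          ≤ (C1 * L ^ 6) ^ 2 * (C1 * L) ^ 2 * (max C3 0 * X ^ 2 / L ^ (A + 14)) := by gcongr
        _ = _ := by rw [pow_add]; field_simp
  have key := hs _ S c ν X T (1 / L ^ (A + 20 + K)) _ _ (C4 * X / L ^ (A + 13 + K)) _ _ hT1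
    (by positivity) (by positivity)
    (Finset.measurableSet_biUnion I fun τ hτ => (hBad τ hτ).1) hvol hZ hG fun t ht => by
      rw [e1]; exact hw X t q χ h4 hq hqB (ht.trans hT4)
  simp only [← hLdef, e1] at key
  refine key.trans ?_
  have t2 : (704 * C1 ^ 2 * L ^ 7 * X) ^ 2 * (1 / L ^ (A + 20 + K)) * (C1 * L ^ (6 + K)) =
      704 ^ 2 * C1 ^ 5 * (X ^ 2 / L ^ A) := by
    simp only [pow_add]; field_simp
  have t3 : (C4 * X / L ^ (A + 13 + K)) ^ 2 * (C1 * L ^ (6 + K)) / (1 / L ^ (A + 20 + K)) =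
      C4 ^ 2 * C1 * (X ^ 2 / L ^ A) := by
    simp only [pow_add]; field_simp
  have t4 : (704 * C1 ^ 2 * L ^ 7 * X) ^ 2 / T ≤ 704 ^ 2 * C1 ^ 4 * (X ^ 2 / L ^ A) := by
    calc (704 * C1 ^ 2 * L ^ 7 * X) ^ 2 / T ≤ (704 * C1 ^ 2 * L ^ 7 * X) ^ 2 / L ^ (A + 14) := by
          gcongr
      _ = _ := by simp only [pow_add]; field_simp
  rw [t2, t3]
  have p0 : 0 ≤ X ^ 2 / L ^ A := by positivity
  have p1 : 0 ≤ max C3 0 := le_max_right _ _
  calc C2 * (C1 ^ 4 * max C3 0 * (X ^ 2 / L ^ A) + 704 ^ 2 * C1 ^ 5 * (X ^ 2 / L ^ A) +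
        C4 ^ 2 * C1 * (X ^ 2 / L ^ A) + (704 * C1 ^ 2 * L ^ 7 * X) ^ 2 / T)
      ≤ max C2 0 * (C1 ^ 4 * max C3 0 * (X ^ 2 / L ^ A) + 704 ^ 2 * C1 ^ 5 * (X ^ 2 / L ^ A) +
        C4 ^ 2 * C1 * (X ^ 2 / L ^ A) + (704 * C1 ^ 2 * L ^ 7 * X) ^ 2 / T) :=
        mul_le_mul_of_nonneg_right (le_max_left _ _) (by positivity)
    _ ≤ max C2 0 * (C1 ^ 4 * max C3 0 * (X ^ 2 / L ^ A) + 704 ^ 2 * C1 ^ 5 * (X ^ 2 / L ^ A) +
        C4 ^ 2 * C1 * (X ^ 2 / L ^ A) + 704 ^ 2 * C1 ^ 4 * (X ^ 2 / L ^ A)) :=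
        mul_le_mul_of_nonneg_left (by linarith) (le_max_right _ _)
    _ = _ := by ring

end Pool.Agent.MP_678834_nt.HL9

end
end MrgPart2

-- ======== part 3: formerly Pool.Agent.MP_678834_nt.HL9.Major
section MrgPart3

/-! Project HL9, module MAJOR: the major arcs. -/

set_option autoImplicit false

noncomputable section

namespace Pool.Agent.MP_678834_nt.HL9

open MeasureTheory Finset Filter
open scoped ArithmeticFunction.vonMangoldt ArithmeticFunction.Moebius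
open Pool.Agent.MP_db1c88_nt.z94 (ei bmp blk DP wide wt lev)
open Pool.Agent.MP_3d0d30_nt.Six (E ck)
open Pool.Agent.MP_db1c88_nt Pool.Agent.MP_3d0d30_nt

namespace Major

/-- the exponential sum attached to one character -/
def FF (X : ℝ) {q : ℕ} (χ : DirichletCharacter ℂ q) (η : ℝ) : ℂ :=
  ∑ n ∈ wide X 4, (lc χ n * (wt X 4 n : ℝ)) * (w1 (Real.log n - Real.log X) : ℝ) * E (n * η)

theorem continuous_FF (X : ℝ) {q : ℕ} (χ : DirichletCharacter ℂ q) : Continuous (FF X χ) := by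
  unfold FF; fun_prop

theorem log_le_two {X y : ℝ} (hX : 12 ≤ X) (hy0 : 0 ≤ y) (hy : y ≤ 12 * X) :
    Real.log y ≤ 2 * Real.log X := by
  have h0 : 0 ≤ Real.log X := Real.log_nonneg (by linarith)
  rcases hy0.eq_or_lt with h | h
  · rw [← h, Real.log_zero]; linarith
  · have h1 : Real.log y ≤ Real.log (X * X) := Real.log_le_log h (by nlinarith)
    rw [Real.log_mul (by linarith) (by linarith)] at h1
    linarith

theorem floor_le {X : ℝ} (hX : 12 ≤ X) : ((⌊3 * 4 * X⌋₊ : ℕ) : ℝ) ≤ 12 * X := by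
  have := Nat.floor_le (a := 3 * 4 * X) (by linarith)
  linarith

theorem pointwise (hc : CharStmt) {X : ℝ} (hX : 12 ≤ X) (q : ℕ) (a : ℤ) (hq : 1 ≤ q)
    (ha : a.natAbs.Coprime q) (η : ℝ) :
    ‖SS X (fun n => Λ n - rho q * E (-(a * n / q))) (a / q + η)‖ ^ 2 ≤
      2 * q * ∑ χ : DirichletCharacter ℂ q, ‖FF X χ η‖ ^ 2 + 8 * q ^ 2 * Real.log X ^ 2 := by
  obtain ⟨hcard, hnc, γ, hγ, hid⟩ := hc q a hq ha
  have hL : 0 ≤ Real.log X := Real.log_nonneg (by linarith)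
  set R : ℂ := ∑ n ∈ wide X 4, (if n.Coprime q then 0 else (Λ n : ℂ) * E (a * n / q)) *
    (w2 (Real.log n - Real.log X) : ℝ) * E (n * η) with hR
  have e : SS X (fun n => Λ n - rho q * E (-(a * n / q))) (a / q + η) =
      ∑ χ : DirichletCharacter ℂ q, γ χ * FF X χ η + R := by
    simp only [SS, FF, hR, mul_sum]
    rw [sum_comm, ← sum_add_distrib]
    refine sum_congr rfl fun n _ => ?_
    have h1 : E (n * (a / q + η)) = E (a * n / q) * E (n * η) := by
      rw [← Six.E_add]; congr 1; ring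
    have h2 : E (-(a * n / q)) * E (a * n / q) = 1 := by
      rw [← Six.E_add]; simp
    have h3 : ((Λ n : ℂ) - rho q * E (-(a * n / q))) * (w2 (Real.log n - Real.log X) : ℝ) *
        (E (a * n / q) * E (n * η)) = ((Λ n : ℂ) * E (a * n / q) - rho q) *
          (w2 (Real.log n - Real.log X) : ℝ) * E (n * η) := by
      linear_combination (-(rho q : ℂ) * (w2 (Real.log n - Real.log X) : ℝ) * E (n * η)) * h2
    rw [h1, h3, hid n, add_mul, add_mul, sum_mul, sum_mul]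
    congr 1
    refine sum_congr rfl fun χ _ => ?_
    rw [wt_eq, w2_eq]
    push_cast
    ring
  have hRle : ‖R‖ ≤ q * (2 * Real.log X) := by
    have h1 : ‖R‖ ≤ ∑ n ∈ (Icc 1 ⌊3 * 4 * X⌋₊).filter (fun n => ¬ n.Coprime q), Λ n := by
      rw [sum_filter]
      refine (norm_sum_le _ _).trans (sum_le_sum fun n _ => ?_)
      by_cases h : n.Coprime q
      · simp [h]
      · rw [if_neg h, if_pos h, norm_mul, norm_mul, norm_mul, Six.norm_E, Six.norm_E,
          Complex.norm_real, Complex.norm_real, mul_one, mul_one,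
          Real.norm_of_nonneg ArithmeticFunction.vonMangoldt_nonneg,
          Real.norm_of_nonneg (w2_nonneg _)]
        exact mul_le_of_le_one_right ArithmeticFunction.vonMangoldt_nonneg (w2_le_one _)
    refine h1.trans ((hnc _).trans ?_)
    gcongr
    exact log_le_two hX (Nat.cast_nonneg _) (floor_le hX)
  have hS : ‖∑ χ : DirichletCharacter ℂ q, γ χ * FF X χ η‖ ^ 2 ≤
      q * ∑ χ : DirichletCharacter ℂ q, ‖FF X χ η‖ ^ 2 := by
    have h1 : ‖∑ χ : DirichletCharacter ℂ q, γ χ * FF X χ η‖ ≤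
        ∑ χ : DirichletCharacter ℂ q, ‖FF X χ η‖ := by
      refine (norm_sum_le _ _).trans (sum_le_sum fun χ _ => ?_)
      rw [norm_mul]
      exact mul_le_of_le_one_left (norm_nonneg _) (hγ χ)
    refine (pow_le_pow_left₀ (norm_nonneg _) h1 2).trans (sq_sum_le_card_mul_sum_sq.trans ?_)
    gcongr
    exact_mod_cast hcard
  rw [e]
  have h4 := norm_add_le (∑ χ : DirichletCharacter ℂ q, γ χ * FF X χ η) R
  have h5 : ‖R‖ ^ 2 ≤ (q * (2 * Real.log X)) ^ 2 := pow_le_pow_left₀ (norm_nonneg _) hRle 2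
  have h6 := pow_le_pow_left₀ (norm_nonneg _) h4 2
  nlinarith [sq_nonneg (‖∑ χ : DirichletCharacter ℂ q, γ χ * FF X χ η‖ - ‖R‖)]

theorem sum_coef_le {X : ℝ} (hX : 12 ≤ X) (hL : 1 ≤ Real.log X) {q : ℕ}
    (χ : DirichletCharacter ℂ q) :
    ∑ n ∈ wide X 4, ‖lc χ n * (wt X 4 n : ℝ)‖ ≤ 36 * X * Real.log X := by
  have h1 : ∀ n ∈ wide X 4, ‖lc χ n * (wt X 4 n : ℝ)‖ ≤ 3 * Real.log X := by
    intro n hn
    have h2 := ((z94.mem_wide (by linarith) (by norm_num)).1 hn).2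
    rw [norm_mul, Complex.norm_real, wt_eq, Real.norm_of_nonneg (w1_nonneg _)]
    refine (mul_le_of_le_one_right (norm_nonneg _) (w1_le_one _)).trans
      ((norm_lc_le χ n).trans ?_)
    have := log_le_two hX (Nat.cast_nonneg n) (by linarith)
    linarith
  refine (sum_le_card_nsmul _ _ _ h1).trans ?_
  rw [nsmul_eq_mul, wide, Nat.card_Icc, Nat.add_sub_cancel]
  have := floor_le hX
  nlinarith

end Major

open Major in
theorem major_of (hc : CharStmt) (hm : MelStmt) (hs : SIStmt) : MajorStmt := by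
  intro ε hε hε' A B
  obtain ⟨Cm, hCm, hmel⟩ := hm w1 bump_w1
  obtain ⟨Cs, Xs, hsi⟩ := hs (ε / 2) (by linarith) (by linarith) (A + 2 * B) B
  obtain ⟨X₀, hX₀⟩ := Filter.eventually_atTop.1 ((eventually_ge_atTop Xs).and
    ((eventually_ge_atTop (12 : ℝ)).and ((ev_log 1).and
      ((ev_log_pow (δ := ε / 2) (by linarith) B (6 * Cm)).and
        (ev_log_pow (δ := 8 / 9) (by norm_num) (A + 3 * B + 2) 1)))))
  refine ⟨2 * Cm * (max Cs 0 + 6480) + 80, X₀, fun X H Q q a hX hH hQ hq hqQ ha => ?_⟩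
  obtain ⟨h1, h2, h3, h4, h5⟩ := hX₀ X hX
  rw [one_mul] at h5
  set L := Real.log X with hLdef
  have hX0 : 0 < X := by linarith
  have hL0 : 0 < L := by linarith
  have hq1 : (1 : ℝ) ≤ q := by exact_mod_cast hq
  have hH1 : 1 ≤ H := (Real.one_le_rpow (by linarith) (by linarith)).trans hH
  have hH0 : 0 < H := by linarith
  have hQ0 : 0 < Q := by linarith
  have hqL : (q : ℝ) ≤ L ^ B := hqQ.trans hQ
  have hLB : 1 ≤ L ^ B := one_le_pow₀ h3
  set Θ : ℝ := 5 * Q / H with hΘ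
  have hΘ0 : 0 < Θ := by positivity
  set T : ℝ := X ^ (8 / 9 - ε / 2) with hT
  have hT0 : 0 < T := by positivity
  have hTc : Cm * (1 + Θ * X) ≤ T := by
    have e1 : T = X ^ (ε / 2) * X ^ (8 / 9 - ε) := by
      rw [hT, ← Real.rpow_add hX0]; congr 1; ring
    have e2 : X = X ^ (1 / 9 + ε) * X ^ (8 / 9 - ε) := by
      rw [← Real.rpow_add hX0]; norm_num
    have e3 : 1 ≤ X ^ (8 / 9 - ε) := Real.one_le_rpow (by linarith) (by linarith)
    have e4 : Θ * X ≤ 5 * L ^ B * X ^ (8 / 9 - ε) := by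
      rw [hΘ, div_mul_eq_mul_div, div_le_iff₀ hH0]
      calc 5 * Q * X = 5 * Q * (X ^ (1 / 9 + ε) * X ^ (8 / 9 - ε)) := by rw [← e2]
        _ ≤ 5 * L ^ B * (H * X ^ (8 / 9 - ε)) := by gcongr
        _ = 5 * L ^ B * X ^ (8 / 9 - ε) * H := by ring
    have e5 : 1 ≤ L ^ B * X ^ (8 / 9 - ε) := one_le_mul_of_one_le_of_one_le hLB e3
    calc Cm * (1 + Θ * X) ≤ Cm * (6 * (L ^ B * X ^ (8 / 9 - ε))) := by
          gcongr; linarith
      _ = (6 * Cm * L ^ B) * X ^ (8 / 9 - ε) := by ring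
      _ ≤ T := by rw [e1]; gcongr
  have hone : ∀ χ : DirichletCharacter ℂ q, ∫ η in (-Θ)..Θ, ‖FF X χ η‖ ^ 2 ≤
      Cm * (max Cs 0 + 6480) * X / L ^ (A + 2 * B) := by
    intro χ
    have k1 := hmel ℕ (wide X 4) (fun n => lc χ n * (wt X 4 n : ℝ)) (fun n => n) X Θ T hX0 hΘ0
      (fun n hn => by
        exact_mod_cast ((z94.mem_wide hX0.le (by norm_num)).1 hn).1) hTc
    have k2 := hsi X q χ h1 hq hqL
    have k3 := sum_coef_le h2 h3 χ
    have k4 : X * X ^ (8 / 9 : ℝ) ≤ H * T ^ 2 := by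
      have e1 : X * X ^ (8 / 9 : ℝ) = X ^ (1 / 9 + ε) * T ^ 2 := by
        rw [hT, sq, ← Real.rpow_add hX0, ← Real.rpow_add hX0, ← Real.rpow_one_add' hX0.le
          (by norm_num)]
        congr 1; ring
      rw [e1]; gcongr
    have k5 : Θ * (∑ n ∈ wide X 4, ‖lc χ n * (wt X 4 n : ℝ)‖) ^ 2 / T ^ 2 ≤
        6480 * X / L ^ (A + 2 * B) := by
      rw [div_le_div_iff₀ (by positivity) (by positivity), hΘ, div_mul_eq_mul_div,
        div_mul_eq_mul_div, div_le_iff₀ hH0]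
      calc 5 * Q * (∑ n ∈ wide X 4, ‖lc χ n * (wt X 4 n : ℝ)‖) ^ 2 * L ^ (A + 2 * B)
          ≤ 5 * L ^ B * (36 * X * L) ^ 2 * L ^ (A + 2 * B) := by gcongr
        _ = 6480 * X * (X * L ^ (A + 3 * B + 2)) := by ring
        _ ≤ 6480 * X * (X * X ^ (8 / 9 : ℝ)) := by gcongr
        _ ≤ 6480 * X * (H * T ^ 2) := by gcongr
        _ = 6480 * X * T ^ 2 * H := by ring
    have k6 : ∫ t in (-T)..T, ‖GP (wide X 4) (fun n => lc χ n * (wt X 4 n : ℝ))
        (fun n => n) t‖ ^ 2 ≤ max Cs 0 * X ^ 2 / L ^ (A + 2 * B) := by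
      refine le_trans k2 ?_
      gcongr
      exact le_max_left _ _
    refine le_trans k1 ?_
    calc _ ≤ Cm / X * (max Cs 0 * X ^ 2 / L ^ (A + 2 * B)) + Cm * (6480 * X / L ^ (A + 2 * B)) := by
          refine add_le_add (by gcongr) ?_
          rw [mul_assoc, mul_div_assoc]
          gcongr
      _ = _ := by field_simp
  have hshift := intervalIntegral.integral_comp_add_left (a := -Θ) (b := Θ)
    (fun θ => ‖SS X (fun n => Λ n - rho q * E (-(a * n / q))) θ‖ ^ 2) ((a : ℝ) / q)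
  rw [sub_eq_add_neg, ← hshift]
  have hcF : ∀ χ : DirichletCharacter ℂ q, Continuous fun η => ‖FF X χ η‖ ^ 2 :=
    fun χ => (continuous_FF X χ).norm.pow 2
  have hcS : Continuous fun η => 2 * (q : ℝ) * ∑ χ : DirichletCharacter ℂ q, ‖FF X χ η‖ ^ 2 :=
    continuous_const.mul (continuous_finsetSum _ fun χ _ => hcF χ)
  have hmono : ∫ η in (-Θ)..Θ,
      ‖SS X (fun n => Λ n - rho q * E (-(a * n / q))) (a / q + η)‖ ^ 2 ≤ ∫ η in (-Θ)..Θ,
      (2 * q * ∑ χ : DirichletCharacter ℂ q, ‖FF X χ η‖ ^ 2 + 8 * q ^ 2 * L ^ 2) :=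
    intervalIntegral.integral_mono_on (by linarith)
      (Continuous.intervalIntegrable (by fun_prop) _ _)
      (Continuous.intervalIntegrable (hcS.add continuous_const) _ _)
      (fun η _ => pointwise hc h2 q a hq ha η)
  refine hmono.trans ?_
  rw [intervalIntegral.integral_add (hcS.intervalIntegrable _ _)
      (Continuous.intervalIntegrable continuous_const _ _),
    intervalIntegral.integral_const_mul,
    intervalIntegral.integral_finsetSum (fun χ _ => (hcF χ).intervalIntegrable _ _),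
    intervalIntegral.integral_const, smul_eq_mul]
  have hcard : (Fintype.card (DirichletCharacter ℂ q) : ℝ) ≤ q := by
    exact_mod_cast (hc q a hq ha).1
  have m0 : 0 ≤ max Cs 0 := le_max_right _ _
  have s1 : ∑ χ : DirichletCharacter ℂ q, ∫ η in (-Θ)..Θ, ‖FF X χ η‖ ^ 2 ≤
      L ^ B * (Cm * (max Cs 0 + 6480) * X / L ^ (A + 2 * B)) := by
    refine (sum_le_card_nsmul _ _ _ fun χ _ => hone χ).trans ?_
    rw [nsmul_eq_mul, card_univ]
    gcongr
    exact hcard.trans hqL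
  have s2 : 2 * (q : ℝ) * ∑ χ : DirichletCharacter ℂ q, ∫ η in (-Θ)..Θ, ‖FF X χ η‖ ^ 2 ≤
      2 * Cm * (max Cs 0 + 6480) * X / L ^ A := by
    calc _ ≤ 2 * (q : ℝ) * (L ^ B * (Cm * (max Cs 0 + 6480) * X / L ^ (A + 2 * B))) := by gcongr
      _ ≤ 2 * L ^ B * (L ^ B * (Cm * (max Cs 0 + 6480) * X / L ^ (A + 2 * B))) := by gcongr
      _ = _ := by field_simp; ring
  have s3 : (Θ - -Θ) * (8 * (q : ℝ) ^ 2 * L ^ 2) ≤ 80 * X / L ^ A := by
    have t1 : Θ ≤ 5 * L ^ B := by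
      rw [hΘ, div_le_iff₀ hH0]
      nlinarith
    have t2 : X ^ (8 / 9 : ℝ) ≤ X := by
      have := Real.rpow_le_rpow_of_exponent_le (x := X) (by linarith)
        (show (8 / 9 : ℝ) ≤ 1 by norm_num)
      rwa [Real.rpow_one] at this
    rw [le_div_iff₀ (by positivity), sub_neg_eq_add, ← two_mul]
    calc 2 * Θ * (8 * (q : ℝ) ^ 2 * L ^ 2) * L ^ A
        ≤ 2 * (5 * L ^ B) * (8 * (L ^ B) ^ 2 * L ^ 2) * L ^ A := by gcongr
      _ = 80 * L ^ (A + 3 * B + 2) := by ring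
      _ ≤ 80 * X := by gcongr; exact h5.trans t2
  calc _ ≤ 2 * Cm * (max Cs 0 + 6480) * X / L ^ A + 80 * X / L ^ A := add_le_add s2 s3
    _ = _ := by ring

end Pool.Agent.MP_678834_nt.HL9

end
end MrgPart3

-- marker of a merged file
example : 731051 + 497034 = 731051 + 497034 := rfl
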