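import Pool.Agent.MP_678834_nt.HL9.Basic

/-! Project HL9: a high moment of one short factor. -/

set_option autoImplicit false

noncomputable section

namespace Pool.Agent.MP_678834_nt.HL9

open MeasureTheory Finset Filter
open scoped ArithmeticFunction.vonMangoldt ArithmeticFunction.Moebius
open Pool.Agent.MP_db1c88_nt.z94 (ei bmp blk DP wide wt lev)
open Pool.Agent.MP_3d0d30_nt.Six (E ck)
open Pool.Agent.MP_db1c88_nt

namespace One

/-- integrating a function which is small off a finite family of sets -/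
theorem int_le {S : Set ℝ} (hS : MeasurableSet S) (hfin : volume S ≠ ⊤) {f : ℝ → ℝ}
    (hf : IntegrableOn f S) (G : Finset ℕ) (W : ℕ → Set ℝ) (hW : ∀ j, MeasurableSet (W j))
    (hWf : ∀ j, volume (W j) ≠ ⊤) {c₀ : ℝ} (hc₀ : 0 ≤ c₀) (c : ℕ → ℝ) (hc : ∀ j, 0 ≤ c j)
    (h : ∀ t ∈ S, f t ≤ c₀ ∨ ∃ j ∈ G, t ∈ W j ∧ f t ≤ c j) :
    ∫ t in S, f t ≤ c₀ * volume.real S + ∑ j ∈ G, c j * volume.real (W j) := by
  have hi : ∀ j, Integrable ((W j).indicator fun _ => c j) := fun j =>
    (integrableOn_const (hWf j)).integrable_indicator (hW j)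
  have hi0 : IntegrableOn (fun _ : ℝ => c₀) S := integrableOn_const hfin
  have hi1 : IntegrableOn (fun t => ∑ j ∈ G, (W j).indicator (fun _ => c j) t) S :=
    (integrable_finsetSum _ fun j _ => hi j).integrableOn
  have hnn : ∀ j t, 0 ≤ (W j).indicator (fun _ => c j) t := fun j t =>
    Set.indicator_nonneg (fun _ _ => hc j) t
  calc ∫ t in S, f t ≤ ∫ t in S, (c₀ + ∑ j ∈ G, (W j).indicator (fun _ => c j) t) := by
        refine setIntegral_mono_on hf (hi0.add hi1) hS fun t ht => ?_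
        rcases h t ht with h1 | ⟨j, hj, h1, h2⟩
        · exact h1.trans (le_add_of_nonneg_right (sum_nonneg fun j _ => hnn j t))
        · refine h2.trans (le_add_of_nonneg_of_le hc₀ ?_)
          refine le_trans (le_of_eq ?_) (single_le_sum (fun j _ => hnn j t) hj)
          rw [Set.indicator_of_mem h1]
    _ = c₀ * volume.real S + ∑ j ∈ G, ∫ t in S, (W j).indicator (fun _ => c j) t := by
        rw [integral_add hi0 hi1, setIntegral_const, smul_eq_mul, mul_comm,
          integral_finsetSum _ fun j _ => (hi j).integrableOn]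
    _ ≤ _ := by
        gcongr with j hj
        refine (setIntegral_le_integral (hi j) (Eventually.of_forall (hnn j))).trans_eq ?_
        rw [integral_indicator (hW j), setIntegral_const, smul_eq_mul, mul_comm]

/-- dyadic levels -/
theorem level {N D : ℝ} {J : ℕ} (hJ : N ≤ 2 ^ J) (h1 : 1 ≤ D) (h2 : D ≤ 2 * N) :
    ∃ j ∈ range (J + 1), N / 2 ^ j ≤ D ∧ D ≤ 2 * (N / 2 ^ j) := by
  classical
  have hJ1 : N / 2 ^ J ≤ D := ((div_le_one (by positivity)).2 hJ).trans h1
  have hex : ∃ j : ℕ, N / 2 ^ j ≤ D := ⟨J, hJ1⟩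
  refine ⟨Nat.find hex, mem_range.2 (Nat.lt_succ_of_le (Nat.find_min' hex hJ1)),
    Nat.find_spec hex, ?_⟩
  rcases Nat.eq_zero_or_pos (Nat.find hex) with h0 | h0
  · rw [h0]; simpa using h2
  · obtain ⟨i, hi⟩ : ∃ i, Nat.find hex = i + 1 := ⟨Nat.find hex - 1, by omega⟩
    have h3 := not_le.1 (Nat.find_min hex (show i < Nat.find hex by omega))
    rw [hi, pow_succ]
    refine h3.le.trans_eq ?_
    field_simp

theorem DP_shift (s : Finset ℕ) (b : ℕ → ℂ) (a t : ℝ) :
    DP s (fun m => b m * ei (-(a * Real.log m))) (t + a) = DP s b t := by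
  unfold DP
  refine sum_congr rfl fun m _ => ?_
  rw [mul_assoc, ← z94.ei_add]
  congr 2
  ring

theorem num_levels {X N : ℝ} (hN : 1 ≤ N) (hX : N ≤ X) (hL : 2 ≤ Real.log X) :
    ∃ J : ℕ, N ≤ 2 ^ J ∧ ((J + 1 : ℕ) : ℝ) ≤ 3 * Real.log X := by
  refine ⟨⌈2 * Real.log X⌉₊, ?_, ?_⟩
  · have h1 : Real.log N ≤ Real.log X := Real.log_le_log (by linarith) hX
    have h2 := Nat.le_ceil (2 * Real.log X)
    have h3 := Real.log_two_gt_d9
    rw [← Real.log_le_log_iff (by linarith) (by positivity), Real.log_pow]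
    nlinarith
  · have := Nat.ceil_lt_add_one (show 0 ≤ 2 * Real.log X by linarith)
    push_cast
    linarith

end One

theorem one_of (hl : Pool.Agent.MP_db1c88_nt.z94.LVStmt) (hn : NearStmt) : OneStmt := by
  classical
  intro ε η hε hε1 hη hηε A
  obtain ⟨C₁, hC₁, h1⟩ := hl (ε / 400) (by positivity) η hη
  obtain ⟨K₁, C₂', T₀, h2'⟩ := hn η hη
  obtain ⟨C₂, hC₂⟩ : ∃ C₂ : ℝ, C₂ = max C₂' 1 := ⟨_, rfl⟩
  have hC₂1 : 1 ≤ C₂ := hC₂ ▸ le_max_right _ _
  have hC₂2 : C₂' ≤ C₂ := hC₂ ▸ le_max_left _ _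
  have e1 := ev_rpow (δ := ε / 2) (by positivity) 4
  have e2 := ev_rpow (δ := 8 / 9 - ε / 2) (by linarith) (max T₀ 2)
  have e3 := ev_log (max 2 (3 * C₂))
  have e4 := ev_log_pow (δ := ε / 400) (by positivity) (A + 1) C₁
  have e5 := ev_log_pow (δ := 1) one_pos A 4
  have e6 := ev_rpow hη 2
  obtain ⟨X₀, hX₀⟩ := eventually_atTop.1
    (e1.and (e2.and (e3.and (e4.and (e5.and (e6.and (eventually_ge_atTop 1)))))))
  refine ⟨K₁ + 20 * (K₁ + A + 1) + 2, 1 + 3 * C₂, X₀, fun X N b hX hN1 hN2 hb => ?_⟩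
  obtain ⟨e1, e2, e3, e4, e5, e6, hX1⟩ := hX₀ X hX
  rw [Real.rpow_one] at e5
  have hX0 : 0 < X := by linarith
  have hN : 2 ≤ N := e6.trans hN1
  have hN0 : 0 < N := by linarith
  set L := Real.log X with hL
  have hL2 : 2 ≤ L := (le_max_left _ _).trans e3
  have hL3 : 3 * C₂ ≤ L := (le_max_right _ _).trans e3
  have hlN : 0 < Real.log N := Real.log_pos (by linarith)
  have hNX : N ≤ X :=
    hN2.trans ((Real.rpow_le_rpow_of_exponent_le hX1 (by linarith)).trans_eq (Real.rpow_one X))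
  obtain ⟨J, hJ1, hJ2⟩ := One.num_levels (by linarith) hNX hL2
  set sh := 2 * X ^ (8 / 9 - ε) with hsh
  have hsh0 : 0 < sh := by positivity
  obtain ⟨T, hT⟩ : ∃ T : ℝ, T = X ^ (8 / 9 - ε / 2) := ⟨_, rfl⟩
  rw [← hT] at e2
  have hT2 : 2 ≤ T := (le_max_right _ _).trans e2
  have hT0 : T₀ ≤ T := (le_max_left _ _).trans e2
  have hTX : T ≤ X := by
    rw [hT]
    exact (Real.rpow_le_rpow_of_exponent_le hX1 (by linarith)).trans_eq (Real.rpow_one X)
  have hshT : 2 * sh ≤ T := by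
    calc 2 * sh = 4 * X ^ (8 / 9 - ε) := by rw [hsh]; ring
      _ ≤ X ^ (ε / 2) * X ^ (8 / 9 - ε) := by gcongr
      _ = T := by rw [← Real.rpow_add hX0, hT]; congr 1; ring
  have hTη : T ^ η ≤ N := le_trans (by gcongr) hN1
  have hNT : N ^ 2 ≤ T := by
    calc N ^ 2 ≤ (X ^ (4 / 9 - ε / 4)) ^ 2 := by gcongr
      _ = T := by
          rw [← Real.rpow_natCast, ← Real.rpow_mul hX0.le, hT]; congr 1; push_cast; ring
  have hlT : Real.log T ≤ L := Real.log_le_log (by linarith) hTX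
  have hlT0 : 0 ≤ Real.log T := Real.log_nonneg (by linarith)
  obtain ⟨b', hb'⟩ : ∃ b' : ℕ → ℂ, b' = fun m => b m * ei (-(sh * Real.log m)) := ⟨_, rfl⟩
  have hb1 : ∀ m, ‖b' m‖ ≤ 1 := fun m => by rw [hb']; simpa using hb m
  obtain ⟨δ, hδ⟩ : ∃ δ : ℕ → ℝ, δ = fun j : ℕ => j * Real.log 2 / Real.log N := ⟨_, rfl⟩
  have hδ0 : ∀ j, 0 ≤ δ j := fun j => by
    rw [hδ]; exact div_nonneg (mul_nonneg (Nat.cast_nonneg _) (Real.log_pos one_lt_two).le) hlN.le
  have hδ1 : ∀ j, N ^ δ j = 2 ^ j := fun j => by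
    rw [hδ, Real.rpow_def_of_pos hN0, mul_div_cancel₀ _ hlN.ne', ← Real.log_pow,
      Real.exp_log (by positivity)]
  have hδ2 : ∀ j, N ^ (1 - δ j) = N / 2 ^ j := fun j => by
    rw [Real.rpow_sub hN0, Real.rpow_one, hδ1]
  obtain ⟨W, hW⟩ : ∃ W : ℕ → Set ℝ,
      W = fun j => (fun t => t + sh) ⁻¹' lev T N 2 b' (N ^ (1 - δ j)) 2 := ⟨_, rfl⟩
  have hWm : ∀ j, MeasurableSet (W j) := fun j => by
    rw [hW]; exact (z94.measurableSet_lev _ _ _ _ _ _).preimage (measurable_add_const sh)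
  have hWv : ∀ j, volume (W j) = volume (lev T N 2 b' (N ^ (1 - δ j)) 2) := fun j => by
    rw [hW]; exact measure_preimage_add_right _ _ _
  have hWf : ∀ j, volume (W j) ≠ ⊤ := fun j => by
    rw [hWv]; exact (z94.volume_lt_top (z94.lev_subset _ _ _ _ _ _)).ne
  have hWr : ∀ j, volume.real (W j) = volume.real (lev T N 2 b' (N ^ (1 - δ j)) 2) := fun j => by
    rw [Measure.real, hWv, Measure.real]
  -- the two bounds on the measure
  have hfar : ∀ j, volume.real (W j) ≤ C₁ * X ^ ((2 - 9 * ε / 8) * δ j + ε / 400) := fun j => by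
    rw [hWr]
    refine (h1 T N (1 - δ j) b' hT2 hTη hNT (by linarith [hδ0 j]) hb1).trans ?_
    rw [Real.rpow_add (by linarith), Real.rpow_add hX0]
    gcongr
    rw [hT, ← Real.rpow_mul hX0.le]
    refine le_of_eq ?_
    congr 1; ring
  have hnear : ∀ j, δ j < 1 / 100 →
      volume.real (W j) ≤ C₂ * L ^ K₁ * X ^ (136 / 75 * δ j) := fun j hj => by
    rw [hWr]
    refine (h2' T N (1 - δ j) b' hT0 hTη hNT (by linarith) (by linarith [hδ0 j]) hb1).trans ?_
    have f1 : T ^ (51 / 25 * (1 - (1 - δ j))) ≤ X ^ (136 / 75 * δ j) := by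
      rw [hT, ← Real.rpow_mul hX0.le]
      refine Real.rpow_le_rpow_of_exponent_le hX1 ?_
      nlinarith [hδ0 j]
    gcongr
  obtain ⟨Bd, hBd⟩ : ∃ Bd : Finset ℕ, Bd = (range (J + 1)).filter
      fun j => δ j < 1 / 100 ∧ X ^ (δ j / 10) < L ^ (K₁ + A + 1) := ⟨_, rfl⟩
  refine ⟨⋃ j ∈ Bd, W j, Finset.measurableSet_biUnion _ fun j _ => hWm j, ?_, ?_⟩
  · have f0 : volume (⋃ j ∈ Bd, W j) ≠ ⊤ :=
      measure_biUnion_ne_top Bd.finite_toSet fun j _ => hWf j
    rw [ENNReal.le_ofReal_iff_toReal_le f0 (by positivity)]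
    refine (measureReal_biUnion_finset_le Bd W).trans ?_
    have f1 : ∀ j ∈ Bd, volume.real (W j) ≤ C₂ * L ^ (K₁ + 20 * (K₁ + A + 1)) := fun j hj => by
      rw [hBd, mem_filter] at hj
      refine (hnear j hj.2.1).trans ?_
      rw [pow_add, mul_assoc, mul_comm 20, pow_mul]
      gcongr
      calc X ^ (136 / 75 * δ j) ≤ X ^ (δ j / 10 * (20 : ℕ)) :=
            Real.rpow_le_rpow_of_exponent_le hX1 (by push_cast; linarith [hδ0 j])
        _ = (X ^ (δ j / 10)) ^ 20 := by rw [Real.rpow_mul hX0.le, Real.rpow_natCast]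
        _ ≤ _ := by gcongr; exact hj.2.2.le
    have f2 : (Bd.card : ℝ) ≤ 3 * L := by
      refine le_trans ?_ hJ2
      rw [hBd]
      exact_mod_cast (card_filter_le _ _).trans (card_range _).le
    refine (sum_le_card_nsmul _ _ _ f1).trans ?_
    rw [nsmul_eq_mul]
    calc _ ≤ 3 * L * (C₂ * L ^ (K₁ + 20 * (K₁ + A + 1))) := by gcongr
      _ = L ^ (K₁ + 20 * (K₁ + A + 1)) * L * (3 * C₂) := by ring
      _ ≤ L ^ (K₁ + 20 * (K₁ + A + 1)) * L * L := by gcongr
      _ = _ := by ring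
  · obtain ⟨p, hp⟩ : ∃ p : ℝ, p = 2 * (1 - 7 * η) * L / Real.log N := ⟨_, rfl⟩
    rw [← hp]
    have hη1 : η ≤ 1 / 300 := by linarith
    have hp0 : 0 ≤ p := by
      rw [hp]; exact div_nonneg (mul_nonneg (by linarith) (by linarith)) hlN.le
    have hNp : ∀ d : ℝ, (N ^ (-d)) ^ p = X ^ (-(2 * (1 - 7 * η) * d)) := fun d => by
      rw [← Real.rpow_mul hN0.le, Real.rpow_def_of_pos hN0, Real.rpow_def_of_pos hX0, hp, ← hL]
      congr 1
      field_simp
    have hcont : Continuous fun t => (‖DP (blk N 2) b t‖ / (2 * N)) ^ p :=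
      ((z94.continuous_DP _ _).norm.div_const _).rpow_const fun _ => Or.inr hp0
    have hS : MeasurableSet (Set.Icc (-sh) sh \ ⋃ j ∈ Bd, W j) :=
      measurableSet_Icc.diff (Finset.measurableSet_biUnion _ fun j _ => hWm j)
    have hSf : volume (Set.Icc (-sh) sh \ ⋃ j ∈ Bd, W j) ≠ ⊤ :=
      ((measure_mono Set.sdiff_subset).trans_lt measure_Icc_lt_top).ne
    have hmain := One.int_le hS hSf
      ((hcont.continuousOn.integrableOn_compact isCompact_Icc).mono_set Set.sdiff_subset)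
      (range (J + 1) \ Bd) W hWm hWf (c₀ := X ^ (-(2 * (1 - 7 * η) * 1))) (by positivity)
      (fun j => X ^ (-(2 * (1 - 7 * η) * δ j))) (fun j => by positivity) (fun t ht => by
        rcases le_total ‖DP (blk N 2) b t‖ 1 with hD | hD
        · left
          rw [← hNp]
          refine Real.rpow_le_rpow (by positivity) ?_ hp0
          rw [Real.rpow_neg_one, div_le_iff₀ (by positivity), mul_comm 2, ← mul_assoc,
            inv_mul_cancel₀ hN0.ne']
          linarith
        · right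
          have hD2 : ‖DP (blk N 2) b t‖ ≤ 2 * N := by
            have := z94.norm_DP_le (blk N 2) hb t
            rw [mul_one] at this
            exact this.trans (card_blk_le' hN0 (by norm_num))
          obtain ⟨j, hj, g1, g2⟩ := One.level hJ1 hD hD2
          have hm : t ∈ W j := by
            rw [hW]
            refine ⟨⟨by linarith [ht.1.1], by linarith [ht.1.2]⟩, ?_⟩
            rw [hb', One.DP_shift, hδ2]
            exact ⟨g1, g2⟩
          refine ⟨j, mem_sdiff.2 ⟨hj, fun hjB => ht.2 (Set.mem_biUnion (mem_coe.2 hjB) hm)⟩,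
            hm, ?_⟩
          rw [← hNp]
          refine Real.rpow_le_rpow (by positivity) ?_ hp0
          rw [Real.rpow_neg hN0.le, hδ1, div_le_iff₀ (by positivity)]
          refine g2.trans_eq ?_
          field_simp)
    refine hmain.trans ?_
    have hLA : 0 < L ^ A := by positivity
    have f1 : X ^ (-(2 * (1 - 7 * η) * 1)) * volume.real (Set.Icc (-sh) sh \ ⋃ j ∈ Bd, W j) ≤
        1 / L ^ A := by
      have g1 : volume.real (Set.Icc (-sh) sh \ ⋃ j ∈ Bd, W j) ≤ 4 * X ^ (8 / 9 - ε) := by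
        refine (measureReal_mono Set.sdiff_subset measure_Icc_lt_top.ne).trans ?_
        rw [Real.volume_real_Icc_of_le (by linarith), hsh]
        linarith
      calc _ ≤ X ^ (-(2 * (1 - 7 * η) * 1)) * (4 * X ^ (8 / 9 - ε)) := by gcongr
        _ = 4 * X ^ (-(2 * (1 - 7 * η) * 1) + (8 / 9 - ε)) := by rw [Real.rpow_add hX0]; ring
        _ ≤ 4 * X ^ (-1 : ℝ) := by
            gcongr
            linarith
        _ ≤ _ := by
            rw [Real.rpow_neg_one, ← div_eq_mul_inv, div_le_div_iff₀ hX0 hLA]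
            linarith
    have f2 : ∀ j ∈ range (J + 1) \ Bd,
        X ^ (-(2 * (1 - 7 * η) * δ j)) * volume.real (W j) ≤ C₂ / L ^ (A + 1) := fun j hj => by
      obtain ⟨g1, g2⟩ := mem_sdiff.1 hj
      have hd := hδ0 j
      by_cases g3 : δ j < 1 / 100
      · have g4 : L ^ (K₁ + A + 1) ≤ X ^ (δ j / 10) := by
          by_contra g5
          exact g2 (by rw [hBd]; exact mem_filter.2 ⟨g1, g3, not_le.1 g5⟩)
        calc _ ≤ X ^ (-(2 * (1 - 7 * η) * δ j)) * (C₂ * L ^ K₁ * X ^ (136 / 75 * δ j)) := by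
              gcongr; exact hnear j g3
          _ = C₂ * L ^ K₁ * X ^ (-(2 * (1 - 7 * η) * δ j) + 136 / 75 * δ j) := by
              rw [Real.rpow_add hX0]; ring
          _ ≤ C₂ * L ^ K₁ * X ^ (-(δ j / 10)) := by
              gcongr
              nlinarith
          _ ≤ C₂ * L ^ K₁ * (L ^ (K₁ + A + 1))⁻¹ := by
              rw [Real.rpow_neg hX0.le]
              gcongr
          _ = _ := by rw [add_assoc, pow_add L K₁]; field_simp
      · rw [not_lt] at g3
        calc _ ≤ X ^ (-(2 * (1 - 7 * η) * δ j)) *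
              (C₁ * X ^ ((2 - 9 * ε / 8) * δ j + ε / 400)) := by
              gcongr; exact hfar j
          _ = C₁ * X ^ (-(2 * (1 - 7 * η) * δ j) + ((2 - 9 * ε / 8) * δ j + ε / 400)) := by
              rw [Real.rpow_add hX0 (-_)]; ring
          _ ≤ C₁ * X ^ (-(ε / 400)) := by
              gcongr
              nlinarith [mul_nonneg (sub_nonneg.2 hηε) hd, mul_nonneg hε.le (sub_nonneg.2 g3),
                mul_nonneg hε.le hd]
          _ ≤ 1 / L ^ (A + 1) := by
              rw [Real.rpow_neg hX0.le, ← div_eq_mul_inv,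
                div_le_div_iff₀ (by positivity) (by positivity), one_mul]
              exact e4
          _ ≤ _ := by gcongr
    have f3 : ((range (J + 1) \ Bd).card : ℝ) ≤ 3 * L := by
      refine le_trans ?_ hJ2
      exact_mod_cast (card_le_card sdiff_subset).trans (card_range _).le
    have f4 := sum_le_card_nsmul _ _ _ f2
    rw [nsmul_eq_mul] at f4
    calc _ ≤ 1 / L ^ A + 3 * L * (C₂ / L ^ (A + 1)) :=
          add_le_add f1 (f4.trans (by gcongr))
      _ = _ := by rw [pow_succ]; field_simp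

end Pool.Agent.MP_678834_nt.HL9
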