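import Pool.Agent.MP_678834_nt.HL9.Basic
import Pool.Agent.MP_3d0d30_nt.Six.Small

-- ======== part 0: formerly Pool.Agent.MP_678834_nt.HL9.Mel
section MrgPart0

/-! Project HL9, module MEL: exponential sums on a short arc through Dirichlet polynomials. -/

set_option autoImplicit false

noncomputable section

namespace Pool.Agent.MP_678834_nt.HL9

open MeasureTheory Finset Filter
open scoped ComplexConjugate FourierTransform
open Pool.Agent.MP_db1c88_nt.z94 (ei bmp blk DP wide wt lev)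
open Pool.Agent.MP_3d0d30_nt.Six (E ck)
open Pool.Agent.MP_db1c88_nt
open Pool.Agent.MP_3d0d30_nt

namespace Mel

theorem intg {F : Type} [NormedAddCommGroup F] {H : ℝ × ℝ → F} (hH : Continuous H)
    (a b c d : ℝ) :
    Integrable H ((volume.restrict (Set.Icc a b)).prod (volume.restrict (Set.Icc c d))) := by
  rw [Measure.prod_restrict]
  exact hH.continuousOn.integrableOn_compact (isCompact_Icc.prod isCompact_Icc)

theorem lap {R l : ℝ} (hR : 0 < R) (hl : 0 < l) (a b u : ℝ) :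
    ∫ v in Set.Icc a b, Real.pi * R * Real.exp (-(2 * Real.pi * |u - v| / (R * l)⁻¹)) ≤ 1 / l := by
  have hb : 0 < (R * l)⁻¹ := by positivity
  have h1 := (Six.kern.intExp _ hb).comp_sub_left u
  have h2 := Six.kern.intExp0 _ hb
  rw [← integral_sub_left_eq_self _ volume u] at h2
  have p := Real.pi_pos
  rw [integral_const_mul]
  calc _ ≤ Real.pi * R * ∫ v, Real.exp (-(2 * Real.pi * |u - v| / (R * l)⁻¹)) := by
        exact mul_le_mul_of_nonneg_left (setIntegral_le_integral h1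
          (Eventually.of_forall fun _ => (Real.exp_pos _).le)) (by positivity)
    _ = 1 / l := by rw [h2]; field_simp

/-- the Bessel inequality for an expanding phase -/
theorem bessel {F : ℝ → ℂ} {ψ : ℝ → ℝ} (hF : Continuous F) (hψ : Continuous ψ) {a b R l : ℝ}
    (hR : 0 < R) (hl : 0 < l)
    (h : ∀ u ∈ Set.Icc a b, ∀ v ∈ Set.Icc a b, l * |u - v| ≤ |ψ u - ψ v|) :
    ∫ s in (-R)..R, ‖∫ u in Set.Icc a b, F u * E (s * ψ u)‖ ^ 2 ≤
      2 / l * ∫ u in Set.Icc a b, ‖F u‖ ^ 2 := by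
  set μ := volume.restrict (Set.Icc a b) with hμ
  have p := Real.pi_pos
  have iF : Integrable F μ := hF.continuousOn.integrableOn_compact isCompact_Icc
  set I : ℝ → ℂ := fun s => ∫ u, F u * E (s * ψ u) ∂μ with hI
  have cI : Continuous I := z94.continuous_integral_mul (B := 1) iF
    (g := fun s u => E (s * ψ u)) (by unfold Function.uncurry; fun_prop) (by simp)
  have bI : ∀ s, ‖I s‖ ≤ ∫ u, ‖F u‖ ∂μ := fun s =>
    (norm_integral_le_integral_norm _).trans (le_of_eq (by simp))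
  have i1 : Integrable fun s => ck (s / R) * ‖I s‖ ^ 2 :=
    (Six.integrable_ck_div hR.ne').mul_bdd (c := (∫ u, ‖F u‖ ∂μ) ^ 2) (by fun_prop)
      (Eventually.of_forall fun s => by
        rw [Real.norm_of_nonneg (by positivity)]
        exact pow_le_pow_left₀ (norm_nonneg _) (bI s) 2)
  have s1 : ∫ s in (-R)..R, ‖I s‖ ^ 2 ≤ 2 * ∫ s, ck (s / R) * ‖I s‖ ^ 2 := by
    rw [intervalIntegral.integral_of_le (by linarith), ← integral_const_mul]
    refine le_trans (setIntegral_mono_on ?_ (i1.const_mul 2).integrableOn measurableSet_Ioc ?_)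
      (setIntegral_le_integral (i1.const_mul 2) (Eventually.of_forall fun s => ?_))
    · exact ((cI.norm.pow 2).continuousOn.integrableOn_compact isCompact_Icc).mono_set
        Set.Ioc_subset_Icc_self
    · intro s hs
      have : 1 / 2 ≤ ck (s / R) := Six.half_le_ck (by
        rw [abs_div, abs_of_pos hR, div_le_one hR, abs_le]; exact ⟨hs.1.le, hs.2⟩)
      nlinarith [sq_nonneg ‖I s‖]
    · have := Six.ck_nonneg (s / R)
      positivity
  set K : ℝ × ℝ → ℝ := fun z => Real.pi * R * Real.exp (-(2 * Real.pi * R * |ψ z.1 - ψ z.2|))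
    with hK
  set K0 : ℝ × ℝ → ℝ := fun z =>
    Real.pi * R * Real.exp (-(2 * Real.pi * |z.1 - z.2| / (R * l)⁻¹)) with hK0
  have e1 : ∀ s, ((ck (s / R) * ‖I s‖ ^ 2 : ℝ) : ℂ) = ∫ z : ℝ × ℝ,
      (ck (s / R) : ℂ) * (F z.1 * conj (F z.2) * E (s * (ψ z.1 - ψ z.2))) ∂μ.prod μ := by
    intro s
    rw [integral_const_mul]
    push_cast
    congr 1
    rw [← Complex.mul_conj', hI]
    simp only []
    rw [← integral_conj, ← integral_prod_mul]
    refine integral_congr_ae (Eventually.of_forall fun z => ?_)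
    simp only [map_mul, mul_sub, Six.E_sub]
    ring
  have i2 : Integrable (Function.uncurry fun (s : ℝ) (z : ℝ × ℝ) =>
      (ck (s / R) : ℂ) * (F z.1 * conj (F z.2) * E (s * (ψ z.1 - ψ z.2))))
      (volume.prod (μ.prod μ)) := by
    have i3 : Integrable (fun z : ℝ × ℝ => ‖F z.1‖ * ‖F z.2‖) (μ.prod μ) :=
      intg (by fun_prop) _ _ _ _
    refine ((Six.integrable_ck_div hR.ne').mul_prod i3).mono' ?_ (Eventually.of_forall fun x => ?_)
    · refine Continuous.aestronglyMeasurable ?_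
      unfold Function.uncurry
      fun_prop
    · simp [Function.uncurry, abs_of_pos (Six.ck_pos _)]
  have s2 : ((∫ s, ck (s / R) * ‖I s‖ ^ 2 : ℝ) : ℂ) =
      ∫ z : ℝ × ℝ, F z.1 * conj (F z.2) * (K z : ℂ) ∂μ.prod μ := by
    rw [← integral_complex_ofReal]
    simp only [e1]
    rw [integral_integral_swap i2]
    refine integral_congr_ae (Eventually.of_forall fun z => ?_)
    simp only [hK]
    rw [← Six.kern.cauchy R _ hR, ← integral_const_mul]
    congr 1
    ext s
    ring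
  have cK0 : Continuous K0 := by rw [hK0]; fun_prop
  have j1 : Integrable (fun z : ℝ × ℝ => ‖F z.1‖ ^ 2 * K0 z) (μ.prod μ) :=
    intg (by fun_prop) _ _ _ _
  have j2 : Integrable (fun z : ℝ × ℝ => ‖F z.2‖ ^ 2 * K0 z) (μ.prod μ) :=
    intg (by fun_prop) _ _ _ _
  have iF2 : Integrable (fun u => ‖F u‖ ^ 2) μ :=
    (hF.norm.pow 2).continuousOn.integrableOn_compact isCompact_Icc
  have t1 : ∫ z : ℝ × ℝ, ‖F z.1‖ ^ 2 * K0 z ∂μ.prod μ ≤ 1 / l * ∫ u, ‖F u‖ ^ 2 ∂μ := by
    rw [integral_prod _ j1, ← integral_const_mul]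
    refine integral_mono j1.integral_prod_left (iF2.const_mul _) fun u => ?_
    simp only [hK0]
    rw [integral_const_mul, mul_comm]
    exact mul_le_mul_of_nonneg_right (lap hR hl a b u) (sq_nonneg _)
  have t2 : ∫ z : ℝ × ℝ, ‖F z.2‖ ^ 2 * K0 z ∂μ.prod μ ≤ 1 / l * ∫ u, ‖F u‖ ^ 2 ∂μ := by
    rw [integral_prod_symm _ j2, ← integral_const_mul]
    refine integral_mono j2.integral_prod_right (iF2.const_mul _) fun u => ?_
    simp only [hK0]
    rw [integral_const_mul, mul_comm]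
    refine mul_le_mul_of_nonneg_right (le_trans (le_of_eq ?_) (lap hR hl a b u)) (sq_nonneg _)
    simp only [abs_sub_comm _ u]
    rfl
  have s3 : ‖∫ z : ℝ × ℝ, F z.1 * conj (F z.2) * (K z : ℂ) ∂μ.prod μ‖ ≤
      ∫ z : ℝ × ℝ, (1 / 2) * (‖F z.1‖ ^ 2 * K0 z + ‖F z.2‖ ^ 2 * K0 z) ∂μ.prod μ := by
    refine norm_integral_le_of_norm_le ((j1.add j2).const_mul _) ?_
    rw [hμ, Measure.prod_restrict]
    refine ae_restrict_of_forall_mem (measurableSet_Icc.prod measurableSet_Icc) fun z hz => ?_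
    have k0 : 0 ≤ K z := by rw [hK]; positivity
    have k1 : K z ≤ K0 z := by
      simp only [hK, hK0]
      gcongr
      rw [div_inv_eq_mul]
      calc _ = 2 * Real.pi * R * (l * |z.1 - z.2|) := by ring
        _ ≤ _ := by gcongr; exact h _ hz.1 _ hz.2
    rw [norm_mul, norm_mul, RCLike.norm_conj, Complex.norm_real, Real.norm_of_nonneg k0]
    calc _ ≤ (1 / 2 * (‖F z.1‖ ^ 2 + ‖F z.2‖ ^ 2)) * K0 z := by
          refine mul_le_mul ?_ k1 k0 (by positivity)
          nlinarith [sq_nonneg (‖F z.1‖ - ‖F z.2‖)]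
      _ = _ := by ring
  rw [← s2, integral_const_mul, integral_add j1 j2, Complex.norm_real] at s3
  have := le_abs_self (∫ s, ck (s / R) * ‖I s‖ ^ 2)
  rw [Real.norm_eq_abs] at s3
  have e : 2 / l * ∫ u, ‖F u‖ ^ 2 ∂μ = 2 * (1 / l * ∫ u, ‖F u‖ ^ 2 ∂μ) := by ring
  rw [e]
  linarith

/-- the Mellin transform of the twisted weight -/
def ph (V : ℝ → ℝ) (a w : ℝ) : ℂ :=
  ∫ y in Set.Icc (-1 : ℝ) 3, (V y : ℂ) * E (a * Real.exp y) * E (-(w * y))

theorem continuous_ph {V : ℝ → ℝ} (hV : Bump V) (a : ℝ) : Continuous (ph V a) := by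
  have := hV.1.continuous
  exact z94.continuous_integral_mul (B := 1)
    (Continuous.continuousOn (by fun_prop) |>.integrableOn_compact isCompact_Icc)
    (g := fun w y => E (-(w * y))) (by unfold Function.uncurry; fun_prop) (by simp)

theorem inv {V : ℝ → ℝ} (hV : Bump V) (a : ℝ) (hi : Integrable (ph V a)) (y : ℝ) :
    (V y : ℂ) * E (a * Real.exp y) = ∫ w, ph V a w * E (w * y) := by
  have c0 := hV.1.continuous
  set g : ℝ → ℂ := fun y => (V y : ℂ) * E (a * Real.exp y) with hg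
  have cg : Continuous g := by rw [hg]; fun_prop
  have z : ∀ x, x ∉ Set.Icc (-1 : ℝ) 3 → g x = 0 := fun x hx => by
    simp [hg, hV.2 x fun h => hx (Set.Ioo_subset_Icc_self h)]
  have ig : Integrable g :=
    cg.integrable_of_hasCompactSupport (HasCompactSupport.intro isCompact_Icc z)
  have e : 𝓕 g = ph V a := by
    ext w
    rw [Real.fourier_real_eq_integral_exp_smul, ph,
      setIntegral_eq_integral_of_forall_compl_eq_zero fun x hx => by
        have := z x hx
        simp only [hg] at this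
        rw [this, zero_mul]]
    congr 1
    ext v
    rw [smul_eq_mul, mul_comm]
    simp only [hg, E]
    congr 2
    push_cast
    ring
  have := ig.fourierInv_fourier_eq (e ▸ hi) (v := y) cg.continuousAt
  rw [e, Real.fourierInv_eq'] at this
  change g y = _
  rw [← this]
  congr 1
  ext w
  rw [smul_eq_mul, mul_comm]
  simp only [E]
  congr 2
  simp only [RCLike.inner_apply, conj_trivial]
  push_cast
  ring

theorem exp_three : Real.exp 3 ≤ 21 := by
  have h : Real.exp 3 = Real.exp 1 ^ 3 := by rw [← Real.exp_nat_mul]; norm_num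
  have e1 := Real.exp_one_lt_d9
  rw [h]
  calc _ ≤ (2.7182818286 : ℝ) ^ 3 := by gcongr
    _ ≤ 21 := by norm_num

theorem decay {V : ℝ → ℝ} (hV : Bump V) : ∃ A : ℝ, 1 ≤ A ∧ (∀ y, |V y| ≤ A) ∧
    ∀ a w : ℝ, w ≠ 0 → 42 * |a| ≤ |w| → ‖ph V a w‖ ≤ A / w ^ 2 := by
  obtain ⟨V1, V2, A, hA, b1, b2, hd⟩ := hV.derivs
  obtain ⟨C, hC, hN⟩ := Six.nonstat
  refine ⟨max A (16 * C * A), le_max_of_le_left hA, fun y => le_max_of_le_left (hd y).2.2.1,
    fun a w hw h => ?_⟩
  have w0 : 0 < |w| := abs_pos.2 hw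
  have c20 : Six.C20 (fun y => (V y : ℂ)) (-1) 3 1 A :=
    ⟨fun y => (V1 y : ℂ), fun y => (V2 y : ℂ),
      ⟨fun y _ => (hd y).1.ofReal_comp, fun y _ => (hd y).2.1.ofReal_comp,
        (Complex.continuous_ofReal.comp b2.1.continuous).continuousOn,
        fun y _ => by simpa using (hd y).2.2.1, fun y _ => by simpa using (hd y).2.2.2.1,
        fun y _ => by simpa using (hd y).2.2.2.2⟩,
      by simp [hV.2 (-1) (by simp)], by simp [hV.2 3 (by simp)], by simp [b1.2 (-1) (by simp)],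
      by simp [b1.2 3 (by simp)]⟩
  have key := hN _ (fun y => a * Real.exp y - w * y) (fun y => a * Real.exp y - w)
    (fun y => a * Real.exp y) (fun y => a * Real.exp y) (-1) 3 1 A (|w| / 2) (by norm_num)
    one_pos (by positivity) c20 (fun y hy => by
      have h1 : |a * Real.exp y| ≤ |w| / 2 := by
        rw [abs_mul, abs_of_pos (Real.exp_pos y)]
        have := (Real.exp_le_exp.2 hy.2).trans exp_three
        nlinarith [abs_nonneg a]
      have d := (Real.hasDerivAt_exp y).const_mul a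
      refine ⟨?_, d.sub_const w, d, ?_, by simpa using h1, by simpa using h1⟩
      · have d2 := d.sub ((hasDerivAt_id y).const_mul w)
        rw [mul_one] at d2
        exact d2
      · have := abs_sub_abs_le_abs_sub w (a * Real.exp y)
        rw [abs_sub_comm] at this
        linarith) (by fun_prop)
  have e : ph V a w = ∫ y in (-1 : ℝ)..3, (V y : ℂ) * E (a * Real.exp y - w * y) := by
    rw [ph, integral_Icc_eq_integral_Ioc, intervalIntegral.integral_of_le (by norm_num)]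
    simp only [sub_eq_add_neg, Six.E_add, mul_assoc]
  rw [e]
  refine key.trans ?_
  have e2 : C * ((3 - -1) * A / (|w| / 2 * 1) ^ 2) = 16 * C * A / w ^ 2 := by
    rw [← sq_abs w]; field_simp; norm_num
  rw [e2]
  gcongr
  exact le_max_right _ _

theorem inv_sq_le {R w : ℝ} (hR : 0 < R) (h : R ≤ |w|) : 1 / w ^ 2 ≤ 2 / R ^ 2 * ck (w / R) := by
  have h1 : R ^ 2 ≤ w ^ 2 := by rw [← sq_abs w]; gcongr
  have h2 : 0 < R ^ 2 := by positivity
  have h3 : 0 < w ^ 2 := h2.trans_le h1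
  have e : 2 / R ^ 2 * ck (w / R) = 2 / (R ^ 2 + w ^ 2) := by unfold ck; field_simp
  rw [e, div_le_div_iff₀ h3 (by positivity)]
  linarith

/-- the sum as a truncated Mellin integral -/
theorem split {V : ℝ → ℝ} (hV : Bump V) {A : ℝ} (hA : 0 ≤ A)
    (hd : ∀ a w : ℝ, w ≠ 0 → 42 * |a| ≤ |w| → ‖ph V a w‖ ≤ A / w ^ 2)
    {ι : Type} (S : Finset ι) (c : ι → ℂ) (y : ι → ℝ) {a R : ℝ} (hR : 0 < R) (ha : 42 * |a| ≤ R) :
    ‖∑ i ∈ S, c i * ((V (y i) : ℂ) * E (a * Real.exp (y i))) -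
      ∫ x in Set.Icc (-1 : ℝ) 3, ((V x : ℂ) * ∫ w in Set.Icc (-R) R,
        (∑ i ∈ S, c i * E (w * y i)) * E (x * -w)) * E (a * Real.exp x)‖ ≤
      2 * Real.pi * A * (∑ i ∈ S, ‖c i‖) / R := by
  have c0 := hV.1.continuous
  have cp := continuous_ph hV a
  set G : ℝ → ℂ := fun w => ∑ i ∈ S, c i * E (w * y i) with hG
  set Z := ∑ i ∈ S, ‖c i‖ with hZ
  have Z0 : 0 ≤ Z := sum_nonneg fun _ _ => norm_nonneg _
  have cG : Continuous G := by rw [hG]; fun_prop
  have bG : ∀ w, ‖G w‖ ≤ Z := fun w =>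
    (norm_sum_le _ _).trans (le_of_eq (sum_congr rfl fun i _ => by simp))
  have ick := Six.integrable_ck_div hR.ne'
  have b1 : ∀ w ∈ (Set.Icc (-R) R)ᶜ, ‖ph V a w‖ ≤ A * (2 / R ^ 2 * ck (w / R)) := fun w hw => by
    have h1 : R ≤ |w| := by
      by_contra h
      exact hw (abs_le.1 (not_le.1 h).le)
    have h2 : w ≠ 0 := abs_pos.1 (hR.trans_le h1)
    refine (hd a w h2 (ha.trans h1)).trans ?_
    rw [← mul_one_div]
    exact mul_le_mul_of_nonneg_left (inv_sq_le hR h1) hA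
  have ip : Integrable (ph V a) := by
    rw [← integrableOn_univ, ← Set.union_compl_self (Set.Icc (-R) R)]
    refine (cp.continuousOn.integrableOn_compact isCompact_Icc).union ?_
    exact (((ick.const_mul _).const_mul A).integrableOn).mono' cp.aestronglyMeasurable
      (ae_restrict_of_forall_mem measurableSet_Icc.compl b1)
  have ipG : Integrable fun w => ph V a w * G w :=
    ip.mul_bdd cG.aestronglyMeasurable (Eventually.of_forall bG)
  have e1 : ∑ i ∈ S, c i * ((V (y i) : ℂ) * E (a * Real.exp (y i))) = ∫ w, ph V a w * G w := by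
    simp only [inv hV a ip, hG, mul_sum, ← integral_const_mul]
    rw [integral_finsetSum]
    · exact sum_congr rfl fun i _ => by congr 1; ext w; ring
    · intro i _
      exact ip.mul_bdd (c := ‖c i‖) (by fun_prop) (Eventually.of_forall fun w => by simp)
  have e2 : ∫ w in Set.Icc (-R) R, ph V a w * G w =
      ∫ x in Set.Icc (-1 : ℝ) 3, ((V x : ℂ) * ∫ w in Set.Icc (-R) R, G w * E (x * -w)) *
        E (a * Real.exp x) := by
    simp only [ph, ← integral_mul_const, ← integral_const_mul]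
    rw [integral_integral_swap (intg (by unfold Function.uncurry; fun_prop) _ _ _ _)]
    congr 1
    ext x
    congr 1
    ext w
    rw [show x * -w = -(w * x) by ring]
    ring
  rw [e1, ← e2, ← integral_add_compl (measurableSet_Icc (a := -R) (b := R)) ipG,
    add_sub_cancel_left]
  have i2 := ((ick.const_mul (2 / R ^ 2)).const_mul A).mul_const Z
  calc _ ≤ ∫ w in (Set.Icc (-R) R)ᶜ, A * (2 / R ^ 2 * ck (w / R)) * Z := by
        refine norm_integral_le_of_norm_le i2.integrableOn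
          (ae_restrict_of_forall_mem measurableSet_Icc.compl fun w hw => ?_)
        rw [norm_mul]
        exact mul_le_mul (b1 w hw) (bG w) (norm_nonneg _) ((norm_nonneg _).trans (b1 w hw))
    _ ≤ ∫ w, A * (2 / R ^ 2 * ck (w / R)) * Z :=
        setIntegral_le_integral i2 (Eventually.of_forall fun w => by
          have := Six.ck_nonneg (w / R)
          positivity)
    _ = _ := by
        rw [integral_mul_const, integral_const_mul, integral_const_mul, Six.integral_ck_div hR]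
        field_simp

theorem exp_lip {u v : ℝ} (hu : -1 ≤ u) (hv : -1 ≤ v) :
    1 / 3 * |u - v| ≤ |Real.exp u - Real.exp v| := by
  have k : ∀ u v : ℝ, -1 ≤ v → v ≤ u → 1 / 3 * |u - v| ≤ |Real.exp u - Real.exp v| := by
    intro u v hv h
    have h1 : Real.exp u = Real.exp v * Real.exp (u - v) := by rw [← Real.exp_add]; ring_nf
    have h2 := Real.add_one_le_exp (u - v)
    have h3 : 1 / 3 ≤ Real.exp v := by
      refine le_trans ?_ (Real.exp_le_exp.2 hv)
      rw [Real.exp_neg, one_div]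
      exact inv_anti₀ (Real.exp_pos 1) (by linarith [Real.exp_one_lt_d9])
    rw [abs_of_nonneg (sub_nonneg.2 h), abs_of_nonneg (sub_nonneg.2 (Real.exp_le_exp.2 h)), h1]
    nlinarith
  rcases le_total v u with h | h
  · exact k u v hv h
  · rw [abs_sub_comm u, abs_sub_comm (Real.exp u)]
    exact k v u hu h

end Mel

open Mel

theorem mel : MelStmt := by
  intro V hV
  obtain ⟨A, hA, hb, hd⟩ := decay hV
  have c0 := hV.1.continuous
  refine ⟨8000 * A ^ 2, by nlinarith, fun ι S c ν X Θ T hX hΘ hν hT => ?_⟩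
  have p0 := Real.pi_pos
  have p1 := Real.pi_gt_three
  have p2 := Real.pi_lt_d2
  have hA2 : 1 ≤ A ^ 2 := by nlinarith
  have ΘX : 0 < Θ * X := by positivity
  have hT1 : 8000 * (1 + Θ * X) ≤ T := le_trans (by nlinarith) hT
  have T0 : 0 < T := by linarith
  set R := T / (2 * Real.pi) with hRdef
  have hR : 0 < R := by positivity
  have hR1 : 42 * (Θ * X) ≤ R := by
    rw [hRdef, le_div_iff₀ (by positivity)]
    nlinarith
  set y : ι → ℝ := fun i => Real.log (ν i) - Real.log X with hy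
  set G : ℝ → ℂ := fun w => ∑ i ∈ S, c i * E (w * y i) with hG
  have cG : Continuous G := by rw [hG]; fun_prop
  set Z := ∑ i ∈ S, ‖c i‖ with hZ
  have Z0 : 0 ≤ Z := sum_nonneg fun _ _ => norm_nonneg _
  set Gh : ℝ → ℂ := fun x => ∫ w in Set.Icc (-R) R, G w * E (x * -w) with hGh
  have cGh : Continuous Gh := z94.continuous_integral_mul (B := 1)
    (cG.continuousOn.integrableOn_compact isCompact_Icc)
    (g := fun x w => E (x * -w)) (by unfold Function.uncurry; fun_prop) (by simp)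
  set M : ℝ → ℂ := fun θ => ∫ x in Set.Icc (-1 : ℝ) 3,
    ((V x : ℂ) * Gh x) * E (θ * (X * Real.exp x)) with hM
  have cM : Continuous M := z94.continuous_integral_mul (B := 1)
    (Continuous.continuousOn (by fun_prop) |>.integrableOn_compact isCompact_Icc)
    (g := fun θ x => E (θ * (X * Real.exp x))) (by unfold Function.uncurry; fun_prop) (by simp)
  have B1 : ∫ θ in (-Θ)..Θ, ‖M θ‖ ^ 2 ≤
      2 / (X / 3) * ∫ x in Set.Icc (-1 : ℝ) 3, ‖(V x : ℂ) * Gh x‖ ^ 2 :=
    bessel (by fun_prop) (by fun_prop) hΘ (by positivity) fun u hu v hv => by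
      rw [← mul_sub, abs_mul, abs_of_pos hX]
      have := exp_lip hu.1 hv.1
      nlinarith
  have B2 : ∫ x in (-3 : ℝ)..3, ‖Gh x‖ ^ 2 ≤ 2 / 1 * ∫ w in Set.Icc (-R) R, ‖G w‖ ^ 2 :=
    bessel cG (by fun_prop) (by norm_num) one_pos fun u _ v _ => by
      rw [one_mul, neg_sub_neg, abs_sub_comm]
  have B3 : ∫ x in Set.Icc (-1 : ℝ) 3, ‖(V x : ℂ) * Gh x‖ ^ 2 ≤
      A ^ 2 * ∫ x in (-3 : ℝ)..3, ‖Gh x‖ ^ 2 := by
    have i1 : IntegrableOn (fun x => A ^ 2 * ‖Gh x‖ ^ 2) (Set.Icc (-3 : ℝ) 3) :=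
      Continuous.continuousOn (by fun_prop) |>.integrableOn_compact isCompact_Icc
    have hs : Set.Icc (-1 : ℝ) 3 ⊆ Set.Icc (-3) 3 := Set.Icc_subset_Icc (by norm_num) le_rfl
    rw [intervalIntegral.integral_of_le (by norm_num), ← integral_Icc_eq_integral_Ioc,
      ← integral_const_mul]
    refine le_trans (setIntegral_mono ?_ (i1.mono_set hs) fun x => ?_)
      (setIntegral_mono_set i1 (Eventually.of_forall fun x => by positivity) hs.eventuallyLE)
    · exact Continuous.continuousOn (by fun_prop) |>.integrableOn_compact isCompact_Icc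
    · simp only [norm_mul, mul_pow, Complex.norm_real, Real.norm_eq_abs]
      gcongr
      exact hb x
  have B4 : ∫ w in Set.Icc (-R) R, ‖G w‖ ^ 2 =
      (2 * Real.pi)⁻¹ * ∫ t in (-T)..T, ‖GP S c ν t‖ ^ 2 := by
    have e : ∀ w, ‖G w‖ = ‖GP S c ν (2 * Real.pi * w)‖ := fun w => by
      have : G w = E (-(w * Real.log X)) * GP S c ν (2 * Real.pi * w) := by
        simp only [hG, GP, mul_sum, hy, mul_assoc, mul_sub, sub_eq_add_neg (w * _), Six.E_add]
        refine sum_congr rfl fun i _ => ?_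
        rw [E_eq_ei (w * _)]
        ring_nf
      rw [this, norm_mul, Six.norm_E, one_mul]
    simp only [e]
    rw [integral_Icc_eq_integral_Ioc, ← intervalIntegral.integral_of_le (by linarith),
      intervalIntegral.integral_comp_mul_left (fun t => ‖GP S c ν t‖ ^ 2) (by positivity),
      smul_eq_mul]
    congr 2
    · rw [hRdef]; field_simp
    · rw [hRdef]; field_simp
  set I := ∫ t in (-T)..T, ‖GP S c ν t‖ ^ 2 with hI
  have I0 : 0 ≤ I := intervalIntegral.integral_nonneg (by linarith) fun _ _ => sq_nonneg _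
  set D := 2 * Real.pi * A * Z / R with hD
  have P : ∀ θ ∈ Set.Icc (-Θ) Θ,
      ‖∑ i ∈ S, c i * (V (y i) : ℝ) * E (ν i * θ)‖ ^ 2 ≤ 2 * ‖M θ‖ ^ 2 + 2 * D ^ 2 := by
    intro θ hθ
    have h1 : 42 * |θ * X| ≤ R := by
      refine le_trans ?_ hR1
      rw [abs_mul, abs_of_pos hX]
      gcongr
      exact abs_le.2 hθ
    have h2 := split hV (by linarith) hd S c y hR h1
    have e1 : ∑ i ∈ S, c i * ((V (y i) : ℂ) * E (θ * X * Real.exp (y i))) =
        ∑ i ∈ S, c i * (V (y i) : ℝ) * E (ν i * θ) := sum_congr rfl fun i hi => by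
      rw [mul_assoc (c i), hy]
      simp only []
      rw [Real.exp_sub, Real.exp_log hX, Real.exp_log (hν i hi)]
      congr 3
      field_simp
    simp only [mul_assoc θ X] at h2 e1
    rw [e1] at h2
    have h3 := (norm_le_norm_add_norm_sub' _ (M θ)).trans (add_le_add le_rfl h2)
    calc _ ≤ (‖M θ‖ + D) ^ 2 := pow_le_pow_left₀ (norm_nonneg _) h3 2
      _ ≤ _ := by nlinarith [sq_nonneg (‖M θ‖ - D)]
  have Q := intervalIntegral.integral_mono_on (μ := volume) (by linarith : -Θ ≤ Θ)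
    (Continuous.intervalIntegrable (by fun_prop) _ _)
    (Continuous.intervalIntegrable (by fun_prop) _ _) P
  rw [intervalIntegral.integral_add (Continuous.intervalIntegrable (by fun_prop) _ _)
    (Continuous.intervalIntegrable (by fun_prop) _ _), intervalIntegral.integral_const_mul,
    intervalIntegral.integral_const, smul_eq_mul] at Q
  refine Q.trans (add_le_add ?_ ?_)
  · rw [B4] at B2
    have h1 : (2 * Real.pi)⁻¹ * I ≤ I := by
      refine mul_le_of_le_one_left I0 (inv_le_one_of_one_le₀ (by linarith))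
    calc _ ≤ 2 * (2 / (X / 3) * (A ^ 2 * (2 / 1 * I))) := by
          gcongr
          refine B1.trans ?_
          gcongr
          refine B3.trans ?_
          gcongr
          linarith
      _ = 24 * A ^ 2 / X * I := by field_simp; ring
      _ ≤ _ := by gcongr; norm_num
  · have e : (Θ - -Θ) * (2 * D ^ 2) = 4 * (2 * Real.pi) ^ 4 * A ^ 2 * Θ * Z ^ 2 / T ^ 2 := by
      rw [hD, hRdef]; field_simp; ring
    rw [e]
    gcongr
    calc _ ≤ 4 * (2 * 3.15 : ℝ) ^ 4 := by gcongr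
      _ ≤ _ := by norm_num

end Pool.Agent.MP_678834_nt.HL9

end
end MrgPart0

-- ======== part 1: formerly Pool.Agent.MP_678834_nt.HL9.Prod
section MrgPart1

/-! Project HL9: mean square of an admissible product off a small set. -/

set_option autoImplicit false

noncomputable section

namespace Pool.Agent.MP_678834_nt.HL9

open MeasureTheory Finset Filter
open Pool.Agent.MP_db1c88_nt.z94 (ei bmp blk DP wide wt lev)
open Pool.Agent.MP_db1c88_nt

namespace Prod

theorem prod_ei {ι : Type} (s : Finset ι) (x : ι → ℝ) :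
    ∏ i ∈ s, ei (x i) = ei (∑ i ∈ s, x i) := by
  classical
  induction s using Finset.induction_on with
  | empty => simp
  | insert a s ha ih => rw [prod_insert ha, sum_insert ha, z94.ei_add, ih]

/-- the coefficients of a product -/
def pc {k : ℕ} (s : Fin k → Finset ℕ) (b : Fin k → ℕ → ℂ) (m : ℕ) : ℂ :=
  ∑ f ∈ Fintype.piFinset s with ∏ i, f i = m, ∏ i, b i (f i)

theorem DP_prod {k : ℕ} {s : Fin k → Finset ℕ} {u : Finset ℕ} (hs : ∀ i, ∀ m ∈ s i, 1 ≤ m)
    (b : Fin k → ℕ → ℂ) (hu : ∀ f ∈ Fintype.piFinset s, ∏ i, f i ∈ u) (t : ℝ) :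
    DP u (pc s b) t = ∏ i, DP (s i) (b i) t := by
  unfold DP pc
  rw [prod_univ_sum, ← sum_fiberwise_of_maps_to hu]
  refine sum_congr rfl fun m _ => ?_
  rw [sum_mul]
  refine sum_congr rfl fun f hf => ?_
  obtain ⟨hg, rfl⟩ := mem_filter.1 hf
  rw [prod_mul_distrib, prod_ei, ← mul_sum, Nat.cast_prod, Real.log_prod]
  intro i _
  have := hs i (f i) (Fintype.mem_piFinset.1 hg i)
  positivity

theorem norm_pc_le {k : ℕ} {s : Fin k → Finset ℕ} {b : Fin k → ℕ → ℂ} (hb : ∀ i m, ‖b i m‖ ≤ 1)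
    {m : ℕ} (hm : m ≠ 0) : ‖pc s b m‖ ≤ (m.divisors.card : ℝ) ^ k := by
  refine (norm_sum_le _ _).trans ?_
  refine (sum_le_card_nsmul _ _ 1 fun f _ => ?_).trans ?_
  · rw [norm_prod]
    exact prod_le_one (fun _ _ => norm_nonneg _) fun i _ => hb _ _
  · rw [nsmul_eq_mul, mul_one]
    have h : ((Fintype.piFinset s).filter fun f => ∏ i, f i = m) ⊆
        Fintype.piFinset fun _ : Fin k => m.divisors := fun f hf => by
      refine Fintype.mem_piFinset.2 fun i => Nat.mem_divisors.2 ⟨?_, hm⟩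
      rw [← (mem_filter.1 hf).2]
      exact dvd_prod_of_mem _ (mem_univ i)
    have h2 := card_le_card h
    rw [Fintype.card_piFinset, prod_const, card_univ, Fintype.card_fin] at h2
    exact_mod_cast h2

theorem norm_DP_blk {N : ℝ} (hN : 0 < N) {b : ℕ → ℂ} (hb : ∀ m, ‖b m‖ ≤ 1) (t : ℝ) :
    ‖DP (blk N 2) b t‖ ≤ 2 * N :=
  (z94.norm_DP_le _ hb t).trans (by rw [mul_one]; exact card_blk_le' hN zero_le_two)

/-- five factors as one Dirichlet polynomial -/
theorem five (N : Fin 5 → ℝ) (b : Fin 5 → ℕ → ℂ) (hN : ∀ i, 0 < N i) (hb : ∀ i m, ‖b i m‖ ≤ 1) :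
    ∃ r : ℕ → ℂ, (∀ m, m ≠ 0 → ‖r m‖ ≤ (m.divisors.card : ℝ) ^ 5) ∧
      (∀ t, DP (blk (∏ i, N i) 32) r t = ∏ i, DP (blk (N i) 2) (b i) t) ∧
      ∀ t, ‖DP (blk (∏ i, N i) 32) r t‖ ≤ 32 * ∏ i, N i := by
  have hP : 0 < ∏ i, N i := prod_pos fun i _ => hN i
  have e32 : ∏ i, 2 * N i = 32 * ∏ i, N i := by
    rw [prod_mul_distrib, prod_const, card_univ, Fintype.card_fin]; norm_num
  have hu : ∀ f ∈ Fintype.piFinset fun i => blk (N i) 2, ∏ i, f i ∈ blk (∏ i, N i) 32 := by
    intro f hf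
    have h1 := fun i => (z94.mem_blk (hN i).le zero_le_two).1 (Fintype.mem_piFinset.1 hf i)
    refine (z94.mem_blk hP.le (by norm_num)).2 ⟨?_, ?_⟩
    · rw [Nat.cast_prod]
      exact prod_le_prod (fun i _ => (hN i).le) fun i _ => (h1 i).1
    · rw [Nat.cast_prod, ← e32]
      exact prod_le_prod (fun i _ => by positivity) fun i _ => (h1 i).2
  have key := DP_prod (fun i m hm => one_le_of_mem_blk (hN i) hm) b hu
  refine ⟨_, fun m hm => norm_pc_le hb hm, key, fun t => ?_⟩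
  rw [key, norm_prod, ← e32]
  exact prod_le_prod (fun i _ => norm_nonneg _) fun i _ => norm_DP_blk (hN i) (hb i) t

theorem numA {N M T P g X q W c F : ℝ} (hX : 0 < X) (hP : 0 < P) (hPN : P ≤ N) (hM : 0 ≤ M)
    (hNM : N * M ≤ 11 * X) (hT : T * g ^ 5 = 2 * P ^ 2) (hPX : P ^ 2 ≤ X) (hq : 1 ≤ q)
    (hc : 1 ≤ c) (hW : 1 ≤ W) (hF : F ≤ c * g ^ 2) (hg : 264 * c * (q ^ 2 * W) ≤ g) :
    (N * M) ^ 2 / W ^ 3 + q ^ 2 * T * M ^ 2 + F * (q * N * M * T) * (1 + q * M / N) ≤
      123 * (X ^ 2 / W) := by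
  have hN : 0 < N := hP.trans_le hPN
  have hq2 : 1 ≤ q ^ 2 * W := one_le_mul_of_one_le_of_one_le (one_le_pow₀ hq) hW
  have hg1 : 1 ≤ g := by nlinarith
  have hg0 : 0 < g := by linarith
  have hW0 : 0 < W := by linarith
  have eT : T = 2 * P ^ 2 / g ^ 5 := by rw [eq_div_iff (by positivity), hT]
  have hT0 : 0 < T := by rw [eT]; positivity
  have hMP : M ≤ 11 * X / P := by
    rw [le_div_iff₀ hP]; nlinarith
  have h1 : (N * M) ^ 2 / W ^ 3 ≤ 121 * (X ^ 2 / W) := by
    calc (N * M) ^ 2 / W ^ 3 ≤ (11 * X) ^ 2 / W := by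
          gcongr
          exact le_self_pow₀ hW (by norm_num)
      _ = _ := by ring
  have hqg : c * q ^ 2 / g ≤ 1 / (264 * W) := by
    rw [div_le_div_iff₀ hg0 (by positivity)]; nlinarith
  have h2 : q ^ 2 * T * M ^ 2 ≤ X ^ 2 / W := by
    calc q ^ 2 * T * M ^ 2 ≤ q ^ 2 * T * (11 * X / P) ^ 2 := by gcongr
      _ = 242 * X ^ 2 * (1 * q ^ 2 / g ^ 5) := by rw [eT]; field_simp; norm_num
      _ ≤ 264 * X ^ 2 * (c * q ^ 2 / g) := by
          gcongr
          · norm_num
          · exact le_self_pow₀ hg1 (by norm_num)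
      _ ≤ 264 * X ^ 2 * (1 / (264 * W)) := by gcongr
      _ = _ := by field_simp
  have h3 : 1 + q * M / N ≤ 12 * q * X / P ^ 2 := by
    have a1 : 1 ≤ q * X / P ^ 2 := by
      rw [le_div_iff₀ (by positivity)]; nlinarith
    have a2 : q * M / N ≤ 11 * (q * X / P ^ 2) := by
      calc q * M / N ≤ q * (11 * X / P) / P := by gcongr
        _ = _ := by field_simp
    have a3 : 12 * q * X / P ^ 2 = 12 * (q * X / P ^ 2) := by ring
    linarith
  have h4 : F * (q * N * M * T) * (1 + q * M / N) ≤ X ^ 2 / W := by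
    calc F * (q * N * M * T) * (1 + q * M / N) = F * (q * (N * M) * T) * (1 + q * M / N) := by ring
      _ ≤ c * g ^ 2 * (q * (11 * X) * T) * (12 * q * X / P ^ 2) := by gcongr
      _ = 264 * X ^ 2 * (c * q ^ 2 / g ^ 3) := by rw [eT]; field_simp; norm_num
      _ ≤ 264 * X ^ 2 * (c * q ^ 2 / g) := by
          gcongr
          exact le_self_pow₀ hg1 (by norm_num)
      _ ≤ 264 * X ^ 2 * (1 / (264 * W)) := by gcongr
      _ = _ := by field_simp
  linarith

/-- the conclusion of the product estimate -/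
def Good (ε : ℝ) (A K : ℕ) (C X : ℝ) (N : Fin 6 → ℝ) (b : Fin 6 → ℕ → ℂ) : Prop :=
  ∃ Bad : Set ℝ, MeasurableSet Bad ∧ volume Bad ≤ ENNReal.ofReal (Real.log X ^ K) ∧
    ∫ t in Set.Icc (-(2 * X ^ (8 / 9 - ε))) (2 * X ^ (8 / 9 - ε)) \ Bad,
      ‖∏ l, DP (blk (N l) 2) (b l) t‖ ^ 2 ≤ C * X ^ 2 / Real.log X ^ A

theorem Good.mono {ε : ℝ} {A K K' : ℕ} {C C' X : ℝ} {N : Fin 6 → ℝ} {b : Fin 6 → ℕ → ℂ}
    (h : Good ε A K C X N b) (hL : 1 ≤ Real.log X) (hK : K ≤ K') (hC : C ≤ C') :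
    Good ε A K' C' X N b := by
  obtain ⟨Bad, h1, h2, h3⟩ := h
  refine ⟨Bad, h1, h2.trans (ENNReal.ofReal_le_ofReal (pow_le_pow_right₀ hL hK)), h3.trans ?_⟩
  gcongr

theorem caseA (h2 : TypeIStmt) {ε : ℝ} (hε : 0 < ε) (hε1 : ε ≤ 1 / 10) (A B : ℕ) : ∃ C : ℝ,
    ∀ᶠ X : ℝ in atTop, ∀ (q : ℕ) (N : Fin 6 → ℝ) (b : Fin 6 → ℕ → ℂ) (l : Fin 6), 1 ≤ q →
      (q : ℝ) ≤ Real.log X ^ B → Adm X q N b → X ^ (4 / 9 - ε / 4) < N l →
        Good ε A (A + 1) C X N b := by
  obtain ⟨C0, hC0⟩ := h2 v0 bump_v0 supp_v0 (ε / 10) (by positivity)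
  obtain ⟨C1, hC1⟩ := h2 v1 bump_v1 supp_v1 (ε / 10) (by positivity)
  obtain ⟨c, hc1, hc⟩ := z94.divisor_bound (η := ε / 100) (by positivity)
  refine ⟨(|C0| + |C1|) * 123, ?_⟩
  filter_upwards [eventually_ge_atTop 1, ev_log 2,
    ev_log_pow (δ := ε / 10) (by positivity) (B * 2 + A) (264 * c ^ 10),
    ev_log_pow (δ := 1 / 3) (by positivity) B 1, ev_rpow (δ := 1 / 18) (by positivity) 352]
    with X hX1 hL hg hB h18 q N b l hq hqB hA hl
  have hX : 0 < X := by linarith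
  have hN : ∀ i, 0 < N i := fun i => by linarith [hA.half i]
  have up : ∀ {u v : ℝ}, u ≤ v → X ^ u ≤ X ^ v := fun h => Real.rpow_le_rpow_of_exponent_le hX1 h
  have gain : ∀ {u v : ℝ}, u + 1 / 18 ≤ v → 352 * X ^ u ≤ X ^ v := fun {u v} h => by
    refine le_trans ?_ (up h)
    rw [Real.rpow_add hX, mul_comm]
    gcongr
  have p3 : 0 < X ^ (1 / 3 : ℝ) := by positivity
  have h3 : 352 * X ^ (1 / 3 : ℝ) ≤ X ^ (4 / 9 - ε / 4) := gain (by linarith)
  obtain ⟨f, hf1, hf2, hf3⟩ := (hA.alt l).resolve_left (by linarith)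
  obtain ⟨r, hr1, hr2, hr3⟩ := five (fun i => N (l.succAbove i)) (fun i => b (l.succAbove i))
    (fun i => hN _) fun i => hA.bd _
  set M := ∏ i : Fin 5, N (l.succAbove i) with hM
  have hM32 : 1 / 32 ≤ M := by
    refine le_trans (le_of_eq ?_) (prod_le_prod (f := fun _ => (1 / 2 : ℝ))
      (fun _ _ => by norm_num) fun i _ => hA.half _)
    rw [prod_const, card_univ, Fintype.card_fin]; norm_num
  have hNM : N l * M ≤ 11 * X := by rw [hM, ← Fin.prod_univ_succAbove]; exact hA.hi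
  have hMX : 32 * M ≤ X := by
    have a1 : 352 * X ^ (0 : ℝ) ≤ X ^ (4 / 9 - ε / 4) := gain (by linarith)
    rw [Real.rpow_zero] at a1
    nlinarith
  have hW : 1 ≤ Real.log X ^ A := one_le_pow₀ (by linarith)
  have hT1 : 1 ≤ X ^ (8 / 9 - ε) := Real.one_le_rpow hX1 (by linarith)
  have hTX : 2 * X ^ (8 / 9 - ε) ≤ X := by
    have a1 : 352 * X ^ (8 / 9 - ε) ≤ X ^ (1 : ℝ) := gain (by linarith)
    rw [Real.rpow_one] at a1
    linarith
  have hMT : M ≤ (2 * X ^ (8 / 9 - ε)) ^ 2 := by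
    have a1 : X ^ (1 : ℝ) ≤ X ^ ((8 / 9 - ε) * 2) := up (by linarith)
    rw [Real.rpow_one, Real.rpow_mul hX.le, Real.rpow_two] at a1
    nlinarith
  have hD : ∀ m ∈ blk M 32, ‖r m‖ ≤ (c * X ^ (ε / 100)) ^ 5 := fun m hm => by
    have a1 := one_le_of_mem_blk (by linarith) hm
    have a2 := ((z94.mem_blk (by linarith) (by norm_num)).1 hm).2
    refine (hr1 m (by omega)).trans (pow_le_pow_left₀ (by positivity) ((hc m).trans ?_) 5)
    gcongr
    linarith
  have hqN : (q : ℝ) ≤ N l := by linarith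
  have hnum := numA (N := N l) (M := M) (T := 2 * X ^ (8 / 9 - ε)) (P := X ^ (4 / 9 - ε / 4))
    (g := X ^ (ε / 10)) (q := q) (W := Real.log X ^ A) (c := c ^ 10)
    (F := (2 * X ^ (8 / 9 - ε)) ^ (ε / 10) * ((c * X ^ (ε / 100)) ^ 5) ^ 2) hX (by positivity)
    hl.le (by linarith) hNM
    (by
      rw [← Real.rpow_natCast, ← Real.rpow_natCast, ← Real.rpow_mul hX.le, ← Real.rpow_mul hX.le,
        mul_assoc, ← Real.rpow_add hX]
      congr 2
      push_cast; ring)
    (by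
      rw [← Real.rpow_natCast, ← Real.rpow_mul hX.le]
      refine (up ?_).trans (Real.rpow_one X).le
      push_cast; linarith)
    (by exact_mod_cast hq) (one_le_pow₀ hc1) hW
    (by
      have a1 : (X ^ (ε / 100)) ^ 10 = X ^ (ε / 10) := by
        rw [← Real.rpow_natCast, ← Real.rpow_mul hX.le]
        congr 1
        push_cast; ring
      calc _ ≤ X ^ (ε / 10) * ((c * X ^ (ε / 100)) ^ 5) ^ 2 := by gcongr
        _ = c ^ 10 * (X ^ (ε / 10) * (X ^ (ε / 100)) ^ 10) := by ring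
        _ = _ := by rw [a1, sq])
    (by
      refine le_trans ?_ hg
      rw [pow_add, pow_mul]
      gcongr)
  have hY : volume (Set.Icc (-Real.log X ^ A) (Real.log X ^ A)) ≤
      ENNReal.ofReal (Real.log X ^ (A + 1)) := by
    rw [Real.volume_Icc, pow_succ]
    exact ENNReal.ofReal_le_ofReal (by nlinarith)
  have fin : ∀ {I C' : ℝ}, |C'| ≤ |C0| + |C1| → I ≤ C' * ((N l * M) ^ 2 / (Real.log X ^ A) ^ 3 +
      q ^ 2 * (2 * X ^ (8 / 9 - ε)) * M ^ 2 + (2 * X ^ (8 / 9 - ε)) ^ (ε / 10) *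
        ((c * X ^ (ε / 100)) ^ 5) ^ 2 * (q * N l * M * (2 * X ^ (8 / 9 - ε))) *
          (1 + q * M / N l)) → I ≤ (|C0| + |C1|) * 123 * X ^ 2 / Real.log X ^ A := by
    intro I C' a1 a2
    have a3 := hN l
    have a4 : 0 < M := by linarith
    refine a2.trans ((mul_le_mul ((le_abs_self _).trans a1) hnum (by positivity)
      (by positivity)).trans (le_of_eq ?_))
    ring
  refine ⟨_, measurableSet_Icc, hY, ?_⟩
  simp only [Fin.prod_univ_succAbove (fun i => DP (blk (N i) 2) (b i) _) l, ← hr2]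
  rcases hf3 with h | h
  · rw [show b l = _ from funext h]
    exact fin (by linarith [abs_nonneg C1])
      (hC0 _ _ _ _ _ q f r hq hqN hM32 hMT (by linarith) hW hf1 hf2 hD hr3)
  · rw [show b l = _ from funext h]
    exact fin (by linarith [abs_nonneg C0])
      (hC1 _ _ _ _ _ q f r hq hqN hM32 hMT (by linarith) hW hf1 hf2 hD hr3)

/-- a product is at most a sum of high powers -/
theorem young {ι : Type} [Fintype ι] (S : Finset ι) (u p : ι → ℝ) (h0 : ∀ l, 0 ≤ u l)
    (h1 : ∀ l, u l ≤ 1) (hp : ∀ l ∈ S, 0 < p l) (hs : 1 ≤ ∑ l ∈ S, 2 / p l) :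
    (∏ l, u l) ^ 2 ≤ ∑ l ∈ S, u l ^ p l := by
  classical
  have hn : ∀ l ∈ S, 0 ≤ u l ^ p l := fun l _ => Real.rpow_nonneg (h0 l) _
  have hm0 : 0 ≤ ∑ l ∈ S, u l ^ p l := sum_nonneg hn
  set m := ∑ l ∈ S, u l ^ p l with hm
  have a0 : 0 ≤ ∏ l, u l := prod_nonneg fun l _ => h0 l
  rcases le_total 1 m with h | h
  · exact (pow_le_one₀ a0 (prod_le_one (fun l _ => h0 l) fun l _ => h1 l)).trans h
  have a1 : ∏ l, u l ≤ ∏ l ∈ S, u l :=
    prod_le_prod_of_subset_of_le_one (subset_univ S) (fun l _ => h0 l) fun l _ _ => h1 l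
  calc (∏ l, u l) ^ 2 ≤ (∏ l ∈ S, u l) ^ 2 := by gcongr
    _ = ∏ l ∈ S, u l ^ 2 := (prod_pow _ _ _).symm
    _ ≤ ∏ l ∈ S, m ^ (2 / p l) := by
        refine prod_le_prod (fun l _ => sq_nonneg _) fun l hl => ?_
        have a2 := hp l hl
        have a3 : u l ^ 2 = (u l ^ p l) ^ (2 / p l) := by
          rw [← Real.rpow_mul (h0 l), mul_div_cancel₀ _ a2.ne', Real.rpow_two]
        rw [a3]
        exact Real.rpow_le_rpow (hn l hl) (single_le_sum hn hl) (by positivity)
    _ = m ^ ∑ l ∈ S, 2 / p l :=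
        (Real.rpow_sum_of_nonneg hm0 fun l hl => (div_pos two_pos (hp l hl)).le).symm
    _ ≤ m ^ (1 : ℝ) := Real.rpow_le_rpow_of_exponent_ge' hm0 h zero_le_one hs
    _ = m := Real.rpow_one m

theorem caseB (h1 : OneStmt) {ε : ℝ} (hε : 0 < ε) (hε1 : ε ≤ 1 / 10) (A : ℕ) : ∃ (K : ℕ) (C : ℝ),
    ∀ᶠ X : ℝ in atTop, ∀ (q : ℕ) (N : Fin 6 → ℝ) (b : Fin 6 → ℕ → ℂ), Adm X q N b →
      (∀ l, N l ≤ X ^ (4 / 9 - ε / 4)) → Good ε A K C X N b := by
  obtain ⟨K, C, X₀, h⟩ := h1 ε (ε / 30) hε hε1 (by positivity) le_rfl A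
  refine ⟨K + 1, 704 ^ 2 * (6 * |C|), ?_⟩
  filter_upwards [eventually_ge_atTop 1, eventually_ge_atTop X₀, ev_log 6,
    ev_log (Real.log 200 / (ε / 30))] with X hX1 hX0 hL h200 q N b hA hN4
  set η := ε / 30 with hη
  have hη0 : 0 < η := by positivity
  have hη7 : 0 < 1 - 7 * η := by linarith
  have hX : 0 < X := by linarith
  have hN : ∀ i, 0 < N i := fun i => by linarith [hA.half i]
  have hL0 : 0 < Real.log X := by linarith
  set S : Finset (Fin 6) := univ.filter fun l => X ^ η ≤ N l with hS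
  have hlog : ∀ l ∈ S, 0 < Real.log (N l) := fun l hl => by
    have a1 := Real.log_le_log (by positivity) (mem_filter.1 hl).2
    rw [Real.log_rpow hX] at a1
    exact lt_of_lt_of_le (by positivity) a1
  set p : Fin 6 → ℝ := fun l => 2 * (1 - 7 * η) * Real.log X / Real.log (N l) with hp
  have hp0 : ∀ l ∈ S, 0 < p l := fun l hl => by
    have := hlog l hl
    simp only [hp]; positivity
  have hsum : 1 ≤ ∑ l ∈ S, 2 / p l := by
    have a1 : Real.log X - Real.log 200 ≤ ∑ l, Real.log (N l) := by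
      rw [← Real.log_prod fun l _ => (hN l).ne', ← Real.log_div hX.ne' (by norm_num)]
      exact Real.log_le_log (by positivity) hA.lo
    have a2 : ∑ l ∈ univ.filter fun l => ¬ X ^ η ≤ N l, Real.log (N l) ≤ 6 * (η * Real.log X) := by
      refine (sum_le_card_nsmul _ _ (η * Real.log X) fun l hl => ?_).trans ?_
      · rw [← Real.log_rpow hX]
        exact Real.log_le_log (hN l) (not_le.1 (mem_filter.1 hl).2).le
      · rw [nsmul_eq_mul]
        gcongr
        exact_mod_cast (card_filter_le _ _).trans (by simp)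
    rw [← sum_filter_add_sum_filter_not univ fun l => X ^ η ≤ N l] at a1
    rw [div_le_iff₀ hη0] at h200
    have a3 : ∑ l ∈ S, 2 / p l = (∑ l ∈ S, Real.log (N l)) / ((1 - 7 * η) * Real.log X) := by
      rw [sum_div]
      refine sum_congr rfl fun l hl => ?_
      have := hlog l hl
      simp only [hp]; field_simp
    rw [a3, le_div_iff₀ (by positivity)]
    linarith
  choose! Bad hB1 hB2 hB3 using fun l (hl : l ∈ S) =>
    h X (N l) (b l) hX0 (mem_filter.1 hl).2 (hN4 l) (hA.bd l)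
  have hcard : (S.card : ℝ) ≤ 6 := by exact_mod_cast (card_filter_le _ _).trans (by simp)
  have hmeas : MeasurableSet (⋃ l ∈ S, Bad l) := S.measurableSet_biUnion hB1
  refine ⟨⋃ l ∈ S, Bad l, hmeas, ?_, ?_⟩
  · refine (measure_biUnion_finset_le _ _).trans ((sum_le_sum hB2).trans ?_)
    rw [← ENNReal.ofReal_sum_of_nonneg fun _ _ => by positivity, sum_const, nsmul_eq_mul, pow_succ']
    refine ENNReal.ofReal_le_ofReal ?_
    gcongr
    linarith
  set I := Set.Icc (-(2 * X ^ (8 / 9 - ε))) (2 * X ^ (8 / 9 - ε)) with hI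
  have hint : ∀ {F : ℝ → ℝ} (D : Set ℝ), Continuous F → IntegrableOn F (I \ D) := fun D hF =>
    (hF.continuousOn.integrableOn_compact isCompact_Icc).mono_set Set.sdiff_subset
  have hcont : ∀ l ∈ S, Continuous fun t => (‖DP (blk (N l) 2) (b l) t‖ / (2 * N l)) ^ p l :=
    fun l hl => Continuous.rpow_const (by fun_prop) fun _ => Or.inr (hp0 l hl).le
  have hpt : ∀ t, ‖∏ l, DP (blk (N l) 2) (b l) t‖ ^ 2 ≤
      (704 * X) ^ 2 * ∑ l ∈ S, (‖DP (blk (N l) 2) (b l) t‖ / (2 * N l)) ^ p l := fun t => by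
    have a0 : 0 < ∏ l, 2 * N l := prod_pos fun l _ => by linarith [hN l]
    have a1 : ∏ l, 2 * N l ≤ 704 * X := by
      rw [prod_mul_distrib, prod_const, card_univ, Fintype.card_fin]
      linarith [hA.hi]
    have a2 := young S (fun l => ‖DP (blk (N l) 2) (b l) t‖ / (2 * N l)) p
      (fun l => div_nonneg (norm_nonneg _) (by linarith [hN l]))
      (fun l => (div_le_one (by linarith [hN l])).2 (norm_DP_blk (hN l) (hA.bd l) t)) hp0 hsum
    calc _ = (∏ l, 2 * N l) ^ 2 * (∏ l, ‖DP (blk (N l) 2) (b l) t‖ / (2 * N l)) ^ 2 := by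
          rw [prod_div_distrib, norm_prod]; field_simp
      _ ≤ _ := by gcongr
  calc _ ≤ ∫ t in I \ ⋃ l ∈ S, Bad l,
        (704 * X) ^ 2 * ∑ l ∈ S, (‖DP (blk (N l) 2) (b l) t‖ / (2 * N l)) ^ p l :=
        integral_mono (hint _ (by fun_prop))
          (hint _ (continuous_const.mul (continuous_finsetSum _ hcont))) hpt
    _ = (704 * X) ^ 2 * ∑ l ∈ S, ∫ t in I \ ⋃ l ∈ S, Bad l,
        (‖DP (blk (N l) 2) (b l) t‖ / (2 * N l)) ^ p l := by
        rw [integral_const_mul, integral_finsetSum _ fun l hl => hint _ (hcont l hl)]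
    _ ≤ (704 * X) ^ 2 * ∑ l ∈ S, |C| / Real.log X ^ A := by
        gcongr with l hl
        refine le_trans (setIntegral_mono_set (hint _ (hcont l hl))
          (Eventually.of_forall fun t => Real.rpow_nonneg
            (div_nonneg (norm_nonneg _) (by linarith [hN l])) _)
          (Set.sdiff_subset_sdiff_right
            (Set.subset_biUnion_of_mem (u := Bad) (mem_coe.2 hl))).eventuallyLE)
          ((hB3 l hl).trans ?_)
        gcongr
        exact le_abs_self C
    _ ≤ (704 * X) ^ 2 * (6 * (|C| / Real.log X ^ A)) := by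
        rw [sum_const, nsmul_eq_mul]
        gcongr
    _ = _ := by ring

end Prod

theorem prod_of (h1 : OneStmt) (h2 : TypeIStmt) : ProdStmt := by
  intro ε hε hε1 A B
  obtain ⟨C1, hA⟩ := Prod.caseA h2 hε hε1 A B
  obtain ⟨K, C2, hB⟩ := Prod.caseB h1 hε hε1 A
  obtain ⟨X₀, h⟩ := eventually_atTop.1 (hA.and (hB.and (ev_log 1)))
  refine ⟨A + 1 + K, max C1 C2, X₀, fun X q N b hX hq hqB hN => ?_⟩
  obtain ⟨a1, a2, a3⟩ := h X hX
  by_cases hl : ∀ l, N l ≤ X ^ (4 / 9 - ε / 4)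
  · exact (a2 q N b hN hl).mono a3 (by omega) (le_max_right _ _)
  · obtain ⟨l, hl⟩ := not_forall.1 hl
    exact (a1 q N b l hq hqB hN (not_le.1 hl)).mono a3 (by omega) (le_max_left _ _)

end Pool.Agent.MP_678834_nt.HL9

end
end MrgPart1

-- marker of a merged file
example : 731051 + 470941 = 731051 + 470941 := rfl
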