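import Mathlib.Algebra.Order.Chebyshev
import Pool.Agent.MP_678834_nt.HL9.Basic

/-! Project HL9: module TI2, the mean square of a long smooth factor times anything. -/

set_option autoImplicit false

noncomputable section

namespace Pool.Agent.MP_678834_nt.HL9

open MeasureTheory Finset Filter
open scoped ArithmeticFunction.vonMangoldt ArithmeticFunction.Moebius
open Pool.Agent.MP_db1c88_nt.z94 (ei bmp blk DP wide wt lev)
open Pool.Agent.MP_3d0d30_nt.Six (E ck)
open Pool.Agent.MP_db1c88_nt Pool.Agent.MP_3d0d30_nt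

namespace TI2

theorem int_ck {g : ℝ → ℝ} (hg : AEStronglyMeasurable g volume) {B : ℝ} (hB : ∀ u, |g u| ≤ B) :
    Integrable fun u => ck u * g u :=
  Six.integrable_ck.mul_bdd (c := B) hg (Eventually.of_forall hB)

theorem abs_sq_le {x B : ℝ} (h : |x| ≤ B) : |x ^ 2| ≤ B ^ 2 := by
  rw [abs_pow]; exact pow_le_pow_left₀ (abs_nonneg _) h 2

/-- Cauchy-Schwarz for the Cauchy weight -/
theorem cs_ck {g : ℝ → ℝ} (hg : AEStronglyMeasurable g volume) {B : ℝ} (hB : ∀ u, |g u| ≤ B) :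
    (∫ u, ck u * g u) ^ 2 ≤ Real.pi * ∫ u, ck u * g u ^ 2 := by
  have hp := Real.pi_pos
  have i1 := int_ck hg hB
  have i2 := int_ck (g := fun u => g u ^ 2) (hg.pow 2) fun u => abs_sq_le (hB u)
  set I := ∫ u, ck u * g u with hI
  have h0 : 0 ≤ ∫ u, (ck u * g u ^ 2 - 2 * (I / Real.pi) * (ck u * g u) +
      (I / Real.pi) ^ 2 * ck u) := integral_nonneg fun u => by
    have := mul_nonneg (Six.ck_nonneg u) (sq_nonneg (g u - I / Real.pi))
    simp only [Pi.zero_apply]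
    linarith [show ck u * (g u - I / Real.pi) ^ 2 = ck u * g u ^ 2 -
      2 * (I / Real.pi) * (ck u * g u) + (I / Real.pi) ^ 2 * ck u by ring]
  have i3 : Integrable fun u => ck u * g u ^ 2 - 2 * (I / Real.pi) * (ck u * g u) :=
    i2.sub (i1.const_mul _)
  rw [integral_add i3 (Six.integrable_ck.const_mul _),
    integral_sub i2 (i1.const_mul _), integral_const_mul, integral_const_mul, Six.integral_ck,
    ← hI] at h0
  have e : (I / Real.pi) ^ 2 * Real.pi - 2 * (I / Real.pi) * I = -(I ^ 2 / Real.pi) := by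
    field_simp; ring
  have h1 : I ^ 2 / Real.pi ≤ ∫ u, ck u * g u ^ 2 := by linarith
  rwa [div_le_iff₀' hp] at h1

theorem cont_ck {g : ℝ → ℝ → ℝ} (hg : Continuous (Function.uncurry g)) {B : ℝ}
    (hB : ∀ t u, |g t u| ≤ B) : Continuous fun t => ∫ u, ck u * g t u := by
  refine continuous_of_dominated (bound := fun u => ck u * B) (fun t => ?_)
    (fun t => Eventually.of_forall fun u => ?_) (Six.integrable_ck.mul_const B)
    (Eventually.of_forall fun u => ?_)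
  · exact (Six.continuous_ck.mul (hg.comp (Continuous.prodMk_right t))).aestronglyMeasurable
  · rw [Real.norm_eq_abs, abs_mul, abs_of_nonneg (Six.ck_nonneg u)]
    exact mul_le_mul_of_nonneg_left (hB t u) (Six.ck_nonneg u)
  · exact continuous_const.mul (hg.comp (Continuous.prodMk_left u))

/-- the mean square of an average with the Cauchy weight -/
theorem avg {g : ℝ → ℝ → ℝ} (hg : Continuous (Function.uncurry g)) {B T W : ℝ}
    (hB : ∀ t u, |g t u| ≤ B) (hW : ∀ u, ∫ t in Set.Icc (-T) T, g t u ^ 2 ≤ W) :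
    ∫ t in Set.Icc (-T) T, (∫ u, ck u * g t u) ^ 2 ≤ Real.pi ^ 2 * W := by
  have hp := Real.pi_pos
  have hg2 : Continuous (Function.uncurry fun t u => g t u ^ 2) := hg.pow 2
  have hB2 : ∀ t u, |g t u ^ 2| ≤ B ^ 2 := fun t u => abs_sq_le (hB t u)
  have c1 := cont_ck hg hB
  have c2 := cont_ck hg2 hB2
  have hi : Integrable (Function.uncurry fun t u => ck u * g t u ^ 2)
      ((volume.restrict (Set.Icc (-T) T)).prod volume) := by
    have h1 : Integrable (fun z : ℝ × ℝ => B ^ 2 * ck z.2)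
        ((volume.restrict (Set.Icc (-T) T)).prod volume) :=
      (integrable_const (B ^ 2)).mul_prod Six.integrable_ck
    refine h1.mono' ((Six.continuous_ck.comp continuous_snd).mul hg2).aestronglyMeasurable
      (Eventually.of_forall fun z => ?_)
    rw [Function.uncurry, Real.norm_eq_abs, abs_mul, abs_of_nonneg (Six.ck_nonneg _), mul_comm]
    exact mul_le_mul_of_nonneg_right (hB2 _ _) (Six.ck_nonneg _)
  calc _ ≤ ∫ t in Set.Icc (-T) T, Real.pi * ∫ u, ck u * g t u ^ 2 :=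
        integral_mono (c1.pow 2).integrableOn_Icc (continuous_const.mul c2).integrableOn_Icc
          fun t => cs_ck (hg.comp (Continuous.prodMk_right t)).aestronglyMeasurable (hB t)
    _ = Real.pi * ∫ u, ∫ t in Set.Icc (-T) T, ck u * g t u ^ 2 := by
        rw [integral_const_mul, integral_integral_swap hi]
    _ ≤ Real.pi * ∫ u, ck u * W := by
        gcongr ?_ * ?_
        refine integral_mono hi.integral_prod_right (Six.integrable_ck.mul_const W) fun u => ?_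
        simp only [integral_const_mul]
        exact mul_le_mul_of_nonneg_left (hW u) (Six.ck_nonneg u)
    _ = _ := by rw [integral_mul_const, Six.integral_ck]; ring

theorem DP_shift (s : Finset ℕ) (c : ℕ → ℂ) (t u : ℝ) :
    DP s c (t + u) = DP s (fun k => c k * ei (u * Real.log k)) t := by
  unfold DP
  refine sum_congr rfl fun k _ => ?_
  rw [add_mul, z94.ei_add]; ring

theorem DP_mul {s1 s2 : Finset ℕ} (h1 : ∀ m ∈ s1, 1 ≤ m) (h2 : ∀ m ∈ s2, 1 ≤ m) (a b : ℕ → ℂ)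
    (t : ℝ) : DP s1 a t * DP s2 b t = DP ((s1 ×ˢ s2).image fun p => p.1 * p.2)
      (fun n => ∑ p ∈ s1 ×ˢ s2 with p.1 * p.2 = n, a p.1 * b p.2) t := by
  unfold DP
  rw [sum_mul_sum, ← sum_product', ← sum_fiberwise_of_maps_to
    (g := fun p : ℕ × ℕ => p.1 * p.2) fun p hp => mem_image_of_mem _ hp]
  refine sum_congr rfl fun n _ => ?_
  rw [sum_mul]
  refine sum_congr rfl fun p hp => ?_
  obtain ⟨hg, rfl⟩ := mem_filter.1 hp
  have e1 := h1 _ (mem_product.1 hg).1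
  have e2 := h2 _ (mem_product.1 hg).2
  rw [Nat.cast_mul, Real.log_mul (by positivity) (by positivity), mul_add, z94.ei_add]
  ring

/-- the mean value theorem for a product of two polynomials -/
theorem mv_mul {C : ℝ} (hC : 0 ≤ C) (hm : ∀ (s : Finset ℕ) (a : ℕ → ℂ) (K T : ℝ), 0 < T → 0 ≤ K →
      (∀ n ∈ s, 1 ≤ n ∧ (n : ℝ) ≤ K) →
        ∫ t in (-T)..T, ‖DP s a t‖ ^ 2 ≤ C * (T + K) * ∑ n ∈ s, ‖a n‖ ^ 2)
    {s1 s2 : Finset ℕ} (h1 : ∀ m ∈ s1, 1 ≤ m) (h2 : ∀ m ∈ s2, 1 ≤ m) (a b : ℕ → ℂ) {K T d : ℝ}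
    (hT : 0 < T) (hK0 : 0 ≤ K) (hK : ∀ m ∈ s1, ∀ k ∈ s2, (m : ℝ) * k ≤ K)
    (hd : ∀ n : ℕ, (n : ℝ) ≤ K → (n.divisors.card : ℝ) ≤ d) :
    ∫ t in Set.Icc (-T) T, ‖DP s1 a t * DP s2 b t‖ ^ 2 ≤
      C * (T + K) * (d * ((∑ m ∈ s1, ‖a m‖ ^ 2) * ∑ k ∈ s2, ‖b k‖ ^ 2)) := by
  have hs : ∀ n : ℕ, n ∈ ((s1 ×ˢ s2).image fun p : ℕ × ℕ => p.1 * p.2) →
      1 ≤ n ∧ (n : ℝ) ≤ K := by
    intro n hn
    obtain ⟨p, hp, rfl⟩ := mem_image.1 hn
    obtain ⟨e1, e2⟩ := mem_product.1 hp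
    exact ⟨Nat.mul_pos (h1 _ e1) (h2 _ e2), by rw [Nat.cast_mul]; exact hK _ e1 _ e2⟩
  simp only [DP_mul h1 h2]
  rw [integral_Icc_eq_integral_Ioc, ← intervalIntegral.integral_of_le (by linarith)]
  refine (hm _ _ K T hT hK0 hs).trans (mul_le_mul_of_nonneg_left ?_ (by positivity))
  rw [sum_mul_sum, ← sum_product', ← sum_fiberwise_of_maps_to
    (g := fun p : ℕ × ℕ => p.1 * p.2) fun p hp => mem_image_of_mem _ hp, mul_sum]
  refine sum_le_sum fun n hn => ?_
  obtain ⟨e1, e2⟩ := hs n hn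
  have e3 : (((s1 ×ˢ s2).filter fun p => p.1 * p.2 = n).card : ℝ) ≤ d :=
    (Nat.cast_le.2 (z94.card_mul_eq_nat (by omega) fun x hx => (mem_filter.1 hx).2)).trans
      (hd n e2)
  refine (pow_le_pow_left₀ (norm_nonneg _) (norm_sum_le _ _) 2).trans
    (sq_sum_le_card_mul_sum_sq.trans ?_)
  simp only [norm_mul, mul_pow]
  exact mul_le_mul_of_nonneg_right e3 (sum_nonneg fun _ _ => by positivity)

theorem ck_sq_le {t Y : ℝ} (hY : 1 ≤ Y) (h : Y ≤ |t|) : ck t ^ 2 ≤ 2 / Y ^ 4 * ck (t / Y) := by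
  have hY0 : 0 < Y := by linarith
  have h1 : Y ^ 2 ≤ t ^ 2 := by rw [← sq_abs t]; gcongr
  have e : 2 / Y ^ 4 * ck (t / Y) = 2 / (Y ^ 2 * (Y ^ 2 + t ^ 2)) := by
    unfold ck; field_simp
  rw [e, ck, div_pow, one_pow, div_le_div_iff₀ (by positivity) (by positivity)]
  have h2 : Y ^ 2 * (Y ^ 2 + t ^ 2) ≤ t ^ 2 * (t ^ 2 + t ^ 2) := by gcongr
  nlinarith [sq_nonneg t]

theorem J_le {η : ℝ} (hη : 0 < η) : ∃ C : ℝ, 0 ≤ C ∧ ∀ (T : ℝ) (J : ℕ), 2 ≤ T →
    (∀ j < J, 2 ^ j ≤ T) → (J : ℝ) ^ 2 ≤ C * T ^ η := by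
  refine ⟨(3 / (η / 2)) ^ 2, by positivity, fun T J hT h => ?_⟩
  have hl := Real.log_two_gt_d9
  have h1 : Real.log 2 ≤ Real.log T := Real.log_le_log two_pos hT
  have h2 : (J : ℝ) ≤ 3 * Real.log T := by
    rcases J with _ | J
    · simp only [Nat.cast_zero]; linarith
    · have h3 := Real.log_le_log (by positivity) (h J (Nat.lt_succ_self J))
      rw [Real.log_pow] at h3
      push_cast
      nlinarith
  have h3 := Real.log_le_rpow_div (x := T) (by linarith) (half_pos hη)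
  have e : T ^ η = (T ^ (η / 2)) ^ 2 := by
    rw [← Real.rpow_natCast, ← Real.rpow_mul (by linarith)]; congr 1; push_cast; ring
  rw [e, ← mul_pow]
  refine pow_le_pow_left₀ (Nat.cast_nonneg _) (h2.trans ?_) 2
  calc 3 * Real.log T ≤ 3 * (T ^ (η / 2) / (η / 2)) := by gcongr
    _ = _ := by ring

theorem d_le {η : ℝ} (hη : 0 < η) : ∃ C : ℝ, 0 ≤ C ∧ ∀ (T : ℝ) (n : ℕ), 2 ≤ T →
    (n : ℝ) ≤ 64 * T ^ 3 → (n.divisors.card : ℝ) ≤ C * T ^ η := by
  obtain ⟨C, hC, h⟩ := z94.divisor_bound (η := η / 9) (by positivity)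
  refine ⟨C, by linarith, fun T n hT hn => (h n).trans ?_⟩
  have h1 : (n : ℝ) ≤ T ^ 9 := by
    have : (2 : ℝ) ^ 6 ≤ T ^ 6 := by gcongr
    refine hn.trans ?_
    rw [show T ^ 9 = T ^ 6 * T ^ 3 by ring]
    gcongr; linarith
  have e : T ^ η = (T ^ 9) ^ (η / 9) := by
    rw [← Real.rpow_natCast, ← Real.rpow_mul (by linarith)]; congr 1; push_cast; ring
  rw [e]
  gcongr

end TI2

open TI2 in
theorem typeI_of (h1 : TI1Stmt) (hm : MVStmt) : TypeIStmt := by
  intro V hV hV0 η hη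
  obtain ⟨C1, h1⟩ := h1 V hV hV0
  obtain ⟨C0, hm0⟩ := hm
  obtain ⟨CJ, hCJ, hJ⟩ := J_le (half_pos hη)
  obtain ⟨Cd, hCd, hd⟩ := d_le (half_pos hη)
  have hp := Real.pi_pos
  set C2 := max C0 0 with hC2
  have hC20 : 0 ≤ C2 := le_max_right _ _
  refine ⟨3 * C1 ^ 2 * (2048 * (Real.pi + 1) + 8192 * Real.pi ^ 2 * C2 * CJ * Cd), ?_⟩
  intro N M T Y D q f r hq hqN hM hMT hT hY hf hf1 hr hR
  have hq' : (1 : ℝ) ≤ q := by exact_mod_cast hq
  have hN : 1 ≤ N := hq'.trans hqN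
  have hM0 : 0 < M := by linarith
  have hT0 : 0 < T := by linarith
  have hY0 : 0 < Y := by linarith
  obtain ⟨c, J, hc, hjT, hF⟩ := h1 N T q f hq hqN (by linarith) hf hf1
  have hm : ∀ (s : Finset ℕ) (a : ℕ → ℂ) (K T : ℝ), 0 < T → 0 ≤ K → (∀ n ∈ s, 1 ≤ n ∧ (n : ℝ) ≤ K) →
      ∫ t in (-T)..T, ‖DP s a t‖ ^ 2 ≤ C2 * (T + K) * ∑ n ∈ s, ‖a n‖ ^ 2 := by
    intro s a K T hT hK h
    refine (hm0 s a K T hT h).trans ?_
    gcongr
    exact le_max_left _ _
  set R := DP (blk M 32) r with hRdef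
  set g : Fin 2 → ℕ → ℝ → ℝ → ℝ := fun s j t u =>
    ‖R t * DP (Ico (2 ^ j) (2 ^ (j + 1))) (c s) (t + u)‖ with hg
  have hgc : ∀ s j, Continuous (Function.uncurry (g s j)) := fun s j => by
    simp only [hg, hRdef]; unfold Function.uncurry; fun_prop
  have hcard : ∀ j : ℕ, ((Ico (2 ^ j) (2 ^ (j + 1)) : Finset ℕ).card : ℝ) = 2 ^ j := fun j => by
    rw [Nat.card_Ico, pow_succ, show 2 ^ j * 2 - 2 ^ j = 2 ^ j by omega]; push_cast; rfl
  have hgB : ∀ s j t u, |g s j t u| ≤ 32 * M * (2 ^ j * 1) := fun s j t u => by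
    simp only [hg]
    rw [abs_norm, norm_mul, ← hcard j]
    exact mul_le_mul (hR t) (z94.norm_DP_le _ (hc s) _) (norm_nonneg _) (by positivity)
  have h2T : ∀ j < J, (2 : ℝ) ^ j ≤ T := fun j hj => by
    have h1 := hjT j hj
    have h2 : T * q ≤ T * N := by gcongr
    exact le_of_mul_le_mul_right (h1.trans h2) (by linarith)
  set Z := Real.pi ^ 2 * C2 * Cd * 2048 * (T ^ (η / 2) * D ^ 2 * (q * N * M * T) *
    (1 + q * M / N)) with hZ
  set A : Fin 2 → ℕ → ℝ → ℝ := fun s j t => ∫ u, ck u * g s j t u with hA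
  have hAc : ∀ s j, Continuous (A s j) := fun s j => cont_ck (hgc s j) (hgB s j)
  have hAZ : ∀ s, ∀ j ∈ range J, ∫ t in Set.Icc (-T) T, q * N / 2 ^ j * A s j t ^ 2 ≤ Z := by
    intro s j hj
    have hj' := mem_range.1 hj
    have hK := h2T j hj'
    have hK2 : (2 : ℝ) ^ j ≤ T * q / N := by rw [le_div_iff₀ (by linarith)]; exact hjT j hj'
    have hW : ∀ u, ∫ t in Set.Icc (-T) T, g s j t u ^ 2 ≤
        C2 * (T + 64 * M * 2 ^ j) * (Cd * T ^ (η / 2) * (32 * M * D ^ 2 * 2 ^ j)) := by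
      intro u
      simp only [hg, DP_shift, hRdef]
      refine (mv_mul hC20 hm (K := 64 * M * 2 ^ j) (d := Cd * T ^ (η / 2))
        (fun m hm => one_le_of_mem_blk hM0 hm)
        (fun k hk => le_trans Nat.one_le_two_pow (mem_Ico.1 hk).1) _ _ hT0 (by positivity)
        (fun m hm k hk => ?_) fun n hn => hd T n hT (hn.trans ?_)).trans ?_
      · have e1 := ((z94.mem_blk hM0.le (by norm_num)).1 hm).2
        have e2 : (k : ℝ) ≤ 2 ^ (j + 1) := by exact_mod_cast (mem_Ico.1 hk).2.le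
        calc (m : ℝ) * k ≤ 32 * M * 2 ^ (j + 1) := by gcongr
          _ = _ := by ring
      · calc 64 * M * 2 ^ j ≤ 64 * T ^ 2 * T := by gcongr
          _ = _ := by ring
      · have e1 : ∑ m ∈ blk M 32, ‖r m‖ ^ 2 ≤ 32 * M * D ^ 2 := by
          refine (sum_le_card_nsmul _ _ (D ^ 2) fun m hm =>
            pow_le_pow_left₀ (norm_nonneg _) (hr m hm) 2).trans ?_
          rw [nsmul_eq_mul]
          exact mul_le_mul_of_nonneg_right (card_blk_le' hM0 (by norm_num)) (sq_nonneg D)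
        have e2 : ∑ k ∈ Ico (2 ^ j) (2 ^ (j + 1)), ‖c s k * ei (u * Real.log (k : ℕ))‖ ^ 2 ≤
            2 ^ j := by
          refine (sum_le_card_nsmul _ _ 1 fun k _ => ?_).trans ?_
          · rw [norm_mul, z94.norm_ei, mul_one]
            exact pow_le_one₀ (norm_nonneg _) (hc s k)
          · rw [nsmul_eq_mul, hcard, mul_one]
        gcongr
    have h3 := avg (hgc s j) (hgB s j) hW
    rw [integral_const_mul]
    refine (mul_le_mul_of_nonneg_left h3 (by positivity)).trans ?_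
    have e3 : T + 64 * M * 2 ^ j ≤ 64 * (T * (1 + q * M / N)) := by
      have : 64 * M * 2 ^ j ≤ 64 * M * (T * q / N) := by gcongr
      have e : 64 * (T * (1 + q * M / N)) = 64 * T + 64 * M * (T * q / N) := by ring
      linarith
    calc _ ≤ q * N / 2 ^ j * (Real.pi ^ 2 * (C2 * (64 * (T * (1 + q * M / N))) *
          (Cd * T ^ (η / 2) * (32 * M * D ^ 2 * 2 ^ j)))) := by gcongr
      _ = Z := by rw [hZ]; field_simp; ring
  set h1f : ℝ → ℝ := fun t => 2048 * (N * M) ^ 2 / Y ^ 4 * ck (t / Y) with hh1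
  set h2f : ℝ → ℝ := fun t => 1024 * q ^ 2 * M ^ 2 +
    2 * J * ∑ s : Fin 2, ∑ j ∈ range J, q * N / 2 ^ j * A s j t ^ 2 with hh2
  have c2 : Continuous h2f := by simp only [hh2]; fun_prop
  have i1 : Integrable h1f := (Six.integrable_ck_div hY0.ne').const_mul _
  have p1 : ∀ t, 0 ≤ h1f t := fun t => mul_nonneg (by positivity) (Six.ck_nonneg _)
  have p2 : ∀ t, 0 ≤ h2f t := fun t => by simp only [hh2]; positivity
  have hpt : ∀ t ∈ Set.Icc (-T) T \ Set.Icc (-Y) Y,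
      ‖DP (blk N 2) (fun n => f n * (V (Real.log n - Real.log N) : ℝ)) t * R t‖ ^ 2 ≤
        3 * C1 ^ 2 * (h1f t + h2f t) := by
    intro t ht
    have e1 := hF t (abs_le.2 ht.1)
    have e2 : Y ≤ |t| := le_of_not_gt fun h => ht.2 (abs_le.1 h.le)
    have e3 := ck_sq_le hY e2
    have e4 : ∀ s j, ‖R t‖ * ∫ u : ℝ, ck u * ‖DP (Ico (2 ^ j) (2 ^ (j + 1))) (c s) (t + u)‖ =
        A s j t := fun s j => by
      simp only [hA, hg, ← integral_const_mul, norm_mul]
      congr 1; ext u; ring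
    set x := N * ck t * ‖R t‖
    set y := q ^ 2 / N * ‖R t‖
    set z := ∑ s : Fin 2, ∑ j ∈ range J, Real.sqrt (q * N / 2 ^ j) * A s j t with hz
    have e5 : ‖DP (blk N 2) (fun n => f n * (V (Real.log n - Real.log N) : ℝ)) t * R t‖ ≤
        C1 * (x + y + z) := by
      rw [norm_mul]
      refine (mul_le_mul_of_nonneg_right e1 (norm_nonneg _)).trans (le_of_eq ?_)
      simp only [hz, ← e4, x, y, mul_left_comm _ ‖R t‖, ← mul_sum]
      ring
    have hR2 : ‖R t‖ ^ 2 ≤ (32 * M) ^ 2 := pow_le_pow_left₀ (norm_nonneg _) (hR t) 2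
    have bx : x ^ 2 ≤ h1f t := by
      calc x ^ 2 = N ^ 2 * ck t ^ 2 * ‖R t‖ ^ 2 := by ring
        _ ≤ N ^ 2 * (2 / Y ^ 4 * ck (t / Y)) * (32 * M) ^ 2 := by
          have := Six.ck_nonneg (t / Y)
          gcongr
        _ = _ := by simp only [hh1]; ring
    have by' : y ^ 2 ≤ 1024 * q ^ 2 * M ^ 2 := by
      have : (q : ℝ) ^ 2 / N ≤ q := by rw [div_le_iff₀ (by linarith), sq]; gcongr
      calc y ^ 2 = (q ^ 2 / N) ^ 2 * ‖R t‖ ^ 2 := by ring
        _ ≤ q ^ 2 * (32 * M) ^ 2 := by gcongr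
        _ = _ := by ring
    have bz : z ^ 2 ≤ 2 * J * ∑ s : Fin 2, ∑ j ∈ range J, q * N / 2 ^ j * A s j t ^ 2 := by
      rw [hz, ← sum_product', ← sum_product']
      refine sq_sum_le_card_mul_sum_sq.trans (le_of_eq ?_)
      rw [card_product, card_univ, Fintype.card_fin, card_range]
      push_cast
      congr 1
      refine sum_congr rfl fun p _ => ?_
      rw [mul_pow, Real.sq_sqrt (by positivity)]
    refine (pow_le_pow_left₀ (norm_nonneg _) e5 2).trans ?_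
    have e6 : (x + y + z) ^ 2 ≤ 3 * (h1f t + h2f t) := by
      simp only [hh2]
      nlinarith [sq_nonneg (x - y), sq_nonneg (x - z), sq_nonneg (y - z)]
    calc _ = C1 ^ 2 * (x + y + z) ^ 2 := by ring
      _ ≤ C1 ^ 2 * (3 * (h1f t + h2f t)) := by gcongr
      _ = _ := by ring
  have hS : MeasurableSet (Set.Icc (-T) T \ Set.Icc (-Y) Y) :=
    measurableSet_Icc.diff measurableSet_Icc
  have i2 : IntegrableOn h2f (Set.Icc (-T) T) := c2.integrableOn_Icc
  have i2' := i2.mono_set (Set.sdiff_subset (t := Set.Icc (-Y) Y))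
  have cF : Continuous fun t =>
      ‖DP (blk N 2) (fun n => f n * (V (Real.log n - Real.log N) : ℝ)) t * R t‖ ^ 2 := by
    simp only [hRdef]; fun_prop
  have b1 : ∫ t in Set.Icc (-T) T \ Set.Icc (-Y) Y, h1f t ≤
      2048 * Real.pi * ((N * M) ^ 2 / Y ^ 3) := by
    refine (setIntegral_le_integral i1 (Eventually.of_forall p1)).trans (le_of_eq ?_)
    simp only [hh1]
    rw [integral_const_mul, Six.integral_ck_div hY0]; field_simp
  have hZ0 : 0 ≤ Z := by positivity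
  have b2 : ∫ t in Set.Icc (-T) T \ Set.Icc (-Y) Y, h2f t ≤
      2048 * (q ^ 2 * T * M ^ 2) + 4 * J ^ 2 * Z := by
    refine (setIntegral_mono_set i2 (Eventually.of_forall p2)
      (Eventually.of_forall Set.sdiff_subset)).trans ?_
    have i3 : ∀ s j, IntegrableOn (fun t => q * N / 2 ^ j * A s j t ^ 2) (Set.Icc (-T) T) :=
      fun s j => (continuous_const.mul ((hAc s j).pow 2)).integrableOn_Icc
    simp only [hh2]
    rw [integral_add (integrable_const _) ((integrable_finsetSum _ fun s _ =>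
      integrable_finsetSum _ fun j _ => i3 s j).const_mul _), setIntegral_const, integral_const_mul,
      integral_finsetSum _ fun s _ => integrable_finsetSum _ fun j _ => i3 s j,
      Real.volume_real_Icc_of_le (by linarith), smul_eq_mul]
    have e : ∑ s : Fin 2, ∫ t in Set.Icc (-T) T, ∑ j ∈ range J, q * N / 2 ^ j * A s j t ^ 2 ≤
        2 * (J * Z) := by
      refine (sum_le_card_nsmul _ _ (J * Z) fun s _ => ?_).trans (by simp)
      rw [integral_finsetSum _ fun j _ => i3 s j]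
      exact (sum_le_card_nsmul _ _ Z (hAZ s)).trans (by simp)
    have e' := mul_le_mul_of_nonneg_left e (show (0 : ℝ) ≤ 2 * J by positivity)
    nlinarith
  have b3 : 4 * J ^ 2 * Z ≤ 8192 * Real.pi ^ 2 * C2 * CJ * Cd *
      (T ^ η * D ^ 2 * (q * N * M * T) * (1 + q * M / N)) := by
    have e : T ^ η = T ^ (η / 2) * T ^ (η / 2) := by rw [← Real.rpow_add hT0, add_halves]
    calc _ ≤ 4 * (CJ * T ^ (η / 2)) * Z := by gcongr; exact hJ T J hT h2T
      _ = _ := by rw [hZ, e]; ring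
  refine (setIntegral_mono_on (cF.integrableOn_Icc.mono_set Set.sdiff_subset)
    ((i1.integrableOn.add i2').const_mul _) hS hpt).trans ?_
  rw [integral_const_mul, integral_add' i1.integrableOn i2', mul_assoc (3 * C1 ^ 2)]
  refine mul_le_mul_of_nonneg_left ?_ (by positivity)
  set a := (N * M) ^ 2 / Y ^ 3
  set b := q ^ 2 * T * M ^ 2
  set d := T ^ η * D ^ 2 * (q * N * M * T) * (1 + q * M / N)
  set k := 8192 * Real.pi ^ 2 * C2 * CJ * Cd
  have pa : 0 ≤ a := by positivity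
  have pb : 0 ≤ b := by positivity
  have pd : 0 ≤ d := by positivity
  have pk : 0 ≤ k := by positivity
  nlinarith [mul_nonneg pk pa, mul_nonneg pk pb, mul_nonneg hp.le pb, mul_nonneg hp.le pd]

end Pool.Agent.MP_678834_nt.HL9
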