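import Mathlib.Algebra.Ring.IsFormallyReal
import Mathlib.Analysis.Complex.Polynomial.Basic
import Mathlib.RingTheory.RootsOfUnity.AlgebraicallyClosed
import Mathlib.Data.FunLike.Fintype
import Mathlib.Data.Finset.NatDivisors
import Mathlib.NumberTheory.Harmonic.Bounds
import Pool.Agent.MP_678834_nt.HL9.Basic
import Pool.Agent.MP_3d0d30_nt.Six.Small
import Pool.Agent.MP_678834_nt.SingB

-- ======== part 0: formerly Pool.Agent.MP_678834_nt.HL9.Tools2
section MrgPart0

/-! Project HL9: arithmetic tools. -/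

set_option autoImplicit false

noncomputable section

namespace Pool.Agent.MP_678834_nt.HL9

open MeasureTheory Finset Filter
open scoped ArithmeticFunction.vonMangoldt ArithmeticFunction.Moebius
open Pool.Agent.MP_db1c88_nt.z94 (ei bmp blk DP wide wt lev)
open Pool.Agent.MP_3d0d30_nt.Six (E ck)
open Pool.Agent.MP_db1c88_nt Pool.Agent.MP_3d0d30_nt

namespace tools2

/-! ### moments of the divisor function -/

theorem sum_anti (F : ℕ → ℕ → ℝ) (x : ℕ) :
    ∑ n ∈ Ioc 0 x, ∑ p ∈ n.divisorsAntidiagonal, F p.1 p.2 =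
      ∑ a ∈ Ioc 0 x, ∑ b ∈ Ioc 0 (x / a), F a b := by
  have h1 : ∑ n ∈ Ioc 0 x, ∑ p ∈ n.divisorsAntidiagonal, F p.1 p.2 =
      ∑ p ∈ Ioc 0 x ×ˢ Ioc 0 x with p.1 * p.2 ≤ x, F p.1 p.2 := by
    trans ∑ n ∈ Ioc 0 x, ∑ p ∈ Ioc 0 x ×ˢ Ioc 0 x with p.1 * p.2 = n, F p.1 p.2
    · refine sum_congr rfl fun n hn => ?_
      simp only [mem_Ioc] at hn
      rw [Nat.divisorsAntidiagonal_eq_prod_filter_of_le hn.1.ne' hn.2]
    · simp_rw [sum_filter]
      rw [sum_comm]
      exact sum_congr rfl fun _ _ => (by simp_all)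
  rw [h1, sum_filter, sum_product]
  refine sum_congr rfl fun a ha => ?_
  rw [← sum_filter]
  refine sum_congr ?_ fun _ _ => rfl
  ext b
  simp only [mem_filter, mem_Ioc] at ha ⊢
  rw [Nat.le_div_iff_mul_le ha.1, mul_comm b a]
  constructor
  · exact fun h => ⟨h.1.1, h.2⟩
  · exact fun h => ⟨⟨h.1, le_trans (Nat.le_mul_of_pos_left b ha.1) h.2⟩, h.2⟩

theorem tau_mul (a b : ℕ) :
    ((a * b).divisors.card : ℝ) ≤ (a.divisors.card : ℝ) * b.divisors.card := by
  rw [Nat.divisors_mul]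
  exact_mod_cast Finset.card_mul_le

theorem tau_succ_le (m n : ℕ) : (n.divisors.card : ℝ) ^ (m + 1) ≤
    ∑ p ∈ n.divisorsAntidiagonal, (p.1.divisors.card : ℝ) ^ m * (p.2.divisors.card : ℝ) ^ m := by
  have h : (n.divisors.card : ℝ) ^ (m + 1) =
      ∑ _p ∈ n.divisorsAntidiagonal, (n.divisors.card : ℝ) ^ m := by
    rw [sum_const, nsmul_eq_mul, ← Nat.map_div_right_divisors, card_map, pow_succ']
  rw [h]
  refine sum_le_sum fun p hp => ?_
  rw [← mul_pow, ← (Nat.mem_divisorsAntidiagonal.1 hp).1]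
  exact pow_le_pow_left₀ (by positivity) (tau_mul _ _) m

theorem one_le_L (x : ℕ) : (1 : ℝ) ≤ 1 + Real.log x := by
  have := Real.log_natCast_nonneg x; linarith

theorem L_mono {x y : ℕ} (h : y ≤ x) : 1 + Real.log y ≤ 1 + Real.log x := by
  rcases Nat.eq_zero_or_pos y with rfl | hy
  · simpa using Real.log_natCast_nonneg x
  · have := Real.log_le_log (by exact_mod_cast hy) (show (y : ℝ) ≤ x by exact_mod_cast h)
    linarith

theorem log_moment (m : ℕ) : ∃ K : ℕ, ∀ x : ℕ,
    ∑ n ∈ Ioc 0 x, (n.divisors.card : ℝ) ^ m / n ≤ (1 + Real.log x) ^ K := by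
  induction m with
  | zero =>
    refine ⟨1, fun x => ?_⟩
    have h := harmonic_le_one_add_log x
    rw [harmonic_eq_sum_Icc] at h
    push_cast at h
    simpa [← Icc_add_one_left_eq_Ioc, one_div] using h
  | succ m ih =>
    obtain ⟨K, hK⟩ := ih
    refine ⟨K + K, fun x => ?_⟩
    calc ∑ n ∈ Ioc 0 x, (n.divisors.card : ℝ) ^ (m + 1) / n
        ≤ ∑ n ∈ Ioc 0 x, ∑ p ∈ n.divisorsAntidiagonal,
            (p.1.divisors.card : ℝ) ^ m / p.1 * ((p.2.divisors.card : ℝ) ^ m / p.2) := by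
          refine sum_le_sum fun n _ => ?_
          refine (div_le_div_of_nonneg_right (tau_succ_le m n) (by positivity)).trans ?_
          rw [sum_div]
          refine le_of_eq (sum_congr rfl fun p hp => ?_)
          rw [div_mul_div_comm, ← (Nat.mem_divisorsAntidiagonal.1 hp).1]
          push_cast; rfl
      _ = ∑ a ∈ Ioc 0 x, ∑ b ∈ Ioc 0 (x / a),
            (a.divisors.card : ℝ) ^ m / a * ((b.divisors.card : ℝ) ^ m / b) :=
          sum_anti (fun a b => (a.divisors.card : ℝ) ^ m / a * ((b.divisors.card : ℝ) ^ m / b)) x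
      _ ≤ ∑ a ∈ Ioc 0 x, (a.divisors.card : ℝ) ^ m / a * (1 + Real.log x) ^ K := by
          refine sum_le_sum fun a _ => ?_
          rw [← mul_sum]
          refine mul_le_mul_of_nonneg_left ((hK _).trans ?_) (by positivity)
          exact pow_le_pow_left₀ (zero_le_one.trans (one_le_L _)) (L_mono (Nat.div_le_self _ _)) K
      _ ≤ (1 + Real.log x) ^ (K + K) := by
          rw [← sum_mul, pow_add]
          exact mul_le_mul_of_nonneg_right (hK x) (pow_nonneg (zero_le_one.trans (one_le_L _)) K)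

theorem moment (m : ℕ) : ∃ K : ℕ, ∀ x : ℕ,
    ∑ n ∈ Ioc 0 x, (n.divisors.card : ℝ) ^ m ≤ x * (1 + Real.log x) ^ K := by
  induction m with
  | zero => exact ⟨0, fun x => by simp⟩
  | succ m ih =>
    obtain ⟨K, hK⟩ := ih
    obtain ⟨K', hK'⟩ := log_moment m
    refine ⟨K' + K, fun x => ?_⟩
    have h0 : (0 : ℝ) ≤ 1 + Real.log x := zero_le_one.trans (one_le_L _)
    calc ∑ n ∈ Ioc 0 x, (n.divisors.card : ℝ) ^ (m + 1)
        ≤ ∑ n ∈ Ioc 0 x, ∑ p ∈ n.divisorsAntidiagonal,
            (p.1.divisors.card : ℝ) ^ m * (p.2.divisors.card : ℝ) ^ m :=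
          sum_le_sum fun n _ => tau_succ_le m n
      _ = ∑ a ∈ Ioc 0 x, ∑ b ∈ Ioc 0 (x / a),
            (a.divisors.card : ℝ) ^ m * (b.divisors.card : ℝ) ^ m :=
          sum_anti (fun a b => (a.divisors.card : ℝ) ^ m * (b.divisors.card : ℝ) ^ m) x
      _ ≤ ∑ a ∈ Ioc 0 x, (a.divisors.card : ℝ) ^ m / a * (x * (1 + Real.log x) ^ K) := by
          refine sum_le_sum fun a _ => ?_
          rw [← mul_sum, div_mul_eq_mul_div, mul_div_assoc]
          refine mul_le_mul_of_nonneg_left ((hK _).trans ?_) (by positivity)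
          rw [mul_div_right_comm]
          exact mul_le_mul Nat.cast_div_le
            (pow_le_pow_left₀ (zero_le_one.trans (one_le_L _)) (L_mono (Nat.div_le_self _ _)) K)
            (pow_nonneg (zero_le_one.trans (one_le_L _)) K) (by positivity)
      _ ≤ x * (1 + Real.log x) ^ (K' + K) := by
          rw [← sum_mul, pow_add, mul_left_comm]
          exact mul_le_mul_of_nonneg_left
            (mul_le_mul_of_nonneg_right (hK' x) (by positivity)) (by positivity)

/-! ### Ramanujan sums -/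

theorem E_nat_mul (k : ℕ) (x : ℝ) : E (k * x) = E x ^ k := by
  unfold E
  rw [← Complex.exp_nat_mul]
  congr 1; push_cast; ring

theorem E_eq_one {x : ℝ} (h : E x = 1) : ∃ k : ℤ, x = k := by
  obtain ⟨k, hk⟩ := Complex.exp_eq_one_iff.1 h
  refine ⟨k, ?_⟩
  have hp : (2 * Real.pi * Complex.I : ℂ) ≠ 0 := Complex.two_pi_I_ne_zero
  have : (x : ℂ) = k := mul_right_cancel₀ hp (by rw [← hk]; ring)
  exact_mod_cast this

/-- complete geometric sums -/
theorem geom_E (a : ℤ) {r : ℕ} (hr : 1 ≤ r) :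
    ∑ c ∈ range r, E (a * c / r) = if (r : ℤ) ∣ a then (r : ℂ) else 0 := by
  have hr0 : (r : ℝ) ≠ 0 := by positivity
  split_ifs with h
  · obtain ⟨k, rfl⟩ := h
    have : ∀ c ∈ range r, E ((((r : ℤ) * k : ℤ) : ℝ) * c / r) = 1 := fun c _ => by
      rw [← E_int (k * c)]
      congr 1
      push_cast; field_simp
    rw [sum_congr rfl this]; simp
  · have h1 : E (a / r) ≠ 1 := fun h1 => by
      obtain ⟨k, hk⟩ := E_eq_one h1
      refine h ⟨k, ?_⟩
      have : (a : ℝ) = r * k := by rw [← hk]; field_simp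
      exact_mod_cast this
    have h2 : ∀ c ∈ range r, E (a * c / r) = E (a / r) ^ c := fun c _ => by
      rw [← E_nat_mul]; congr 1; ring
    rw [sum_congr rfl h2, geom_sum_eq h1, ← E_nat_mul,
      show (r : ℝ) * (a / r) = a by field_simp, E_int]
    simp

theorem sum_mu (n : ℕ) : ∑ d ∈ n.divisors, (μ d : ℂ) = if n = 1 then 1 else 0 := by
  have h := congrArg (fun f : ArithmeticFunction ℂ => f n)
    (ArithmeticFunction.coe_moebius_mul_coe_zeta (R := ℂ))
  simp only [ArithmeticFunction.coe_mul_zeta_apply, ArithmeticFunction.one_apply,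
    ArithmeticFunction.intCoe_apply] at h
  exact h

/-- the formula of Kluyver for Ramanujan sums -/
theorem ram_formula (a : ℤ) {q : ℕ} (hq : 1 ≤ q) :
    ∑ b ∈ (range q).filter (fun b => Nat.Coprime b q), E (a * b / q) =
      ∑ d ∈ q.divisors, (μ d : ℂ) * if ((q / d : ℕ) : ℤ) ∣ a then ((q / d : ℕ) : ℂ) else 0 := by
  have h1 : ∀ b ∈ range q, (if Nat.Coprime b q then E (a * b / q) else 0) =
      ∑ d ∈ q.divisors, if d ∣ b then (μ d : ℂ) * E (a * b / q) else 0 := fun b _ => by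
    rw [← sum_filter, ← sum_mul]
    have : q.divisors.filter (fun d => d ∣ b) = (Nat.gcd b q).divisors := by
      ext d
      simp only [mem_filter, Nat.mem_divisors, Nat.dvd_gcd_iff, ne_eq, Nat.gcd_eq_zero_iff]
      constructor
      · exact fun h => ⟨⟨h.2, h.1.1⟩, fun h' => h.1.2 h'.2⟩
      · exact fun h => ⟨⟨h.1.2, by omega⟩, h.1.1⟩
    rw [this, sum_mu]
    by_cases h : Nat.Coprime b q
    · rw [if_pos h, if_pos h, one_mul]
    · rw [if_neg h, if_neg h, zero_mul]
  rw [sum_filter, sum_congr rfl h1, sum_comm]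
  refine sum_congr rfl fun d hd => ?_
  obtain ⟨r, rfl⟩ := Nat.dvd_of_mem_divisors hd
  have hd0 : 0 < d := Nat.pos_of_mul_pos_right hq |> fun h => by
    rcases Nat.eq_zero_or_pos d with rfl | h'
    · simp at hq
    · exact h'
  have hr : 1 ≤ r := by
    rcases Nat.eq_zero_or_pos r with rfl | h'
    · simp at hq
    · exact h'
  rw [Nat.mul_div_cancel_left r hd0, ← geom_E a hr, ← sum_filter, mul_sum]
  symm
  refine sum_bij (fun c _ => d * c) (fun c hc => ?_) (fun c _ c' _ h => ?_) (fun b hb => ?_)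
    fun c _ => ?_
  · exact mem_filter.2 ⟨mem_range.2 (Nat.mul_lt_mul_of_pos_left (mem_range.1 hc) hd0),
      dvd_mul_right _ _⟩
  · exact Nat.eq_of_mul_eq_mul_left hd0 h
  · obtain ⟨h1, c, rfl⟩ := mem_filter.1 hb
    exact ⟨c, mem_range.2 (Nat.lt_of_mul_lt_mul_left (mem_range.1 h1)), rfl⟩
  · congr 2
    have : (d : ℝ) ≠ 0 := by positivity
    have : (r : ℝ) ≠ 0 := by positivity
    push_cast; field_simp

theorem ram_coprime {a : ℤ} {q : ℕ} (hq : 1 ≤ q) (ha : a.natAbs.Coprime q) :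
    ∑ b ∈ (range q).filter (fun b => Nat.Coprime b q), E (a * b / q) = (μ q : ℂ) := by
  rw [ram_formula a hq, sum_eq_single q]
  · rw [Nat.div_self hq]; simp
  · intro d hd hne
    rw [if_neg, mul_zero]
    intro h
    have h1 : q / d ∣ a.natAbs := Int.natCast_dvd.1 h
    have h2 : q / d ∣ q := Nat.div_dvd_of_dvd (Nat.dvd_of_mem_divisors hd)
    have h3 : q / d = 1 := Nat.eq_one_of_dvd_coprimes ha h1 h2
    have h4 := Nat.mul_div_cancel' (Nat.dvd_of_mem_divisors hd)
    rw [h3, mul_one] at h4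
    exact hne h4
  · intro h
    exact absurd (Nat.mem_divisors_self q (by omega)) h

theorem sum_not_coprime {q : ℕ} (hq : 1 ≤ q) (y : ℕ) :
    ∑ n ∈ (Icc 1 y).filter (fun n => ¬ n.Coprime q), Λ n ≤ q * Real.log y := by
  have hl : 0 ≤ Real.log y := Real.log_natCast_nonneg y
  have hΛ : ∀ n : ℕ, 0 ≤ Λ n := fun _ => ArithmeticFunction.vonMangoldt_nonneg
  calc ∑ n ∈ (Icc 1 y).filter (fun n => ¬ n.Coprime q), Λ n
      ≤ ∑ n ∈ (Icc 1 y).filter (fun n => ¬ n.Coprime q), ∑ p ∈ q.primeFactors,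
          if n ∈ (p ^ Nat.log p y).divisors then Λ n else 0 := by
        refine sum_le_sum fun n hn => ?_
        have hnn : ∀ p ∈ q.primeFactors,
            0 ≤ if n ∈ (p ^ Nat.log p y).divisors then Λ n else 0 := fun p _ => by
          split_ifs
          · exact hΛ n
          · exact le_rfl
        by_cases h0 : Λ n = 0
        · rw [h0] at hnn ⊢
          exact sum_nonneg hnn
        obtain ⟨h1, h2⟩ := mem_filter.1 hn
        obtain ⟨p, k, hp, hk, rfl⟩ := (isPrimePow_nat_iff n).1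
          (ArithmeticFunction.vonMangoldt_ne_zero_iff.1 h0)
        have hpq : p ∣ q := by
          by_contra h3
          exact h2 (Nat.Coprime.pow_left k ((Nat.Prime.coprime_iff_not_dvd hp).2 h3))
        refine le_trans ?_ (single_le_sum hnn (Nat.mem_primeFactors.2 ⟨hp, hpq, by omega⟩))
        rw [if_pos]
        exact Nat.mem_divisors.2 ⟨pow_dvd_pow p
          (Nat.le_log_of_pow_le hp.one_lt (mem_Icc.1 h1).2), pow_ne_zero _ hp.ne_zero⟩
    _ ≤ ∑ p ∈ q.primeFactors, ∑ n ∈ (p ^ Nat.log p y).divisors, Λ n := by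
        rw [sum_comm]
        refine sum_le_sum fun p _ => ?_
        rw [← sum_filter]
        exact sum_le_sum_of_subset_of_nonneg (fun n hn => (mem_filter.1 hn).2)
          fun n _ _ => hΛ n
    _ ≤ ∑ _p ∈ q.primeFactors, Real.log y := by
        refine sum_le_sum fun p hp => ?_
        rw [ArithmeticFunction.vonMangoldt_sum]
        rcases Nat.eq_zero_or_pos y with rfl | hy
        · simp
        · have hp0 := (Nat.prime_of_mem_primeFactors hp).pos
          exact Real.log_le_log (by positivity)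
            (by exact_mod_cast Nat.pow_log_le_self p hy.ne')
    _ ≤ q * Real.log y := by
        rw [sum_const, nsmul_eq_mul]
        refine mul_le_mul_of_nonneg_right ?_ hl
        have : q.primeFactors.card ≤ q.divisors.card :=
          card_le_card fun p hp => Nat.mem_divisors.2
            ⟨Nat.dvd_of_mem_primeFactors hp, by omega⟩
        exact_mod_cast this.trans (Nat.card_divisors_le_self q)

/-- the coefficients of an additive character on the units -/
def gam {q : ℕ} (a : ℤ) (χ : DirichletCharacter ℂ q) : ℂ :=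
  (∑ b ∈ (range q).filter (fun b => Nat.Coprime b q), χ (b : ZMod q)⁻¹ * E (a * b / q)) /
    (q.totient : ℂ)

theorem card_cop (q : ℕ) : ((range q).filter (fun b => Nat.Coprime b q)).card = q.totient := by
  rw [Nat.totient_eq_card_coprime]
  congr 1
  exact filter_congr fun b _ => Nat.coprime_comm

theorem norm_gam_le {q : ℕ} (hq : 1 ≤ q) (a : ℤ) (χ : DirichletCharacter ℂ q) :
    ‖gam a χ‖ ≤ 1 := by
  have h0 : (0 : ℝ) < q.totient := by exact_mod_cast Nat.totient_pos.2 hq
  rw [gam, norm_div, Complex.norm_natCast, div_le_one h0, ← card_cop]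
  refine (norm_sum_le _ _).trans ?_
  rw [card_eq_sum_ones]
  push_cast
  refine sum_le_sum fun b _ => ?_
  rw [norm_mul, Six.norm_E, mul_one]
  exact χ.norm_le_one _

theorem gam_one {q : ℕ} (hq : 1 ≤ q) {a : ℤ} (ha : a.natAbs.Coprime q) :
    gam a (1 : DirichletCharacter ℂ q) = rho q := by
  rw [gam, rho]
  push_cast
  rw [← ram_coprime hq ha]
  congr 1
  refine sum_congr rfl fun b hb => ?_
  have hu : IsUnit (b : ZMod q) := (ZMod.isUnit_iff_coprime b q).2 (mem_filter.1 hb).2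
  have hu' : IsUnit (b : ZMod q)⁻¹ :=
    IsUnit.of_mul_eq_one _ (ZMod.inv_mul_of_unit _ hu)
  rw [MulChar.one_apply hu', one_mul]

theorem sum_gam {q : ℕ} (hq : 1 ≤ q) (a : ℤ) {n : ℕ} (hn : n.Coprime q) :
    ∑ χ : DirichletCharacter ℂ q, gam a χ * χ n = E (a * n / q) := by
  have : NeZero q := ⟨by omega⟩
  have h0 : (q.totient : ℂ) ≠ 0 := by exact_mod_cast (Nat.totient_pos.2 hq).ne'
  have h1 : ∀ χ : DirichletCharacter ℂ q, gam a χ * χ n =
      ∑ b ∈ (range q).filter (fun b => Nat.Coprime b q),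
        χ (b : ZMod q)⁻¹ * χ n * (E (a * b / q) / (q.totient : ℂ)) := fun χ => by
    rw [gam, sum_div, sum_mul]
    exact sum_congr rfl fun b _ => by ring
  rw [sum_congr rfl fun χ _ => h1 χ, sum_comm, sum_eq_single (n % q)]
  · rw [← sum_mul, DirichletCharacter.sum_char_inv_mul_char_eq ℂ
      (by rw [ZMod.natCast_mod]; exact (ZMod.isUnit_iff_coprime n q).2 hn),
      if_pos (ZMod.natCast_mod n q), mul_div_cancel₀ _ h0]
    have hq0 : (q : ℝ) ≠ 0 := by positivity
    have h2 : (a * n / q : ℝ) = a * (n % q : ℕ) / q + ((a * (n / q : ℕ) : ℤ) : ℝ) := by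
      have h3 : (n : ℝ) = (n % q : ℕ) + q * (n / q : ℕ) := by
        exact_mod_cast (Nat.mod_add_div n q).symm
      rw [Int.cast_mul, Int.cast_natCast]
      conv_lhs => rw [h3]
      field_simp
    rw [h2, Six.E_add, E_int, mul_one]
  · intro b hb hne
    obtain ⟨h2, h3⟩ := mem_filter.1 hb
    rw [← sum_mul, DirichletCharacter.sum_char_inv_mul_char_eq ℂ
      ((ZMod.isUnit_iff_coprime b q).2 h3), if_neg, zero_mul]
    intro h4
    rw [ZMod.natCast_eq_natCast_iff', Nat.mod_eq_of_lt (mem_range.1 h2)] at h4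
    exact hne h4
  · intro h
    refine absurd (mem_filter.2 ⟨mem_range.2 (Nat.mod_lt _ hq), ?_⟩) h
    exact (ZMod.coprime_mod_iff_coprime n q).2 hn

/-- summation by parts -/
theorem abel (a w : ℕ → ℂ) (M : ℕ) :
    ∑ n ∈ Icc 1 M, a n * w n =
      ∑ n ∈ Icc 1 M, (∑ k ∈ Icc 1 n, a k) * (w n - w (n + 1)) +
        (∑ k ∈ Icc 1 M, a k) * w (M + 1) := by
  induction M with
  | zero => simp
  | succ M ih =>
    rw [sum_Icc_succ_top (by omega), ih, sum_Icc_succ_top (a := 1) (b := M) (by omega),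
      sum_Icc_succ_top (a := 1) (b := M) (by omega)]
    ring

end tools2

theorem chr : CharStmt := fun q a hq ha => by
  have : NeZero q := ⟨by omega⟩
  refine ⟨?_, tools2.sum_not_coprime hq, tools2.gam a, tools2.norm_gam_le hq a, fun n => ?_⟩
  · rw [← Nat.card_eq_fintype_card,
      DirichletCharacter.card_eq_totient_of_hasEnoughRootsOfUnity]
    exact Nat.totient_le q
  · have h1 : ∑ χ : DirichletCharacter ℂ q, tools2.gam a χ * lc χ n =
        Λ n * ∑ χ : DirichletCharacter ℂ q, tools2.gam a χ * χ n - rho q := by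
      rw [← tools2.gam_one hq ha, mul_sum]
      simp only [lc, mul_sub, sum_sub_distrib, mul_ite, mul_one, mul_zero, sum_ite_eq',
        mem_univ, if_true]
      congr 1
      exact sum_congr rfl fun χ _ => by ring
    rw [h1]
    split_ifs with h
    · rw [tools2.sum_gam hq a h, add_zero]
    · have h2 : ∀ χ : DirichletCharacter ℂ q, χ n = 0 := fun χ =>
        χ.map_nonunit fun hu => h ((ZMod.isUnit_iff_coprime n q).1 hu)
      simp only [h2, mul_zero, sum_const_zero]
      ring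

theorem pws_of (h : PWStmt) : PWSStmt := fun A B => by
  obtain ⟨C, y₀, hC⟩ := h A (2 * B)
  obtain ⟨V1, V2, D, hD, -, -, hV⟩ := bump_w1.derivs
  have hlip : ∀ x y : ℝ, |w1 x - w1 y| ≤ D * |x - y| := fun x y => by
    have := convex_univ.norm_image_sub_le_of_norm_hasDerivWithin_le (f := w1) (f' := V1) (C := D)
      (fun z _ => (hV z).1.hasDerivWithinAt) (fun z _ => (hV z).2.2.2.1) (Set.mem_univ y)
      (Set.mem_univ x)
    simpa using this
  obtain ⟨X₀, hX₀⟩ := eventually_atTop.1 ((ev_log 4).and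
    ((eventually_ge_atTop (4 * y₀)).and (eventually_ge_atTop 9)))
  refine ⟨12 * (4 * D) * (11 * 2 ^ A * |C|), X₀, fun X t q χ hX hq hqB ht => ?_⟩
  obtain ⟨hL, hy, h9⟩ := hX₀ X hX
  have hX0 : 0 < X := by linarith
  set L := Real.log X with hLdef
  have hL0 : 0 < L := by linarith
  set M := ⌊3 * 4 * X⌋₊ with hM
  have e1 : DP (wide X 4) (fun n => lc χ n * (wt X 4 n : ℝ)) t =
      ∑ n ∈ Icc 1 M, (lc χ n * ei (t * Real.log n)) * (wt X 4 n : ℝ) :=
    sum_congr rfl fun n _ => by ring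
  have hz : wt X 4 (M + 1) = 0 := by
    by_contra h0
    have h1 := (range_of_w1 hX0 (by positivity) h0).2
    have h2 : 3 * 4 * X < ((M + 1 : ℕ) : ℝ) := by push_cast; exact Nat.lt_floor_add_one _
    linarith
  rw [e1, tools2.abel _ (fun n => ((wt X 4 n : ℝ) : ℂ)), hz]
  simp only [Complex.ofReal_zero, mul_zero, add_zero]
  have key : ∀ n ∈ Icc 1 M, ‖(∑ k ∈ Icc 1 n, lc χ k * ei (t * Real.log k)) *
      (((wt X 4 n : ℝ) : ℂ) - (wt X 4 (n + 1) : ℝ))‖ ≤
        11 * 2 ^ A * |C| * X / L ^ A * (4 * D / X) := by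
    intro n hn
    have hn1 : (1 : ℝ) ≤ n := by exact_mod_cast (mem_Icc.1 hn).1
    by_cases h0 : wt X 4 n = wt X 4 (n + 1)
    · rw [h0, sub_self, mul_zero, norm_zero]; positivity
    have hr : X / 4 ≤ n ∧ (n : ℝ) ≤ 11 * X := by
      by_cases h1 : wt X 4 n = 0
      · have h2 := range_of_w1 hX0 (y := ((n + 1 : ℕ) : ℝ)) (by positivity)
          fun h3 => h0 (h1.trans h3.symm)
        push_cast at h2
        rw [div_lt_iff₀ (by norm_num)] at h2
        constructor <;> linarith [h2.1, h2.2]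
      · have h2 := range_of_w1 hX0 (y := (n : ℝ)) (by positivity) h1
        rw [div_lt_iff₀ (by norm_num)] at h2
        constructor <;> linarith [h2.1, h2.2]
    have hln : L / 2 ≤ Real.log n := by
      have h1 := Real.log_le_log (by positivity) hr.1
      rw [Real.log_div hX0.ne' (by norm_num)] at h1
      linarith [log_four_lt]
    have hq' : (q : ℝ) ≤ Real.log n ^ (2 * B) := by
      refine hqB.trans ?_
      rw [pow_mul]
      exact pow_le_pow_left₀ hL0.le (by nlinarith) B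
    have h1 := hC n t q χ (by linarith [hr.1]) hq hq' (ht.trans hr.1)
    rw [Nat.floor_natCast] at h1
    rw [norm_mul]
    refine mul_le_mul (h1.trans ?_) ?_ (norm_nonneg _) (by positivity)
    · calc C * n / Real.log n ^ A ≤ |C| * (11 * X) / (L / 2) ^ A := by
            gcongr
            · exact le_abs_self C
            · exact hr.2
        _ = 11 * 2 ^ A * |C| * X / L ^ A := by rw [div_pow]; field_simp
    · rw [← Complex.ofReal_sub, Complex.norm_real, Real.norm_eq_abs, wt_eq, wt_eq]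
      refine (hlip _ _).trans ?_
      have h2 : Real.log ((n + 1 : ℕ) : ℝ) - Real.log n ≤ 1 / n := by
        rw [← Real.log_div (by positivity) (by positivity)]
        refine (Real.log_le_sub_one_of_pos (by positivity)).trans (le_of_eq ?_)
        push_cast; field_simp; ring
      have h3 : Real.log n ≤ Real.log ((n + 1 : ℕ) : ℝ) :=
        Real.log_le_log (by positivity) (by push_cast; linarith)
      have h4 : 1 / (n : ℝ) ≤ 4 / X := by
        rw [div_le_div_iff₀ (by positivity) hX0]; linarith [hr.1]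
      rw [mul_comm 4 D, mul_div_assoc]
      refine mul_le_mul_of_nonneg_left ?_ (by linarith)
      rw [abs_le]; constructor <;> linarith [div_pos (show (0 : ℝ) < 4 by norm_num) hX0]
  refine (norm_sum_le _ _).trans ((sum_le_card_nsmul _ _ _ key).trans ?_)
  rw [nsmul_eq_mul, Nat.card_Icc, Nat.add_sub_cancel]
  have hM' : (M : ℝ) ≤ 12 * X := (Nat.floor_le (by positivity)).trans (by linarith)
  calc (M : ℝ) * (11 * 2 ^ A * |C| * X / L ^ A * (4 * D / X))
      ≤ 12 * X * (11 * 2 ^ A * |C| * X / L ^ A * (4 * D / X)) := by gcongr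
    _ = 12 * (4 * D) * (11 * 2 ^ A * |C|) * X / L ^ A := by field_simp

theorem swa_of (h : PWStmt) (hc : CharStmt) : SWAStmt := fun A B => by
  obtain ⟨C, y₀, hC⟩ := h (A + B) B
  obtain ⟨X₀, hX₀⟩ := eventually_atTop.1 ((ev_log 1).and ((eventually_ge_atTop y₀).and
    ((eventually_ge_atTop 1).and (ev_log_pow one_pos (A + B + 1) 2))))
  refine ⟨3 * |C| + 1, X₀, fun X X' r b hX h1 h2 hr hrB hb => ?_⟩
  obtain ⟨hL, hy, hX1, hP⟩ := hX₀ X hX
  rw [Real.rpow_one] at hP
  obtain ⟨hcard, hnc, γ, hγ, hid⟩ := hc r b hr hb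
  set L := Real.log X with hLdef
  have hL0 : 0 < L := by linarith
  have h1' : (X : ℝ) ≤ X' := by exact_mod_cast h1
  have h2' : (X' : ℝ) ≤ 2 * X := by exact_mod_cast h2
  have hLL : L ≤ Real.log X' := Real.log_le_log (by linarith) h1'
  have hLL' : Real.log X' ≤ 2 * L := by
    have := Real.log_le_log (by linarith) h2'
    rw [Real.log_mul (by norm_num) (by linarith)] at this
    linarith [Real.log_two_lt_d9]
  have e1 : ∑ n ∈ Ioc X X', (Λ n : ℂ) * E (b * n / r) - rho r * ((X' : ℂ) - X) =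
      ∑ χ : DirichletCharacter ℂ r, γ χ * ∑ n ∈ Ioc X X', lc χ n +
        ∑ n ∈ Ioc X X', if n.Coprime r then 0 else (Λ n : ℂ) * E (b * n / r) := by
    have : (rho r : ℂ) * ((X' : ℂ) - X) = ∑ _n ∈ Ioc X X', (rho r : ℂ) := by
      rw [sum_const, Nat.card_Ioc, nsmul_eq_mul, Nat.cast_sub h1, mul_comm]
    rw [this, ← sum_sub_distrib, sum_congr rfl fun n _ => hid n, sum_add_distrib, sum_comm]
    simp only [mul_sum]
  have e2 : ∀ χ : DirichletCharacter ℂ r, ‖γ χ * ∑ n ∈ Ioc X X', lc χ n‖ ≤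
      3 * |C| * X / L ^ (A + B) := fun χ => by
    have e3 : ∀ y : ℕ, DP (Icc 1 y) (lc χ) 0 = ∑ n ∈ Ioc 0 y, lc χ n := fun y => by
      simp [DP, ← Icc_add_one_left_eq_Ioc]
    have e4 : ∑ n ∈ Ioc X X', lc χ n = DP (Icc 1 X') (lc χ) 0 - DP (Icc 1 X) (lc χ) 0 := by
      rw [e3, e3, ← sum_Ioc_consecutive _ (Nat.zero_le X) h1]; ring
    have b1 := hC X 0 r χ hy hr hrB (by simp)
    have b2 := hC X' 0 r χ (hy.trans h1') hr (hrB.trans (pow_le_pow_left₀ hL0.le hLL B)) (by simp)
    rw [Nat.floor_natCast] at b1 b2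
    have b3 : C * X / L ^ (A + B) ≤ |C| * X / L ^ (A + B) := by
      gcongr; exact le_abs_self C
    have b4 : C * X' / Real.log X' ^ (A + B) ≤ |C| * (2 * X) / L ^ (A + B) := by
      gcongr; exact le_abs_self C
    rw [norm_mul, e4]
    refine (mul_le_of_le_one_left (norm_nonneg _) (hγ χ)).trans ((norm_sub_le _ _).trans ?_)
    have : 3 * |C| * X / L ^ (A + B) = |C| * (2 * X) / L ^ (A + B) + |C| * X / L ^ (A + B) := by
      ring
    linarith
  have e5 : ‖∑ n ∈ Ioc X X', if n.Coprime r then 0 else (Λ n : ℂ) * E (b * n / r)‖ ≤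
      X / L ^ A := by
    refine (norm_sum_le _ _).trans ?_
    calc ∑ n ∈ Ioc X X', ‖if n.Coprime r then 0 else (Λ n : ℂ) * E (b * n / r)‖
        = ∑ n ∈ (Ioc X X').filter (fun n => ¬ n.Coprime r), Λ n := by
          rw [sum_filter]
          refine sum_congr rfl fun n _ => ?_
          by_cases h : n.Coprime r
          · simp [h]
          · rw [if_neg h, if_pos h, norm_mul, Six.norm_E, mul_one, Complex.norm_real,
              Real.norm_of_nonneg ArithmeticFunction.vonMangoldt_nonneg]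
      _ ≤ ∑ n ∈ (Icc 1 X').filter (fun n => ¬ n.Coprime r), Λ n := by
          refine sum_le_sum_of_subset_of_nonneg (filter_subset_filter _ fun n hn => ?_)
            fun _ _ _ => ArithmeticFunction.vonMangoldt_nonneg
          have := mem_Ioc.1 hn
          exact mem_Icc.2 ⟨by omega, this.2⟩
      _ ≤ r * Real.log X' := hnc X'
      _ ≤ L ^ B * (2 * L) := by gcongr
      _ ≤ X / L ^ A := by
          rw [le_div_iff₀ (by positivity)]
          refine le_trans (le_of_eq ?_) hP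
          ring
  rw [e1]
  refine (norm_add_le _ _).trans ?_
  have e6 : ‖∑ χ : DirichletCharacter ℂ r, γ χ * ∑ n ∈ Ioc X X', lc χ n‖ ≤
      3 * |C| * X / L ^ A := by
    refine (norm_sum_le _ _).trans ((sum_le_card_nsmul _ _ _ fun χ _ => e2 χ).trans ?_)
    rw [nsmul_eq_mul, card_univ]
    have : (Fintype.card (DirichletCharacter ℂ r) : ℝ) ≤ L ^ B :=
      le_trans (by exact_mod_cast hcard) hrB
    calc (Fintype.card (DirichletCharacter ℂ r) : ℝ) * (3 * |C| * X / L ^ (A + B))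
        ≤ L ^ B * (3 * |C| * X / L ^ (A + B)) := by gcongr
      _ = 3 * |C| * X / L ^ A := by rw [pow_add]; field_simp
  have : (3 * |C| + 1) * X / L ^ A = 3 * |C| * X / L ^ A + X / L ^ A := by ring
  linarith

theorem dv : DivStmt := fun m => by
  obtain ⟨K, hK⟩ := tools2.moment m
  exact ⟨K, fun x => by simpa [← Icc_add_one_left_eq_Ioc] using hK x⟩

end Pool.Agent.MP_678834_nt.HL9

end
end MrgPart0

-- ======== part 1: formerly Pool.Agent.MP_678834_nt.HL9.TI1
section MrgPart1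

/-! Project HL9: reflection of a long smooth factor. -/

set_option autoImplicit false

noncomputable section

namespace Pool.Agent.MP_678834_nt.HL9

open MeasureTheory Finset Filter
open Pool.Agent.MP_db1c88_nt.z94 (ei bmp blk DP wide wt lev)
open Pool.Agent.MP_3d0d30_nt.Six (E ck)
open Pool.Agent.MP_db1c88_nt
open Pool.Agent.MP_3d0d30_nt
open scoped ComplexConjugate

namespace TI1

/-- the Fourier coefficient in the logarithmic variable -/
def KK (V : ℝ → ℝ) (l t : ℝ) : ℂ := ∫ y in (0 : ℝ)..Real.log 2,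
  ((Real.exp y * V y : ℝ) : ℂ) * E (t / (2 * Real.pi) * y + l * Real.exp y)

/-- the oscillatory integral of one dyadic block -/
def JI (σ a b τ : ℝ) : ℂ := ∫ z in a..b,
  ((Real.exp z : ℝ) : ℂ) * E (τ / (2 * Real.pi) * z + σ * Real.exp z)

theorem log2_pos : 0 < Real.log 2 := Real.log_pos one_lt_two

theorem amp {V : ℝ → ℝ} (h : Bump V) (hs : ∀ x, x ∉ Set.Ioo 0 (Real.log 2) → V x = 0) :
    ∃ A : ℝ, 1 ≤ A ∧ (∀ y, |Real.exp y * V y| ≤ A) ∧
      Six.C20 (fun y => ((Real.exp y * V y : ℝ) : ℂ)) 0 (Real.log 2) 1 A := by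
  obtain ⟨W1, W2, A, hA, -, b2, hd⟩ := (h.mul Real.contDiff_exp).derivs
  have z0 : W1 0 = 0 := by
    refine (uniqueDiffWithinAt_Iic (0 : ℝ)).eq_deriv _ (hd 0).1.hasDerivWithinAt
      ((hasDerivWithinAt_const _ _ (0 : ℝ)).congr (fun y hy => ?_) ?_)
    · rw [hs y fun h1 => absurd h1.1 (not_lt.2 hy), mul_zero]
    · rw [hs 0 fun h1 => lt_irrefl _ h1.1, mul_zero]
  have z1 : W1 (Real.log 2) = 0 := by
    refine (uniqueDiffWithinAt_Ici (Real.log 2)).eq_deriv _ (hd _).1.hasDerivWithinAt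
      ((hasDerivWithinAt_const _ _ (0 : ℝ)).congr (fun y hy => ?_) ?_)
    · rw [hs y fun h1 => absurd h1.2 (not_lt.2 hy), mul_zero]
    · rw [hs _ fun h1 => lt_irrefl _ h1.2, mul_zero]
  refine ⟨A, hA, fun y => (hd y).2.2.1, fun y => (W1 y : ℂ), fun y => (W2 y : ℂ),
    ⟨fun y _ => (hd y).1.ofReal_comp, fun y _ => (hd y).2.1.ofReal_comp,
      (Complex.continuous_ofReal.comp b2.1.continuous).continuousOn,
      fun y _ => by rw [Complex.norm_real]; exact (hd y).2.2.1,
      fun y _ => by simpa using (hd y).2.2.2.1, fun y _ => by simpa using (hd y).2.2.2.2⟩,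
    ?_, ?_, by simp [z0], by simp [z1]⟩
  · simp [hs 0 fun h1 => lt_irrefl _ h1.1]
  · simp [hs _ fun h1 => lt_irrefl _ h1.2]

theorem dphi (s l y : ℝ) : HasDerivAt (fun y => s * y + l * Real.exp y) (s + l * Real.exp y) y := by
  simpa using ((hasDerivAt_id y).const_mul s).fun_add ((Real.hasDerivAt_exp y).const_mul l)

theorem dphi1 (s l y : ℝ) : HasDerivAt (fun y => s + l * Real.exp y) (l * Real.exp y) y :=
  ((Real.hasDerivAt_exp y).const_mul l).const_add s

theorem KK_bounds {V : ℝ → ℝ} (h : Bump V) (hs : ∀ x, x ∉ Set.Ioo 0 (Real.log 2) → V x = 0) :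
    ∃ C : ℝ, 0 < C ∧ (∀ t, ‖KK V 0 t‖ ≤ C * ck t) ∧
      ∀ l t, l ≠ 0 → |t| ≤ |l| → ‖KK V l t‖ ≤ C / l ^ 2 := by
  obtain ⟨A, hA, hb, hC⟩ := amp h hs
  obtain ⟨C, hC0, hN⟩ := Six.nonstat
  have hl := log2_pos
  have hl1 : Real.log 2 ≤ 1 := by linarith [Real.log_two_lt_d9]
  have p3 := Real.pi_gt_three
  have p4 := Real.pi_lt_four
  refine ⟨128 * C * A + 2 * A, by positivity, fun t => ?_, fun l t h0 ht => ?_⟩
  · have hk := Six.ck_pos t
    rcases le_total |t| 1 with h1 | h1
    · have h2 := Six.half_le_ck h1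
      refine (intervalIntegral.norm_integral_le_of_norm_le_const (C := A) fun y _ => ?_).trans ?_
      · rw [norm_mul, Six.norm_E, mul_one, Complex.norm_real]
        exact hb y
      · rw [sub_zero, abs_of_pos hl]
        have : 0 ≤ 128 * C * A * ck t := by positivity
        nlinarith
    · have ht : 0 < |t| := by linarith
      have h2 := hN _ (fun y => t / (2 * Real.pi) * y + 0 * Real.exp y)
        (fun y => t / (2 * Real.pi) + 0 * Real.exp y) (fun y => 0 * Real.exp y)
        (fun y => 0 * Real.exp y) 0 (Real.log 2) 1 A (|t| / 8) hl.le one_pos (by positivity) hC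
        (fun y _ => ⟨dphi _ _ _, dphi1 _ _ _, (Real.hasDerivAt_exp y).const_mul _, by
          rw [zero_mul, add_zero, abs_div, abs_of_pos (show 0 < 2 * Real.pi by positivity)]
          gcongr; linarith, by simp; positivity, by simp; positivity⟩) (by fun_prop)
      refine h2.trans ?_
      have h3 : 1 / |t| ^ 2 ≤ 2 * ck t := by
        unfold ck
        rw [sq_abs, mul_one_div, div_le_div_iff₀ (by rw [← sq_abs]; positivity) (by positivity)]
        nlinarith [sq_abs t]
      calc _ = 64 * C * A * Real.log 2 * (1 / |t| ^ 2) := by field_simp; ring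
        _ ≤ 64 * C * A * 1 * (2 * ck t) := by gcongr
        _ ≤ _ := by nlinarith
  · have hl0 : 0 < |l| := abs_pos.2 h0
    have h2 := hN _ (fun y => t / (2 * Real.pi) * y + l * Real.exp y)
      (fun y => t / (2 * Real.pi) + l * Real.exp y) (fun y => l * Real.exp y)
      (fun y => l * Real.exp y) 0 (Real.log 2) (1 / 4) A (|l| / 2) hl.le (by norm_num)
      (by positivity) (hC.mono (by norm_num) (by norm_num) (by linarith) le_rfl)
      (fun y hy => by
        have e1 : 1 ≤ Real.exp y := Real.one_le_exp hy.1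
        have e2 : Real.exp y ≤ 2 := by
          rw [← Real.exp_log two_pos]; exact Real.exp_le_exp.2 hy.2
        have e3 : |l * Real.exp y| = |l| * Real.exp y := by
          rw [abs_mul, abs_of_pos (Real.exp_pos y)]
        have e4 : |t / (2 * Real.pi)| ≤ |l| / 2 := by
          rw [abs_div, abs_of_pos (show 0 < 2 * Real.pi by positivity)]
          gcongr; linarith
        refine ⟨dphi _ _ _, dphi1 _ _ _, (Real.hasDerivAt_exp y).const_mul _, ?_, ?_, ?_⟩
        · have := abs_sub_abs_le_abs_add (l * Real.exp y) (t / (2 * Real.pi))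
          rw [add_comm, e3] at this
          nlinarith
        · rw [e3]; nlinarith
        · rw [e3, show |l| / 2 / (1 / 4) ^ 2 = 8 * |l| by ring]; nlinarith) (by fun_prop)
    refine h2.trans ?_
    calc _ = 64 * C * A * Real.log 2 / |l| ^ 2 := by field_simp; ring
      _ ≤ _ := by
        rw [sq_abs]
        gcongr
        have : 0 < C * A := by positivity
        nlinarith

theorem JI_bound : ∃ C : ℝ, 0 < C ∧ ∀ σ K τ : ℝ, σ ≠ 0 → 0 < K →
    ‖JI σ (Real.log K) (Real.log K + 2 * Real.log 2) τ‖ ≤ C * K / Real.sqrt (|σ| * K) := by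
  obtain ⟨C, hC0, hS⟩ := Six.secder
  have hl := log2_pos
  have hl1 : Real.log 2 ≤ 1 := by linarith [Real.log_two_lt_d9]
  refine ⟨12 * C, by positivity, fun σ K τ h0 hK => ?_⟩
  have hσ := abs_pos.2 h0
  have e1 : ∀ y ∈ Set.Icc (Real.log K) (Real.log K + 2 * Real.log 2),
      K ≤ Real.exp y ∧ Real.exp y ≤ 4 * K := fun y hy => by
    constructor
    · conv_lhs => rw [← Real.exp_log hK]
      exact Real.exp_le_exp.2 hy.1
    · refine (Real.exp_le_exp.2 hy.2).trans_eq ?_
      rw [Real.exp_add, two_mul, Real.exp_add, Real.exp_log hK, Real.exp_log two_pos]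
      ring
  have h2 := hS (fun z => ((Real.exp z : ℝ) : ℂ)) (fun z => ((Real.exp z : ℝ) : ℂ))
    (fun y => τ / (2 * Real.pi) * y + σ * Real.exp y)
    (fun y => τ / (2 * Real.pi) + σ * Real.exp y) (fun y => σ * Real.exp y) (Real.log K)
    (Real.log K + 2 * Real.log 2) (4 * K) (4 * K) (|σ| * K) (by linarith) (by positivity)
    (fun y hy => ⟨(Real.hasDerivAt_exp y).ofReal_comp, by
      rw [Complex.norm_real, Real.norm_of_nonneg (Real.exp_pos y).le]; exact (e1 y hy).2, by
      rw [Complex.norm_real, Real.norm_of_nonneg (Real.exp_pos y).le]; exact (e1 y hy).2⟩)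
    (by fun_prop) (fun y _ => ⟨dphi _ _ _, dphi1 _ _ _⟩) (by fun_prop) (by
      rcases lt_or_gt_of_ne h0 with h | h
      · refine Or.inr fun y hy => ?_
        rw [abs_of_neg h]
        nlinarith [(e1 y hy).1]
      · refine Or.inl fun y hy => ?_
        rw [abs_of_pos h]
        nlinarith [(e1 y hy).1])
  refine h2.trans ?_
  rw [← mul_div_assoc]
  refine div_le_div_of_nonneg_right ?_ (Real.sqrt_nonneg _)
  have : 0 < C * K := by positivity
  nlinarith

theorem continuous_JI (σ a b : ℝ) : Continuous (JI σ a b) :=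
  intervalIntegral.continuous_parametric_intervalIntegral_of_continuous' (by fun_prop) a b

theorem KK_eq {V : ℝ → ℝ} (hs : ∀ x, x ∉ Set.Ioo 0 (Real.log 2) → V x = 0) {κ : ℝ → ℂ}
    (hc : Continuous κ) (hi : Integrable κ) (hV : ∀ y : ℝ, (V y : ℂ) = ∫ u : ℝ, κ u * ei (u * y))
    (σ t : ℝ) {a b l : ℝ} (ha : a ≤ l) (hb : l + Real.log 2 ≤ b) :
    KK V (σ * Real.exp l) t =
      ∫ u, κ u * ((Real.exp (-l) : ℝ) * ei (-((t + u) * l)) * JI σ a b (t + u)) := by
  set F : ℝ → ℂ := fun y => ((Real.exp y * V y : ℝ) : ℂ) *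
    E (t / (2 * Real.pi) * y + σ * Real.exp l * Real.exp y) with hF
  have hsupp : ∀ y, F y ≠ 0 → y ∈ Set.Ioo 0 (Real.log 2) := fun y hy => by
    by_contra h
    exact hy (by simp [hF, hs y h])
  have h1 : KK V (σ * Real.exp l) t = ∫ z in a..b, F (z - l) := by
    rw [intervalIntegral.integral_eq_integral_of_support_subset (f := fun z => F (z - l))
      (fun z hz => ⟨by linarith [(hsupp _ hz).1], by linarith [(hsupp _ hz).2]⟩),
      integral_sub_right_eq_self F l]
    exact intervalIntegral.integral_eq_integral_of_support_subset fun y hy =>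
      Set.Ioo_subset_Ioc_self (hsupp y hy)
  have h2 : ∀ z, F (z - l) = ∫ u, κ u * ((Real.exp (-l) : ℝ) * ei (-((t + u) * l)) *
      (((Real.exp z : ℝ) : ℂ) * E ((t + u) / (2 * Real.pi) * z + σ * Real.exp z))) := fun z => by
    simp only [hF]
    rw [Complex.ofReal_mul, hV, mul_comm ((Real.exp (z - l) : ℝ) : ℂ), mul_assoc,
      ← integral_mul_const]
    refine integral_congr_ae (Eventually.of_forall fun u => ?_)
    have e1 : Real.exp l * Real.exp (z - l) = Real.exp z := by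
      rw [← Real.exp_add, add_sub_cancel]
    have e2 : Real.exp (z - l) = Real.exp (-l) * Real.exp z := by
      rw [← Real.exp_add]; congr 1; ring
    have e3 : ei (u * (z - l)) * E (t / (2 * Real.pi) * (z - l) + σ * Real.exp z) =
        ei (-((t + u) * l)) * E ((t + u) / (2 * Real.pi) * z + σ * Real.exp z) := by
      rw [E_eq_ei, E_eq_ei, ← z94.ei_add, ← z94.ei_add]
      congr 1
      have := Real.pi_ne_zero
      field_simp
      ring
    simp only
    rw [mul_assoc σ, e1, e2, Complex.ofReal_mul]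
    linear_combination (κ u * (Real.exp (-l) : ℝ) * (Real.exp z : ℝ)) * e3
  rw [h1]
  simp only [h2]
  rw [intervalIntegral_integral_swap]
  · simp only [intervalIntegral.integral_const_mul, JI]
  · have i1 : Integrable (fun z => Real.exp (-l) * Real.exp z) (volume.restrict (Set.uIoc a b)) :=
      intervalIntegrable_iff.1 (Continuous.intervalIntegrable (by fun_prop) a b)
    refine (i1.mul_prod hi.norm).mono' (Continuous.aestronglyMeasurable (by fun_prop))
      (Eventually.of_forall fun x => le_of_eq ?_)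
    simp only [Function.uncurry, norm_mul, z94.norm_ei, Six.norm_E, Complex.norm_real,
      Real.norm_of_nonneg (Real.exp_pos _).le]
    ring

/-- one dyadic block of frequencies -/
theorem block {V : ℝ → ℝ} (hf : FIStmt) (h : Bump V)
    (hs : ∀ x, x ∉ Set.Ioo 0 (Real.log 2) → V x = 0) : ∃ C : ℝ, 0 < C ∧
    ∀ (σ t : ℝ) (j : ℕ) (g : ℕ → ℂ), σ ≠ 0 →
      ‖∑ k ∈ Ico (2 ^ j) (2 ^ (j + 1)), g k * KK V (σ * k) t‖ ≤
        C / Real.sqrt (|σ| * 2 ^ j) * ∫ u : ℝ, ck u * ‖DP (Ico (2 ^ j) (2 ^ (j + 1)))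
          (fun k => conj (g k) * ((2 ^ Nat.log 2 k / k : ℝ) : ℂ)) (t + u)‖ := by
  obtain ⟨κ, C, hc, hb, hV⟩ := hf V h
  obtain ⟨C1, hC1, hJ⟩ := JI_bound
  have hi : Integrable κ :=
    (Six.integrable_ck.const_mul C).mono' hc.aestronglyMeasurable (Eventually.of_forall hb)
  refine ⟨(|C| + 1) * C1, by positivity, fun σ t j g h0 => ?_⟩
  set K : ℝ := 2 ^ j with hK
  have hK0 : 0 < K := by positivity
  set J := JI σ (Real.log K) (Real.log K + 2 * Real.log 2) with hJdef
  set D := DP (Ico (2 ^ j) (2 ^ (j + 1))) (fun k => conj (g k) * ((2 ^ Nat.log 2 k / k : ℝ) : ℂ))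
    with hD
  have hDc : Continuous D := by rw [hD]; unfold DP; fun_prop
  have hJc : Continuous J := continuous_JI _ _ _
  have hJb := fun τ => hJ σ K τ h0 hK0
  have hmem : ∀ k : ℕ, k ∈ Ico (2 ^ j) (2 ^ (j + 1)) → K ≤ (k : ℝ) ∧ (k : ℝ) ≤ K * 2 ∧
      Nat.log 2 k = j := fun k hk => by
    rw [mem_Ico] at hk
    refine ⟨by rw [hK]; exact_mod_cast hk.1, ?_, Nat.log_eq_of_pow_le_of_lt_pow hk.1 hk.2⟩
    rw [hK, ← pow_succ]
    exact_mod_cast hk.2.le
  have h1 : ∑ k ∈ Ico (2 ^ j) (2 ^ (j + 1)), g k * KK V (σ * k) t =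
      ∫ u, κ u * ((K⁻¹ : ℝ) * conj (D (t + u)) * J (t + u)) := by
    have e1 : ∀ k : ℕ, k ∈ Ico (2 ^ j) (2 ^ (j + 1)) → g k * KK V (σ * k) t = ∫ u, κ u *
        (g k * ((Real.exp (-Real.log k) : ℝ) * ei (-((t + u) * Real.log k)) * J (t + u))) := by
      intro k hk
      obtain ⟨k1, k2, -⟩ := hmem k hk
      have k0 : (0 : ℝ) < k := hK0.trans_le k1
      have k3 := KK_eq hs hc hi hV σ t (a := Real.log K) (b := Real.log K + 2 * Real.log 2)
        (l := Real.log k) (Real.log_le_log hK0 k1) (by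
          have := Real.log_le_log k0 k2
          rw [Real.log_mul hK0.ne' two_ne_zero] at this
          linarith)
      rw [Real.exp_log k0] at k3
      rw [k3, ← integral_const_mul]
      exact integral_congr_ae (Eventually.of_forall fun u => by simp only [hJdef]; ring)
    rw [sum_congr rfl e1, ← integral_finsetSum]
    · refine integral_congr_ae (Eventually.of_forall fun u => ?_)
      simp only [hD, DP, map_sum]
      rw [mul_sum, sum_mul, mul_sum]
      refine sum_congr rfl fun k hk => ?_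
      obtain ⟨k1, -, k3⟩ := hmem k hk
      have k0 : (0 : ℝ) < k := hK0.trans_le k1
      rw [map_mul, map_mul, z94.conj_ei, Complex.conj_conj, Complex.conj_ofReal, k3, ← hK,
        Real.exp_neg, Real.exp_log k0]
      have e : ((k : ℝ)⁻¹ : ℝ) = K⁻¹ * (K / k) := by field_simp
      rw [e, Complex.ofReal_mul]
      ring
    · intro k _
      refine hi.mul_bdd (c := ‖g k‖ * (Real.exp (-Real.log k) * (C1 * K / Real.sqrt (|σ| * K))))
        (Continuous.aestronglyMeasurable (by fun_prop)) (Eventually.of_forall fun u => ?_)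
      rw [norm_mul, norm_mul, norm_mul, z94.norm_ei, mul_one, Complex.norm_real,
        Real.norm_of_nonneg (Real.exp_pos _).le]
      gcongr
      exact hJb _
  rw [h1, ← integral_const_mul]
  refine norm_integral_le_of_norm_le ?_ (Eventually.of_forall fun u => ?_)
  · refine Integrable.const_mul (Six.integrable_ck.mul_bdd
      (c := ∑ k ∈ Ico (2 ^ j) (2 ^ (j + 1)), ‖conj (g k) * ((2 ^ Nat.log 2 k / k : ℝ) : ℂ)‖)
      (Continuous.aestronglyMeasurable (by fun_prop)) (Eventually.of_forall fun u => ?_)) _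
    rw [norm_norm]
    exact norm_GP_le _ _ (fun n : ℕ => (n : ℝ)) _
  · rw [norm_mul, norm_mul, norm_mul, Complex.norm_conj, Complex.norm_real,
      Real.norm_of_nonneg (inv_pos.2 hK0).le]
    have a1 : ‖κ u‖ ≤ (|C| + 1) * ck u := (hb u).trans
      (mul_le_mul_of_nonneg_right (by linarith [le_abs_self C]) (Six.ck_nonneg u))
    have a2 := Six.ck_nonneg u
    calc _ ≤ ((|C| + 1) * ck u) * (K⁻¹ * ‖D (t + u)‖ * (C1 * K / Real.sqrt (|σ| * K))) := by
          gcongr
          exact hJb _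
      _ = _ := by field_simp

/-- the summand -/
def gg (V : ℝ → ℝ) (N t x : ℝ) : ℂ := (V (Real.log x - Real.log N) : ℝ) * ei (t * Real.log x)

theorem gg_zero {V : ℝ → ℝ} (hs : ∀ x, x ∉ Set.Ioo 0 (Real.log 2) → V x = 0) {N : ℝ} (hN : 1 ≤ N)
    (t : ℝ) {x : ℝ} (hx : 0 ≤ x) (h : x ∉ Set.Ioo N (2 * N)) : gg V N t x = 0 := by
  have hN0 : 0 < N := by linarith
  rw [gg, hs, Complex.ofReal_zero, zero_mul]
  rintro ⟨h1, h2⟩
  rcases hx.eq_or_lt with rfl | hx0
  · rw [Real.log_zero] at h1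
    linarith [Real.log_nonneg hN]
  · refine h ⟨(Real.log_lt_log_iff hN0 hx0).1 (by linarith),
      (Real.log_lt_log_iff hx0 (by positivity)).1 ?_⟩
    rw [Real.log_mul two_ne_zero hN0.ne']
    linarith

theorem gg_cont {V : ℝ → ℝ} (h : Bump V) (N t : ℝ) : ContinuousOn (gg V N t) (Set.Ioi 0) := by
  have h1 : ContinuousOn Real.log (Set.Ioi 0) :=
    Real.continuousOn_log.mono fun x hx => ne_of_gt hx
  exact (Complex.continuous_ofReal.comp_continuousOn (h.1.continuous.comp_continuousOn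
    (h1.sub continuousOn_const))).mul
    (z94.continuous_ei.comp_continuousOn (continuousOn_const.mul h1))

theorem subst {V : ℝ → ℝ} (h : Bump V) {N : ℝ} (hN : 0 < N) (t θ : ℝ) :
    ∫ x in N..(2 * N), gg V N t x * E (θ * x) = N * ei (t * Real.log N) * KK V (θ * N) t := by
  have h1 := intervalIntegral.integral_deriv_smul_comp' (f := fun y => N * Real.exp y)
    (f' := fun y => N * Real.exp y) (g := fun x => gg V N t x * E (θ * x)) (a := 0)
    (b := Real.log 2) (fun y _ => (Real.hasDerivAt_exp y).const_mul N) (by fun_prop)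
    (((gg_cont h N t).mul (by fun_prop)).mono (by
      rintro _ ⟨y, -, rfl⟩
      exact mul_pos hN (Real.exp_pos y)))
  simp only [Real.exp_zero, mul_one, Real.exp_log two_pos, mul_comm N 2] at h1
  rw [← h1, KK, ← intervalIntegral.integral_const_mul]
  refine intervalIntegral.integral_congr fun y _ => ?_
  simp only [Function.comp, gg, Real.log_mul hN.ne' (Real.exp_pos y).ne', Real.log_exp,
    add_sub_cancel_left, Complex.real_smul]
  rw [mul_add t, z94.ei_add, Six.E_add, ei_eq_E (t * y), mul_assoc θ,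
    show t * y / (2 * Real.pi) = t / (2 * Real.pi) * y by ring]
  push_cast
  ring

theorem sum_range_mul (F : ℕ → ℂ) (q R : ℕ) :
    ∑ m ∈ range (R * q), F m = ∑ n ∈ range R, ∑ b ∈ range q, F (n * q + b) := by
  induction R with
  | zero => simp
  | succ R ih => rw [Nat.succ_mul, sum_range_add, ih, sum_range_succ]

/-- the finite Fourier transform -/
def fh (q : ℕ) (f : ℕ → ℂ) (k : ℤ) : ℂ :=
  ∑ b ∈ range q, f b * (((1 / q : ℝ) : ℂ) * E (-(1 / q * k * b)))

theorem norm_fh {q : ℕ} (hq : 1 ≤ q) {f : ℕ → ℂ} (hf : ∀ n, ‖f n‖ ≤ 1) (k : ℤ) :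
    ‖fh q f k‖ ≤ 1 := by
  have hq0 : (0 : ℝ) < q := by exact_mod_cast hq
  refine (norm_sum_le _ _).trans ((sum_le_card_nsmul _ _ (1 / q : ℝ) fun b _ => ?_).trans ?_)
  · rw [norm_mul, norm_mul, Six.norm_E, mul_one, Complex.norm_real,
      Real.norm_of_nonneg (by positivity)]
    exact mul_le_of_le_one_left (by positivity) (hf b)
  · rw [card_range, nsmul_eq_mul, mul_one_div_cancel hq0.ne']

theorem pois {V : ℝ → ℝ} (h : Bump V) (hs : ∀ x, x ∉ Set.Ioo 0 (Real.log 2) → V x = 0) {N : ℝ}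
    {q : ℕ} {f : ℕ → ℂ} (hq : 1 ≤ q) (hN : (q : ℝ) ≤ N) (hp : ∀ n, f (n + q) = f n) (t : ℝ)
    (hsum : Summable fun k : ℤ => ‖KK V (1 / q * k * N) t‖) :
    HasSum (fun k : ℤ => fh q f k * (N * ei (t * Real.log N) * KK V (1 / q * k * N) t))
      (DP (blk N 2) (fun n => f n * (V (Real.log n - Real.log N) : ℝ)) t) := by
  have hq1 : (1 : ℝ) ≤ q := by exact_mod_cast hq
  have hN1 : 1 ≤ N := hq1.trans hN
  have hN0 : 0 < N := by linarith
  have hq0 : (0 : ℝ) < q := by linarith
  set R := ⌊2 * N⌋₊ + 1 with hR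
  have hR1 : 2 * N < R := by rw [hR]; push_cast; exact Nat.lt_floor_add_one _
  have hb : ∀ b ∈ range q, HasSum (fun k : ℤ => f b * (((1 / q : ℝ) : ℂ) * E (-(1 / q * k * b))) *
      (N * ei (t * Real.log N) * KK V (1 / q * k * N) t))
      (∑ n ∈ range R, f (n * q + b) * gg V N t (n * q + b : ℕ)) := by
    intro b hb
    have b0 : (0 : ℝ) ≤ b := b.cast_nonneg
    have b1 : (b : ℝ) < q := by exact_mod_cast mem_range.1 hb
    have e1 : ∀ k : ℤ, ∫ y in (N - b)..(2 * N - b), gg V N t (y + b) * E (1 / q * k * y) =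
        E (-(1 / q * k * b)) * (N * ei (t * Real.log N) * KK V (1 / q * k * N) t) := fun k => by
      rw [← subst h hN0, ← intervalIntegral.integral_const_mul]
      have := intervalIntegral.integral_comp_add_right (a := N - b) (b := 2 * N - b)
        (fun x => E (-(1 / q * k * b)) * (gg V N t x * E (1 / q * k * x))) b
      rw [sub_add_cancel, sub_add_cancel] at this
      rw [← this]
      refine intervalIntegral.integral_congr fun y _ => ?_
      rw [mul_left_comm, ← Six.E_add]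
      congr 2
      ring
    have h1 := Six.poisson (fun y => gg V N t (y + b)) (N - b) (2 * N - b) (1 / q) R (by linarith)
      (by linarith) (by positivity) (by
        have : 1 / (q : ℝ) * (2 * N - b) ≤ 1 * (2 * N - b) := by
          gcongr
          · linarith
          · rw [div_le_one hq0]; exact hq1
        linarith)
      ((gg_cont h N t).comp (by fun_prop) fun y hy => by
        have := hy.1
        simp only [Set.mem_Ioi]
        linarith)
      (gg_zero hs hN1 t (by linarith) fun h1 => by linarith [h1.1])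
      (gg_zero hs hN1 t (by linarith) fun h1 => by linarith [h1.2])
      (fun y hy hy' => gg_zero hs hN1 t (by linarith) fun h1 =>
        hy' ⟨by linarith [h1.1], by linarith [h1.2]⟩)
      (by
        simp only [e1]
        refine Summable.of_norm_bounded (hsum.mul_left N) fun k => le_of_eq ?_
        simp [abs_of_pos hN0])
    have h2 := h1.mul_left (f b)
    simp only [e1, mul_sum] at h2
    have hfp : ∀ n, f (n * q + b) = f b := fun n => by
      induction n with
      | zero => simp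
      | succ n ih => rw [Nat.succ_mul, add_right_comm, hp, ih]
    have e2 : ∀ n : ℕ, ((n * q + b : ℕ) : ℝ) = n / (1 / q) + b := fun n => by
      push_cast
      field_simp
    simpa only [hfp, e2, mul_assoc] using h2
  have h3 := hasSum_sum hb
  simp only [← sum_mul] at h3
  rw [sum_comm, ← sum_range_mul (fun m => f m * gg V N t m)] at h3
  suffices e : DP (blk N 2) (fun n => f n * (V (Real.log n - Real.log N) : ℝ)) t =
      ∑ m ∈ range (R * q), f m * gg V N t m by
    rw [e]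
    exact h3
  simp only [DP, mul_assoc]
  refine sum_subset (fun m hm => ?_) fun m _ hm => ?_
  · have := (mem_Icc.1 hm).2
    rw [mem_range]
    calc m < R * 1 := by omega
      _ ≤ R * q := by gcongr
  · have : gg V N t m = 0 := gg_zero hs hN1 t m.cast_nonneg fun h1 =>
      hm (mem_Icc.2 ⟨Nat.ceil_le.2 h1.1.le, Nat.le_floor h1.2.le⟩)
    rw [gg] at this
    rw [this, mul_zero]

theorem dyadic (G : ℕ → ℂ) (J : ℕ) : ∑ n ∈ range (2 ^ J), G n =
    G 0 + ∑ j ∈ range J, ∑ n ∈ Ico (2 ^ j) (2 ^ (j + 1)), G n := by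
  induction J with
  | zero => simp
  | succ J ih =>
    rw [sum_range_succ, ← add_assoc, ← ih, sum_range_add_sum_Ico]
    exact Nat.pow_le_pow_right two_pos (Nat.le_succ J)

end TI1

open TI1 in
theorem ti1_of (hf : FIStmt) : TI1Stmt := by
  intro V h hs
  obtain ⟨C1, hC1, hK0, hK⟩ := KK_bounds h hs
  obtain ⟨C2, hC2, hB⟩ := block hf h hs
  have hz : Summable fun n : ℕ => 1 / ((n + 1 : ℕ) : ℝ) ^ 2 :=
    (summable_nat_add_iff (f := fun n : ℕ => 1 / (n : ℝ) ^ 2) 1).2
      (Real.summable_one_div_nat_pow.2 one_lt_two)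
  set Z := ∑' n : ℕ, 1 / ((n + 1 : ℕ) : ℝ) ^ 2 with hZ
  have hZ0 : 0 ≤ Z := tsum_nonneg fun n => by positivity
  refine ⟨C1 + 2 * C1 * Z + C2, fun N T q f hq hN hT hp hb => ?_⟩
  have hq1 : (1 : ℝ) ≤ q := by exact_mod_cast hq
  have hN0 : 0 < N := by linarith
  have hq0 : (0 : ℝ) < q := by linarith
  have hex : ∃ J : ℕ, T * q < 2 ^ J * N := by
    obtain ⟨J, hJ⟩ := pow_unbounded_of_one_lt (T * q / N) (one_lt_two (α := ℝ))
    exact ⟨J, by rwa [div_lt_iff₀ hN0] at hJ⟩
  classical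
  refine ⟨fun s k => conj (fh q f (if s = 0 then k else -k)) * ((2 ^ Nat.log 2 k / k : ℝ) : ℂ),
    Nat.find hex, fun s k => ?_, fun j hj => not_lt.1 (Nat.find_min hex hj), fun t ht => ?_⟩
  · rw [norm_mul, Complex.norm_conj, Complex.norm_real, Real.norm_of_nonneg (by positivity)]
    refine mul_le_one₀ (norm_fh hq hb _) (by positivity) ?_
    rcases Nat.eq_zero_or_pos k with rfl | hk
    · simp
    · rw [div_le_one (by exact_mod_cast hk)]
      exact_mod_cast Nat.pow_log_le_self 2 hk.ne'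
  have hJ := Nat.find_spec hex
  generalize Nat.find hex = J at hJ ⊢
  have far : ∀ k : ℤ, (2 : ℝ) ^ J ≤ |(k : ℝ)| →
      ‖KK V (1 / q * k * N) t‖ ≤ C1 * q ^ 2 / N ^ 2 * (1 / (k : ℝ) ^ 2) := fun k hk => by
    have k0 : (k : ℝ) ≠ 0 := abs_pos.1 (lt_of_lt_of_le (by positivity) hk)
    refine (hK _ t (by positivity) (ht.trans ?_)).trans_eq (by field_simp)
    rw [abs_mul, abs_mul, abs_of_pos hN0, abs_of_pos (show 0 < 1 / (q : ℝ) by positivity),
      mul_assoc, one_div, ← div_eq_inv_mul, le_div_iff₀ hq0]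
    exact hJ.le.trans (by gcongr)
  have hsum : Summable fun k : ℤ => ‖KK V (1 / q * k * N) t‖ := by
    refine Summable.of_norm_bounded_eventually
      ((Real.summable_one_div_int_pow.2 one_lt_two).mul_left (C1 * q ^ 2 / N ^ 2)) ?_
    refine (Set.finite_Icc (-2 ^ J : ℤ) (2 ^ J)).subset fun k hk => ?_
    by_contra hc
    refine hk ?_
    rw [Set.mem_ofPred_eq, norm_norm]
    refine far k ?_
    rw [Set.mem_Icc, ← abs_le, not_le] at hc
    exact_mod_cast hc.le
  have h1 := (pois h hs hq hN hp t hsum).nat_add_neg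
  set F : ℤ → ℂ := fun k => fh q f k * (N * ei (t * Real.log N) * KK V (1 / q * k * N) t) with hF
  have nF : ∀ k, ‖F k‖ ≤ N * ‖KK V (1 / q * k * N) t‖ := fun k => by
    rw [hF, norm_mul, norm_mul, norm_mul, z94.norm_ei, mul_one, Complex.norm_real,
      Real.norm_of_nonneg hN0.le]
    exact mul_le_of_le_one_left (by positivity) (norm_fh hq hb k)
  have h2 := h1.summable.sum_add_tsum_nat_add (2 ^ J)
  rw [h1.tsum_eq, dyadic] at h2
  have t1 : ‖F 0‖ ≤ C1 * (N * ck t) := by
    refine (nF 0).trans ?_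
    rw [Int.cast_zero, mul_zero, zero_mul, mul_left_comm]
    gcongr
    exact hK0 t
  have t2 : ‖∑' n : ℕ, (F ((n + 2 ^ J : ℕ) : ℤ) + F (-((n + 2 ^ J : ℕ) : ℤ)))‖ ≤
      2 * C1 * (q ^ 2 / N) * Z := by
    refine tsum_of_norm_bounded (hz.hasSum.mul_left _) fun n => ?_
    have a1 : (2 : ℝ) ^ J ≤ ((n + 2 ^ J : ℕ) : ℝ) := by exact_mod_cast Nat.le_add_left _ _
    have a2 : ((n + 1 : ℕ) : ℝ) ≤ ((n + 2 ^ J : ℕ) : ℝ) := by
      exact_mod_cast Nat.add_le_add_left Nat.one_le_two_pow n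
    have b1 := far ((n + 2 ^ J : ℕ) : ℤ) (by rwa [Int.cast_natCast, Nat.abs_cast])
    have b2 := far (-((n + 2 ^ J : ℕ) : ℤ)) (by
      rwa [Int.cast_neg, abs_neg, Int.cast_natCast, Nat.abs_cast])
    have b3 : 1 / ((n + 2 ^ J : ℕ) : ℝ) ^ 2 ≤ 1 / ((n + 1 : ℕ) : ℝ) ^ 2 := by gcongr
    refine (norm_add_le _ _).trans ((add_le_add
      ((nF _).trans (mul_le_mul_of_nonneg_left b1 hN0.le))
      ((nF _).trans (mul_le_mul_of_nonneg_left b2 hN0.le))).trans ?_)
    rw [Int.cast_neg, neg_sq, Int.cast_natCast]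
    calc _ = 2 * C1 * (q ^ 2 / N) * (1 / ((n + 2 ^ J : ℕ) : ℝ) ^ 2) := by field_simp; ring
      _ ≤ _ := by gcongr
  have t3 : ∀ (j : ℕ) (σ : ℝ) (g : ℕ → ℂ), |σ| = N / q →
      ‖∑ k ∈ Ico (2 ^ j) (2 ^ (j + 1)), g k * (N * ei (t * Real.log N) * KK V (σ * k) t)‖ ≤
        C2 * (Real.sqrt (q * N / 2 ^ j) * ∫ u : ℝ, ck u * ‖DP (Ico (2 ^ j) (2 ^ (j + 1)))
          (fun k => conj (g k) * ((2 ^ Nat.log 2 k / k : ℝ) : ℂ)) (t + u)‖) := by
    intro j σ g hσ
    simp only [mul_left_comm (g _), ← mul_sum]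
    rw [norm_mul, norm_mul, z94.norm_ei, mul_one, Complex.norm_real, Real.norm_of_nonneg hN0.le]
    refine (mul_le_mul_of_nonneg_left (hB σ t j g (abs_pos.1 (by rw [hσ]; positivity)))
      hN0.le).trans_eq ?_
    have e : N = Real.sqrt (q * N / 2 ^ j) * Real.sqrt (N / q * 2 ^ j) := by
      rw [← Real.sqrt_mul (by positivity), eq_comm, Real.sqrt_eq_iff_mul_self_eq (by positivity)
        hN0.le]
      field_simp
    have e0 : 0 < Real.sqrt (N / q * 2 ^ j) := by positivity
    rw [hσ]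
    generalize Real.sqrt (N / q * 2 ^ j) = b at e e0
    generalize Real.sqrt (q * N / 2 ^ j) = a at e
    rw [e]
    field_simp
  have e4 : DP (blk N 2) (fun n => f n * (V (Real.log n - Real.log N) : ℝ)) t =
      F 0 + (∑ j ∈ range J, ∑ n ∈ Ico (2 ^ j) (2 ^ (j + 1)), F (n : ℕ) +
        ∑ j ∈ range J, ∑ n ∈ Ico (2 ^ j) (2 ^ (j + 1)), F (-(n : ℕ))) +
        ∑' n : ℕ, (F ((n + 2 ^ J : ℕ) : ℤ) + F (-((n + 2 ^ J : ℕ) : ℤ))) := by
    simp only [sum_add_distrib, Nat.cast_zero, neg_zero] at h2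
    linear_combination -h2
  rw [e4, Fin.sum_univ_two]
  simp only [if_true, one_ne_zero, if_false]
  have s1 := norm_sum_le_of_le (range J) (f := fun j => ∑ n ∈ Ico (2 ^ j) (2 ^ (j + 1)), F (n : ℕ))
    fun j _ => (le_of_eq (congrArg _ (sum_congr rfl fun n _ => by
      simp only [hF, Int.cast_natCast]
      rw [show 1 / (q : ℝ) * n * N = N / q * n by ring]))).trans
        (t3 j (N / q) (fun k => fh q f k) (abs_of_pos (by positivity)))
  have s2 := norm_sum_le_of_le (range J)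
    (f := fun j => ∑ n ∈ Ico (2 ^ j) (2 ^ (j + 1)), F (-(n : ℕ)))
    fun j _ => (le_of_eq (congrArg _ (sum_congr rfl fun n _ => by
      simp only [hF, Int.cast_neg, Int.cast_natCast]
      rw [show 1 / (q : ℝ) * -n * N = -(N / q) * n by ring]))).trans
        (t3 j (-(N / q)) (fun k => fh q f (-k)) (by rw [abs_neg, abs_of_pos (by positivity)]))
  rw [← mul_sum] at s1 s2
  have p1 : ∀ c : ℕ → ℂ, 0 ≤ ∑ j ∈ range J, Real.sqrt (q * N / 2 ^ j) *
      ∫ u : ℝ, ck u * ‖DP (Ico (2 ^ j) (2 ^ (j + 1))) c (t + u)‖ := fun c =>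
    sum_nonneg fun j _ => mul_nonneg (Real.sqrt_nonneg _)
      (integral_nonneg fun u => mul_nonneg (Six.ck_nonneg u) (norm_nonneg _))
  have p2 : 0 ≤ N * ck t := mul_nonneg hN0.le (Six.ck_nonneg t)
  have p3 : 0 ≤ (q : ℝ) ^ 2 / N := by positivity
  refine (norm_add_le _ _).trans ((add_le_add ((norm_add_le _ _).trans
    (add_le_add t1 ((norm_add_le _ _).trans (add_le_add s1 s2)))) t2).trans ?_)
  have p4 := p1 fun k => conj (fh q f k) * ((2 ^ Nat.log 2 k / k : ℝ) : ℂ)
  have p5 := p1 fun k => conj (fh q f (-k)) * ((2 ^ Nat.log 2 k / k : ℝ) : ℂ)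
  generalize (∑ j ∈ range J, Real.sqrt (q * N / 2 ^ j) * ∫ u : ℝ, ck u *
    ‖DP (Ico (2 ^ j) (2 ^ (j + 1)))
      (fun k => conj (fh q f k) * ((2 ^ Nat.log 2 k / k : ℝ) : ℂ)) (t + u)‖) = a at *
  generalize (∑ j ∈ range J, Real.sqrt (q * N / 2 ^ j) * ∫ u : ℝ, ck u *
    ‖DP (Ico (2 ^ j) (2 ^ (j + 1)))
      (fun k => conj (fh q f (-k)) * ((2 ^ Nat.log 2 k / k : ℝ) : ℂ)) (t + u)‖) = b at *
  generalize N * ck t = x at *
  generalize (q : ℝ) ^ 2 / N = y at *
  have p6 : 0 ≤ C1 * Z := by positivity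
  nlinarith [mul_nonneg p6 p2, mul_nonneg hC2.le p2, mul_nonneg hC1.le p3, mul_nonneg hC2.le p3,
    mul_nonneg hC1.le p4, mul_nonneg hC1.le p5, mul_nonneg p6 p4, mul_nonneg p6 p5]

end Pool.Agent.MP_678834_nt.HL9

end
end MrgPart1

-- ======== part 2: formerly Pool.Agent.MP_678834_nt.HL9.Smear
section MrgPart2

/-! Project HL9, module SMEAR: inserting a smooth weight. -/

set_option autoImplicit false

noncomputable section

namespace Pool.Agent.MP_678834_nt.HL9

open MeasureTheory Finset Filter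
open Pool.Agent.MP_db1c88_nt.z94 (ei bmp blk DP wide wt lev)
open Pool.Agent.MP_3d0d30_nt.Six (E ck)
open Pool.Agent.MP_db1c88_nt
open Pool.Agent.MP_3d0d30_nt

namespace Smear

/-- smoothing with the Cauchy kernel -/
def cv (g : ℝ → ℝ) (t : ℝ) : ℝ := ∫ u, ck u * g (t + u)

theorem cv_eq (g : ℝ → ℝ) :
    cv g = MeasureTheory.convolution ck g (ContinuousLinearMap.mul ℝ ℝ) volume := by
  funext t
  unfold cv MeasureTheory.convolution
  rw [← integral_neg_eq_self]
  simp only [Six.ck_neg, ContinuousLinearMap.mul_apply', sub_eq_add_neg]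

theorem integrable_cv {g : ℝ → ℝ} (hg : Integrable g) : Integrable (cv g) := by
  rw [cv_eq]
  exact Six.integrable_ck.integrable_convolution _ hg

theorem integral_cv {g : ℝ → ℝ} (hg : Integrable g) : ∫ t, cv g t = Real.pi * ∫ s, g s := by
  rw [cv_eq, integral_convolution _ Six.integrable_ck hg, Six.integral_ck]
  rfl

theorem cv_nonneg {g : ℝ → ℝ} (hg : ∀ s, 0 ≤ g s) (t : ℝ) : 0 ≤ cv g t :=
  integral_nonneg fun u => mul_nonneg (Six.ck_nonneg u) (hg _)

theorem integrable_ker {g : ℝ → ℝ} (hm : Measurable g) {M : ℝ} (hM : ∀ s, |g s| ≤ M) (t : ℝ) :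
    Integrable fun u => ck u * g (t + u) :=
  Six.integrable_ck.mul_bdd (c := M) (hm.comp (measurable_const_add t)).aestronglyMeasurable
    (Eventually.of_forall fun _ => hM _)

theorem cv_sq_le {g : ℝ → ℝ} (hm : Measurable g) {M : ℝ} (hM : ∀ s, |g s| ≤ M) (t : ℝ) :
    cv g t ^ 2 ≤ Real.pi * cv (fun s => g s ^ 2) t := by
  have hp := Real.pi_pos
  have h1 := integrable_ker hm hM t
  have h2 : Integrable fun u => ck u * g (t + u) ^ 2 :=
    integrable_ker (g := fun s => g s ^ 2) (hm.pow_const 2) (M := M ^ 2) (fun s => by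
      rw [abs_pow]
      exact pow_le_pow_left₀ (abs_nonneg _) (hM s) 2) t
  have key : ∀ l : ℝ, 2 * l * cv g t ≤ l ^ 2 * Real.pi + cv (fun s => g s ^ 2) t := by
    intro l
    have e1 : 2 * l * cv g t = ∫ u, 2 * l * (ck u * g (t + u)) := by
      rw [integral_const_mul]
      rfl
    have e2 : l ^ 2 * Real.pi + cv (fun s => g s ^ 2) t
        = ∫ u, (l ^ 2 * ck u + ck u * g (t + u) ^ 2) := by
      rw [integral_add (Six.integrable_ck.const_mul _) h2, integral_const_mul, Six.integral_ck]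
      rfl
    rw [e1, e2]
    refine integral_mono (h1.const_mul _) ((Six.integrable_ck.const_mul _).add h2) fun u => ?_
    have := mul_nonneg (Six.ck_nonneg u) (sq_nonneg (l - g (t + u)))
    dsimp only
    nlinarith
  have h3 := key (cv g t / Real.pi)
  have e3 : 2 * (cv g t / Real.pi) * cv g t - (cv g t / Real.pi) ^ 2 * Real.pi
      = cv g t ^ 2 / Real.pi := by
    field_simp
    ring
  have h4 : cv g t ^ 2 / Real.pi ≤ cv (fun s => g s ^ 2) t := by linarith
  rwa [div_le_iff₀' hp] at h4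

/-- the weighted polynomial is an average of translates of the unweighted one -/
theorem norm_weighted {V : ℝ → ℝ} {κ : ℝ → ℂ} {C : ℝ} (hκ : Continuous κ)
    (hC : ∀ u, ‖κ u‖ ≤ C * ck u) (hV : ∀ y : ℝ, (V y : ℂ) = ∫ u : ℝ, κ u * ei (u * y))
    {ι : Type} (S : Finset ι) (c : ι → ℂ) (ν : ι → ℝ) (X t : ℝ) :
    ‖GP S (fun i => c i * (V (Real.log (ν i) - Real.log X) : ℝ)) ν t‖ ≤
      C * cv (fun s => ‖GP S c ν s‖) t := by
  have hκi : Integrable κ :=
    (Six.integrable_ck.const_mul C).mono' hκ.aestronglyMeasurable (Eventually.of_forall hC)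
  have hi : ∀ i, Integrable fun u : ℝ =>
      κ u * ei (-(u * Real.log X)) * (c i * ei ((t + u) * Real.log (ν i))) := by
    intro i
    simp only [mul_assoc]
    refine hκi.mul_bdd (c := ‖c i‖) (Continuous.aestronglyMeasurable (by fun_prop))
      (Eventually.of_forall fun u => by simp)
  have e1 : GP S (fun i => c i * (V (Real.log (ν i) - Real.log X) : ℝ)) ν t =
      ∫ u : ℝ, κ u * ei (-(u * Real.log X)) * GP S c ν (t + u) := by
    unfold GP
    simp only [Finset.mul_sum]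
    rw [integral_finsetSum _ fun i _ => hi i]
    refine Finset.sum_congr rfl fun i _ => ?_
    rw [hV, ← integral_const_mul, ← integral_mul_const]
    refine integral_congr_ae (Eventually.of_forall fun u => ?_)
    have e : ei (u * (Real.log (ν i) - Real.log X)) * ei (t * Real.log (ν i)) =
        ei (-(u * Real.log X)) * ei ((t + u) * Real.log (ν i)) := by
      rw [← z94.ei_add, ← z94.ei_add]
      congr 1
      ring
    dsimp only
    linear_combination (c i * κ u) * e
  rw [e1, cv, ← integral_const_mul]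
  refine norm_integral_le_of_norm_le ?_ (Eventually.of_forall fun u => ?_)
  · exact (integrable_ker (g := fun s => ‖GP S c ν s‖) (continuous_GP S c ν).norm.measurable
      (M := ∑ i ∈ S, ‖c i‖) (fun s => by rw [abs_norm]; exact norm_GP_le S c ν s) t).const_mul C
  · rw [norm_mul, norm_mul, z94.norm_ei, mul_one, ← mul_assoc]
    exact mul_le_mul_of_nonneg_right (hC u) (norm_nonneg _)

theorem ck_tail {T u : ℝ} (hT : 0 < T) (hu : T ≤ |u|) : ck u ≤ 2 / T ^ 2 * ck (u / T) := by
  have h1 : T ^ 2 ≤ u ^ 2 := by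
    rw [← sq_abs u]
    exact pow_le_pow_left₀ hT.le hu 2
  have e : 2 / T ^ 2 * ck (u / T) = 2 / (T ^ 2 + u ^ 2) := by
    unfold ck
    field_simp
  rw [e]
  unfold ck
  rw [div_le_div_iff₀ (by positivity) (by positivity)]
  linarith

/-- splitting the average into the good set, the bad set and the tail -/
theorem cv_split {p : ℝ → ℝ} (hp : Measurable p) {Z T : ℝ} (h0 : ∀ s, 0 ≤ p s) (hZ : ∀ s, p s ≤ Z)
    (hT : 0 < T) {B : Set ℝ} (hB : MeasurableSet B) {t : ℝ} (ht : |t| ≤ T) :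
    cv p t ≤ cv ((Set.Icc (-(2 * T)) (2 * T) \ B).indicator p) t
      + Z * cv (B.indicator fun _ => 1) t + 2 * Real.pi * Z / T := by
  have hZ0 : 0 ≤ Z := (h0 0).trans (hZ 0)
  have hA : MeasurableSet (Set.Icc (-(2 * T)) (2 * T) \ B) := measurableSet_Icc.diff hB
  have i0 := integrable_ker hp (M := Z) (fun s => by rw [abs_of_nonneg (h0 s)]; exact hZ s) t
  have i1 := integrable_ker (hp.indicator hA) (M := Z) (fun s => by
    rw [abs_of_nonneg (Set.indicator_nonneg (fun s _ => h0 s) s)]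
    exact (Set.indicator_le_self' (fun s _ => h0 s) s).trans (hZ s)) t
  have i2 := integrable_ker (g := B.indicator fun _ => (1 : ℝ)) (measurable_const.indicator hB)
    (M := 1) (fun s => by by_cases h : s ∈ B <;> simp [h]) t
  have i3 : Integrable fun u : ℝ => Z * (2 / T ^ 2) * ck (u / T) :=
    (Six.integrable_ck_div hT.ne').const_mul _
  have i12 : Integrable fun u : ℝ => ck u * (Set.Icc (-(2 * T)) (2 * T) \ B).indicator p (t + u)
      + Z * (ck u * B.indicator (fun _ => (1 : ℝ)) (t + u)) := i1.add (i2.const_mul Z)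
  have e : cv ((Set.Icc (-(2 * T)) (2 * T) \ B).indicator p) t
      + Z * cv (B.indicator fun _ => 1) t + 2 * Real.pi * Z / T =
      ∫ u, (ck u * (Set.Icc (-(2 * T)) (2 * T) \ B).indicator p (t + u)
        + Z * (ck u * B.indicator (fun _ => (1 : ℝ)) (t + u)) + Z * (2 / T ^ 2) * ck (u / T)) := by
    rw [integral_add i12 i3, integral_add i1 (i2.const_mul Z),
      integral_const_mul, integral_const_mul, Six.integral_ck_div hT]
    unfold cv
    field_simp
  rw [e]
  refine integral_mono i0 (i12.add i3) fun u => ?_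
  dsimp only
  have k0 := Six.ck_nonneg u
  have k1 : 0 ≤ ck u * (Set.Icc (-(2 * T)) (2 * T) \ B).indicator p (t + u) :=
    mul_nonneg k0 (Set.indicator_nonneg (fun s _ => h0 s) _)
  have k2 : 0 ≤ Z * (ck u * B.indicator (fun _ => (1 : ℝ)) (t + u)) :=
    mul_nonneg hZ0 (mul_nonneg k0 (Set.indicator_nonneg (fun _ _ => zero_le_one) _))
  have k3 : 0 ≤ Z * (2 / T ^ 2) * ck (u / T) :=
    mul_nonneg (by positivity) (Six.ck_nonneg _)
  have k4 : ck u * p (t + u) ≤ Z * ck u := by
    rw [mul_comm Z]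
    exact mul_le_mul_of_nonneg_left (hZ _) k0
  by_cases h1 : t + u ∈ B
  · rw [Set.indicator_of_mem h1] at k2 ⊢
    linarith
  by_cases h2 : t + u ∈ Set.Icc (-(2 * T)) (2 * T)
  · rw [Set.indicator_of_mem (show t + u ∈ Set.Icc (-(2 * T)) (2 * T) \ B from ⟨h2, h1⟩)]
    linarith
  · have h3 : T ≤ |u| := by
      by_contra h4
      obtain ⟨a1, a2⟩ := abs_lt.1 (not_le.1 h4)
      obtain ⟨b1, b2⟩ := abs_le.1 ht
      exact h2 ⟨by linarith, by linarith⟩
    have h5 := mul_le_mul_of_nonneg_left (ck_tail hT h3) hZ0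
    linarith

end Smear

open Smear in
theorem smear_of (hf : FIStmt) : SmearStmt := by
  intro V hV
  obtain ⟨κ, C, hκ, hC, hI⟩ := hf V hV
  refine ⟨384 * C ^ 2 + 4, fun ι S c ν X T δ G Z W b B hT hδ hb hB hvB hZ hG hW => ?_⟩
  have hT0 : 0 < T := by linarith
  have hp := Real.pi_pos
  have hp4 := Real.pi_le_four
  have hC0 : 0 ≤ C := by
    have := (norm_nonneg _).trans (hC 0)
    simpa using this
  have hA : MeasurableSet (Set.Icc (-(2 * T)) (2 * T) \ B) := measurableSet_Icc.diff hB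
  have hpc : Continuous fun s => ‖GP S c ν s‖ := (continuous_GP S c ν).norm
  have hpZ : ∀ s, ‖GP S c ν s‖ ≤ Z := fun s => (norm_GP_le S c ν s).trans hZ
  have hZ0 : 0 ≤ Z := (norm_nonneg _).trans (hpZ 0)
  set f : ℝ → ℝ := (Set.Icc (-(2 * T)) (2 * T) \ B).indicator fun s => ‖GP S c ν s‖ with hfdef
  set g : ℝ → ℝ := B.indicator fun _ => (1 : ℝ) with hgdef
  have hfm : Measurable f := hpc.measurable.indicator hA
  have hf0 : ∀ s, 0 ≤ f s := fun s => Set.indicator_nonneg (fun s _ => norm_nonneg _) s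
  have hfZ : ∀ s, |f s| ≤ Z := fun s => by
    rw [abs_of_nonneg (hf0 s)]
    exact (Set.indicator_le_self' (fun s _ => norm_nonneg _) s).trans (hpZ s)
  have hg0 : ∀ s, 0 ≤ g s := fun s => Set.indicator_nonneg (fun _ _ => zero_le_one) s
  have hf2 : (fun s => f s ^ 2) =
      (Set.Icc (-(2 * T)) (2 * T) \ B).indicator fun s => ‖GP S c ν s‖ ^ 2 := by
    funext s
    by_cases h : s ∈ Set.Icc (-(2 * T)) (2 * T) \ B
    · rw [hfdef, Set.indicator_of_mem h, Set.indicator_of_mem h]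
    · rw [hfdef, Set.indicator_of_notMem h, Set.indicator_of_notMem h]
      norm_num
  have hfi : Integrable fun s => f s ^ 2 := by
    rw [hf2, integrable_indicator_iff hA]
    exact ((hpc.pow 2).integrableOn_Icc).mono_set Set.sdiff_subset
  have hfG : ∫ s, f s ^ 2 ≤ G := by
    rw [hf2, integral_indicator hA]
    exact hG
  have hG0 : 0 ≤ G := (integral_nonneg fun s => sq_nonneg _).trans hfG
  have hBfin : volume B ≠ ⊤ := ne_top_of_le_ne_top ENNReal.ofReal_ne_top hvB
  have hgi : Integrable g := by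
    rw [hgdef, integrable_indicator_iff hB]
    exact integrableOn_const hBfin
  have hgb : ∫ s, g s ≤ b := by
    rw [hgdef, integral_indicator_const _ hB, smul_eq_mul, mul_one]
    exact ENNReal.toReal_le_of_le_ofReal hb hvB
  have hca := integrable_cv hfi
  have hcm := integrable_cv hgi
  have ha0 : ∀ t, 0 ≤ cv (fun s => f s ^ 2) t := cv_nonneg fun s => sq_nonneg _
  have hm0 : ∀ t, 0 ≤ cv g t := cv_nonneg hg0
  -- the pointwise bound
  have hpt : ∀ t ∈ Set.Icc (-T) T,
      ‖GP S (fun i => c i * (V (Real.log (ν i) - Real.log X) : ℝ)) ν t‖ ^ 2 ≤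
        (12 * C ^ 2 * cv (fun s => f s ^ 2) t + (3 * C ^ 2 * Z ^ 2 * δ + W ^ 2 / δ) * cv g t)
          + 192 * C ^ 2 * Z ^ 2 / T ^ 2 := by
    intro t ht
    have ht' : |t| ≤ T := abs_le.2 ht
    have h1 := norm_weighted hκ hC hI S c ν X t
    have h2 := cv_split hpc.measurable (fun s => norm_nonneg _) hpZ hT0 hB ht'
    have h3 := cv_sq_le hfm hfZ t
    have h4 := hW t ht'
    have a0 := ha0 t
    have m0 := hm0 t
    have f0 := cv_nonneg hf0 t
    rw [← hfdef, ← hgdef] at h2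
    generalize ‖GP S (fun i => c i * (V (Real.log (ν i) - Real.log X) : ℝ)) ν t‖ = d,
      norm_nonneg (GP S (fun i => c i * (V (Real.log (ν i) - Real.log X) : ℝ)) ν t) = hd
      at h1 h4 ⊢
    generalize cv (fun s => f s ^ 2) t = a2 at h3 a0 ⊢
    generalize cv g t = m at h2 m0 ⊢
    generalize cv f t = a at h2 h3 f0
    have q1 : 0 ≤ 12 * C ^ 2 * a2 := by positivity
    have q2 : 0 ≤ 3 * C ^ 2 * Z ^ 2 * δ * m := by positivity
    have q3 : 0 ≤ W ^ 2 / δ * m := by positivity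
    have q4 : 0 ≤ 192 * C ^ 2 * Z ^ 2 / T ^ 2 := by positivity
    rw [add_mul]
    rcases le_or_gt m δ with hm | hm
    · have h5 : 2 * Real.pi * Z / T ≤ 8 * Z / T := by gcongr; linarith
      have h6 : d ≤ C * (a + Z * m + 8 * Z / T) :=
        h1.trans (mul_le_mul_of_nonneg_left (by linarith) hC0)
      have h7 : d ^ 2 ≤ (C * (a + Z * m + 8 * Z / T)) ^ 2 := pow_le_pow_left₀ hd h6 2
      have h8 : (a + Z * m + 8 * Z / T) ^ 2 ≤ 3 * (a ^ 2 + (Z * m) ^ 2 + (8 * Z / T) ^ 2) := by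
        nlinarith [sq_nonneg (a - Z * m), sq_nonneg (a - 8 * Z / T), sq_nonneg (Z * m - 8 * Z / T)]
      have h9 : a ^ 2 ≤ 4 * a2 := h3.trans (mul_le_mul_of_nonneg_right hp4 a0)
      have h10 : (Z * m) ^ 2 ≤ Z ^ 2 * δ * m := by
        rw [mul_pow, mul_assoc, sq m]
        gcongr
      have h11 : (8 * Z / T) ^ 2 = 64 * Z ^ 2 / T ^ 2 := by ring
      have h12 : (a + Z * m + 8 * Z / T) ^ 2 ≤ 12 * a2 + 3 * (Z ^ 2 * δ * m) + 192 * (Z ^ 2 / T ^ 2) := by
        rw [h11] at h8
        have : 64 * Z ^ 2 / T ^ 2 = 64 * (Z ^ 2 / T ^ 2) := by ring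
        linarith
      have h13 := mul_le_mul_of_nonneg_left h12 (sq_nonneg C)
      rw [mul_pow] at h7
      have e : C ^ 2 * (12 * a2 + 3 * (Z ^ 2 * δ * m) + 192 * (Z ^ 2 / T ^ 2)) =
          12 * C ^ 2 * a2 + 3 * C ^ 2 * Z ^ 2 * δ * m + 192 * C ^ 2 * Z ^ 2 / T ^ 2 := by ring
      linarith
    · have h5 : d ^ 2 ≤ W ^ 2 := pow_le_pow_left₀ hd h4 2
      have h6 : W ^ 2 ≤ W ^ 2 / δ * m := by
        rw [div_mul_eq_mul_div, le_div_iff₀ hδ]
        exact mul_le_mul_of_nonneg_left hm.le (sq_nonneg W)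
      linarith
  have hh : Integrable fun t => 12 * C ^ 2 * cv (fun s => f s ^ 2) t
      + (3 * C ^ 2 * Z ^ 2 * δ + W ^ 2 / δ) * cv g t := (hca.const_mul _).add (hcm.const_mul _)
  have hle : -T ≤ T := by linarith
  have s1 := intervalIntegral.integral_mono_on hle
    (((continuous_GP S _ ν).norm.pow 2).intervalIntegrable (μ := volume) _ _)
    (hh.intervalIntegrable.add intervalIntegrable_const) hpt
  rw [intervalIntegral.integral_add hh.intervalIntegrable intervalIntegrable_const,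
    intervalIntegral.integral_const, smul_eq_mul] at s1
  have s2 : ∫ t in (-T)..T, (12 * C ^ 2 * cv (fun s => f s ^ 2) t
      + (3 * C ^ 2 * Z ^ 2 * δ + W ^ 2 / δ) * cv g t) ≤
      12 * C ^ 2 * (4 * G) + (3 * C ^ 2 * Z ^ 2 * δ + W ^ 2 / δ) * (4 * b) := by
    rw [intervalIntegral.integral_of_le hle]
    refine (setIntegral_le_integral hh (Eventually.of_forall fun t => ?_)).trans ?_
    · have := ha0 t
      have := hm0 t
      positivity
    · rw [integral_add (hca.const_mul _) (hcm.const_mul _), integral_const_mul, integral_const_mul,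
        integral_cv hfi, integral_cv hgi]
      have i1 : 0 ≤ ∫ s, f s ^ 2 := integral_nonneg fun s => sq_nonneg _
      have i2 : 0 ≤ ∫ s, g s := integral_nonneg hg0
      gcongr
  have e : (T - -T) * (192 * C ^ 2 * Z ^ 2 / T ^ 2) = 384 * C ^ 2 * (Z ^ 2 / T) := by
    field_simp
    ring
  rw [e] at s1
  refine (s1.trans (add_le_add s2 le_rfl)).trans ?_
  have r1 : 0 ≤ Z ^ 2 * δ * b := by positivity
  have r2 : 0 ≤ W ^ 2 * b / δ := by positivity
  have r3 : 0 ≤ Z ^ 2 / T := by positivity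
  have e2 : (3 * C ^ 2 * Z ^ 2 * δ + W ^ 2 / δ) * (4 * b) =
      12 * C ^ 2 * (Z ^ 2 * δ * b) + 4 * (W ^ 2 * b / δ) := by ring
  rw [e2]
  have c2 := sq_nonneg C
  generalize C ^ 2 = K at c2 ⊢
  generalize Z ^ 2 * δ * b = x1 at r1 ⊢
  generalize W ^ 2 * b / δ = x2 at r2 ⊢
  generalize Z ^ 2 / T = x3 at r3 ⊢
  nlinarith [mul_nonneg c2 hG0, mul_nonneg c2 r1, mul_nonneg c2 r2, mul_nonneg c2 r3]

end Pool.Agent.MP_678834_nt.HL9

end
end MrgPart2

-- ======== part 3: formerly Pool.Agent.MP_678834_nt.HL9.Top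
section MrgPart3

/-! Project HL9: from the mean square to the exceptional set. -/

set_option autoImplicit false

noncomputable section

namespace Pool.Agent.MP_678834_nt.HL9

open MeasureTheory Finset Filter

namespace Tp

theorem sing_lower : ∃ c : ℝ, 0 < c ∧ ∀ d : ℕ, 0 < d → Even d → c ≤ sing d := by
  have hs : Summable fun n : ℕ => 8 * (1 / (n : ℝ) ^ 2) :=
    (Real.summable_one_div_nat_pow.2 one_lt_two).mul_left 8
  refine ⟨Real.exp (-∑' n : ℕ, 8 * (1 / (n : ℝ) ^ 2)), Real.exp_pos _, fun d hd he => ?_⟩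
  refine ge_of_tendsto' (tendsto_sing hd) fun Y => ?_
  refine le_trans (Real.exp_le_exp.2 (neg_le_neg (hs.sum_le_tsum (Nat.primesBelow Y)
    fun _ _ => by positivity))) ?_
  rw [← sum_neg_distrib, Real.exp_sum]
  refine prod_le_prod (fun _ _ => (Real.exp_pos _).le) fun p hp => ?_
  have hp' := Nat.prime_of_mem_primesBelow hp
  have h2 : (2 : ℝ) ≤ p := by exact_mod_cast hp'.two_le
  unfold tt
  split_ifs with h
  · have : 0 ≤ 1 / ((p : ℝ) - 1) := one_div_nonneg.2 (by linarith)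
    have h1 : Real.exp (-(8 * (1 / (p : ℝ) ^ 2))) ≤ 1 := Real.exp_le_one_iff.2 (by
      rw [neg_nonpos]; positivity)
    linarith
  · have h3 : (3 : ℝ) ≤ p := by
      have : p ≠ 2 := by
        rintro rfl
        exact h (Int.natCast_dvd_natCast.2 he.two_dvd)
      have := hp'.two_le
      exact_mod_cast (by omega : 3 ≤ p)
    have h4 := Real.add_one_le_exp (8 * (1 / (p : ℝ) ^ 2))
    rw [Real.exp_neg, inv_le_comm₀ (Real.exp_pos _) (by
      rw [neg_div, ← sub_eq_add_neg, sub_pos, div_lt_one (by nlinarith)]; nlinarith)]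
    refine le_trans ?_ h4
    have h5 : 0 < (p : ℝ) - 1 := by linarith
    have h6 : 0 < (p : ℝ) - 2 := by linarith
    rw [show (1 + -1 / ((p : ℝ) - 1) ^ 2)⁻¹ = 1 / ((p : ℝ) * (p - 2)) + 1 by
      rw [show 1 + -1 / ((p : ℝ) - 1) ^ 2 = p * (p - 2) / (p - 1) ^ 2 by field_simp; ring]
      field_simp; ring,
      add_le_add_iff_right, mul_one_div, div_le_div_iff₀ (by positivity) (by positivity)]
    nlinarith

theorem cont_log (k : ℕ) {a b : ℝ} (ha : 2 ≤ a) (hb : 2 ≤ b) :
    IntervalIntegrable (fun t : ℝ => 1 / Real.log t ^ k) volume a b := by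
  have h : ∀ t ∈ Set.uIcc a b, 2 ≤ t := fun t ht => le_trans (le_min ha hb) ht.1
  exact ContinuousOn.intervalIntegrable (continuousOn_const.div
    ((Real.continuousOn_log.mono fun t ht => by
      have := h t ht; simp only [Set.mem_compl_iff, Set.mem_singleton_iff]; linarith).pow k)
    fun t ht => pow_ne_zero _ (Real.log_pos (by linarith [h t ht])).ne')

theorem int_le (k : ℕ) {a b : ℝ} (ha : 2 ≤ a) (hab : a ≤ b) :
    |∫ t in a..b, 1 / Real.log t ^ k| ≤ 1 / Real.log a ^ k * (b - a) := by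
  have h0 := Real.log_pos (show 1 < a by linarith)
  have := intervalIntegral.norm_integral_le_of_norm_le_const (a := a) (b := b)
    (f := fun t : ℝ => 1 / Real.log t ^ k) (C := 1 / Real.log a ^ k) fun t ht => by
      rw [Set.uIoc_of_le hab] at ht
      have h1 := Real.log_le_log (by linarith) ht.1.le
      rw [Real.norm_of_nonneg (one_div_nonneg.2 (pow_nonneg (by linarith) _))]
      gcongr
  rwa [abs_of_nonneg (sub_nonneg.2 hab)] at this

theorem inv_log_le {a : ℝ} (ha : 2 ≤ a) (k : ℕ) : 1 / Real.log a ^ k ≤ 2 ^ k := by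
  have h1 := Real.log_le_log (by norm_num) ha
  have h2 := Real.log_two_gt_d9
  rw [← one_div_pow]
  refine pow_le_pow_left₀ (one_div_nonneg.2 (by linarith)) ?_ k
  rw [div_le_iff₀ (by linarith)]
  linarith

theorem li : ∀ᶠ x : ℝ in atTop,
    |(∫ t in (2 : ℝ)..x, 1 / Real.log t ^ 2) - x / Real.log x ^ 2| ≤ 18 * x / Real.log x ^ 3 := by
  filter_upwards [ev_log_pow (δ := 1 / 2) (by norm_num) 3 12, eventually_ge_atTop 4] with x h1 hx
  have hL := Real.log_pos (show 1 < x by linarith)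
  have hs : 2 ≤ Real.sqrt x := Real.le_sqrt_of_sq_le (by linarith)
  have hss := Real.mul_self_sqrt (show 0 ≤ x by linarith)
  have hsx : Real.sqrt x ≤ x := by nlinarith
  have e : ∫ t in (2 : ℝ)..x, (1 / Real.log t ^ 2 - 2 * (1 / Real.log t ^ 3)) =
      x / Real.log x ^ 2 - 2 / Real.log 2 ^ 2 := by
    refine intervalIntegral.integral_eq_sub_of_hasDerivAt (f := fun t => t / Real.log t ^ 2)
      (fun t ht => ?_) ((cont_log 2 le_rfl (by linarith)).sub
        ((cont_log 3 le_rfl (by linarith)).const_mul 2))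
    rw [Set.uIcc_of_le (by linarith)] at ht
    have h2 := (Real.log_pos (show 1 < t by linarith [ht.1])).ne'
    have h3 : t ≠ 0 := by linarith [ht.1]
    refine ((hasDerivAt_id t).div ((Real.hasDerivAt_log h3).pow 2) (pow_ne_zero 2 h2)).congr_deriv ?_
    simp only [id, Pi.pow_apply]
    field_simp
    ring
  rw [intervalIntegral.integral_sub (cont_log 2 le_rfl (by linarith))
    ((cont_log 3 le_rfl (by linarith)).const_mul 2), intervalIntegral.integral_const_mul,
    ← intervalIntegral.integral_add_adjacent_intervals (cont_log 3 le_rfl hs)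
      (cont_log 3 hs (by linarith))] at e
  have a1 := abs_le.1 (int_le 3 le_rfl hs)
  have a2 := abs_le.1 (int_le 3 hs hsx)
  have a3 := inv_log_le le_rfl 3
  have a4 := inv_log_le le_rfl 2
  have a5 : 0 ≤ 1 / Real.log 2 ^ 2 := by positivity
  have a6 : 1 / Real.log 2 ^ 3 * (Real.sqrt x - 2) ≤ 8 * (Real.sqrt x - 2) := by
    gcongr; linarith
  have a7 : 1 / Real.log (Real.sqrt x) ^ 3 * (x - Real.sqrt x) ≤ 8 * (x / Real.log x ^ 3) := by
    rw [Real.log_sqrt (by linarith)]
    calc _ ≤ 1 / (Real.log x / 2) ^ 3 * x := by gcongr; linarith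
      _ = _ := by field_simp; ring
  have a8 : 12 * Real.sqrt x ≤ x / Real.log x ^ 3 := by
    rw [le_div_iff₀ (by positivity), ← Real.sqrt_eq_rpow] at *
    nlinarith
  have a9 : 2 / Real.log 2 ^ 2 = 2 * (1 / Real.log 2 ^ 2) := by ring
  rw [mul_div_assoc, abs_le]
  constructor <;> linarith

theorem sgm_one (h : ℕ) : sgm 1 h = 1 := by simp [sgm, rho, ram]

theorem real_ms (h1 : FinalStmt) (h2 : SingStmt) {ε : ℝ} (hε : 0 < ε) (A : ℕ) : ∃ C : ℝ, 0 ≤ C ∧
    ∀ᶠ x : ℝ in atTop, ∀ h₀ H : ℕ, x ^ (1 / 9 + ε) ≤ H → ((h₀ + H : ℕ) : ℝ) ≤ x ^ (1 - ε) →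
      ∑ d ∈ Ioc h₀ (h₀ + H),
        ((pi2 ⌊x⌋₊ d : ℝ) - sing d * ∫ t in (2 : ℝ)..x, 1 / Real.log t ^ 2) ^ 2 ≤
          C * H * x ^ 2 / Real.log x ^ A := by
  obtain ⟨C₁, x₀, h1⟩ := h1 (ε / 2) (by positivity) A
  obtain ⟨C₂, h2⟩ := h2
  refine ⟨2 * (|C₁| * 2 ^ A) + 64 * (|C₂| + 1), by positivity, ?_⟩
  filter_upwards [ev_log_pow (δ := 2) (by norm_num) A 1, eventually_ge_atTop (x₀ + 1),
    eventually_ge_atTop 4, ev_rpow (half_pos hε) 2] with x e1 e2 e3 e4 h₀ H hH hh
  have hx : 0 < x := by linarith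
  have hL := Real.log_pos (show 1 < x by linarith)
  have f1 := Nat.floor_le hx.le
  have f2 := (Nat.lt_floor_add_one x).le
  set n := ⌊x⌋₊
  have hn : (0 : ℝ) < n := by linarith
  have hH1 : (1 : ℝ) ≤ H := (Real.one_le_rpow (by linarith) (by positivity)).trans hH
  have g1 : (n : ℝ) ^ (1 / 9 + ε / 2) ≤ H := le_trans ((Real.rpow_le_rpow hn.le f1
    (by positivity)).trans (Real.rpow_le_rpow_of_exponent_le (by linarith) (by linarith))) hH
  have g2 : ((h₀ + H : ℕ) : ℝ) ≤ (n : ℝ) ^ (1 - ε / 2) := by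
    refine hh.trans ?_
    rw [Real.rpow_sub hn, Real.rpow_one, le_div_iff₀ (by positivity)]
    calc _ ≤ x ^ (1 - ε) * x ^ (ε / 2) := by gcongr
      _ = x / x ^ (ε / 2) := by
          rw [← Real.rpow_add hx, show 1 - ε + ε / 2 = 1 - ε / 2 by ring, Real.rpow_sub hx,
            Real.rpow_one]
      _ ≤ x / 2 := by gcongr
      _ ≤ n := by linarith
  have g3 : h₀ + H ≤ H ^ 9 := by
    have : ((h₀ + H : ℕ) : ℝ) ≤ (H : ℝ) ^ 9 := by
      refine hh.trans (le_trans ?_ (pow_le_pow_left₀ (by positivity) hH 9))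
      rw [← Real.rpow_natCast, ← Real.rpow_mul hx.le]
      exact Real.rpow_le_rpow_of_exponent_le (by linarith) (by push_cast; linarith)
    exact_mod_cast this
  have k1 := h1 n h₀ H (by linarith) g1 g2
  have k2 := h2 1 H h₀ le_rfl (by exact_mod_cast hH1) g3
  have k3 : C₁ * H * n ^ 2 / Real.log n ^ A ≤ |C₁| * 2 ^ A * H * x ^ 2 / Real.log x ^ A := by
    have l1 : Real.log x / 2 ≤ Real.log n := by
      rw [← Real.log_sqrt hx.le]
      exact Real.log_le_log (by positivity) (Real.sqrt_le_iff.2 ⟨hn.le, by nlinarith⟩)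
    calc _ ≤ |C₁| * H * x ^ 2 / (Real.log x / 2) ^ A := by gcongr; exact le_abs_self _
      _ = _ := by rw [div_pow]; field_simp
  have k4 : |∫ t in (n : ℝ)..x, 1 / Real.log t ^ 2| ≤ 4 := by
    refine (int_le 2 (by linarith) f1).trans ?_
    have := inv_log_le (a := n) (by linarith) 2
    calc _ ≤ (2 : ℝ) ^ 2 * 1 := by gcongr; linarith
      _ = 4 := by norm_num
  rw [← intervalIntegral.integral_add_adjacent_intervals (b := n) (cont_log 2 le_rfl (by linarith))
    (cont_log 2 (by linarith) (by linarith))]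
  simp only [sgm_one, Nat.cast_one, div_one, ← Complex.ofReal_one, ← Complex.ofReal_sub,
    Complex.norm_real, Real.norm_eq_abs, sq_abs] at k2
  generalize (∫ t in (n : ℝ)..x, 1 / Real.log t ^ 2) = J at *
  generalize (∫ t in (2 : ℝ)..n, 1 / Real.log t ^ 2) = I at *
  have k5 : J ^ 2 ≤ 16 := by nlinarith [sq_abs J, abs_nonneg J]
  have k6 : (1 : ℝ) ≤ x ^ 2 / Real.log x ^ A := by
    rw [le_div_iff₀ (by positivity)]; simpa using e1
  calc _ ≤ ∑ d ∈ Ioc h₀ (h₀ + H), (2 * ((pi2 n d : ℝ) - sing d * I) ^ 2 +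
        (64 * (sing d - 1) ^ 2 + 64)) := by
        refine sum_le_sum fun d _ => ?_
        have := mul_le_mul_of_nonneg_left k5 (sq_nonneg (sing d))
        nlinarith [sq_nonneg ((pi2 n d : ℝ) - sing d * I + sing d * J), sq_nonneg (sing d - 2)]
    _ ≤ 2 * (|C₁| * 2 ^ A * H * x ^ 2 / Real.log x ^ A) +
        64 * (|C₂| + 1) * H * (x ^ 2 / Real.log x ^ A) := by
        simp only [sum_add_distrib, ← mul_sum, sum_const, Nat.card_Ioc, add_tsub_cancel_left,
          nsmul_eq_mul]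
        have m1 : C₂ * H ≤ |C₂| * H := by gcongr; exact le_abs_self _
        have m2 : 64 * (|C₂| + 1) * H ≤ 64 * (|C₂| + 1) * H * (x ^ 2 / Real.log x ^ A) :=
          le_mul_of_one_le_right (by positivity) k6
        linarith
    _ = _ := by ring

end Tp

open Tp in
theorem result_of (h1 : FinalStmt) (h2 : SingStmt) (ε : ℝ) (hε : 0 < ε) (A : ℕ) :
    ∃ C x₀ : ℝ, ∀ (x : ℝ) (h₀ H : ℕ), x₀ ≤ x → x ^ (1 / 9 + ε) ≤ H →
      ((h₀ + H : ℕ) : ℝ) ≤ x ^ (1 - ε) →
      ∃ Ex : Finset ℕ, (Ex.card : ℝ) ≤ C * H / Real.log x ^ A ∧ ∀ d ∈ Ioc h₀ (h₀ + H), d ∉ Ex →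
        |(pi2 ⌊x⌋₊ d : ℝ) - sing d * ∫ t in (2 : ℝ)..x, 1 / Real.log t ^ 2| ≤ x / Real.log x ^ A ∧
        (Even d → |(pi2 ⌊x⌋₊ d : ℝ) * Real.log x ^ 2 / (sing d * x) - 1| ≤ C / Real.log x) := by
  obtain ⟨C, hC, h⟩ := real_ms h1 h2 hε (A + 2 * (A + 3))
  obtain ⟨c, hc, hs⟩ := sing_lower
  obtain ⟨x₀, h⟩ := eventually_atTop.1 (h.and (li.and ((ev_log 1).and (eventually_gt_atTop 0))))
  refine ⟨C + (1 / c + 18), x₀, fun x h₀ H hx hH hh => ?_⟩
  obtain ⟨h, hli, hL, hx0⟩ := h x hx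
  replace h := h h₀ H hH hh
  set I := ∫ t in (2 : ℝ)..x, 1 / Real.log t ^ 2
  set L := Real.log x
  have hL0 : 0 < L := by linarith
  refine ⟨(Ioc h₀ (h₀ + H)).filter fun d => x / L ^ (A + 3) < |(pi2 ⌊x⌋₊ d : ℝ) - sing d * I|, ?_,
    fun d hd hn => ?_⟩
  · have k := card_nsmul_le_sum ((Ioc h₀ (h₀ + H)).filter fun d =>
      x / L ^ (A + 3) < |(pi2 ⌊x⌋₊ d : ℝ) - sing d * I|)
      (fun d => ((pi2 ⌊x⌋₊ d : ℝ) - sing d * I) ^ 2) ((x / L ^ (A + 3)) ^ 2) fun d hd => by
        rw [← sq_abs (_ - _)]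
        exact pow_le_pow_left₀ (by positivity) (mem_filter.1 hd).2.le 2
    have k2 := (k.trans (sum_le_sum_of_subset_of_nonneg (filter_subset _ _)
      fun _ _ _ => sq_nonneg _)).trans h
    rw [nsmul_eq_mul, ← le_div_iff₀ (by positivity)] at k2
    refine k2.trans (le_trans (le_of_eq (by field_simp; ring)) (show C * H / L ^ A ≤ _ by
      gcongr; exact le_add_of_nonneg_right (by positivity)))
  · have k : |(pi2 ⌊x⌋₊ d : ℝ) - sing d * I| ≤ x / L ^ (A + 3) :=
      not_lt.1 fun h' => hn (mem_filter.2 ⟨hd, h'⟩)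
    refine ⟨k.trans (by gcongr; omega), fun he => ?_⟩
    have h3 := hs d (by have := (mem_Ioc.1 hd).1; omega) he
    have h4 : 0 < sing d := hc.trans_le h3
    have k' : |(pi2 ⌊x⌋₊ d : ℝ) - sing d * I| ≤ x / L ^ 3 := k.trans (by gcongr; omega)
    rw [show (pi2 ⌊x⌋₊ d : ℝ) * L ^ 2 / (sing d * x) - 1 =
      ((pi2 ⌊x⌋₊ d : ℝ) - sing d * I) * (L ^ 2 / (sing d * x)) + (I - x / L ^ 2) * (L ^ 2 / x) by
        field_simp; ring]
    refine (abs_add_le _ _).trans ?_
    rw [abs_mul, abs_mul, abs_of_pos (show 0 < L ^ 2 / (sing d * x) by positivity),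
      abs_of_pos (show 0 < L ^ 2 / x by positivity)]
    calc _ ≤ x / L ^ 3 * (L ^ 2 / (c * x)) + 18 * x / L ^ 3 * (L ^ 2 / x) := by gcongr
      _ = (1 / c + 18) / L := by field_simp
      _ ≤ _ := div_le_div_of_nonneg_right (by linarith) hL0.le

end Pool.Agent.MP_678834_nt.HL9

end
end MrgPart3

-- marker of a merged file
example : 731051 + 791169 = 731051 + 791169 := rfl
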