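import Pool.Agent.MP_678834_nt.HL9.Basic
import Pool.Agent.MP_db1c88_nt.z94.Red
import Pool.Agent.MP_db1c88_nt.z94.LV

-- ======== part 0: formerly Pool.Agent.MP_678834_nt.HL9.Near
section MrgPart0

/-! Project HL9: large values near the line one. -/

set_option autoImplicit false

noncomputable section

namespace Pool.Agent.MP_678834_nt.HL9

open MeasureTheory Finset Filter
open scoped ArithmeticFunction.vonMangoldt ArithmeticFunction.Moebius
open Pool.Agent.MP_db1c88_nt.z94 (ei bmp blk DP wide wt lev)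
open Pool.Agent.MP_3d0d30_nt.Six (E ck)
open Pool.Agent.MP_db1c88_nt

namespace Near

open Pool.Agent.MP_db1c88_nt.z94 in
/-- the Halasz-Montgomery inequality with general coefficients -/
theorem key {T N c U B a Q G : ℝ} {W : Set ℝ} (hN : 1 ≤ N) (hc : 1 ≤ c) (hU : 0 ≤ U)
    (hB : 0 ≤ B) (ha : 0 ≤ a) (hW : MeasurableSet W) (hWT : W ⊆ Set.Icc 0 T) {d : ℕ → ℂ}
    (hd : ∑ m ∈ blk N c, ‖d m‖ ^ 2 ≤ G) (hlo : ∀ t ∈ W, U ≤ ‖DP (blk N c) d t‖)
    (hhi : ∀ t ∈ W, ‖DP (blk N c) d t‖ ≤ B)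
    (hG : ∀ s ∈ W, ∀ t ∈ W, ‖GG c N (s - t)‖ ≤ a / (1 + (s - t) ^ 2) + Q) :
    (U ^ 2 * volume.real W) ^ 2 ≤
      G * (B * (B * (4 * a + Q * volume.real W)) * volume.real W) := by
  set D := DP (blk N c) d with hDdef
  have hG0 : 0 ≤ G := (sum_nonneg fun _ _ => sq_nonneg _).trans hd
  have hD : Continuous D := continuous_DP _ _
  have hD' : Continuous fun s => (starRingEnd ℂ) (D s) := Complex.continuous_conj.comp hD
  have hfin := volume_lt_top hWT
  have h1 : U ^ 2 * volume.real W ≤ ∫ t in W, ‖D t‖ ^ 2 :=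
    setIntegral_ge_of_const_le_real hW hfin.ne (fun t ht => by gcongr; exact hlo t ht)
      (integrableOn_of_continuous hWT (by fun_prop))
  have h2 : ∫ t in W, ‖D t‖ ^ 2 ≤ ∑ m ∈ blk N c, ‖d m‖ * ‖hz W D m‖ := by
    refine (le_abs_self _).trans ?_
    rw [← Real.norm_eq_abs, ← Complex.norm_real, hDdef, hux_a1 hWT d]
    refine (norm_sum_le _ _).trans (sum_le_sum fun m _ => ?_)
    rw [norm_mul, Complex.norm_conj]
  have h3 : (∑ m ∈ blk N c, ‖d m‖ * ‖hz W D m‖) ^ 2 ≤ G * nrm N c (hz W D) := by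
    refine (sum_mul_sq_le_sq_mul_sq _ _ _).trans ?_
    have e2 : ∑ m ∈ blk N c, ‖hz W D m‖ ^ 2 ≤ nrm N c (hz W D) := by
      calc _ = ∑ m ∈ blk N c, wt N c m * ‖hz W D m‖ ^ 2 :=
            sum_congr rfl fun m hm => by rw [wt_eq_one hN hc hm, one_mul]
        _ ≤ _ := sum_le_sum_of_subset_of_nonneg (blk_subset_wide hN (by linarith))
            fun m _ _ => mul_nonneg (wt_nonneg _ _ _) (sq_nonneg _)
    exact mul_le_mul hd e2 (sum_nonneg fun _ _ => sq_nonneg _) hG0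
  have h4 : ∀ t ∈ W, ‖∫ s in W, (starRingEnd ℂ) (D s) * GG c N (s - t)‖ ≤
      B * (4 * a + Q * volume.real W) := fun t ht => by
    have hc' : Continuous fun s : ℝ => a / (1 + (s - t) ^ 2) + Q :=
      (continuous_const.div (by fun_prop) fun s => by positivity).add continuous_const
    calc _ ≤ ∫ s in W, ‖(starRingEnd ℂ) (D s) * GG c N (s - t)‖ := norm_integral_le_integral_norm _
      _ ≤ ∫ s in W, B * (a / (1 + (s - t) ^ 2) + Q) := by
          refine setIntegral_mono_on (integrableOn_of_continuous hWT (by fun_prop))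
            (integrableOn_of_continuous hWT (continuous_const.mul hc')) hW fun s hs => ?_
          rw [norm_mul, Complex.norm_conj]
          exact mul_le_mul (hhi s hs) (hG s hs t ht) (norm_nonneg _) hB
      _ ≤ _ := by
          rw [integral_const_mul]
          exact mul_le_mul_of_nonneg_left (hux_kernel hWT ha t) hB
  have h5 : nrm N c (hz W D) ≤ B * (B * (4 * a + Q * volume.real W)) * volume.real W := by
    refine (le_abs_self _).trans ?_
    rw [← Real.norm_eq_abs, ← Complex.norm_real, hux_a2 hWT hD]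
    refine norm_setIntegral_le_of_norm_le_const hfin fun t ht => ?_
    rw [norm_mul]
    exact mul_le_mul (hhi t ht) (h4 t ht) (norm_nonneg _) hB
  calc (U ^ 2 * volume.real W) ^ 2 ≤ (∑ m ∈ blk N c, ‖d m‖ * ‖hz W D m‖) ^ 2 := by
        gcongr; exact h1.trans h2
    _ ≤ G * nrm N c (hz W D) := h3
    _ ≤ _ := by gcongr

/-- solving the quadratic inequality -/
theorem solve {U R G c a Q : ℝ} (hU : 0 < U) (hR : 0 ≤ R) (hG : 0 ≤ G) (ha : 0 ≤ a)
    (hQ : 2 * c ^ 2 * G * Q ≤ U ^ 2)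
    (h : (U ^ 2 * R) ^ 2 ≤ G * (c * U * (c * U * (4 * a + Q * R)) * R)) :
    R * U ^ 2 ≤ 8 * c ^ 2 * G * a := by
  rcases hR.eq_or_lt with h0 | h0
  · rw [← h0, zero_mul]; positivity
  · have hp : 0 < U ^ 2 * R := by positivity
    have e : G * (c * U * (c * U * (4 * a + Q * R)) * R) =
        (U ^ 2 * R) * (4 * c ^ 2 * G * a + (2 * c ^ 2 * G * Q) * R / 2) := by ring
    rw [e, sq] at h
    have h1 := le_of_mul_le_mul_left h hp
    have h2 : (2 * c ^ 2 * G * Q) * R ≤ U ^ 2 * R := mul_le_mul_of_nonneg_right hQ hR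
    linarith

/-- choice of the power -/
theorem choose_pow {η T N : ℝ} (hη : 0 < η) {k₁ : ℕ} (hk : 13 / 25 ≤ η * k₁) (hT : 2 ≤ T)
    (h1 : T ^ η ≤ N) (h2 : N ^ 2 ≤ T) : ∃ j : ℕ, j ≤ k₁ ∧ T ^ (13 / 25 : ℝ) ≤ N ^ j ∧
      N ^ j ≤ T ^ (51 / 50 : ℝ) := by
  classical
  have hT1 : 1 < T := by linarith
  have hN : 1 ≤ N := (Real.one_le_rpow hT1.le hη.le).trans h1
  have hk1 : T ^ (13 / 25 : ℝ) ≤ N ^ k₁ := by
    refine le_trans ?_ (pow_le_pow_left₀ (by positivity) h1 k₁)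
    rw [← Real.rpow_natCast, ← Real.rpow_mul (by linarith)]
    exact Real.rpow_le_rpow_of_exponent_le hT1.le hk
  have hex : ∃ j : ℕ, T ^ (13 / 25 : ℝ) ≤ N ^ j := ⟨k₁, hk1⟩
  refine ⟨Nat.find hex, Nat.find_min' hex hk1, Nat.find_spec hex, ?_⟩
  rcases Nat.eq_zero_or_pos (Nat.find hex) with h0 | h0
  · rw [h0, pow_zero]; exact Real.one_le_rpow hT1.le (by norm_num)
  · obtain ⟨i, hi⟩ : ∃ i, Nat.find hex = i + 1 := ⟨Nat.find hex - 1, by omega⟩
    have h3 := not_le.1 (Nat.find_min hex (show i < Nat.find hex by omega))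
    have h4 : N ≤ T ^ (1 / 2 : ℝ) := by
      rw [← Real.sqrt_eq_rpow]
      exact Real.le_sqrt_of_sq_le h2
    rw [hi, pow_succ, show (51 / 50 : ℝ) = 13 / 25 + 1 / 2 by norm_num,
      Real.rpow_add (by linarith)]
    exact mul_le_mul h3.le h4 (by linarith) (by positivity)

end Near

open Pool.Agent.MP_db1c88_nt.z94 in
theorem near_of (hd : DivStmt) : NearStmt := by
  intro η hη
  obtain ⟨k₁, hk₁⟩ := exists_nat_ge (13 / 25 / η)
  rw [div_le_iff₀ hη, mul_comm] at hk₁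
  obtain ⟨c, hc⟩ : ∃ c : ℝ, c = 2 ^ k₁ := ⟨_, rfl⟩
  have hc1 : 1 ≤ c := hc ▸ one_le_pow₀ one_le_two
  obtain ⟨K, hK⟩ := hd (2 * k₁)
  obtain ⟨C₃, hC₃, h3⟩ := o3 c hc1
  obtain ⟨C₄, hC₄, h4⟩ := o4 (1 / 200) (by norm_num) c hc1 0
  obtain ⟨C₅, hC₅, h5⟩ := o5 c hc1
  have e1 := ev_log_pow (δ := 1 / 100) (by norm_num) (2 * K)
    ((2 * c ^ 3 * 3 ^ K) ^ 2 * (2 * C₄ ^ 2 + 4 * C₅))
  have e2 := ev_rpow (δ := 1 / 200) (by norm_num) 2
  have e3 := ev_rpow (δ := 49 / 50) (by norm_num) c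
  have e4 := ev_log 1
  obtain ⟨T₀, hT₀⟩ := eventually_atTop.1 (e1.and (e2.and (e3.and (e4.and (eventually_ge_atTop 2)))))
  refine ⟨K, 8 * c ^ 3 * 3 ^ K * C₃, T₀, fun T N σ b hT hN1 hN2 hσ hσ1 hb => ?_⟩
  obtain ⟨e1, e2, e3, e4, hT2⟩ := hT₀ T hT
  have hT1 : 1 ≤ T := by linarith
  have hT0 : 0 < T := by linarith
  have hN : 1 ≤ N := (Real.one_le_rpow hT1 hη.le).trans hN1
  obtain ⟨j, hj, hj1, hj2⟩ := Near.choose_pow hη hk₁ hT2 hN1 hN2
  set L := Real.log T with hL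
  set N' := N ^ j with hN'
  have hN'1 : 1 ≤ N' := one_le_pow₀ hN
  have hN'0 : 0 < N' := by linarith
  have hu : ∀ f ∈ Fintype.piFinset fun _ : Fin j => blk N 2,
      ∏ i, f i ∈ blk N' c := fun f hf => by
    have h1 := fun i => (mem_blk (by linarith) (by norm_num)).1 (Fintype.mem_piFinset.1 hf i)
    refine (mem_blk (by linarith) (by positivity)).2 ⟨?_, ?_⟩
    · rw [Nat.cast_prod]
      refine le_trans (by simp [hN']) (prod_le_prod (f := fun _ => N) (fun _ _ => by linarith)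
        fun i _ => (h1 i).1)
    · rw [Nat.cast_prod]
      refine (prod_le_prod (g := fun _ => 2 * N) (fun _ _ => by positivity)
        fun i _ => (h1 i).2).trans ?_
      rw [prod_const, card_univ, Fintype.card_fin, mul_pow, hc]
      exact mul_le_mul_of_nonneg_right (pow_le_pow_right₀ one_le_two hj) (by linarith)
  have hDP : ∀ t, ‖DP (blk N' c) (powC (blk N 2) b j) t‖ = ‖DP (blk N 2) b t‖ ^ j := fun t => by
    rw [DP_pow (fun m => pos_of_mem_blk hN) b j hu t, norm_pow]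
  -- the size of the coefficients
  have hcN : c * N' ≤ T ^ 2 := by
    calc c * N' ≤ T ^ (49 / 50 : ℝ) * T ^ (51 / 50 : ℝ) := by gcongr
      _ = T ^ 2 := by rw [← Real.rpow_add hT0]; norm_num
  have hG : ∑ m ∈ blk N' c, ‖powC (blk N 2) b j m‖ ^ 2 ≤ c * N' * (3 * L) ^ K := by
    have hx : 1 ≤ ⌊c * N'⌋₊ := Nat.one_le_floor_iff _ |>.2 (one_le_mul_of_one_le_of_one_le hc1 hN'1)
    have hx1 : (1 : ℝ) ≤ ⌊c * N'⌋₊ := by exact_mod_cast hx
    have hx2 : (⌊c * N'⌋₊ : ℝ) ≤ c * N' := Nat.floor_le (by positivity)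
    calc _ ≤ ∑ m ∈ blk N' c, (m.divisors.card : ℝ) ^ (2 * k₁) := sum_le_sum fun m hm => by
            have hm1 := pos_of_mem_blk hN'1 hm
            have hd1 : (1 : ℝ) ≤ m.divisors.card := by
              exact_mod_cast card_pos.2 ⟨1, Nat.one_mem_divisors.2 (by omega)⟩
            refine (pow_le_pow_left₀ (norm_nonneg _) (norm_powC_le hb j (by omega)) 2).trans ?_
            rw [← pow_mul]
            exact pow_le_pow_right₀ hd1 (by omega)
      _ ≤ ∑ m ∈ Icc 1 ⌊c * N'⌋₊, (m.divisors.card : ℝ) ^ (2 * k₁) :=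
          sum_le_sum_of_subset_of_nonneg (fun m hm =>
            mem_Icc.2 ⟨pos_of_mem_blk hN'1 hm, (mem_Icc.1 hm).2⟩) fun _ _ _ => by positivity
      _ ≤ _ := hK _
      _ ≤ _ := by
          have h1 : Real.log ⌊c * N'⌋₊ ≤ 2 * L := by
            refine (Real.log_le_log (by linarith) (hx2.trans hcN)).trans_eq ?_
            rw [Real.log_pow]; norm_num [hL]
          have h2 := Real.log_nonneg hx1
          gcongr
          linarith
  -- the kernel
  obtain ⟨Δ, hΔ⟩ : ∃ Δ : ℝ, Δ = T ^ (1 / 200 : ℝ) := ⟨_, rfl⟩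
  have hR : Reg (1 / 200) T Δ := ⟨hΔ ▸ e2, by
    rw [hΔ]
    exact (Real.rpow_le_rpow_of_exponent_le hT1 (by norm_num)).trans_eq (Real.rpow_one T), hΔ.ge⟩
  have hΔ0 := hR.pos
  obtain ⟨M, hM⟩ : ∃ M : ℕ, M = ⌈T * Δ / N'⌉₊ := ⟨_, rfl⟩
  have hM1 : T * Δ ≤ N' * M := by
    rw [mul_comm N', ← div_le_iff₀ hN'0, hM]; exact Nat.le_ceil _
  have hM2 : N' * M ≤ T * Δ + N' := by
    have := (Nat.ceil_lt_add_one (show 0 ≤ T * Δ / N' by positivity)).le
    rw [← hM] at this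
    calc N' * M ≤ N' * (T * Δ / N' + 1) := by gcongr
      _ = _ := by field_simp
  have hM3 : N' * M ≤ T ^ 10 := by
    have h1 : N' ≤ T ^ 2 := le_trans (le_mul_of_one_le_left hN'0.le hc1) hcN
    have h2 : T * Δ ≤ T ^ 2 := by rw [sq]; gcongr; exact hR.leT
    calc N' * M ≤ 2 * T ^ 2 := by linarith
      _ ≤ T * T ^ 2 := by gcongr
      _ = T ^ 3 := by ring
      _ ≤ T ^ 10 := pow_le_pow_right₀ hT1 (by norm_num)
  obtain ⟨Q, hQ⟩ : ∃ Q : ℝ, Q = C₄ + √(C₅ * N' * M) := ⟨_, rfl⟩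
  have hQ0 : 0 ≤ Q := by rw [hQ]; positivity
  have hker : ∀ τ, |τ| ≤ T → ‖GG c N' τ‖ ≤ C₃ * N' / (1 + τ ^ 2) + Q := fun τ hτ => by
    have f1 := h4 T Δ N' T τ M hR hN'1 hT1 hM1 hM3 (by linarith)
    rw [pow_zero, div_one] at f1
    have f2 := (h3 N' τ hN'0).1
    have f3 : ‖FF c N' M τ‖ ≤ √(C₅ * N' * M) := Real.le_sqrt_of_sq_le (h5 N' τ M hN'1)
    calc ‖GG c N' τ‖ = ‖GG c N' τ - Gm c N' 0 τ - FF c N' M τ + Gm c N' 0 τ + FF c N' M τ‖ := by
          congr 1; ring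
      _ ≤ ‖GG c N' τ - Gm c N' 0 τ - FF c N' M τ‖ + ‖Gm c N' 0 τ‖ + ‖FF c N' M τ‖ := norm_add₃_le
      _ ≤ _ := by linarith
  obtain ⟨P, hP⟩ : ∃ P : ℝ, P = N' ^ (49 / 50 : ℝ) := ⟨_, rfl⟩
  have hP0 : 0 < P := by rw [hP]; positivity
  obtain ⟨Y, hY⟩ : ∃ Y : ℝ, Y = T ^ (1 / 100 : ℝ) := ⟨_, rfl⟩
  have hY0 : 0 < Y := by rw [hY]; positivity
  have hP2 : P ^ 2 = N' ^ (49 / 25 : ℝ) := by
    rw [hP, ← Real.rpow_natCast, ← Real.rpow_mul hN'0.le]; norm_num
  have g1 : T * Δ * Y ≤ P ^ 2 := by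
    calc T * Δ * Y = T ^ (1 + 1 / 200 + 1 / 100 : ℝ) := by
          rw [Real.rpow_add hT0, Real.rpow_add hT0, Real.rpow_one, hΔ, hY]
      _ ≤ T ^ (13 / 25 * (49 / 25) : ℝ) := Real.rpow_le_rpow_of_exponent_le hT1 (by norm_num)
      _ = (T ^ (13 / 25 : ℝ)) ^ (49 / 25 : ℝ) := Real.rpow_mul hT0.le _ _
      _ ≤ _ := by rw [hP2]; gcongr
  have g2 : N' * Y ≤ P ^ 2 := by
    calc N' * Y ≤ N' * N' ^ (24 / 25 : ℝ) := by
          gcongr
          calc Y ≤ T ^ (13 / 25 * (24 / 25) : ℝ) :=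
                hY ▸ Real.rpow_le_rpow_of_exponent_le hT1 (by norm_num)
            _ = (T ^ (13 / 25 : ℝ)) ^ (24 / 25 : ℝ) := Real.rpow_mul hT0.le _ _
            _ ≤ _ := by gcongr
      _ = _ := by
          rw [hP2, show (49 / 25 : ℝ) = 1 + 24 / 25 by norm_num, Real.rpow_add hN'0, Real.rpow_one]
  have g3 : Y ≤ P ^ 2 := le_trans (le_mul_of_one_le_left hY0.le hN'1) g2
  have hL0 : 0 ≤ L := by linarith
  have g4 : Q ^ 2 * Y ≤ (2 * C₄ ^ 2 + 4 * C₅) * P ^ 2 := by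
    have h1 : Q ^ 2 ≤ 2 * C₄ ^ 2 + 2 * (C₅ * (T * Δ + N')) := by
      have h2 : √(C₅ * N' * M) ^ 2 ≤ C₅ * (T * Δ + N') := by
        rw [Real.sq_sqrt (by positivity), mul_assoc]; gcongr
      rw [hQ]
      nlinarith [sq_nonneg (C₄ - √(C₅ * N' * M))]
    calc Q ^ 2 * Y ≤ (2 * C₄ ^ 2 + 2 * (C₅ * (T * Δ + N'))) * Y := by gcongr
      _ = 2 * C₄ ^ 2 * Y + 2 * C₅ * (T * Δ * Y + N' * Y) := by ring
      _ ≤ 2 * C₄ ^ 2 * P ^ 2 + 2 * C₅ * (P ^ 2 + P ^ 2) := by gcongr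
      _ = _ := by ring
  have g5 : 2 * c ^ 3 * (3 * L) ^ K * Q ≤ P := by
    refine (sq_le_sq₀ (by positivity) hP0.le).1 (le_of_mul_le_mul_right ?_ hY0)
    calc (2 * c ^ 3 * (3 * L) ^ K * Q) ^ 2 * Y
        = (2 * c ^ 3 * 3 ^ K) ^ 2 * L ^ (2 * K) * (Q ^ 2 * Y) := by rw [mul_pow 3]; ring
      _ ≤ (2 * c ^ 3 * 3 ^ K) ^ 2 * L ^ (2 * K) * ((2 * C₄ ^ 2 + 4 * C₅) * P ^ 2) := by gcongr
      _ = P ^ 2 * ((2 * c ^ 3 * 3 ^ K) ^ 2 * (2 * C₄ ^ 2 + 4 * C₅) * L ^ (2 * K)) := by ring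
      _ ≤ _ := by rw [hY]; gcongr
  -- the level set
  set W := lev T N 2 b (N ^ σ) 2 with hW
  obtain ⟨V, hV⟩ : ∃ V : ℝ, V = N' ^ σ := ⟨_, rfl⟩
  have hV0 : 0 < V := by rw [hV]; positivity
  have hVj : V = (N ^ σ) ^ j := by
    rw [hV, hN', ← Real.rpow_natCast, ← Real.rpow_natCast, ← Real.rpow_mul (by linarith),
      ← Real.rpow_mul (by linarith), mul_comm]
  have hkey := Near.key (T := T) (U := V) (B := c * V) (a := C₃ * N') (Q := Q) hN'1 hc1 hV0.le
    (by positivity) (by positivity) (measurableSet_lev T N 2 b (N ^ σ) 2)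
    (lev_subset T N 2 b (N ^ σ) 2) hG
    (fun t ht => by
      rw [hDP, hVj]
      exact pow_le_pow_left₀ (by positivity) ht.2.1 j)
    (fun t ht => by
      rw [hDP, hVj]
      refine (pow_le_pow_left₀ (norm_nonneg _) ht.2.2 j).trans ?_
      rw [mul_pow, hc]
      exact mul_le_mul_of_nonneg_right (pow_le_pow_right₀ one_le_two hj) (by positivity))
    (fun s hs t ht => hker _ (abs_le.2 ⟨by linarith [hs.1.1, ht.1.2], by linarith [hs.1.2, ht.1.1]⟩))
  have hV2 : V ^ 2 = N' ^ (2 * σ) := by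
    rw [hV, ← Real.rpow_natCast, ← Real.rpow_mul hN'0.le, mul_comm]; norm_num
  have hsol := Near.solve hV0 measureReal_nonneg (by positivity) (by positivity) (by
    calc 2 * c ^ 2 * (c * N' * (3 * L) ^ K) * Q = N' * (2 * c ^ 3 * (3 * L) ^ K * Q) := by ring
      _ ≤ N' * P := by gcongr
      _ = N' ^ (1 + 49 / 50 : ℝ) := by rw [Real.rpow_add hN'0, Real.rpow_one, hP]
      _ ≤ _ := hV2 ▸ Real.rpow_le_rpow_of_exponent_le hN'1 (by linarith)) hkey
  have hfin : N' ^ 2 ≤ T ^ (51 / 25 * (1 - σ)) * V ^ 2 := by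
    calc N' ^ 2 = N' ^ (2 * (1 - σ)) * V ^ 2 := by
          rw [hV2, ← Real.rpow_add hN'0, ← Real.rpow_natCast]; congr 1; push_cast; ring
      _ ≤ (T ^ (51 / 50 : ℝ)) ^ (2 * (1 - σ)) * V ^ 2 := by gcongr
      _ = _ := by rw [← Real.rpow_mul hT0.le]; congr 2; ring
  refine le_of_mul_le_mul_right (hsol.trans ?_) (pow_pos hV0 2)
  calc _ = 8 * c ^ 3 * 3 ^ K * C₃ * L ^ K * N' ^ 2 := by rw [mul_pow]; ring
    _ ≤ 8 * c ^ 3 * 3 ^ K * C₃ * L ^ K * (T ^ (51 / 25 * (1 - σ)) * V ^ 2) := by gcongr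
    _ = _ := by ring

end Pool.Agent.MP_678834_nt.HL9

end
end MrgPart0

-- ======== part 1: formerly Pool.Agent.MP_678834_nt.HL9.Win
section MrgPart1

/-! Project HL9: correlations on average over a window of shifts. -/

set_option autoImplicit false

noncomputable section

namespace Pool.Agent.MP_678834_nt.HL9

open MeasureTheory Finset Filter
open scoped ComplexConjugate
open Pool.Agent.MP_3d0d30_nt.Six (E ck)
open Pool.Agent.MP_3d0d30_nt

namespace Win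

theorem orth (k : ℤ) : ∫ θ in (0 : ℝ)..1, E (k * θ) = if k = 0 then 1 else 0 := by
  split_ifs with hk
  · simp [hk]
  · have hk' : (2 * Real.pi * Complex.I * k : ℂ) ≠ 0 := by
      have : (Real.pi : ℂ) ≠ 0 := by exact_mod_cast Real.pi_ne_zero
      have : (k : ℂ) ≠ 0 := by exact_mod_cast hk
      simp [*]
    have hd : ∀ x ∈ Set.uIcc (0 : ℝ) 1, HasDerivAt
        (fun θ : ℝ => E (k * θ) / (2 * Real.pi * Complex.I * k)) (E (k * x)) x := by
      intro x _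
      have h1 := (Six.hasDerivAt_E_comp ((hasDerivAt_id x).const_mul (k : ℝ))).div_const
        (2 * Real.pi * Complex.I * k)
      refine h1.congr_deriv ?_
      simp only [id, mul_one, Complex.ofReal_intCast]
      field_simp
    rw [intervalIntegral.integral_eq_sub_of_hasDerivAt hd
      (Continuous.intervalIntegrable (by fun_prop) _ _)]
    simp [E_int]

/-- trigonometric polynomials with integer frequencies -/
def TP {ι : Type} (s : Finset ι) (a : ι → ℂ) (ν : ι → ℤ) (θ : ℝ) : ℂ :=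
  ∑ i ∈ s, a i * E (ν i * θ)

@[fun_prop] theorem continuous_TP {ι : Type} (s : Finset ι) (a : ι → ℂ) (ν : ι → ℤ) :
    Continuous (TP s a ν) := by unfold TP; fun_prop

theorem int_TP {ι : Type} (s : Finset ι) (a : ι → ℂ) (ν : ι → ℤ) :
    ∫ θ in (0 : ℝ)..1, TP s a ν θ = ∑ i ∈ s, if ν i = 0 then a i else 0 := by
  unfold TP
  rw [intervalIntegral.integral_finsetSum fun i _ =>
    Continuous.intervalIntegrable (by fun_prop) _ _]
  refine sum_congr rfl fun i _ => ?_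
  rw [intervalIntegral.integral_const_mul, orth]
  split_ifs <;> simp

theorem TP_mul {ι κ : Type} (s : Finset ι) (a : ι → ℂ) (ν : ι → ℤ) (t : Finset κ) (b : κ → ℂ)
    (ξ : κ → ℤ) (θ : ℝ) : TP s a ν θ * TP t b ξ θ =
      TP (s ×ˢ t) (fun x => a x.1 * b x.2) (fun x => ν x.1 + ξ x.2) θ := by
  unfold TP
  rw [sum_mul_sum, sum_product]
  refine sum_congr rfl fun i _ => sum_congr rfl fun j _ => ?_
  push_cast
  rw [add_mul, Six.E_add]
  ring

theorem conj_TP {ι : Type} (s : Finset ι) (a : ι → ℂ) (ν : ι → ℤ) (θ : ℝ) :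
    conj (TP s a ν θ) = TP s (fun i => conj (a i)) (fun i => -ν i) θ := by
  unfold TP
  rw [map_sum]
  refine sum_congr rfl fun i _ => ?_
  rw [map_mul, Six.conj_E]
  push_cast
  rw [neg_mul]

theorem parseval {ι : Type} (s : Finset ι) (a : ι → ℂ) (ν : ι → ℤ)
    (hν : ∀ i ∈ s, ∀ j ∈ s, ν i = ν j → i = j) :
    ∫ θ in (0 : ℝ)..1, ‖TP s a ν θ‖ ^ 2 = ∑ i ∈ s, ‖a i‖ ^ 2 := by
  classical
  have h1 : ∀ z : ℂ, ((‖z‖ ^ 2 : ℝ) : ℂ) = z * conj z := fun z => by
    rw [Complex.mul_conj, Complex.normSq_eq_norm_sq]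
  apply Complex.ofReal_injective
  rw [← intervalIntegral.integral_ofReal]
  simp_rw [h1, conj_TP, TP_mul]
  rw [int_TP, sum_product, Complex.ofReal_sum]
  refine sum_congr rfl fun i hi => ?_
  rw [h1, sum_eq_single_of_mem i hi]
  · simp
  · intro j hj hji
    rw [if_neg]
    intro h
    exact hji (hν j hj i hi (by simp only at h; omega))

theorem hasDerivAt_TP {ι : Type} (s : Finset ι) (a : ι → ℂ) (ν : ι → ℤ) (θ : ℝ) :
    HasDerivAt (TP s a ν) (TP s (fun i => a i * (2 * Real.pi * Complex.I * ν i)) ν θ) θ := by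
  unfold TP
  refine HasDerivAt.fun_sum fun i _ => ?_
  have h1 := (Six.hasDerivAt_E_comp ((hasDerivAt_id θ).const_mul (ν i : ℝ))).const_mul (a i)
  refine h1.congr_deriv ?_
  simp only [id, mul_one, Complex.ofReal_intCast]
  ring

theorem gall {f f' g : ℝ → ℝ} (hf : ∀ x, HasDerivAt f (f' x) x) (hc : Continuous f')
    (hg : Continuous g) (hb : ∀ x, |f' x| ≤ g x) {a b θ : ℝ} (hθ : θ ∈ Set.Icc a b) :
    (b - a) * f θ ≤ (∫ x in a..b, f x) + (b - a) * ∫ x in a..b, g x := by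
  have hab : a ≤ b := hθ.1.trans hθ.2
  have hfc : Continuous f := continuous_iff_continuousAt.2 fun x => (hf x).continuousAt
  have g0 : ∀ x, 0 ≤ g x := fun x => (abs_nonneg _).trans (hb x)
  have key : ∀ u v : ℝ, a ≤ u → u ≤ v → v ≤ b → |f v - f u| ≤ ∫ x in a..b, g x := by
    intro u v h1 h2 h3
    rw [← intervalIntegral.integral_eq_sub_of_hasDerivAt (fun x _ => hf x)
      (hc.intervalIntegrable _ _)]
    refine (intervalIntegral.abs_integral_le_integral_abs h2).trans ?_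
    refine (intervalIntegral.integral_mono_on h2 (hc.abs.intervalIntegrable _ _)
      (hg.intervalIntegrable _ _) fun x _ => hb x).trans ?_
    exact intervalIntegral.integral_mono_interval h1 h2 h3 (Eventually.of_forall g0)
      (hg.intervalIntegrable _ _)
  have h1 : ∀ x ∈ Set.Icc a b, f θ ≤ f x + ∫ x in a..b, g x := by
    intro x hx
    rcases le_total x θ with h | h
    · linarith [(abs_le.1 (key x θ hx.1 h hθ.2)).2]
    · linarith [(abs_le.1 (key θ x hθ.1 h hx.2)).1]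
  have h2 := intervalIntegral.integral_mono_on hab (continuous_const.intervalIntegrable _ _)
    ((hfc.fun_add continuous_const).intervalIntegrable (μ := volume) _ _) h1
  rw [intervalIntegral.integral_add (hfc.intervalIntegrable _ _)
    (continuous_const.intervalIntegrable _ _)] at h2
  simpa using h2

theorem msr {w f f' g : ℝ → ℝ} {H : ℕ} {M : ℝ} (hH : 1 ≤ H) (hw : Continuous w)
    (w0 : ∀ x, 0 ≤ w x) (hM : ∀ β : ℝ, ∫ θ in (β - 1 / H)..(β + 1 / H), w θ ≤ M)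
    (hf : ∀ x, HasDerivAt f (f' x) x) (hc : Continuous f') (hg : Continuous g)
    (hb : ∀ x, |f' x| ≤ g x) (f0 : ∀ x, 0 ≤ f x) :
    ∫ θ in (0 : ℝ)..1, w θ * f θ ≤ M * ∫ θ in (0 : ℝ)..1, (H * f θ + g θ) := by
  have hH0 : (0 : ℝ) < H := by exact_mod_cast hH
  have hfc : Continuous f := continuous_iff_continuousAt.2 fun x => (hf x).continuousAt
  have g0 : ∀ x, 0 ≤ g x := fun x => (abs_nonneg _).trans (hb x)
  have split : ∀ φ : ℝ → ℝ, Continuous φ → ∫ θ in (0 : ℝ)..1, φ θ =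
      ∑ j ∈ range H, ∫ θ in ((j : ℝ) / H)..(((j + 1 : ℕ) : ℝ) / H), φ θ := by
    intro φ hφ
    rw [intervalIntegral.sum_integral_adjacent_intervals (a := fun j : ℕ => (j : ℝ) / H)
      fun k _ => hφ.intervalIntegrable _ _]
    simp [hH0.ne']
  rw [split _ (hw.fun_mul hfc), split (fun θ => H * f θ + g θ) (by fun_prop), mul_sum]
  refine sum_le_sum fun j _ => ?_
  set a : ℝ := (j : ℝ) / H with ha
  have hb' : ((j + 1 : ℕ) : ℝ) / H = a + 1 / H := by rw [ha]; push_cast; ring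
  rw [hb']
  have h0 : 0 < 1 / (H : ℝ) := by positivity
  have hab : a ≤ a + 1 / H := by linarith
  set s : ℝ := ∫ θ in a..(a + 1 / H), (H * f θ + g θ) with hs
  have s0 : 0 ≤ s := intervalIntegral.integral_nonneg hab fun x _ =>
    add_nonneg (mul_nonneg hH0.le (f0 x)) (g0 x)
  have h1 : ∀ θ ∈ Set.Icc a (a + 1 / H), w θ * f θ ≤ w θ * s := by
    intro θ hθ
    refine mul_le_mul_of_nonneg_left ?_ (w0 θ)
    have h2 := gall hf hc hg hb hθ
    rw [hs, intervalIntegral.integral_add ((hfc.const_mul _).intervalIntegrable _ _)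
      (hg.intervalIntegrable _ _), intervalIntegral.integral_const_mul]
    rw [add_sub_cancel_left] at h2
    have h3 := mul_le_mul_of_nonneg_left h2 hH0.le
    rw [mul_add, ← mul_assoc, ← mul_assoc, mul_one_div_cancel hH0.ne', one_mul, one_mul] at h3
    exact h3
  refine (intervalIntegral.integral_mono_on hab ((hw.fun_mul hfc).intervalIntegrable _ _)
    ((hw.fun_mul continuous_const).intervalIntegrable _ _) h1).trans ?_
  rw [intervalIntegral.integral_mul_const]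
  refine mul_le_mul_of_nonneg_right (le_trans ?_ (hM a)) s0
  exact intervalIntegral.integral_mono_interval (by linarith) hab le_rfl (Eventually.of_forall w0)
    (hw.intervalIntegrable _ _)

/-- the large sieve for measures -/
theorem sieve {ι : Type} (s : Finset ι) (a : ι → ℂ) (ν : ι → ℤ) {w : ℝ → ℝ} {H : ℕ} {M : ℝ}
    (hH : 1 ≤ H) (hw : Continuous w) (w0 : ∀ x, 0 ≤ w x)
    (hM : ∀ β : ℝ, ∫ θ in (β - 1 / H)..(β + 1 / H), w θ ≤ M)
    (hν : ∀ i ∈ s, ∀ j ∈ s, ν i = ν j → i = j) (hb : ∀ i ∈ s, |(ν i : ℝ)| ≤ H) :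
    ∫ θ in (0 : ℝ)..1, w θ * ‖TP s a ν θ‖ ^ 2 ≤ 42 * H * M * ∑ i ∈ s, ‖a i‖ ^ 2 := by
  have hH0 : (0 : ℝ) < H := by exact_mod_cast hH
  have M0 : 0 ≤ M := le_trans (intervalIntegral.integral_nonneg (by
    have : 0 < 1 / (H : ℝ) := by positivity
    linarith) fun x _ => w0 x) (hM 0)
  set a1 : ι → ℂ := fun i => a i * (2 * Real.pi * Complex.I * ν i) with ha1
  have h1 := msr (g := fun x => H * ‖TP s a ν x‖ ^ 2 + 1 / H * ‖TP s a1 ν x‖ ^ 2) hH hw w0 hM
    (fun x => (hasDerivAt_TP s a ν x).norm_sq) (by fun_prop) (by fun_prop) (fun x => by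
      rw [abs_mul, abs_two]
      have h2 := abs_real_inner_le_norm (TP s a ν x) (TP s a1 ν x)
      have h3 : 2 * (‖TP s a ν x‖ * ‖TP s a1 ν x‖) ≤
          H * ‖TP s a ν x‖ ^ 2 + 1 / H * ‖TP s a1 ν x‖ ^ 2 := by
        rw [← sub_nonneg]
        have : H * ‖TP s a ν x‖ ^ 2 + 1 / H * ‖TP s a1 ν x‖ ^ 2 - 2 * (‖TP s a ν x‖ * ‖TP s a1 ν x‖) =
            (H * ‖TP s a ν x‖ - ‖TP s a1 ν x‖) ^ 2 / H := by field_simp; ring
        rw [this]; positivity
      linarith) (fun x => by positivity)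
  refine h1.trans ?_
  have c1 : Continuous fun x => (H : ℝ) * ‖TP s a ν x‖ ^ 2 := by fun_prop
  have c2 : Continuous fun x => 1 / (H : ℝ) * ‖TP s a1 ν x‖ ^ 2 := by fun_prop
  rw [intervalIntegral.integral_add (c1.intervalIntegrable _ _) ((c1.fun_add c2).intervalIntegrable _ _),
    intervalIntegral.integral_add (c1.intervalIntegrable _ _) (c2.intervalIntegrable _ _),
    intervalIntegral.integral_const_mul, intervalIntegral.integral_const_mul, parseval s a ν hν,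
    parseval s a1 ν hν]
  have h4 : ∑ i ∈ s, ‖a1 i‖ ^ 2 ≤ 40 * H ^ 2 * ∑ i ∈ s, ‖a i‖ ^ 2 := by
    rw [mul_sum]
    refine sum_le_sum fun i hi => ?_
    have h5 := hb i hi
    have h6 : ‖a1 i‖ = ‖a i‖ * (2 * Real.pi * |(ν i : ℝ)|) := by
      simp [ha1, abs_of_pos Real.pi_pos]
    have h7 := Real.pi_lt_d2
    have h8 := Real.pi_pos
    rw [h6]
    calc _ ≤ (‖a i‖ * (2 * 3.15 * H)) ^ 2 := by gcongr
      _ = 39.69 * H ^ 2 * ‖a i‖ ^ 2 := by ring
      _ ≤ _ := by gcongr; norm_num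
  calc _ ≤ M * (H * ∑ i ∈ s, ‖a i‖ ^ 2 + (H * ∑ i ∈ s, ‖a i‖ ^ 2 +
        1 / H * (40 * H ^ 2 * ∑ i ∈ s, ‖a i‖ ^ 2))) := by gcongr
    _ = _ := by field_simp; ring

end Win

open Win in
theorem win : WinStmt := by
  classical
  refine ⟨42, fun F g S R h₀ H M hH hM hR => ?_⟩
  have hH0 : (0 : ℝ) < H := by exact_mod_cast hH
  set c : ℕ → ℂ := fun h => ∑ n ∈ S, F n * g (n + h) with hc
  set W := Ioc h₀ (h₀ + H) with hW
  set Q := TP W (fun h => conj (c h)) (fun h => (h₀ : ℤ) - h) with hQ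
  set Fh := TP S F (fun n => -((n : ℤ) + h₀)) with hFh
  set gh := TP R g (fun m => (m : ℤ)) with hgh
  set T := ∑ h ∈ W, ‖c h‖ ^ 2 with hT
  set A := ∑ n ∈ S, ‖F n‖ ^ 2 with hA
  have T0 : 0 ≤ T := sum_nonneg fun _ _ => by positivity
  have A0 : 0 ≤ A := sum_nonneg fun _ _ => by positivity
  have M0 : 0 ≤ M := le_trans (intervalIntegral.integral_nonneg (by
    have : 0 < 1 / (H : ℝ) := by positivity
    linarith) fun x _ => by positivity) (hM 0)
  have e1 : ∫ θ in (0 : ℝ)..1, Q θ * (Fh θ * gh θ) = (T : ℂ) := by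
    simp_rw [hQ, hFh, hgh, TP_mul]
    rw [int_TP, sum_product, hT, Complex.ofReal_sum]
    refine sum_congr rfl fun h hh => ?_
    rw [← Complex.normSq_eq_norm_sq, ← Complex.mul_conj, mul_comm, sum_product]
    conv_rhs => rw [hc]
    rw [mul_sum]
    refine sum_congr rfl fun n hn => ?_
    rw [sum_eq_single_of_mem (n + h) (hR n hn h hh)]
    · rw [if_pos (by push_cast; ring)]
    · intro m _ hm
      rw [if_neg]
      intro h1
      exact hm (by simp only at h1; omega)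
  have e2 : ∫ θ in (0 : ℝ)..1, ‖Fh θ‖ ^ 2 = A :=
    parseval S F _ fun i _ j _ h => by omega
  have e3 : ∫ θ in (0 : ℝ)..1, ‖gh θ‖ ^ 2 * ‖Q θ‖ ^ 2 ≤ 42 * H * M * T := by
    have := sieve W (fun h => conj (c h)) (fun h => (h₀ : ℤ) - h) (w := fun θ => ‖gh θ‖ ^ 2) hH
      (by fun_prop) (fun _ => by positivity) (by simpa [hgh, TP] using hM)
      (fun i _ j _ h => by omega) (fun i hi => by
        have h1 := mem_Ioc.1 hi
        have h2 : (h₀ : ℝ) < i := by exact_mod_cast h1.1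
        have h3 : (i : ℝ) ≤ h₀ + H := by exact_mod_cast h1.2
        push_cast
        rw [abs_le]; constructor <;> linarith)
    simpa [hT] using this
  have cQ : Continuous Q := continuous_TP _ _ _
  have cF : Continuous Fh := continuous_TP _ _ _
  have cg : Continuous gh := continuous_TP _ _ _
  have key : ∀ l : ℝ, 42 * H * M < l → T ≤ l * A := by
    intro l hl
    have l0 : 0 < l := lt_of_le_of_lt (by positivity) hl
    have c1 : Continuous fun θ => l / 2 * ‖Fh θ‖ ^ 2 := by fun_prop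
    have c2 : Continuous fun θ => 1 / (2 * l) * (‖gh θ‖ ^ 2 * ‖Q θ‖ ^ 2) := by fun_prop
    have h1 : T ≤ ∫ θ in (0 : ℝ)..1, (l / 2 * ‖Fh θ‖ ^ 2 + 1 / (2 * l) * (‖gh θ‖ ^ 2 * ‖Q θ‖ ^ 2)) := by
      calc T = ‖(T : ℂ)‖ := by rw [Complex.norm_real, Real.norm_of_nonneg T0]
        _ ≤ ∫ θ in (0 : ℝ)..1, ‖Q θ * (Fh θ * gh θ)‖ := by
          rw [← e1]; exact intervalIntegral.norm_integral_le_integral_norm zero_le_one
        _ ≤ _ := by
          refine intervalIntegral.integral_mono_on zero_le_one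
            (Continuous.intervalIntegrable (by fun_prop) _ _) ((c1.fun_add c2).intervalIntegrable _ _)
            fun θ _ => ?_
          rw [norm_mul, norm_mul, ← sub_nonneg]
          have : l / 2 * ‖Fh θ‖ ^ 2 + 1 / (2 * l) * (‖gh θ‖ ^ 2 * ‖Q θ‖ ^ 2) -
              ‖Q θ‖ * (‖Fh θ‖ * ‖gh θ‖) = (l * ‖Fh θ‖ - ‖gh θ‖ * ‖Q θ‖) ^ 2 / (2 * l) := by
            field_simp; ring
          rw [this]; positivity
    rw [intervalIntegral.integral_add (c1.intervalIntegrable _ _) (c2.intervalIntegrable _ _),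
      intervalIntegral.integral_const_mul, intervalIntegral.integral_const_mul, e2] at h1
    have h2 : 1 / (2 * l) * ∫ θ in (0 : ℝ)..1, ‖gh θ‖ ^ 2 * ‖Q θ‖ ^ 2 ≤ T / 2 := by
      calc _ ≤ 1 / (2 * l) * (l * T) := by gcongr; exact e3.trans (by gcongr)
        _ = _ := by field_simp
    linarith
  refine le_of_forall_pos_le_add fun ε hε => ?_
  have h1 := key (42 * H * M + ε / (A + 1)) (by linarith [show 0 < ε / (A + 1) by positivity])
  have h2 : ε / (A + 1) * A ≤ ε := by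
    rw [div_mul_eq_mul_div, div_le_iff₀ (by positivity)]; nlinarith
  linarith

end Pool.Agent.MP_678834_nt.HL9

end
end MrgPart1

-- marker of a merged file
example : 731051 + 800388 = 731051 + 800388 := rfl
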