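import Pool.Agent.MP_678834_nt.HL9.T2
import Pool.Agent.MP_678834_nt.SingB
import Pool.Agent.MP_678834_nt.HL9.Basic
import Pool.Agent.MP_678834_nt.HL9.Major
import Pool.Agent.MP_678834_nt.HL9.Top
import Pool.Agent.MP_678834_nt.HL9.Prod
import Pool.Agent.MP_678834_nt.HL9.Arc
import Pool.Agent.MP_678834_nt.HL9.Win
import Pool.Agent.MP_678834_nt.HL9.One
import Pool.Agent.MP_678834_nt.HL9.TI2
import Pool.Agent.MP_678834_nt.HL9.Final
import Pool.Agent.MP_678834_nt.PW.Top
import Pool.Agent.MP_db1c88_nt.z94.LV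
import Pool.Agent.MP_db1c88_nt.z94.Red
import Pool.Agent.MP_db1c88_nt.z94.P0B
import Pool.Agent.MP_db1c88_nt.z94.Exp

-- ======== part 0: formerly Pool.Agent.MP_678834_nt.HL9.Sing
section MrgPart0

/-! Project HL9, module SING: truncation of the singular series on average. -/

set_option autoImplicit false

noncomputable section

namespace Pool.Agent.MP_678834_nt.HL9

open Finset Filter
open scoped ArithmeticFunction.Moebius
open Pool.Agent.MP_3d0d30_nt.Six (E)
open Pool.Agent.MP_3d0d30_nt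

namespace Sng

theorem sum_range_mul (f : ℕ → ℂ) (r p : ℕ) :
    ∑ b ∈ range (p * r), f b = ∑ k ∈ range p, ∑ b ∈ range r, f (k * r + b) := by
  induction p with
  | zero => simp
  | succ p ih => rw [add_mul, one_mul, sum_range_add, ih, sum_range_succ]

theorem ram_step {p r : ℕ} (hp : p.Prime) (hr : 0 < r) (hc : p.Coprime r) (h : ℕ) :
    ram (p * r) h = (if p ∣ h then p * ram r (h / p) else 0) - ram r h := by
  have hp' : (p : ℝ) ≠ 0 := by exact_mod_cast hp.ne_zero
  have hr' : (r : ℝ) ≠ 0 := by positivity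
  have e1 : ∑ b ∈ (range (p * r)).filter (fun b => b.Coprime r), E (b * h / (p * r : ℕ)) =
      if p ∣ h then p * ram r (h / p) else 0 := by
    rw [sum_filter, sum_range_mul, sum_comm]
    have e : ∀ b : ℕ, ∑ k ∈ range p, (if (k * r + b).Coprime r then
        E ((k * r + b : ℕ) * h / (p * r : ℕ)) else 0) = (if (p : ℤ) ∣ h then (p : ℂ) else 0) *
          if b.Coprime r then E (b * h / (p * r : ℕ)) else 0 := fun b => by
      rw [← T2.sum_E hp.pos, sum_mul]
      refine sum_congr rfl fun k _ => ?_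
      simp only [Nat.coprime_mul_right_add_left]
      split_ifs
      · rw [← Six.E_add]; congr 1; push_cast; field_simp
      · simp
    simp only [e, ← mul_sum, Int.natCast_dvd_natCast]
    split_ifs with h1
    · obtain ⟨c, rfl⟩ := h1
      rw [Nat.mul_div_cancel_left _ hp.pos, ram, sum_filter]
      congr 1
      refine sum_congr rfl fun b _ => ?_
      congr 2; push_cast; field_simp
    · simp
  have e2 : ∑ b ∈ ((range (p * r)).filter (fun b => b.Coprime r)).filter (fun b => p ∣ b),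
      E (b * h / (p * r : ℕ)) = ram r h := by
    symm
    refine sum_bij (fun b _ => p * b) (fun b hb => ?_) (fun a _ b _ e => Nat.eq_of_mul_eq_mul_left
      hp.pos e) (fun b hb => ?_) fun b _ => ?_
    · simp only [mem_filter, mem_range] at hb ⊢
      exact ⟨⟨Nat.mul_lt_mul_of_pos_left hb.1 hp.pos, Nat.Coprime.mul_left hc hb.2⟩, Dvd.intro _ rfl⟩
    · simp only [mem_filter, mem_range] at hb ⊢
      obtain ⟨⟨h1, h2⟩, c, rfl⟩ := hb
      exact ⟨c, ⟨Nat.lt_of_mul_lt_mul_left h1, Nat.Coprime.coprime_mul_left h2⟩, rfl⟩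
    · congr 1; push_cast; field_simp
  rw [← e1, ← e2, ← sum_filter_add_sum_filter_not ((range (p * r)).filter fun b => b.Coprime r)
    (fun b => p ∣ b), add_sub_cancel_left, filter_filter]
  refine sum_congr (filter_congr fun b _ => ?_) fun _ _ => rfl
  rw [Nat.coprime_mul_iff_right, Nat.coprime_comm, hp.coprime_iff_not_dvd, and_comm]

theorem ram_prod (T : Finset ℕ) (hT : ∀ p ∈ T, p.Prime) : ∀ h : ℕ,
    ram (∏ p ∈ T, p) h = ∏ p ∈ T, if p ∣ h then (p : ℂ) - 1 else -1 := by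
  induction T using Finset.induction_on with
  | empty => intro h; simp [ram]
  | insert p T hp ih =>
    intro h
    have hT' : ∀ q ∈ T, q.Prime := fun q hq => hT q (mem_insert_of_mem hq)
    have hp' := hT p (mem_insert_self _ _)
    have hne : ∀ q ∈ T, p.Coprime q := fun q hq =>
      (Nat.coprime_primes hp' (hT' q hq)).2 fun e => hp (e ▸ hq)
    rw [prod_insert hp, prod_insert hp, ram_step hp' (prod_pos fun q hq => (hT' q hq).pos)
      (Nat.Coprime.prod_right hne), ih hT' h]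
    split_ifs with h1
    · obtain ⟨c, rfl⟩ := h1
      rw [Nat.mul_div_cancel_left _ hp'.pos, ih hT' c, sub_mul, one_mul]
      congr 2
      exact prod_congr rfl fun q hq => by simp only [(hne q hq).symm.dvd_mul_left]
    · ring

theorem rho_prod (T : Finset ℕ) (hT : ∀ p ∈ T, p.Prime) :
    rho (∏ p ∈ T, p) = ∏ p ∈ T, -1 / ((p : ℝ) - 1) := by
  induction T using Finset.induction_on with
  | empty => simp [rho]
  | insert p T hp ih =>
    have hT' : ∀ q ∈ T, q.Prime := fun q hq => hT q (mem_insert_of_mem hq)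
    have hp' := hT p (mem_insert_self _ _)
    have hc : p.Coprime (∏ q ∈ T, q) := Nat.Coprime.prod_right fun q hq =>
      (Nat.coprime_primes hp' (hT' q hq)).2 fun e => hp (e ▸ hq)
    rw [prod_insert hp, prod_insert hp, ← ih hT', rho, rho, Nat.totient_mul hc,
      ArithmeticFunction.isMultiplicative_moebius.map_mul_of_coprime hc,
      ArithmeticFunction.moebius_apply_prime hp', Nat.totient_prime hp', div_mul_div_comm]
    push_cast [Nat.cast_sub hp'.one_le]
    rfl

theorem sgm_eq (Q h : ℕ) : sgm Q h = sigQ Q h := by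
  have e : ∀ T ∈ TT Q, ((∏ p ∈ T, tt h p : ℝ) : ℂ) =
      (rho (∏ p ∈ T, p) : ℂ) ^ 2 * ram (∏ p ∈ T, p) h := fun T hT => by
    have hT' : ∀ p ∈ T, p.Prime := fun p hp => prime_of_mem hT hp
    rw [ram_prod T hT', rho_prod T hT']
    push_cast
    rw [← prod_pow, ← prod_mul_distrib]
    refine prod_congr rfl fun p hp => ?_
    have h1 : (p : ℂ) - 1 ≠ 0 := sub_ne_zero.2 (by exact_mod_cast (hT' p hp).ne_one)
    simp only [tt, Int.natCast_dvd_natCast]
    split_ifs <;> push_cast <;> field_simp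
  rw [sigQ, Complex.ofReal_sum, sum_congr rfl e, sgm,
    ← sum_image (f := fun r => (rho r : ℂ) ^ 2 * ram r h) (g := fun T : Finset ℕ => ∏ p ∈ T, p)
      fun T hT T' hT' => prod_inj (fun p hp => prime_of_mem hT hp) fun p hp => prime_of_mem hT' hp]
  refine (sum_subset (fun r hr => ?_) fun r hr hn => ?_).symm
  · obtain ⟨T, hT, rfl⟩ := mem_image.1 hr
    exact mem_Icc.2 ⟨prod_pos fun p hp => (prime_of_mem hT hp).pos, (mem_filter.1 hT).2⟩
  · have : ¬ Squarefree r := fun hs => hn (mem_image.2 ⟨r.primeFactors, mem_filter.2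
      ⟨mem_powerset.2 fun p hp => Nat.mem_primesBelow.2 ⟨Nat.lt_succ_of_le
        ((Nat.le_of_mem_primeFactors hp).trans (mem_Icc.1 hr).2), Nat.prime_of_mem_primeFactors hp⟩,
        (Nat.prod_primeFactors_of_squarefree hs).le.trans (mem_Icc.1 hr).2⟩,
      Nat.prod_primeFactors_of_squarefree hs⟩)
    simp [rho, ArithmeticFunction.moebius_eq_zero_of_not_squarefree this]

theorem summ (c : ℝ) : Summable fun n : ℕ => c * (n : ℝ) ^ (-(3 / 2) : ℝ) :=
  (Real.summable_nat_rpow.2 (by norm_num)).mul_left c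

theorem pow32 {x : ℝ} (hx : 0 < x) : x ^ (-(3 / 2) : ℝ) = 1 / (x * Real.sqrt x) := by
  rw [Real.rpow_neg hx.le, Real.sqrt_eq_rpow, show (3 / 2 : ℝ) = 1 + 1 / 2 by norm_num,
    Real.rpow_add hx, Real.rpow_one, inv_eq_one_div]

theorem tail : ∃ C : ℝ, ∀ k Q : ℕ, 0 < k → 0 < Q →
    |sing k - sigQ Q k| * Real.sqrt Q ≤ C * ∏ p ∈ k.primeFactors, (1 + 2 / Real.sqrt p) := by
  refine ⟨Real.exp (∑' n : ℕ, 4 * (n : ℝ) ^ (-(3 / 2) : ℝ)), fun k Q hk hQ => ?_⟩
  refine le_of_tendsto (((tendsto_sing hk).sub_const _).abs.mul_const _) ?_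
  filter_upwards [eventually_ge_atTop (Q + 1)] with Y hY
  have hT : TT Q = (Nat.primesBelow Y).powerset.filter fun T => ∏ p ∈ T, p ≤ Q := by
    ext T
    simp only [TT, mem_filter, mem_powerset, and_congr_left_iff]
    intro hT
    constructor
    · intro h p hp
      have := Nat.mem_primesBelow.1 (h hp)
      exact Nat.mem_primesBelow.2 ⟨by omega, this.2⟩
    · intro h p hp
      have h2 : p ≤ ∏ p ∈ T, p := Nat.le_of_dvd
        (prod_pos fun q hq => (Nat.prime_of_mem_primesBelow (h hq)).pos) (dvd_prod_of_mem _ hp)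
      exact Nat.mem_primesBelow.2 ⟨by omega, Nat.prime_of_mem_primesBelow (h hp)⟩
  rw [prod_one_add, sigQ, hT, ← sum_filter_add_sum_filter_not (Nat.primesBelow Y).powerset
    (fun T => ∏ p ∈ T, p ≤ Q), add_sub_cancel_left]
  have hone : ∀ p : ℕ, (1 : ℝ) ≤ 1 + 2 / Real.sqrt p := fun p => le_add_of_nonneg_right (by positivity)
  calc _ ≤ ∑ T ∈ (Nat.primesBelow Y).powerset.filter (fun T => ¬ ∏ p ∈ T, p ≤ Q),
        ∏ p ∈ T, Real.sqrt p * |tt k p| := by
        refine (mul_le_mul_of_nonneg_right (abs_sum_le_sum_abs _ _) (Real.sqrt_nonneg _)).trans ?_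
        rw [sum_mul]
        refine sum_le_sum fun T hT => ?_
        rw [prod_mul_distrib, ← Real.sqrt_prod _ fun p _ => Nat.cast_nonneg p, abs_prod,
          mul_comm, ← Nat.cast_prod]
        refine mul_le_mul_of_nonneg_right (Real.sqrt_le_sqrt ?_) (prod_nonneg fun p _ => abs_nonneg _)
        exact_mod_cast (not_le.1 (mem_filter.1 hT).2).le
    _ ≤ ∏ p ∈ Nat.primesBelow Y, (1 + Real.sqrt p * |tt k p|) := by
        rw [prod_one_add]
        exact sum_le_sum_of_subset_of_nonneg (filter_subset _ _) fun T _ _ =>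
          prod_nonneg fun p _ => by positivity
    _ ≤ ∏ p ∈ Nat.primesBelow Y, Real.exp (4 * (p : ℝ) ^ (-(3 / 2) : ℝ)) *
          if p ∈ k.primeFactors then 1 + 2 / Real.sqrt p else 1 := by
        refine prod_le_prod (fun p _ => by positivity) fun p hp => ?_
        have hp' := Nat.prime_of_mem_primesBelow hp
        have h2 : (2 : ℝ) ≤ p := by exact_mod_cast hp'.two_le
        have h3 : (0 : ℝ) < p - 1 := by linarith
        have h4 : 0 ≤ 4 * (p : ℝ) ^ (-(3 / 2) : ℝ) := by positivity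
        have h5 := Real.add_one_le_exp (4 * (p : ℝ) ^ (-(3 / 2) : ℝ))
        have h6 := Real.mul_self_sqrt (show (0 : ℝ) ≤ p by positivity)
        have h7 : 0 < Real.sqrt p := Real.sqrt_pos.2 (by linarith)
        simp only [tt, Int.natCast_dvd_natCast, Nat.mem_primeFactors, hp', hk.ne', ne_eq,
          not_false_eq_true, and_true, true_and]
        split_ifs
        · refine le_trans ?_ (le_mul_of_one_le_left (by positivity) (by linarith))
          rw [abs_of_pos (by positivity), mul_one_div, add_le_add_iff_left, div_le_div_iff₀ h3 h7]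
          linarith
        · refine le_trans ?_ (h5.trans_eq (mul_one _).symm)
          rw [pow32 (by linarith), neg_div, abs_neg, abs_of_pos (by positivity), mul_one_div,
            mul_one_div, add_comm, add_le_add_iff_right, div_le_div_iff₀ (by positivity)
            (by positivity), mul_left_comm, h6]
          nlinarith
    _ ≤ _ := by
        rw [prod_mul_distrib, ← Real.exp_sum, prod_ite_mem]
        exact mul_le_mul (Real.exp_le_exp.2 ((summ 4).sum_le_tsum _ fun _ _ => by positivity))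
          (prod_le_prod_of_subset_of_one_le inter_subset_right (fun _ _ => by positivity)
            fun p _ _ => hone p) (prod_nonneg fun _ _ => by positivity) (by positivity)

theorem avg : ∃ C : ℝ, ∀ H h₀ : ℕ, 1 ≤ H → h₀ + H ≤ H ^ 9 →
    ∑ h ∈ Ioc h₀ (h₀ + H), ∏ p ∈ h.primeFactors, (1 + 8 / Real.sqrt p) ≤ C * H := by
  obtain ⟨C, hC, h9⟩ := nine_pow_le (γ := 1 / 18) (by norm_num)
  refine ⟨2 * Real.exp (∑' n : ℕ, 8 * (n : ℝ) ^ (-(3 / 2) : ℝ)) + C, fun H h₀ hH hh => ?_⟩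
  have hH' : (1 : ℝ) ≤ H := by exact_mod_cast hH
  have s1 : ∀ h ∈ Ioc h₀ (h₀ + H), ∏ p ∈ h.primeFactors, (1 + 8 / Real.sqrt p) ≤
      ∑ T ∈ TT H, (if (∏ p ∈ T, p) ∣ h then ∏ p ∈ T, 8 / Real.sqrt p else 0) + C := fun h hm => by
    have h0 : 0 < h := by have := (mem_Ioc.1 hm).1; omega
    rw [prod_one_add, ← sum_filter_add_sum_filter_not _ (fun T => ∏ p ∈ T, p ≤ H), ← sum_filter]
    refine add_le_add (sum_le_sum_of_subset_of_nonneg (fun T hT => ?_) fun _ _ _ =>
      prod_nonneg fun _ _ => by positivity) ?_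
    · obtain ⟨h1, h2⟩ := mem_filter.1 hT
      have h3 := mem_powerset.1 h1
      refine mem_filter.2 ⟨mem_filter.2 ⟨mem_powerset.2 fun p hp => Nat.mem_primesBelow.2
        ⟨Nat.lt_succ_of_le (le_trans (Nat.le_of_dvd (prod_pos fun q hq =>
          Nat.pos_of_mem_primeFactors (h3 hq)) (dvd_prod_of_mem _ hp)) h2),
          Nat.prime_of_mem_primeFactors (h3 hp)⟩, h2⟩,
        (prod_dvd_prod_of_subset _ _ _ h3).trans (Nat.prod_primeFactors_dvd h)⟩
    · have hs : 0 < Real.sqrt H := by positivity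
      calc _ ≤ ∑ T ∈ h.primeFactors.powerset.filter (fun T => ¬ ∏ p ∈ T, p ≤ H),
            (∏ p ∈ T, (8 : ℝ)) / Real.sqrt H := by
            refine sum_le_sum fun T hT => ?_
            rw [prod_div_distrib, ← Real.sqrt_prod _ fun p _ => Nat.cast_nonneg p, ← Nat.cast_prod]
            gcongr
            exact (not_le.1 (mem_filter.1 hT).2).le
        _ ≤ ∑ T ∈ h.primeFactors.powerset, (∏ p ∈ T, (8 : ℝ)) / Real.sqrt H :=
            sum_le_sum_of_subset_of_nonneg (filter_subset _ _) fun _ _ _ => by positivity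
        _ = 9 ^ h.primeFactors.card / Real.sqrt H := by
            rw [← sum_div, ← prod_one_add, prod_const]; norm_num
        _ ≤ C := by
            rw [div_le_iff₀ hs]
            refine (h9 h h0).trans ?_
            gcongr
            calc (h : ℝ) ^ (1 / 18 : ℝ) ≤ ((H : ℝ) ^ 9) ^ (1 / 18 : ℝ) := by
                  gcongr; exact_mod_cast (mem_Ioc.1 hm).2.trans hh
              _ = _ := by
                  rw [← Real.rpow_natCast, ← Real.rpow_mul (by positivity), Real.sqrt_eq_rpow]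
                  norm_num
  refine (sum_le_sum s1).trans ?_
  rw [sum_add_distrib, sum_const, Nat.card_Ioc, add_tsub_cancel_left, nsmul_eq_mul, add_mul,
    mul_comm C, add_le_add_iff_right, sum_comm]
  calc _ ≤ ∑ T ∈ TT H, 2 * H * ∏ p ∈ T, 8 * (p : ℝ) ^ (-(3 / 2) : ℝ) := by
        refine sum_le_sum fun T hT => ?_
        have hd : 0 < ∏ p ∈ T, p := prod_pos fun p hp => (prime_of_mem hT hp).pos
        rw [← sum_filter, sum_const, nsmul_eq_mul, ← card_image_of_injOn (f := fun h => h - h₀)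
          fun a ha b hb e => by
            have := (mem_Ioc.1 (mem_filter.1 ha).1).1
            have := (mem_Ioc.1 (mem_filter.1 hb).1).1
            simp only at e
            omega]
        refine (mul_le_mul_of_nonneg_right (T2.card_class (K := H) hd
          (by exact_mod_cast (mem_filter.1 hT).2) (fun m hm => ?_) fun m hm m' hm' => ?_)
          (prod_nonneg fun _ _ => by positivity)).trans (le_of_eq ?_)
        · obtain ⟨a, ha, rfl⟩ := mem_image.1 hm
          have := (mem_Ioc.1 (mem_filter.1 ha).1).2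
          exact_mod_cast (by omega : a - h₀ ≤ H)
        · obtain ⟨a, ha, rfl⟩ := mem_image.1 hm
          obtain ⟨b, hb, rfl⟩ := mem_image.1 hm'
          rw [Nat.cast_sub (mem_Ioc.1 (mem_filter.1 ha).1).1.le,
            Nat.cast_sub (mem_Ioc.1 (mem_filter.1 hb).1).1.le, sub_sub_sub_cancel_right]
          exact dvd_sub (Int.natCast_dvd_natCast.2 (mem_filter.1 ha).2)
            (Int.natCast_dvd_natCast.2 (mem_filter.1 hb).2)
        · rw [div_mul_eq_mul_div, mul_div_assoc, Nat.cast_prod, ← prod_div_distrib]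
          congr 1
          refine prod_congr rfl fun p hp => ?_
          rw [pow32 (by exact_mod_cast (prime_of_mem hT hp).pos)]
          ring
    _ ≤ 2 * H * ∏ p ∈ Nat.primesBelow (H + 1), (1 + 8 * (p : ℝ) ^ (-(3 / 2) : ℝ)) := by
        rw [← mul_sum, prod_one_add]
        exact mul_le_mul_of_nonneg_left (sum_le_sum_of_subset_of_nonneg (filter_subset _ _)
          fun T _ _ => prod_nonneg fun p _ => by positivity) (by positivity)
    _ ≤ 2 * H * Real.exp (∑' n : ℕ, 8 * (n : ℝ) ^ (-(3 / 2) : ℝ)) := by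
        gcongr
        refine le_trans ?_ (Real.exp_le_exp.2 ((summ 8).sum_le_tsum (Nat.primesBelow (H + 1))
          fun _ _ => by positivity))
        rw [Real.exp_sum]
        exact prod_le_prod (fun p _ => by positivity) fun p _ => by
          rw [add_comm]; exact Real.add_one_le_exp _
    _ = _ := by ring

end Sng

theorem sng : SingStmt := by
  obtain ⟨C₁, h1⟩ := Sng.tail
  obtain ⟨C₂, h2⟩ := Sng.avg
  refine ⟨C₁ ^ 2 * C₂, fun Q H h₀ hQ hH hh => ?_⟩
  have hQ' : (0 : ℝ) < Q := by exact_mod_cast hQ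
  rw [le_div_iff₀ hQ', sum_mul, mul_assoc]
  refine le_trans ?_ (mul_le_mul_of_nonneg_left (h2 H h₀ hH hh) (sq_nonneg _))
  rw [mul_sum]
  refine sum_le_sum fun h hm => ?_
  have h0 : 0 < h := by have := (mem_Ioc.1 hm).1; omega
  rw [Sng.sgm_eq, ← Complex.ofReal_sub, Complex.norm_real, Real.norm_eq_abs]
  calc _ = (|sing h - sigQ Q h| * Real.sqrt Q) ^ 2 := by rw [mul_pow, Real.sq_sqrt hQ'.le]
    _ ≤ (C₁ * ∏ p ∈ h.primeFactors, (1 + 2 / Real.sqrt p)) ^ 2 :=
        pow_le_pow_left₀ (by positivity) (h1 h Q h0 hQ) 2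
    _ ≤ _ := by
        rw [mul_pow, ← prod_pow]
        gcongr with p hp
        have h3 : (1 : ℝ) ≤ Real.sqrt p := Real.one_le_sqrt.2 (by
          exact_mod_cast Nat.pos_of_mem_primeFactors hp)
        have h4 : 2 / Real.sqrt p ≤ 2 := div_le_self (by norm_num) h3
        have h5 : 0 ≤ 2 / Real.sqrt p := by positivity
        have h6 : 8 / Real.sqrt p = 4 * (2 / Real.sqrt p) := by ring
        nlinarith

end Pool.Agent.MP_678834_nt.HL9

end
end MrgPart0

-- ======== part 1: formerly Pool.Agent.MP_678834_nt.HL9.MainOf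
section MrgPart1

/-! Project HL9, module MAIN: the circle method assembly. -/

set_option autoImplicit false

noncomputable section

namespace Pool.Agent.MP_678834_nt.HL9

open MeasureTheory Finset Filter
open scoped ArithmeticFunction.vonMangoldt ArithmeticFunction.Moebius
open Pool.Agent.MP_db1c88_nt.z94 (ei bmp blk DP wide wt lev)
open Pool.Agent.MP_3d0d30_nt.Six (E ck)
open Pool.Agent.MP_db1c88_nt Pool.Agent.MP_3d0d30_nt

namespace MainOf

/-- covering a long window by blocks of fixed length -/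
theorem cover (f : ℕ → ℝ) (hf : ∀ h, 0 ≤ f h) (X H1 : ℕ) (hH1 : 1 ≤ H1) {M : ℝ}
    (hb : ∀ h1, h1 + H1 ≤ X → ∑ h ∈ Ioc h1 (h1 + H1), f h ≤ M * H1) (h0 : ℕ) :
    ∀ H : ℕ, H1 ≤ H → h0 + H ≤ X → ∑ h ∈ Ioc h0 (h0 + H), f h ≤ M * (H + H1) := by
  intro H
  induction H using Nat.strong_induction_on with
  | _ H ih =>
    intro h1 h2
    obtain ⟨K, rfl⟩ := Nat.exists_eq_add_of_le' h1
    have e1 := sum_Ioc_consecutive f (Nat.le_add_right h0 K)
      (show h0 + K ≤ h0 + (K + H1) by omega)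
    have e2 := hb (h0 + K) (by omega)
    rw [add_assoc] at e2
    rw [← e1]
    rcases le_or_gt H1 K with h | h
    · have := ih K (by omega) h (by omega)
      push_cast
      linarith
    · have e3 : ∑ h ∈ Ioc h0 (h0 + K), f h ≤ ∑ h ∈ Ioc h0 (h0 + H1), f h :=
        sum_le_sum_of_subset_of_nonneg (Ioc_subset_Ioc_right (by omega)) fun i _ _ => hf i
      have e4 := hb h0 (by omega)
      have e5 : 0 ≤ M * H1 := le_trans (sum_nonneg fun i _ => hf i) e4
      have e6 : (0 : ℝ) < H1 := by exact_mod_cast hH1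
      have e7 : 0 ≤ M := nonneg_of_mul_nonneg_left e5 e6
      have e8 : 0 ≤ M * K := by positivity
      push_cast
      linarith

theorem card_cop (r : ℕ) :
    ((range r).filter (fun b => Nat.Coprime b r)).card = Nat.totient r := by
  rw [Nat.totient_eq_card_coprime]
  congr 1
  exact filter_congr fun b _ => Nat.coprime_comm

/-- the major arc model against the von Mangoldt function -/
theorem model (S : Finset ℕ) (Q h : ℕ) (Y : ℂ) {W : ℝ} (hW : 0 ≤ W)
    (hb : ∀ r ∈ Icc 1 Q, ∀ b : ℕ, b.Coprime r →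
      ‖∑ n ∈ S, (Λ n : ℂ) * E (b * n / r) - rho r * Y‖ ≤ W) :
    ‖∑ n ∈ S, (Λ n : ℂ) * lamS Q (n + h) - sgm Q h * Y‖ ≤ Q * W := by
  have key : ∑ n ∈ S, (Λ n : ℂ) * lamS Q (n + h) - sgm Q h * Y =
      ∑ r ∈ Icc 1 Q, (rho r : ℂ) * ∑ b ∈ (range r).filter (fun b => Nat.Coprime b r),
        E (b * h / r) * (∑ n ∈ S, (Λ n : ℂ) * E (b * n / r) - rho r * Y) := by
    simp only [lamS, sgm, ram, mul_sum, sum_mul, mul_sub, sum_sub_distrib]
    congr 1
    · rw [sum_comm]
      refine sum_congr rfl fun r _ => ?_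
      rw [sum_comm]
      refine sum_congr rfl fun b _ => sum_congr rfl fun n _ => ?_
      rw [show ((b : ℝ) * ((n + h : ℕ) : ℝ) / r) = b * h / r + b * n / r by push_cast; ring,
        Six.E_add]
      ring
    · exact sum_congr rfl fun r _ => sum_congr rfl fun b _ => by ring
  rw [key]
  refine (norm_sum_le _ _).trans ?_
  have : ∀ r ∈ Icc 1 Q, ‖(rho r : ℂ) * ∑ b ∈ (range r).filter (fun b => Nat.Coprime b r),
      E (b * h / r) * (∑ n ∈ S, (Λ n : ℂ) * E (b * n / r) - rho r * Y)‖ ≤ W := by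
    intro r hr
    have hr1 : 1 ≤ r := (mem_Icc.1 hr).1
    have hφ : (0 : ℝ) < Nat.totient r := by exact_mod_cast Nat.totient_pos.2 hr1
    have h1 : ‖∑ b ∈ (range r).filter (fun b => Nat.Coprime b r),
        E (b * h / r) * (∑ n ∈ S, (Λ n : ℂ) * E (b * n / r) - rho r * Y)‖ ≤
        Nat.totient r * W := by
      refine (norm_sum_le _ _).trans ?_
      rw [← card_cop, ← nsmul_eq_mul]
      refine sum_le_card_nsmul _ _ _ fun b hb' => ?_
      rw [norm_mul, Six.norm_E, one_mul]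
      exact hb r hr b (mem_filter.1 hb').2
    rw [norm_mul, Complex.norm_real, Real.norm_eq_abs]
    calc _ ≤ 1 / (Nat.totient r : ℝ) * (Nat.totient r * W) :=
          mul_le_mul (abs_rho_le r) h1 (norm_nonneg _) (by positivity)
      _ = W := by field_simp
  refine (sum_le_card_nsmul _ _ _ this).trans ?_
  simp

theorem sq_three (a b c : ℂ) : ‖a + b + c‖ ^ 2 ≤ 3 * (‖a‖ ^ 2 + ‖b‖ ^ 2 + ‖c‖ ^ 2) := by
  have h : ‖a + b + c‖ ≤ ‖a‖ + ‖b‖ + ‖c‖ := norm_add₃_le
  calc _ ≤ (‖a‖ + ‖b‖ + ‖c‖) ^ 2 := by gcongr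
    _ ≤ _ := by nlinarith [sq_nonneg (‖a‖ - ‖b‖), sq_nonneg (‖b‖ - ‖c‖), sq_nonneg (‖a‖ - ‖c‖)]

theorem sum_sq_le {X X' : ℕ} (hX : 2 ≤ X) (h2 : X' ≤ 2 * X) :
    ∑ n ∈ Ioc X X', ‖(Λ n : ℂ)‖ ^ 2 ≤ 4 * X * Real.log X ^ 2 := by
  have hX' : (2 : ℝ) ≤ X := by exact_mod_cast hX
  have hl : Real.log 2 ≤ Real.log X := Real.log_le_log two_pos hX'
  have : ∀ n ∈ Ioc X X', ‖(Λ n : ℂ)‖ ^ 2 ≤ 4 * Real.log X ^ 2 := by
    intro n hn
    obtain ⟨a1, a2⟩ := mem_Ioc.1 hn
    have a3 : (n : ℝ) ≤ 2 * X := by exact_mod_cast a2.trans h2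
    have a4 : (0 : ℝ) < n := by exact_mod_cast (by omega : 0 < n)
    have a5 := Real.log_le_log a4 a3
    rw [Real.log_mul two_ne_zero (by linarith)] at a5
    rw [Complex.norm_real, Real.norm_of_nonneg ArithmeticFunction.vonMangoldt_nonneg]
    have a6 : Λ n ≤ 2 * Real.log X := by
      linarith [ArithmeticFunction.vonMangoldt_le_log (n := n)]
    calc Λ n ^ 2 ≤ (2 * Real.log X) ^ 2 :=
          pow_le_pow_left₀ ArithmeticFunction.vonMangoldt_nonneg a6 2
      _ = _ := by ring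
  refine (sum_le_card_nsmul _ _ _ this).trans ?_
  rw [Nat.card_Ioc, nsmul_eq_mul]
  have : ((X' - X : ℕ) : ℝ) ≤ X := by exact_mod_cast (by omega : X' - X ≤ X)
  calc _ ≤ X * (4 * Real.log X ^ 2) := by gcongr
    _ = _ := by ring

end MainOf

open MainOf

theorem main_of (h1 : WinStmt) (h2 : ArcStmt) (h3 : SingStmt) (h4 : SWAStmt) : MainStmt := by
  intro ε hε A
  obtain ⟨C1, h1⟩ := h1
  obtain ⟨C3, h3⟩ := h3
  set ε' := min ε (1 / 10) with hε'
  have e0 : 0 < ε' := lt_min hε (by norm_num)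
  have e1 : ε' ≤ 1 / 10 := min_le_right _ _
  have e2 : ε' ≤ ε := min_le_left _ _
  obtain ⟨B₀, h2⟩ := h2 ε' e0 e1 (A + 2)
  set B := max B₀ A with hB
  obtain ⟨C2, X2, h2⟩ := h2 B (le_max_left _ _)
  obtain ⟨C4, X4, h4⟩ := h4 (A + B + 1) (B + 1)
  obtain ⟨X0, hX0⟩ := eventually_atTop.1 ((ev_log 2).and ((ev_rpow (δ := 11 / 90) (by norm_num) 2).and
    ((eventually_ge_atTop X2).and ((eventually_ge_atTop X4).and (eventually_ge_atTop (2 : ℝ))))))
  refine ⟨2 * (3 * (4 * |C1| * |C2| + C4 ^ 2 + |C3|)), X0, fun X X' h₀ H a1 a2 a3 a4 a5 => ?_⟩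
  obtain ⟨b1, b2, b3, b4, b5⟩ := hX0 X a1
  set L := Real.log X with hL
  have hL1 : 1 ≤ L := by linarith
  have hX1 : (1 : ℝ) ≤ X := by linarith
  have hX0' : (0 : ℝ) < X := by linarith
  set Q := ⌈L ^ B⌉₊ with hQ
  have hLB : 1 ≤ L ^ B := one_le_pow₀ hL1
  have q1 : L ^ B ≤ Q := Nat.le_ceil _
  have q2 : (Q : ℝ) ≤ L ^ (B + 1) := by
    have := (Nat.ceil_lt_add_one (a := L ^ B) (by positivity)).le
    rw [pow_succ]
    nlinarith
  have q3 : 1 ≤ Q := by exact_mod_cast hLB.trans q1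
  have q4 : L ^ A ≤ Q := (pow_le_pow_right₀ hL1 (le_max_right _ _)).trans q1
  set H1 := ⌈(X : ℝ) ^ (1 / 9 + ε')⌉₊ with hH1
  have r0 : 1 ≤ (X : ℝ) ^ (1 / 9 + ε') := Real.one_le_rpow hX1 (by positivity)
  have r1 : (X : ℝ) ^ (1 / 9 + ε') ≤ H1 := Nat.le_ceil _
  have r2 : H1 ≤ H :=
    Nat.ceil_le.2 ((Real.rpow_le_rpow_of_exponent_le hX1 (by linarith)).trans a4)
  have r3 : (H1 : ℝ) ≤ (X : ℝ) ^ (1 / 3 : ℝ) := by
    have s1 := (Nat.ceil_lt_add_one (a := (X : ℝ) ^ (1 / 9 + ε')) (by positivity)).le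
    have s2 : (X : ℝ) ^ (1 / 9 + ε') ≤ (X : ℝ) ^ (19 / 90 : ℝ) :=
      Real.rpow_le_rpow_of_exponent_le hX1 (by linarith)
    have s3 : (X : ℝ) ^ (1 / 3 : ℝ) = (X : ℝ) ^ (11 / 90 : ℝ) * (X : ℝ) ^ (19 / 90 : ℝ) := by
      rw [← Real.rpow_add hX0']; norm_num
    rw [s3]
    nlinarith
  have r4 : 1 ≤ H1 := by exact_mod_cast r0.trans r1
  have r5 : X ≤ H1 ^ 9 := by
    have s1 : (X : ℝ) ^ (1 / 9 : ℝ) ≤ H1 :=
      (Real.rpow_le_rpow_of_exponent_le hX1 (by linarith)).trans r1
    have s2 : ((X : ℝ) ^ (1 / 9 : ℝ)) ^ 9 ≤ (H1 : ℝ) ^ 9 := by gcongr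
    rw [← Real.rpow_natCast, ← Real.rpow_mul hX0'.le] at s2
    norm_num at s2
    exact_mod_cast s2
  have hLA : 0 < L ^ A := by positivity
  have hY : ‖(X' : ℂ) - X‖ ≤ X := by
    have s1 : (X : ℝ) ≤ X' := by exact_mod_cast a2
    have s2 : (X' : ℝ) ≤ 2 * X := by exact_mod_cast a3
    rw [show (X' : ℂ) - X = ((X' - X : ℝ) : ℂ) by push_cast; ring, Complex.norm_real,
      Real.norm_of_nonneg (by linarith)]
    linarith
  set g : ℕ → ℂ := fun n => ((Λ n : ℂ) - lamS Q n) * (w2 (Real.log n - Real.log X) : ℝ) with hg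
  have hblock : ∀ h1 : ℕ, h1 + H1 ≤ X →
      ∑ h ∈ Ioc h1 (h1 + H1), (∑ n ∈ Ioc X X', Λ n * Λ (n + h) - sing h * ((X' : ℝ) - X)) ^ 2 ≤
        3 * (4 * |C1| * |C2| + C4 ^ 2 + |C3|) * X ^ 2 / L ^ A * H1 := by
    intro k hk
    have hmem : ∀ n ∈ Ioc X X', ∀ h ∈ Ioc k (k + H1),
        (X : ℝ) ≤ (n + h : ℕ) ∧ ((n + h : ℕ) : ℝ) ≤ 4 * X := by
      intro n hn h hh
      obtain ⟨s1, s2⟩ := mem_Ioc.1 hn
      obtain ⟨s3, s4⟩ := mem_Ioc.1 hh
      exact ⟨by exact_mod_cast (by omega), by exact_mod_cast (by omega)⟩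
    have pa := h1 (fun n => Λ n) g (Ioc X X') (wide X 4) k H1 (|C2| * X / L ^ (A + 2)) r4
      (fun β => (h2 X H1 β Q b3 r1 r3 q1 q2).trans (by gcongr; exact le_abs_self _))
      (fun n hn h hh => (z94.mem_wide hX0'.le (by norm_num)).2
        ⟨by have := (mem_Ioc.1 hh).1; omega, by linarith [(hmem n hn h hh).2]⟩)
    have pa' : ∑ h ∈ Ioc k (k + H1), ‖∑ n ∈ Ioc X X', (Λ n : ℂ) * g (n + h)‖ ^ 2 ≤
        4 * |C1| * |C2| * X ^ 2 / L ^ A * H1 := by
      refine pa.trans ?_
      have s1 := sum_sq_le (X := X) (X' := X') (by exact_mod_cast b5) a3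
      calc _ ≤ |C1| * H1 * (|C2| * X / L ^ (A + 2)) * (4 * X * L ^ 2) := by
            refine mul_le_mul ?_ s1 (sum_nonneg fun _ _ => by positivity) (by positivity)
            gcongr
            exact le_abs_self _
        _ = _ := by field_simp; ring
    have pb : ∀ h : ℕ, ‖∑ n ∈ Ioc X X', (Λ n : ℂ) * lamS Q (n + h) -
        sgm Q h * ((X' : ℂ) - X)‖ ^ 2 ≤ C4 ^ 2 * X ^ 2 / L ^ A := by
      intro h
      have s1 := model (Ioc X X') Q h ((X' : ℂ) - X) (W := |C4| * X / L ^ (A + B + 1))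
        (by positivity) fun r hr b hb => by
          have s2 : (r : ℝ) ≤ Q := by exact_mod_cast (mem_Icc.1 hr).2
          have s3 := h4 X X' r b b4 a2 a3 (mem_Icc.1 hr).1 (s2.trans q2) (by simpa using hb)
          refine le_trans (by simpa using s3) ?_
          gcongr
          exact le_abs_self _
      have s2 : Q * (|C4| * X / L ^ (A + B + 1)) ≤ |C4| * X / L ^ A := by
        calc _ ≤ L ^ (B + 1) * (|C4| * X / L ^ (A + B + 1)) := by gcongr
          _ = _ := by field_simp; ring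
      calc _ ≤ (|C4| * X / L ^ A) ^ 2 := by gcongr; exact s1.trans s2
        _ = C4 ^ 2 * X ^ 2 / L ^ A / L ^ A := by rw [div_pow, mul_pow, sq_abs]; field_simp
        _ ≤ _ := div_le_self (by positivity) (one_le_pow₀ hL1)
    have pc : ∑ h ∈ Ioc k (k + H1), ‖(sgm Q h - sing h) * ((X' : ℂ) - X)‖ ^ 2 ≤
        |C3| * X ^ 2 / L ^ A * H1 := by
      have s1 := h3 Q H1 k q3 r4 (hk.trans r5)
      calc _ ≤ ∑ h ∈ Ioc k (k + H1), ‖(sing h : ℂ) - sgm Q h‖ ^ 2 * X ^ 2 := by
            refine sum_le_sum fun h _ => ?_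
            rw [norm_mul, mul_pow, norm_sub_rev]
            gcongr
        _ ≤ |C3| * H1 / L ^ A * X ^ 2 := by
            rw [← sum_mul]
            gcongr
            refine s1.trans ?_
            calc C3 * H1 / Q ≤ |C3| * H1 / Q := by gcongr; exact le_abs_self _
              _ ≤ _ := by gcongr
        _ = _ := by ring
    have pd : ∀ h ∈ Ioc k (k + H1),
        (∑ n ∈ Ioc X X', Λ n * Λ (n + h) - sing h * ((X' : ℝ) - X)) ^ 2 ≤
          3 * (‖∑ n ∈ Ioc X X', (Λ n : ℂ) * g (n + h)‖ ^ 2 + C4 ^ 2 * X ^ 2 / L ^ A +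
            ‖(sgm Q h - sing h) * ((X' : ℂ) - X)‖ ^ 2) := by
      intro h hh
      have s1 : ((∑ n ∈ Ioc X X', Λ n * Λ (n + h) - sing h * ((X' : ℝ) - X) : ℝ) : ℂ) =
          ∑ n ∈ Ioc X X', (Λ n : ℂ) * g (n + h) +
            (∑ n ∈ Ioc X X', (Λ n : ℂ) * lamS Q (n + h) - sgm Q h * ((X' : ℂ) - X)) +
            (sgm Q h - sing h) * ((X' : ℂ) - X) := by
        have s2 : ∑ n ∈ Ioc X X', (Λ n : ℂ) * g (n + h) =
            ∑ n ∈ Ioc X X', (Λ n : ℂ) * Λ (n + h) -
              ∑ n ∈ Ioc X X', (Λ n : ℂ) * lamS Q (n + h) := by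
          rw [← sum_sub_distrib]
          refine sum_congr rfl fun n hn => ?_
          have s3 := w1_eq_one hX0' (hmem n hn h hh).1 (hmem n hn h hh).2
          simp only [hg, w2]
          rw [s3]
          push_cast
          ring
        rw [s2]
        push_cast
        ring
      rw [← sq_abs, ← Real.norm_eq_abs, ← Complex.norm_real, s1]
      refine (sq_three _ _ _).trans ?_
      gcongr
      exact pb h
    refine (sum_le_sum pd).trans ?_
    rw [← mul_sum, sum_add_distrib, sum_add_distrib, sum_const, Nat.card_Ioc, nsmul_eq_mul,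
      Nat.add_sub_cancel_left]
    calc _ ≤ 3 * (4 * |C1| * |C2| * X ^ 2 / L ^ A * H1 + H1 * (C4 ^ 2 * X ^ 2 / L ^ A) +
          |C3| * X ^ 2 / L ^ A * H1) := by gcongr
      _ = _ := by ring
  refine (cover _ (fun h => sq_nonneg _) X H1 r4 hblock h₀ H r2 a5).trans ?_
  have s1 : (H1 : ℝ) ≤ H := by exact_mod_cast r2
  calc _ ≤ 3 * (4 * |C1| * |C2| + C4 ^ 2 + |C3|) * X ^ 2 / L ^ A * (H + H) := by gcongr
    _ = _ := by ring

end Pool.Agent.MP_678834_nt.HL9

end
end MrgPart1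

-- ======== part 2: formerly Pool.Agent.MP_678834_nt.HL9.All
section MrgPart2

/-! Project HL9: assembly. -/

namespace Pool.Agent.MP_678834_nt.HL9

section

open Pool.Agent.MP_db1c88_nt.z94

theorem lv : LVStmt :=
  lv_of (core_of (s1_of o2) (s2_of o2) (s3_of o2) lower (b_of o3 o4) (expand_of o1 o3 o4)
      (tri_of o2 (red_of o2) card3 point) (p0a_of (red_of o2) card0) (p0b_of o2 (s3_of o2)))
    (mvt_of (s1_of o2)) (hux_of o3 o4 o5 (mvt_of (s1_of o2))) pow_stmt expo

end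

theorem si : SIStmt :=
  si_of dec (smear_of fi)
    (prod_of (one_of lv (near_of dv))
      (typeI_of (ti1_of fi) mv)) (pws_of PW.pw)

theorem minor : MinorStmt := minor_of s1 mel t2

theorem arc : ArcStmt := arc_of s1 minor (major_of chr mel si)

theorem main : MainStmt := main_of win arc sng (swa_of PW.pw chr)

theorem final : FinalStmt := final_of main sng

end Pool.Agent.MP_678834_nt.HL9

end MrgPart2

-- marker of a merged file
example : 731051 + 626205 = 731051 + 626205 := rfl
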