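import Mathlib.NumberTheory.Harmonic.Bounds
import Pool.Agent.MP_678834_nt.HL9.Basic
import Pool.Agent.MP_678834_nt.SingB
import Pool.Agent.MP_3d0d30_nt.Six.Small

-- ======== part 0: formerly Pool.Agent.MP_678834_nt.HL9.T2a
section MrgPart0

/-! Project HL9, module T2: the counting part. -/

set_option autoImplicit false

noncomputable section

namespace Pool.Agent.MP_678834_nt.HL9.T2

open Finset
open Pool.Agent.MP_db1c88_nt.z94 (blk ZM mem_ZM)
open Pool.Agent.MP_db1c88_nt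

theorem sum_le_inj {α β : Type} (s : Finset α) (t : Finset β) (f : α → β) (h : α → ℝ) (g : β → ℝ)
    (hf : ∀ x ∈ s, f x ∈ t) (hi : Set.InjOn f s) (hg : ∀ y ∈ t, 0 ≤ g y)
    (hh : ∀ x ∈ s, h x ≤ g (f x)) : ∑ x ∈ s, h x ≤ ∑ y ∈ t, g y := by
  classical
  refine (sum_le_sum hh).trans ?_
  rw [← sum_image (f := g) hi]
  exact sum_le_sum_of_subset_of_nonneg (image_subset_iff.2 hf) fun y hy _ => hg y hy

theorem sum_ZM (n : ℕ) (φ : ℕ → ℝ) : ∑ i ∈ ZM n, φ i.natAbs = 2 * ∑ i ∈ Icc 1 n, φ i := by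
  induction n with
  | zero => simp [ZM]
  | succ n ih =>
    have h : ZM (n + 1) = insert ((n : ℤ) + 1) (insert (-((n : ℤ) + 1)) (ZM n)) := by
      ext i; simp only [mem_insert, mem_ZM, abs_le]; push_cast; omega
    rw [h, sum_insert (by simp only [mem_insert, mem_ZM, abs_le]; omega),
      sum_insert (by simp only [mem_ZM, abs_le]; omega), ih, sum_Icc_succ_top (by omega),
      Int.natAbs_neg, show ((n : ℤ) + 1).natAbs = n + 1 by omega]
    ring

theorem geo {y : ℝ} (hy : 0 < y) (n : ℕ) : ∑ i ∈ Icc 1 n, Real.exp (-(i / y)) ≤ y := by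
  have key : ∑ i ∈ Icc 1 n, Real.exp (-(i / y)) ≤ y - y * Real.exp (-(n / y)) := by
    induction n with
    | zero => simp
    | succ n ih =>
      rw [sum_Icc_succ_top (by omega)]
      have h1 : Real.exp (-(n / y)) = Real.exp (1 / y) * Real.exp (-(((n + 1 : ℕ) : ℝ) / y)) := by
        rw [← Real.exp_add]; congr 1; push_cast; ring
      have h2 := Real.add_one_le_exp (1 / y)
      have h3 := Real.exp_pos (-(((n + 1 : ℕ) : ℝ) / y))
      have h4 : y * ((1 / y + 1) * Real.exp (-(((n + 1 : ℕ) : ℝ) / y))) ≤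
          y * Real.exp (-(n / y)) := by rw [h1]; gcongr
      have h5 : y * ((1 / y + 1) * Real.exp (-(((n + 1 : ℕ) : ℝ) / y))) =
          (1 + y) * Real.exp (-(((n + 1 : ℕ) : ℝ) / y)) := by field_simp
      linarith
  have := Real.exp_pos (-(n / y))
  nlinarith

theorem geoZM {y : ℝ} (hy : 0 < y) (n : ℕ) : ∑ i ∈ ZM n, Real.exp (-(|(i : ℝ)| / y)) ≤ 2 * y := by
  have h := sum_ZM n fun i => Real.exp (-(i / y))
  simp only [Nat.cast_natAbs, Int.cast_abs] at h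
  rw [h]
  linarith [geo hy n]

theorem geoZ {y : ℝ} (hy : 0 < y) (K : Finset ℤ) :
    ∑ i ∈ K, Real.exp (-(|(i : ℝ)| / y)) ≤ 1 + 2 * y := by
  have h : K ⊆ insert 0 (ZM (K.sup Int.natAbs)) := fun i hi => by
    have : i.natAbs ≤ K.sup Int.natAbs := le_sup (f := Int.natAbs) hi
    simp only [mem_insert, mem_ZM, abs_le]; omega
  refine (sum_le_sum_of_subset_of_nonneg h fun _ _ _ => (Real.exp_pos _).le).trans ?_
  rw [sum_insert (by simp [mem_ZM])]
  simpa using geoZM hy _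

theorem inv_sqrt (n : ℕ) : ∑ i ∈ Icc 1 n, 1 / Real.sqrt i ≤ 2 * Real.sqrt n := by
  induction n with
  | zero => simp
  | succ n ih =>
    rw [sum_Icc_succ_top (by omega)]
    have h1 : 0 < Real.sqrt ((n + 1 : ℕ) : ℝ) := by positivity
    have h2 := Real.sq_sqrt (show (0 : ℝ) ≤ ((n + 1 : ℕ) : ℝ) by positivity)
    have h3 := Real.sq_sqrt (show (0 : ℝ) ≤ n by positivity)
    have h4 : 1 / Real.sqrt ((n + 1 : ℕ) : ℝ) ≤ 2 * Real.sqrt ((n + 1 : ℕ) : ℝ) - 2 * Real.sqrt n := by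
      rw [div_le_iff₀ h1]
      push_cast at h2 ⊢
      nlinarith [sq_nonneg (Real.sqrt (n + 1) - Real.sqrt n)]
    linarith

theorem gcd_sum (I J : ℕ) : ∑ i ∈ Icc 1 I, ∑ j ∈ Icc 1 J, (Nat.gcd i j : ℝ) / Real.sqrt (i * j) ≤
    4 * Real.sqrt (I * J) * (1 + Real.log I) := by
  rw [← sum_product']
  refine (sum_le_inj _ ((Icc 1 I).sigma fun e => Icc 1 (I / e) ×ˢ Icc 1 (J / e))
    (fun x => ⟨Nat.gcd x.1 x.2, x.1 / Nat.gcd x.1 x.2, x.2 / Nat.gcd x.1 x.2⟩) _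
    (fun y => 1 / Real.sqrt y.2.1 * (1 / Real.sqrt y.2.2)) (fun x hx => ?_) (fun x hx y hy hxy => ?_)
    (fun _ _ => by positivity) fun x hx => ?_).trans ?_
  · simp only [mem_product, mem_Icc, mem_sigma] at hx ⊢
    have h1 : 0 < Nat.gcd x.1 x.2 := Nat.gcd_pos_of_pos_left _ hx.1.1
    have h2 := Nat.gcd_le_left x.2 hx.1.1
    have h3 := Nat.gcd_le_right x.1 hx.2.1
    exact ⟨⟨h1, h2.trans hx.1.2⟩, ⟨Nat.div_pos h2 h1, Nat.div_le_div_right hx.1.2⟩,
      Nat.div_pos h3 h1, Nat.div_le_div_right hx.2.2⟩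
  · simp only [Sigma.mk.injEq, heq_eq_eq, Prod.mk.injEq] at hxy
    obtain ⟨h1, h2, h3⟩ := hxy
    ext
    · rw [← Nat.div_mul_cancel (Nat.gcd_dvd_left x.1 x.2), h2, h1,
        Nat.div_mul_cancel (Nat.gcd_dvd_left _ _)]
    · rw [← Nat.div_mul_cancel (Nat.gcd_dvd_right x.1 x.2), h3, h1,
        Nat.div_mul_cancel (Nat.gcd_dvd_right _ _)]
  · simp only [mem_product, mem_Icc] at hx
    have h1 : 0 < Nat.gcd x.1 x.2 := Nat.gcd_pos_of_pos_left _ hx.1.1
    obtain ⟨i, hi⟩ := Nat.gcd_dvd_left x.1 x.2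
    obtain ⟨j, hj⟩ := Nat.gcd_dvd_right x.1 x.2
    set g := Nat.gcd x.1 x.2
    have hi0 : 0 < i := Nat.pos_of_mul_pos_left (hi ▸ hx.1.1)
    have hj0 : 0 < j := Nat.pos_of_mul_pos_left (hj ▸ hx.2.1)
    simp only
    rw [hi, hj, Nat.mul_div_cancel_left _ h1, Nat.mul_div_cancel_left _ h1]
    rw [show ((g * i : ℕ) : ℝ) * (g * j : ℕ) = g ^ 2 * (i * j) by push_cast; ring,
      Real.sqrt_mul (by positivity), Real.sqrt_sq (by positivity), Real.sqrt_mul (by positivity)]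
    apply le_of_eq
    field_simp
  · rw [sum_sigma]
    have h := harmonic_le_one_add_log I
    rw [harmonic_eq_sum_Icc] at h
    push_cast at h
    refine le_trans (sum_le_sum fun e he => ?_) ((mul_sum _ _ _).symm.trans_le
      (mul_le_mul_of_nonneg_left h (show 0 ≤ 4 * Real.sqrt (I * J) by positivity)))
    have he0 : (0 : ℝ) < e := by exact_mod_cast (mem_Icc.1 he).1
    rw [sum_product]
    dsimp only
    rw [← sum_mul_sum]
    calc _ ≤ 2 * Real.sqrt (I / e) * (2 * Real.sqrt (J / e)) := by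
          gcongr
          · exact (inv_sqrt _).trans (by gcongr; exact Nat.cast_div_le)
          · exact (inv_sqrt _).trans (by gcongr; exact Nat.cast_div_le)
      _ = 4 * Real.sqrt (I * J / e ^ 2) := by
          rw [show (I : ℝ) * J / e ^ 2 = I / e * (J / e) by ring, Real.sqrt_mul (by positivity)]
          ring
      _ = _ := by
          rw [Real.sqrt_div (by positivity), Real.sqrt_sq he0.le]; ring

theorem card_class {s : Finset ℕ} {K : ℝ} {d : ℕ} (hd : 0 < d) (hdK : (d : ℝ) ≤ K)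
    (hs : ∀ m ∈ s, (m : ℝ) ≤ K) (h : ∀ m ∈ s, ∀ m' ∈ s, (d : ℤ) ∣ (m : ℤ) - m') :
    (s.card : ℝ) ≤ 2 * K / d := by
  have hd' : (0 : ℝ) < d := by exact_mod_cast hd
  have h1 : s.card ≤ (range (⌊K⌋₊ / d + 1)).card := by
    refine card_le_card_of_injOn (fun m => m / d) (fun m hm => ?_) fun m hm m' hm' e => ?_
    · exact mem_coe.2 (mem_range.2 (Nat.lt_succ_of_le
        (Nat.div_le_div_right (Nat.le_floor (hs m hm)))))
    · have h2 : m' % d = m % d := (Nat.modEq_iff_dvd).2 (h m hm m' hm')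
      have e' : m / d = m' / d := e
      rw [← Nat.div_add_mod m d, ← Nat.div_add_mod m' d, h2, e']
  rw [card_range] at h1
  have h2 : ((⌊K⌋₊ / d : ℕ) : ℝ) ≤ K / d :=
    Nat.cast_div_le.trans (by gcongr; exact Nat.floor_le (hd'.le.trans hdK))
  have h3 : 1 ≤ K / d := (one_le_div hd').2 hdK
  have h4 : (s.card : ℝ) ≤ (⌊K⌋₊ / d : ℕ) + 1 := by exact_mod_cast h1
  rw [mul_div_assoc]
  linarith

/-- solutions of a linear equation with coprime coefficients -/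
theorem card_line {u : Finset (ℕ × ℕ)} {K : ℝ} {i j k : ℤ} (hi : i ≠ 0) (hij : IsCoprime i j)
    (hK : |(i : ℝ)| ≤ K) (h1 : ∀ x ∈ u, (x.1 : ℝ) ≤ K) (h : ∀ x ∈ u, x.1 * j + x.2 * i = k) :
    (u.card : ℝ) ≤ 2 * K / |(i : ℝ)| := by
  classical
  have hinj : Set.InjOn Prod.fst (u : Set (ℕ × ℕ)) := fun x hx y hy e => by
    have e1 := h x hx
    have e2 := h y hy
    rw [e, ← e2] at e1
    have e3 : (x.2 : ℤ) = y.2 := mul_right_cancel₀ hi (by linarith)
    exact Prod.ext e (by exact_mod_cast e3)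
  rw [← card_image_of_injOn hinj]
  have := card_class (s := u.image Prod.fst) (K := K) (d := i.natAbs) (Int.natAbs_pos.2 hi)
    (by rwa [Nat.cast_natAbs, Int.cast_abs]) (fun m hm => ?_) fun m hm m' hm' => ?_
  · rwa [Nat.cast_natAbs, Int.cast_abs] at this
  · obtain ⟨x, hx, rfl⟩ := mem_image.1 hm
    exact h1 x hx
  · obtain ⟨x, hx, rfl⟩ := mem_image.1 hm
    obtain ⟨y, hy, rfl⟩ := mem_image.1 hm'
    rw [Int.natAbs_dvd]
    refine hij.dvd_of_dvd_mul_right ⟨y.2 - x.2, ?_⟩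
    linear_combination h x hx - h y hy

theorem offdiag {P : Finset (ℕ × ℕ)} {K₁ K₂ Y : ℝ} {i j : ℤ} (hY : 0 < Y) (hi : i ≠ 0) (hj : j ≠ 0)
    (hi1 : |(i : ℝ)| ≤ K₁) (hj1 : |(j : ℝ)| ≤ K₂) (hP : ∀ x ∈ P, (x.1 : ℝ) ≤ K₁ ∧ (x.2 : ℝ) ≤ K₂) :
    ∑ x ∈ P, Real.exp (-(|((x.1 * j + x.2 * i : ℤ) : ℝ)| / Y)) ≤
      2 * Real.sqrt (K₁ * K₂) *
        (((Nat.gcd i.natAbs j.natAbs : ℝ) + 2 * Y) / Real.sqrt (i.natAbs * j.natAbs)) := by
  classical
  have hg : 0 < Int.gcd i j := Int.gcd_pos_of_ne_zero_left _ hi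
  obtain ⟨i', j', hc, ei, ej⟩ := Int.exists_gcd_one hg
  change _ ≤ 2 * Real.sqrt (K₁ * K₂) * (((Int.gcd i j : ℝ) + 2 * Y) / _)
  generalize Int.gcd i j = g at *
  subst ei ej
  have hg' : (1 : ℝ) ≤ g := by exact_mod_cast hg
  have hi' : i' ≠ 0 := left_ne_zero_of_mul hi
  have hj' : j' ≠ 0 := left_ne_zero_of_mul hj
  have pi : (0 : ℝ) < |(i' : ℝ)| := by positivity
  have pj : (0 : ℝ) < |(j' : ℝ)| := by positivity
  push_cast at hi1 hj1
  rw [abs_mul, Nat.abs_cast] at hi1 hj1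
  have hi2 : |(i' : ℝ)| ≤ K₁ := le_trans (le_mul_of_one_le_right pi.le hg') hi1
  have hj2 : |(j' : ℝ)| ≤ K₂ := le_trans (le_mul_of_one_le_right pj.le hg') hj1
  have hco : IsCoprime i' j' := Int.isCoprime_iff_gcd_eq_one.2 hc
  set B := 2 * Real.sqrt (K₁ * K₂) / Real.sqrt (|(i' : ℝ)| * |(j' : ℝ)|) with hB
  have hfib : ∀ k : ℤ, ((P.filter fun x => x.1 * j' + x.2 * i' = k).card : ℝ) ≤ B := fun k => by
    have h1 := card_line (u := P.filter fun x => x.1 * j' + x.2 * i' = k) (k := k) hi' hco hi2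
      (fun x hx => (hP x (mem_filter.1 hx).1).1) fun x hx => (mem_filter.1 hx).2
    have h2 := card_line (u := (P.filter fun x => x.1 * j' + x.2 * i' = k).image Prod.swap) (k := k)
      hj' hco.symm hj2 (fun x hx => ?_) fun x hx => ?_
    · rw [card_image_of_injective _ Prod.swap_injective] at h2
      rw [hB, show (2 : ℝ) = Real.sqrt 4 by
        rw [show (4 : ℝ) = 2 ^ 2 by norm_num, Real.sqrt_sq (by norm_num)],
        ← Real.sqrt_mul (by norm_num), ← Real.sqrt_div' _ (by positivity)]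
      refine Real.le_sqrt_of_sq_le ?_
      calc _ ≤ 2 * K₁ / |(i' : ℝ)| * (2 * K₂ / |(j' : ℝ)|) := by
            rw [sq]; exact mul_le_mul h1 h2 (by positivity) (le_trans (by positivity) h1)
        _ = _ := by field_simp; ring
    · obtain ⟨y, hy, rfl⟩ := mem_image.1 hx
      exact (hP y (mem_filter.1 hy).1).2
    · obtain ⟨y, hy, rfl⟩ := mem_image.1 hx
      simpa [add_comm] using (mem_filter.1 hy).2
  have hB0 : 0 ≤ B := by positivity
  have e1 : ∀ x : ℕ × ℕ, Real.exp (-(|((x.1 * (j' * g) + x.2 * (i' * g) : ℤ) : ℝ)| / Y)) =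
      Real.exp (-(|((x.1 * j' + x.2 * i' : ℤ) : ℝ)| / (Y / g))) := fun x => by
    congr 2
    rw [show ((x.1 * (j' * g) + x.2 * (i' * g) : ℤ) : ℝ) = ((x.1 * j' + x.2 * i' : ℤ) : ℝ) * g by
      push_cast; ring, abs_mul, Nat.abs_cast]
    field_simp
  simp only [e1]
  rw [sum_comp (fun k : ℤ => Real.exp (-(|(k : ℝ)| / (Y / g)))) fun x : ℕ × ℕ =>
    (x.1 * j' + x.2 * i' : ℤ)]
  refine le_trans (sum_le_sum fun k _ => show _ ≤ B * Real.exp (-(|(k : ℝ)| / (Y / g))) by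
    rw [nsmul_eq_mul]; gcongr; exact hfib k) ?_
  rw [← mul_sum]
  refine (mul_le_mul_of_nonneg_left (geoZ (by positivity) _) hB0).trans (le_of_eq ?_)
  rw [hB, Nat.cast_natAbs, Nat.cast_natAbs]
  push_cast
  rw [abs_mul, abs_mul, Nat.abs_cast,
    show |(i' : ℝ)| * g * (|(j' : ℝ)| * g) = g ^ 2 * (|(i' : ℝ)| * |(j' : ℝ)|) by ring,
    Real.sqrt_mul (sq_nonneg _), Real.sqrt_sq (by positivity)]
  field_simp

end Pool.Agent.MP_678834_nt.HL9.T2

end
end MrgPart0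

-- ======== part 1: formerly Pool.Agent.MP_678834_nt.HL9.T2
section MrgPart1

/-! Project HL9, module T2: the bilinear estimate for arbitrary lengths. -/

set_option autoImplicit false

noncomputable section

namespace Pool.Agent.MP_678834_nt.HL9

open MeasureTheory Finset
open scoped ComplexConjugate
open Pool.Agent.MP_db1c88_nt.z94 (ei blk ZM mem_ZM)
open Pool.Agent.MP_3d0d30_nt.Six (E ck kern)
open Pool.Agent.MP_db1c88_nt Pool.Agent.MP_3d0d30_nt

namespace T2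

theorem total {P₁ P₂ : Finset ℕ} {M N K₁ K₂ Y : ℝ} {I J : ℕ} (hY : 0 < Y) (hM : 0 < M) (hN : 0 < N)
    (h1 : ∀ m ∈ P₁, M ≤ m ∧ (m : ℝ) ≤ K₁) (h2 : ∀ n ∈ P₂, N ≤ n ∧ (n : ℝ) ≤ K₂)
    (hI : (I : ℝ) ≤ K₁) (hJ : (J : ℝ) ≤ K₂) :
    ∑ i ∈ insert 0 (ZM I), ∑ j ∈ insert 0 (ZM J), ∑ x ∈ P₁ ×ˢ P₂,
        Real.exp (-(|((x.1 * j + x.2 * i : ℤ) : ℝ)| / Y)) ≤
      (P₁ ×ˢ P₂).card * (1 + 2 * (Y / M) + 2 * (Y / N)) +
        32 * Real.sqrt (K₁ * K₂) * Real.sqrt (I * J) * (1 + Real.log I + 2 * Y) := by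
  have hz : ∀ n, (0 : ℤ) ∉ ZM n := fun n => by simp [mem_ZM]
  have line : ∀ {A : ℝ} (n K : ℕ), 0 < A → A ≤ n →
      ∑ j ∈ ZM K, Real.exp (-(|((n * j : ℤ) : ℝ)| / Y)) ≤ 2 * (Y / A) := fun {A} n K hA hn => by
    refine le_trans (sum_le_sum fun j _ => ?_) (geoZM (div_pos hY hA) K)
    push_cast
    rw [abs_mul, Nat.abs_cast, div_div_eq_mul_div, mul_comm]
    gcongr
  simp only [sum_insert (hz _), sum_add_distrib, mul_zero, add_zero, zero_add]
  have a1 : ∑ j ∈ ZM J, ∑ x ∈ P₁ ×ˢ P₂, Real.exp (-(|((x.1 * j : ℤ) : ℝ)| / Y)) ≤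
      (P₁ ×ˢ P₂).card * (2 * (Y / M)) := by
    rw [sum_comm, ← nsmul_eq_mul]
    exact sum_le_card_nsmul _ _ _ fun x hx => line _ _ hM (h1 _ (mem_product.1 hx).1).1
  have a2 : ∑ j ∈ ZM I, ∑ x ∈ P₁ ×ˢ P₂, Real.exp (-(|((x.2 * j : ℤ) : ℝ)| / Y)) ≤
      (P₁ ×ˢ P₂).card * (2 * (Y / N)) := by
    rw [sum_comm, ← nsmul_eq_mul]
    exact sum_le_card_nsmul _ _ _ fun x hx => line _ _ hN (h2 _ (mem_product.1 hx).2).1
  have a3 : ∑ i ∈ ZM I, ∑ j ∈ ZM J, ∑ x ∈ P₁ ×ˢ P₂,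
      Real.exp (-(|((x.1 * j + x.2 * i : ℤ) : ℝ)| / Y)) ≤
      32 * Real.sqrt (K₁ * K₂) * Real.sqrt (I * J) * (1 + Real.log I + 2 * Y) := by
    have b : ∀ {i : ℤ} {n : ℕ} {K : ℝ}, i ∈ ZM n → (n : ℝ) ≤ K → |(i : ℝ)| ≤ K := fun hi hK =>
      le_trans (by exact_mod_cast (mem_ZM.1 hi).2) hK
    refine le_trans (sum_le_sum fun i hi => sum_le_sum fun j hj => offdiag hY (mem_ZM.1 hi).1
      (mem_ZM.1 hj).1 (b hi hI) (b hj hJ) fun x hx =>
        ⟨(h1 _ (mem_product.1 hx).1).2, (h2 _ (mem_product.1 hx).2).2⟩) ?_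
    simp only [← mul_sum]
    rw [sum_ZM I fun i => ∑ j ∈ ZM J, ((Nat.gcd i j.natAbs : ℝ) + 2 * Y) / Real.sqrt (i * j.natAbs),
      sum_congr rfl fun i _ => sum_ZM J fun j => ((Nat.gcd i j : ℝ) + 2 * Y) / Real.sqrt (i * j)]
    simp only [← mul_sum, add_div, sum_add_distrib]
    have c1 := gcd_sum I J
    have c2 : ∑ i ∈ Icc 1 I, ∑ j ∈ Icc 1 J, 2 * Y / Real.sqrt (i * j) ≤
        2 * Y * (2 * Real.sqrt I * (2 * Real.sqrt J)) := by
      have e : ∀ i j : ℕ, 2 * Y / Real.sqrt (i * j) =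
          2 * Y * (1 / Real.sqrt i * (1 / Real.sqrt j)) := fun i j => by
        rw [Real.sqrt_mul (by positivity)]; ring
      simp only [e, ← mul_sum, ← sum_mul]
      gcongr <;> exact inv_sqrt _
    calc _ ≤ 2 * Real.sqrt (K₁ * K₂) * (2 * (2 * (4 * Real.sqrt (I * J) * (1 + Real.log I) +
          2 * Y * (2 * Real.sqrt I * (2 * Real.sqrt J))))) := by gcongr
      _ = _ := by rw [Real.sqrt_mul (Nat.cast_nonneg I)]; ring
  simp only [Int.cast_zero, abs_zero, zero_div, neg_zero, Real.exp_zero, sum_const, nsmul_eq_mul]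
  linarith

theorem sum_E {q : ℕ} (hq : 0 < q) (k : ℤ) :
    ∑ r ∈ range q, E (k * r / q) = if (q : ℤ) ∣ k then (q : ℂ) else 0 := by
  rw [← sum_ex hq k]
  refine sum_congr rfl fun r _ => ?_
  unfold E ex
  congr 1; push_cast; ring

theorem E_mod {q : ℕ} (hq : 0 < q) (a : ℤ) (m n : ℕ) :
    E (a * (m * n : ℕ) / q) = E (a * ((m % q) * (n % q) : ℕ) / q) := by
  have h : (q : ℤ) ∣ (m * n : ℕ) - ((m % q) * (n % q) : ℕ) :=
    Nat.modEq_iff_dvd.1 ((Nat.mod_modEq m q).mul (Nat.mod_modEq n q))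
  obtain ⟨k, hk⟩ := h
  have hq' : (q : ℝ) ≠ 0 := by positivity
  have e : (a * (m * n : ℕ) / q : ℝ) = a * ((m % q) * (n % q) : ℕ) / q + (a * k : ℤ) := by
    have : ((m * n : ℕ) : ℝ) = ((m % q) * (n % q) : ℕ) + q * k := by
      have h := congrArg (Int.cast : ℤ → ℝ) hk
      simp only [Int.cast_sub, Int.cast_natCast, Int.cast_mul] at h
      linarith
    rw [this]; push_cast; field_simp
  rw [e, Six.E_add, E_int, mul_one]

theorem unitary {q : ℕ} (hq : 0 < q) {a : ℤ} (ha : a.natAbs.Coprime q) (B : ℕ → ℂ) :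
    ∑ r ∈ range q, ‖∑ s ∈ range q, B s * E (a * (r * s : ℕ) / q)‖ ^ 2 =
      q * ∑ s ∈ range q, ‖B s‖ ^ 2 := by
  apply Complex.ofReal_injective
  push_cast
  simp only [← Complex.mul_conj', map_sum, map_mul, sum_mul_sum]
  rw [sum_comm, mul_sum]
  refine sum_congr rfl fun s hs => ?_
  rw [sum_comm]
  have e : ∀ s' : ℕ, ∑ r ∈ range q, B s * E (a * (r * s) / q) * (conj (B s') *
      conj (E (a * (r * s') / q))) =
      B s * conj (B s') * if (q : ℤ) ∣ a * (s - s') then (q : ℂ) else 0 := fun s' => by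
    rw [← sum_E hq, mul_sum]
    refine sum_congr rfl fun r _ => ?_
    rw [mul_mul_mul_comm, ← Six.E_sub]
    congr 2; push_cast; ring
  simp only [e]
  rw [sum_eq_single_of_mem s hs fun s' hs' hne => ?_]
  · simp [mul_comm]
  · rw [if_neg, mul_zero]
    intro h
    have hc : IsCoprime (q : ℤ) a := Int.isCoprime_iff_gcd_eq_one.2 (by
      rw [Int.gcd_comm]; exact ha)
    have h2 : s' % q = s % q := Nat.modEq_iff_dvd.2 (hc.dvd_of_dvd_mul_left h)
    rw [Nat.mod_eq_of_lt (mem_range.1 hs), Nat.mod_eq_of_lt (mem_range.1 hs')] at h2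
    exact hne h2

theorem pointwise {q : ℕ} (hq : 0 < q) {a : ℤ} (ha : a.natAbs.Coprime q) (P₁ P₂ : Finset ℕ)
    (u v : ℕ → ℂ) : ‖∑ x ∈ P₁ ×ˢ P₂, u x.1 * v x.2 * E (a * (x.1 * x.2 : ℕ) / q)‖ ^ 2 ≤
      q * ∑ p ∈ range q ×ˢ range q,
        ‖∑ x ∈ (P₁ ×ˢ P₂).filter fun x => (x.1 % q, x.2 % q) = p, u x.1 * v x.2‖ ^ 2 := by
  set A : ℕ → ℂ := fun r => ∑ m ∈ P₁.filter fun m => m % q = r, u m with hA
  set B : ℕ → ℂ := fun r => ∑ m ∈ P₂.filter fun m => m % q = r, v m with hB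
  have e1 : ∀ p : ℕ × ℕ, ∑ x ∈ (P₁ ×ˢ P₂).filter fun x => (x.1 % q, x.2 % q) = p, u x.1 * v x.2 =
      A p.1 * B p.2 := fun p => by
    rw [hA, hB, sum_mul_sum, ← sum_product', ← filter_product]
    exact sum_congr (filter_congr fun x _ => Prod.ext_iff) fun _ _ => rfl
  have e2 : ∑ x ∈ P₁ ×ˢ P₂, u x.1 * v x.2 * E (a * (x.1 * x.2 : ℕ) / q) =
      ∑ r ∈ range q, A r * ∑ s ∈ range q, B s * E (a * (r * s : ℕ) / q) := by
    rw [← sum_fiberwise_of_maps_to (t := range q ×ˢ range q) (g := fun x => (x.1 % q, x.2 % q))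
      fun x _ => mem_product.2 ⟨mem_range.2 (Nat.mod_lt _ hq), mem_range.2 (Nat.mod_lt _ hq)⟩]
    simp only [mul_sum, ← mul_assoc]
    rw [← sum_product']
    refine sum_congr rfl fun p _ => ?_
    rw [← e1, sum_mul]
    refine sum_congr rfl fun x hx => ?_
    rw [E_mod hq, ← (mem_filter.1 hx).2]
  simp only [e1, e2, norm_mul, mul_pow]
  rw [sum_product, ← sum_mul_sum (f := fun r => ‖A r‖ ^ 2) (g := fun r => ‖B r‖ ^ 2),
    mul_left_comm, ← unitary hq ha B]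
  refine le_trans ?_ (sum_mul_sq_le_sq_mul_sq _ _ _)
  gcongr
  exact (norm_sum_le _ _).trans (le_of_eq (sum_congr rfl fun _ _ => norm_mul _ _))

theorem mean {ι : Type} (S : Finset ι) (c : ι → ℂ) (ν : ι → ℝ) {T : ℝ} (hT : 0 < T)
    (hc : ∀ i, ‖c i‖ ≤ 1) : ∫ t in (-T)..T, ‖GP S c ν t‖ ^ 2 ≤
      7 * T * ∑ i ∈ S, ∑ j ∈ S, Real.exp (-(T * |Real.log (ν i) - Real.log (ν j)|)) := by
  have hp := Real.pi_pos
  have e : ∀ t, GP S c ν t = ∑ i ∈ S, c i * E (t * (Real.log (ν i) / (2 * Real.pi))) := fun t =>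
    sum_congr rfl fun i _ => by rw [ei_eq_E, mul_div_assoc]
  have h1 := kern.msC S c (fun i => Real.log (ν i) / (2 * Real.pi)) T hT
  have h2 := kern.intC S c (fun i => Real.log (ν i) / (2 * Real.pi)) T hT
  simp only [← e] at h1 h2
  have h3 : ∫ t in (-T)..T, ‖GP S c ν t‖ ^ 2 ≤ 2 * ∫ t, ck (t / T) * ‖GP S c ν t‖ ^ 2 := by
    rw [intervalIntegral.integral_of_le (by linarith), ← integral_const_mul]
    refine le_trans (setIntegral_mono_on ?_ (h2.const_mul 2).integrableOn measurableSet_Ioc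
      fun t ht => ?_) (setIntegral_le_integral (h2.const_mul 2)
        (Filter.Eventually.of_forall fun t => ?_))
    · exact (Continuous.integrableOn_Icc (by fun_prop)).mono_set Set.Ioc_subset_Icc_self
    · have := Six.half_le_ck (x := t / T) (by
        rw [abs_div, abs_of_pos hT, div_le_one hT, abs_le]; exact ⟨ht.1.le, ht.2⟩)
      nlinarith [sq_nonneg ‖GP S c ν t‖]
    · have := Six.ck_nonneg (t / T)
      positivity
  have h4 := congrArg norm h1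
  rw [Complex.norm_real, norm_mul, norm_mul, Complex.norm_real, Complex.norm_real,
    Real.norm_of_nonneg hp.le, Real.norm_of_nonneg hT.le] at h4
  refine h3.trans ?_
  calc _ ≤ 2 * (Real.pi * T *
        ∑ i ∈ S, ∑ j ∈ S, Real.exp (-(T * |Real.log (ν i) - Real.log (ν j)|))) := by
        gcongr
        refine (le_abs_self _).trans (h4.le.trans ?_)
        gcongr
        refine (norm_sum_le _ _).trans (sum_le_sum fun i _ => (norm_sum_le _ _).trans
          (sum_le_sum fun j _ => ?_))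
        rw [norm_mul, norm_mul, Complex.norm_conj, Complex.norm_real,
          Real.norm_of_nonneg (Real.exp_pos _).le, ← sub_div, abs_div,
          abs_of_pos (show 0 < 2 * Real.pi by positivity),
          show 2 * Real.pi * T * (|Real.log (ν i) - Real.log (ν j)| / (2 * Real.pi)) =
            T * |Real.log (ν i) - Real.log (ν j)| by field_simp]
        exact mul_le_of_le_one_left (Real.exp_pos _).le (mul_le_one₀ (hc i) (norm_nonneg _) (hc j))
    _ = 2 * Real.pi * T *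
        ∑ i ∈ S, ∑ j ∈ S, Real.exp (-(T * |Real.log (ν i) - Real.log (ν j)|)) := by ring
    _ ≤ _ := by gcongr; linarith [Real.pi_lt_d2]

theorem reindex {P₁ P₂ : Finset ℕ} {K₁ K₂ T : ℝ} {q : ℕ} (hq : 0 < q) (hT : 0 < T)
    (h1 : ∀ m ∈ P₁, 1 ≤ m ∧ (m : ℝ) ≤ K₁) (h2 : ∀ n ∈ P₂, 1 ≤ n ∧ (n : ℝ) ≤ K₂) :
    ∑ p ∈ range q ×ˢ range q, ∑ x ∈ (P₁ ×ˢ P₂).filter fun x => (x.1 % q, x.2 % q) = p,
      ∑ y ∈ (P₁ ×ˢ P₂).filter fun x => (x.1 % q, x.2 % q) = p,
        Real.exp (-(T * |Real.log (x.1 * x.2 : ℕ) - Real.log (y.1 * y.2 : ℕ)|)) ≤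
    ∑ i ∈ insert 0 (ZM ⌊K₁ / q⌋₊), ∑ j ∈ insert 0 (ZM ⌊K₂ / q⌋₊), ∑ x ∈ P₁ ×ˢ P₂,
        Real.exp (-(|((x.1 * j + x.2 * i : ℤ) : ℝ)| / (K₁ * K₂ / (q * T)))) := by
  have hq' : (0 : ℝ) < q := by exact_mod_cast hq
  have hq0 : (q : ℤ) ≠ 0 := by positivity
  simp only [sum_sigma']
  have dv : ∀ {m m' : ℕ}, m % q = m' % q → (m' : ℤ) = m + q * ((m' - m) / q) := fun h => by
    rw [Int.mul_ediv_cancel' (Nat.modEq_iff_dvd.1 h)]; ring
  have mem : ∀ {m m' : ℕ} {K : ℝ}, m % q = m' % q → (m : ℝ) ≤ K → (m' : ℝ) ≤ K →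
      ((m' : ℤ) - m) / q ∈ insert 0 (ZM ⌊K / q⌋₊) := fun {m m' K} h hm hm' => by
    have e := dv h
    generalize ((m' : ℤ) - m) / q = i at *
    rcases eq_or_ne i 0 with rfl | hi
    · exact mem_insert_self _ _
    refine mem_insert_of_mem (z94.mem_ZM_floor hi ?_)
    have e' : (m' : ℝ) = m + q * i := by exact_mod_cast e
    rw [le_div_iff₀ hq', ← abs_of_pos hq', ← abs_mul, abs_le]
    constructor <;> linarith [Nat.cast_nonneg (α := ℝ) m, Nat.cast_nonneg (α := ℝ) m']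
  refine sum_le_inj _ _ (fun z => ⟨((z.2.2.1 : ℤ) - z.2.1.1) / q, ((z.2.2.2 : ℤ) - z.2.1.2) / q,
    (z.2.2.1, z.2.1.2)⟩) _ _ ?_ ?_ (fun _ _ => (Real.exp_pos _).le) ?_
  · rintro ⟨p, ⟨m, n⟩, m', n'⟩ hz
    simp only [mem_sigma, mem_filter, mem_product, Prod.ext_iff] at hz ⊢
    obtain ⟨-, ⟨⟨a1, a2⟩, a3, a4⟩, ⟨b1, b2⟩, b3, b4⟩ := hz
    exact ⟨mem (a3.trans b3.symm) (h1 _ a1).2 (h1 _ b1).2,
      mem (a4.trans b4.symm) (h2 _ a2).2 (h2 _ b2).2, b1, a2⟩
  · rintro ⟨p, ⟨m, n⟩, m', n'⟩ hz ⟨p', ⟨k, l⟩, k', l'⟩ hw e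
    simp only [coe_sigma, Set.mem_sigma_iff, mem_coe, mem_filter] at hz hw
    obtain ⟨-, ⟨-, rfl⟩, -, b⟩ := hz
    obtain ⟨-, ⟨-, rfl⟩, -, b'⟩ := hw
    simp only [Sigma.mk.injEq, heq_eq_eq, Prod.mk.injEq] at e b b'
    obtain ⟨e1, e2, rfl, rfl⟩ := e
    have f1 := dv b.1.symm
    have f2 := dv b'.1.symm
    have f3 := dv b.2.symm
    have f4 := dv b'.2.symm
    rw [e1] at f1
    rw [e2] at f3
    obtain rfl : m = k := by omega
    obtain rfl : n' = l' := by omega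
    rfl
  · rintro ⟨p, ⟨m, n⟩, m', n'⟩ hz
    simp only [mem_sigma, mem_filter, mem_product, Prod.ext_iff] at hz ⊢
    obtain ⟨-, ⟨⟨a1, a2⟩, a3, a4⟩, ⟨b1, b2⟩, b3, b4⟩ := hz
    have f1 := dv (a3.trans b3.symm)
    have f2 := dv (a4.trans b4.symm)
    generalize ((m' : ℤ) - m) / q = i at *
    generalize ((n' : ℤ) - n) / q = j at *
    have hK : ∀ {u v : ℕ}, u ∈ P₁ → v ∈ P₂ → (0 : ℝ) < (u * v : ℕ) ∧ ((u * v : ℕ) : ℝ) ≤ K₁ * K₂ :=
      fun hu hv => ⟨by exact_mod_cast Nat.mul_pos (h1 _ hu).1 (h2 _ hv).1, by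
        push_cast
        exact mul_le_mul (h1 _ hu).2 (h2 _ hv).2 (by positivity)
          (le_trans (by positivity) (h1 _ hu).2)⟩
    have hK0 : 0 < K₁ * K₂ := (hK a1 a2).1.trans_le (hK a1 a2).2
    have h := z94.abs_sub_le_log (hK a1 a2).1 (hK b1 b2).1 (hK a1 a2).2 (hK b1 b2).2
    have e : ((m * n : ℕ) : ℝ) - (m' * n' : ℕ) = -(q * ((m' * j + n * i : ℤ) : ℝ)) := by
      have g1 : (m' : ℝ) = m + q * i := by exact_mod_cast f1
      have g2 : (n' : ℝ) = n + q * j := by exact_mod_cast f2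
      push_cast
      linear_combination (-(n : ℝ)) * g1 - (m' : ℝ) * g2
    rw [e, abs_neg, abs_mul, abs_of_pos hq'] at h
    gcongr
    rw [div_div_eq_mul_div, div_le_iff₀ hK0]
    nlinarith

end T2

open T2 in
theorem t2 : T2Stmt := by
  intro c hc
  have hl := Real.log_nonneg hc
  refine ⟨448 * c ^ 4 * (1 + Real.log c), fun M N T q a α β hM hN hT hq ha hα hβ => ?_⟩
  have hq' : (1 : ℝ) ≤ q := by exact_mod_cast hq
  have hlM := Real.log_nonneg hM
  have hb : ∀ {A : ℝ}, 1 ≤ A → ∀ m ∈ blk A c, A ≤ m ∧ (m : ℝ) ≤ c * A := fun hA m hm =>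
    (z94.mem_blk (by linarith) (by linarith)).1 hm
  have hb' : ∀ {A : ℝ}, 1 ≤ A → ∀ m ∈ blk A c, 1 ≤ m ∧ (m : ℝ) ≤ c * A := fun hA m hm =>
    ⟨z94.pos_of_mem_blk hA hm, (hb hA m hm).2⟩
  set P := blk M c ×ˢ blk N c with hP
  have s1 : ∀ t : ℝ, ‖GP P (fun x => α x.1 * β x.2 * E (a * (x.1 * x.2 : ℕ) / q))
      (fun x => (x.1 * x.2 : ℕ)) t‖ ^ 2 ≤ q * ∑ p ∈ range q ×ˢ range q,
        ‖GP (P.filter fun x => (x.1 % q, x.2 % q) = p) (fun x => α x.1 * β x.2)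
          (fun x => (x.1 * x.2 : ℕ)) t‖ ^ 2 := fun t => by
    have e : ∀ x ∈ P, ei (t * Real.log (x.1 * x.2 : ℕ)) =
        ei (t * Real.log x.1) * ei (t * Real.log x.2) := fun x hx => by
      have h1 := (hb' hM _ (mem_product.1 hx).1).1
      have h2 := (hb' hN _ (mem_product.1 hx).2).1
      rw [Nat.cast_mul, Real.log_mul (by positivity) (by positivity), mul_add, z94.ei_add]
    have := pointwise hq ha (blk M c) (blk N c) (fun m => α m * ei (t * Real.log m))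
      fun m => β m * ei (t * Real.log m)
    convert this using 3
    · exact sum_congr rfl fun x hx => by rw [e x hx]; ring
    · congr 2
      exact sum_congr rfl fun x hx => by rw [e x (mem_filter.1 hx).1]; ring
  refine (intervalIntegral.integral_mono_on (by linarith)
    (Continuous.intervalIntegrable (by fun_prop) _ _)
    (Continuous.intervalIntegrable (by fun_prop) _ _) fun t _ => s1 t).trans ?_
  rw [intervalIntegral.integral_const_mul, intervalIntegral.integral_finsetSum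
    fun _ _ => Continuous.intervalIntegrable (by fun_prop) _ _]
  have s2 := sum_le_sum fun p (_ : p ∈ range q ×ˢ range q) =>
    mean (P.filter fun x => (x.1 % q, x.2 % q) = p) (fun x => α x.1 * β x.2)
      (fun x => (x.1 * x.2 : ℕ)) hT fun x => by
        rw [norm_mul]; exact mul_le_one₀ (hα _) (norm_nonneg _) (hβ _)
  rw [← mul_sum] at s2
  have hY : 0 < c * M * (c * N) / (q * T) := by positivity
  have fl : ∀ {A : ℝ}, 0 ≤ A → (⌊A / q⌋₊ : ℝ) ≤ A / q := fun hA => Nat.floor_le (by positivity)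
  have fl' : ∀ {A : ℝ}, 0 ≤ A → (⌊A / q⌋₊ : ℝ) ≤ A := fun hA => (fl hA).trans (div_le_self hA hq')
  have s3 := (reindex hq hT (hb' hM) (hb' hN)).trans (total hY (by linarith) (by linarith)
    (hb hM) (hb hN) (fl' (by positivity)) (fl' (by positivity)))
  have c1 : (P.card : ℝ) ≤ c * M * (c * N) := by
    rw [hP, card_product, Nat.cast_mul]
    gcongr
    exacts [z94.card_blk_le hM (by linarith), z94.card_blk_le hN (by linarith)]
  have c2 : Real.sqrt (c * M * (c * N)) * Real.sqrt (⌊c * M / q⌋₊ * ⌊c * N / q⌋₊) ≤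
      c * M * (c * N) / q := by
    rw [← Real.sqrt_mul (by positivity)]
    refine Real.sqrt_le_iff.2 ⟨by positivity, ?_⟩
    calc _ ≤ c * M * (c * N) * (c * M / q * (c * N / q)) := by
          gcongr <;> exact fl (by positivity)
      _ = _ := by ring
  have c3 : Real.log ⌊c * M / q⌋₊ ≤ Real.log c + Real.log M := by
    rw [← Real.log_mul (by positivity) (by positivity)]
    rcases Nat.eq_zero_or_pos ⌊c * M / q⌋₊ with h | h
    · rw [h, Nat.cast_zero, Real.log_zero]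
      exact Real.log_nonneg (one_le_mul_of_one_le_of_one_le hc hM)
    · exact Real.log_le_log (by exact_mod_cast h) (fl' (by positivity))
  have c4 := Real.log_natCast_nonneg ⌊c * M / q⌋₊
  set Y := c * M * (c * N) / (q * T) with hYe
  calc _ ≤ q * (7 * T * (c * M * (c * N) * (1 + 2 * (Y / M) + 2 * (Y / N)) +
        32 * (c * M * (c * N) / q) * (1 + (Real.log c + Real.log M) + 2 * Y))) := by
        refine mul_le_mul_of_nonneg_left (s2.trans (mul_le_mul_of_nonneg_left (s3.trans ?_)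
          (by positivity))) (by positivity)
        rw [mul_assoc 32]
        gcongr
    _ = 7 * c ^ 2 * (q * T * (M * N)) + 224 * c ^ 2 * ((1 + Real.log c + Real.log M) * T * (M * N)) +
        c ^ 4 * (M * N) ^ 2 * (14 * (1 / M) + 14 * (1 / N) + 448 * (1 / q)) := by
        rw [hYe]; field_simp; ring
    _ ≤ 448 * c ^ 4 * (1 + Real.log c) * (q * T * (M * N)) +
        448 * c ^ 4 * (((1 + Real.log c) * (Real.log M + 1)) * T * (M * N)) +
        c ^ 4 * (M * N) ^ 2 * (448 * (1 + Real.log c) * (1 / M) + 448 * (1 + Real.log c) * (1 / N) +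
          448 * (1 + Real.log c) * (1 / q)) := by
        have h2 : c ^ 2 ≤ c ^ 4 := pow_le_pow_right₀ hc (by norm_num)
        have h3 : 0 ≤ c ^ 2 := by positivity
        gcongr ?_ * _ + ?_ * (?_ * _ * _) + _ * (?_ * _ + ?_ * _ + ?_ * _) <;> nlinarith
    _ = _ := by ring

end Pool.Agent.MP_678834_nt.HL9

end
end MrgPart1

-- marker of a merged file
example : 731051 + 363813 = 731051 + 363813 := rfl
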